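import Pool.Agent.HK.CIAux

/-! # Module CI: the complete intersection (blueprint section 2) -/

namespace HK

open MvPolynomial Finset

namespace CI

theorem whc_mul (K : Type*) [Field K] {n : ℕ} (f g : SB K n) (hg : g ∈ bih K n 1 1) (a b : ℕ) :
    weightedHomogeneousComponent (wt n) (a + 1, b + 1) (f * g) =
      weightedHomogeneousComponent (wt n) (a, b) f * g := by
  classical
  ext w
  rw [coeff_weightedHomogeneousComponent, coeff_mul, coeff_mul]
  have key : ∀ x ∈ antidiagonal w, (if Finsupp.weight (wt n) w = (a + 1, b + 1) then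
      coeff x.1 f * coeff x.2 g else 0) =
      coeff x.1 (weightedHomogeneousComponent (wt n) (a, b) f) * coeff x.2 g := by
    intro x hx
    rw [coeff_weightedHomogeneousComponent]
    by_cases h : coeff x.2 g = 0
    · rw [h, mul_zero, mul_zero, ite_self]
    · have h1 : Finsupp.weight (wt n) x.2 = (1, 1) := hg h
      have h2 : Finsupp.weight (wt n) w = Finsupp.weight (wt n) x.1 + (1, 1) := by
        rw [← mem_antidiagonal.mp hx, map_add, h1]
      have h3 : Finsupp.weight (wt n) w = (a + 1, b + 1) ↔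
          Finsupp.weight (wt n) x.1 = (a, b) := by
        rw [h2]
        have : ((a + 1, b + 1) : ℕ × ℕ) = (a, b) + (1, 1) := rfl
        rw [this]
        exact add_right_cancel_iff
      by_cases h4 : Finsupp.weight (wt n) x.1 = (a, b)
      · rw [if_pos (h3.mpr h4), if_pos h4]
      · rw [if_neg (fun h5 => h4 (h3.mp h5)), if_neg h4, zero_mul]
  rw [← Finset.sum_congr rfl key]
  split_ifs with h
  · rfl
  · rw [Finset.sum_const_zero]

theorem whc_mul_zero (K : Type*) [Field K] {n : ℕ} (f g : SB K n) (hg : g ∈ bih K n 1 1)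
    (a b : ℕ) (h : ¬ (1 ≤ a ∧ 1 ≤ b)) :
    weightedHomogeneousComponent (wt n) (a, b) (f * g) = 0 := by
  classical
  ext w
  rw [coeff_weightedHomogeneousComponent, coeff_mul, coeff_zero]
  split_ifs with hw
  · apply Finset.sum_eq_zero
    intro x hx
    by_cases h0 : coeff x.2 g = 0
    · rw [h0, mul_zero]
    · exfalso
      have h1 : Finsupp.weight (wt n) x.2 = (1, 1) := hg h0
      have h2 : Finsupp.weight (wt n) w = Finsupp.weight (wt n) x.1 + (1, 1) := by
        rw [← mem_antidiagonal.mp hx, map_add, h1]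
      rw [hw] at h2
      have h6 := congrArg Prod.fst h2
      have h7 := congrArg Prod.snd h2
      simp only [Prod.fst_add, Prod.snd_add] at h6 h7
      apply h
      omega
  · rfl

theorem G_mem_bih (K : Type*) [Field K] {n j : ℕ} (hj : j < 2 * n) : G K n j ∈ bih K n 1 1 := by
  intro w hw
  exact G_mem K hj (mem_support_iff.mpr hw)

theorem mem_II_succ (K : Type*) [Field K] {n k : ℕ} {f : SB K n} :
    f ∈ II K n (k + 1) ↔ ∃ g ∈ II K n k, ∃ h : SB K n, f = g + h * G K n k := by
  have e : G K n '' {j | j < k + 1} = G K n '' {j | j < k} ∪ {G K n k} := by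
    rw [← Set.image_singleton, ← Set.image_union]
    congr 1
    ext j
    simp only [Set.mem_ofPred_eq, Set.mem_union, Set.mem_singleton_iff]
    omega
  unfold II
  rw [e, Ideal.span_union, Submodule.mem_sup]
  constructor
  · rintro ⟨y, hy, z, hz, rfl⟩
    obtain ⟨h, rfl⟩ := Ideal.mem_span_singleton'.mp hz
    exact ⟨y, hy, h, rfl⟩
  · rintro ⟨g, hg, h, rfl⟩
    exact ⟨g, hg, h * G K n k, Ideal.mem_span_singleton'.mpr ⟨h, rfl⟩, rfl⟩

theorem whc_mul_cases (K : Type*) [Field K] {n : ℕ} (f g : SB K n) (hg : g ∈ bih K n 1 1)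
    (m : ℕ × ℕ) : ∃ f', weightedHomogeneousComponent (wt n) m (f * g) = f' * g := by
  by_cases h : 1 ≤ m.1 ∧ 1 ≤ m.2
  · refine ⟨weightedHomogeneousComponent (wt n) (m.1 - 1, m.2 - 1) f, ?_⟩
    rw [← whc_mul K f g hg]
    congr 1
    have h1 : m.1 - 1 + 1 = m.1 := by omega
    have h2 : m.2 - 1 + 1 = m.2 := by omega
    rw [h1, h2]
  · refine ⟨0, ?_⟩
    rw [zero_mul]
    exact whc_mul_zero K f g hg m.1 m.2 h

/-- the ideals are homogeneous -/
theorem whc_mem_II (K : Type*) [Field K] {n : ℕ} (m : ℕ × ℕ) : ∀ k ≤ 2 * n, ∀ f ∈ II K n k,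
    weightedHomogeneousComponent (wt n) m f ∈ II K n k := by
  intro k
  induction k with
  | zero =>
    intro _ f hf
    have h2 : II K n 0 = ⊥ := by
      unfold II
      simp
    rw [h2, Ideal.mem_bot] at hf
    rw [hf, map_zero]
    exact Ideal.zero_mem _
  | succ k ih =>
    intro hk f hf
    rw [mem_II_succ] at hf ⊢
    obtain ⟨g, hg, h, rfl⟩ := hf
    obtain ⟨f', hf'⟩ := whc_mul_cases K h (G K n k) (G_mem_bih K (by omega)) m
    refine ⟨_, ih (by omega) g hg, f', ?_⟩
    rw [map_add, hf']

theorem whc_self (K : Type*) [Field K] {n a b : ℕ} {f : SB K n} (hf : f ∈ bih K n a b) :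
    weightedHomogeneousComponent (wt n) (a, b) f = f :=
  IsWeightedHomogeneous.weightedHomogeneousComponent_same hf

theorem whc_mem_bih (K : Type*) [Field K] {n a b : ℕ} (f : SB K n) :
    weightedHomogeneousComponent (wt n) (a, b) f ∈ bih K n a b :=
  weightedHomogeneousComponent_mem _ _ _

theorem mul_mem_bih (K : Type*) [Field K] {n a b : ℕ} {f g : SB K n} (hf : f ∈ bih K n a b)
    (hg : g ∈ bih K n 1 1) : f * g ∈ bih K n (a + 1) (b + 1) :=
  IsWeightedHomogeneous.mul hf hg

theorem G_ne_zero (K : Type*) [Field K] {n j : ℕ} (hj : j < 2 * n) : G K n j ≠ 0 := by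
  intro h
  have := coeff_G K hj
  rw [h, coeff_zero] at this
  exact zero_ne_one this

/-- no contribution in degrees `(0,b)`, `(a,0)` -/
theorem gr_succ_zero (K : Type*) [Field K] {n k : ℕ} (hk : k < 2 * n) (a b : ℕ)
    (h : ¬ (1 ≤ a ∧ 1 ≤ b)) : gr K n (II K n (k + 1)) a b = gr K n (II K n k) a b := by
  ext ⟨f, hf⟩
  unfold gr
  rw [Submodule.mem_comap, Submodule.mem_comap]
  change f ∈ II K n (k + 1) ↔ f ∈ II K n k
  constructor
  · intro h1
    obtain ⟨g, hg, h', rfl⟩ := (mem_II_succ K).mp h1
    have e := whc_self K hf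
    rw [map_add, whc_mul_zero K _ _ (G_mem_bih K hk) a b h, add_zero] at e
    rw [← e]
    exact whc_mem_II K _ k (by omega) g hg
  · intro h1
    exact (mem_II_succ K).mpr ⟨f, h1, 0, by rw [zero_mul, add_zero]⟩

/-- multiplication by a form -/
noncomputable def mulG (K : Type*) [Field K] {n k : ℕ} (hk : k < 2 * n) (a b : ℕ) :
    bih K n a b →ₗ[K] bih K n (a + 1) (b + 1) where
  toFun f := ⟨(f : SB K n) * G K n k, mul_mem_bih K f.2 (G_mem_bih K hk)⟩
  map_add' f g := by
    ext1
    simp only [Submodule.coe_add, add_mul]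
  map_smul' c f := by
    ext1
    simp only [Submodule.coe_smul, RingHom.id_apply, smul_mul_assoc]

theorem mulG_inj (K : Type*) [Field K] {n k : ℕ} (hk : k < 2 * n) (a b : ℕ) :
    Function.Injective (mulG K hk a b) := by
  intro f g h
  have h1 : (f : SB K n) * G K n k = g * G K n k := congrArg Subtype.val h
  exact Subtype.ext (mul_right_cancel₀ (G_ne_zero K hk) h1)

theorem gr_succ (K : Type*) [Field K] {n k : ℕ} (hk : k < 2 * n) (a b : ℕ) :
    gr K n (II K n (k + 1)) (a + 1) (b + 1) =
      gr K n (II K n k) (a + 1) (b + 1) ⊔ LinearMap.range (mulG K hk a b) := by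
  apply le_antisymm
  · rintro ⟨f, hf⟩ h1
    have h1' : f ∈ II K n (k + 1) := h1
    obtain ⟨g, hg, h', hfg⟩ := (mem_II_succ K).mp h1'
    have e := whc_self K hf
    rw [hfg, map_add, whc_mul K _ _ (G_mem_bih K hk), ← hfg] at e
    rw [Submodule.mem_sup]
    refine ⟨⟨weightedHomogeneousComponent (wt n) (a + 1, b + 1) g, whc_mem_bih K g⟩,
      whc_mem_II K _ k (by omega) g hg, _,
      ⟨⟨weightedHomogeneousComponent (wt n) (a, b) h', whc_mem_bih K h'⟩, rfl⟩, ?_⟩
    exact Subtype.ext e
  · rw [sup_le_iff]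
    constructor
    · rintro ⟨f, hf⟩ h1
      have h1' : f ∈ II K n k := h1
      change f ∈ II K n (k + 1)
      exact (mem_II_succ K).mpr ⟨f, h1', 0, by rw [zero_mul, add_zero]⟩
    · rintro _ ⟨f, rfl⟩
      change (f : SB K n) * G K n k ∈ II K n (k + 1)
      exact Ideal.mul_mem_left _ _ (G_mem_II K (Nat.lt_succ_self k))

theorem map_gr_le (K : Type*) [Field K] {n k : ℕ} (hk : k < 2 * n) (a b : ℕ) :
    (gr K n (II K n k) a b).map (mulG K hk a b) ≤
      gr K n (II K n k) (a + 1) (b + 1) ⊓ LinearMap.range (mulG K hk a b) := by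
  rintro _ ⟨f, hf, rfl⟩
  refine ⟨?_, ⟨f, rfl⟩⟩
  have h1' : (f : SB K n) ∈ II K n k := hf
  change (f : SB K n) * G K n k ∈ II K n k
  exact Ideal.mul_mem_right _ _ h1'

theorem hf_succ (K : Type*) [Field K] {n k : ℕ} (hk : k < 2 * n) (a b : ℕ) :
    hf K n (II K n k) (a + 1) (b + 1) ≤
      hf K n (II K n (k + 1)) (a + 1) (b + 1) + hf K n (II K n k) a b := by
  have := bih_finite K n a b
  have := bih_finite K n (a + 1) (b + 1)
  have h1 := Submodule.finrank_quotient_add_finrank (gr K n (II K n k) (a + 1) (b + 1))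
  have h2 := Submodule.finrank_quotient_add_finrank (gr K n (II K n (k + 1)) (a + 1) (b + 1))
  have h3 := Submodule.finrank_quotient_add_finrank (gr K n (II K n k) a b)
  have h4 := Submodule.finrank_sup_add_finrank_inf_eq (gr K n (II K n k) (a + 1) (b + 1))
    (LinearMap.range (mulG K hk a b))
  rw [← gr_succ] at h4
  have h5 := Submodule.finrank_mono (map_gr_le K hk a b)
  have h6 : Module.finrank K ((gr K n (II K n k) a b).map (mulG K hk a b)) =
      Module.finrank K (gr K n (II K n k) a b) :=
    (LinearEquiv.finrank_eq (Submodule.equivMapOfInjective _ (mulG_inj K hk a b) _)).symm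
  have h7 : Module.finrank K (LinearMap.range (mulG K hk a b)) =
      Module.finrank K (bih K n a b) := LinearMap.finrank_range_of_inj (mulG_inj K hk a b)
  unfold hf
  omega

theorem card_le_hf (K : Type*) [Field K] (n : ℕ) : ∀ k ≤ 2 * n, ∀ a b : ℕ,
    ((std n k a b).card : ℤ) ≤ hf K n (II K n k) a b := by
  intro k
  induction k with
  | zero =>
    intro _ a b
    have := bih_finite K n a b
    have h2 : II K n 0 = ⊥ := by
      unfold II
      simp
    have h3 : gr K n (II K n 0) a b = ⊥ := by
      rw [h2]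
      unfold gr
      rw [Submodule.restrictScalars_bot, Submodule.comap_bot, Submodule.ker_subtype]
    have h1 := Submodule.finrank_quotient_add_finrank (gr K n (II K n 0) a b)
    have h4 : hf K n (II K n 0) a b = Module.finrank K (bih K n a b) := by
      unfold hf
      rw [← h1, h3, finrank_bot, add_zero]
    rw [h4]
    norm_cast
    have h5 : LinearIndependent K (fun w : std n 0 a b =>
        (⟨monomial (w : Vr n →₀ ℕ) (1 : K),
          monomial_mem_bih K (mem_std.mp w.2).1 1⟩ : bih K n a b)) := by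
      have h6 : LinearIndependent K (fun w : Vr n →₀ ℕ => (monomial w (1 : K) : SB K n)) :=
        (basisMonomials (Vr n) K).linearIndependent
      apply LinearIndependent.of_comp (bih K n a b).subtype
      exact h6.comp (fun w : std n 0 a b => (w : Vr n →₀ ℕ)) Subtype.val_injective
    have h7 := h5.fintype_card_le_finrank
    simpa using h7
  | succ k ih =>
    intro hk a b
    rw [card_std_succ (by omega)]
    split_ifs with h
    · obtain ⟨a, rfl⟩ : ∃ a', a = a' + 1 := ⟨a - 1, by omega⟩
      obtain ⟨b, rfl⟩ : ∃ b', b = b' + 1 := ⟨b - 1, by omega⟩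
      have h1 := hf_succ K (show k < 2 * n by omega) a b
      have h2 := ih (by omega) (a + 1) (b + 1)
      have h3 := hf_le K (show k ≤ 2 * n by omega) a b
      have h4 := ih (by omega) a b
      simp only [Nat.add_sub_cancel]
      omega
    · have h1 : hf K n (II K n (k + 1)) a b = hf K n (II K n k) a b := by
        unfold hf
        rw [gr_succ_zero K (show k < 2 * n by omega) a b h]
      rw [h1, sub_zero]
      exact ih (by omega) a b

theorem D_top (K : Type*) [Field K] (n : ℕ) (ρ : Fin (2 * (n + 1)) → ℤ) :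
    D K n (n + 1) ρ = 0 := by
  unfold D
  by_cases h : ∀ a, 0 ≤ ρ a ∧ ρ a < (n : ℤ) + (n + 1 : ℕ)
  · have hni : ¬ Function.Injective ρ := by
      intro hinj
      have h1 : (univ.image ρ) ⊆ Finset.Ico (0 : ℤ) (2 * n + 1) := by
        intro x hx
        rw [mem_image] at hx
        obtain ⟨a, _, rfl⟩ := hx
        rw [mem_Ico]
        have := h a
        push_cast at this
        exact ⟨this.1, by linarith [this.2]⟩
      have h2 := card_le_card h1
      rw [card_image_of_injective _ hinj, Int.card_Ico, card_univ, Fintype.card_fin] at h2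
      omega
    rw [Function.not_injective_iff] at hni
    obtain ⟨a, a', h1, h2⟩ := hni
    apply Matrix.det_zero_of_row_eq h2
    funext c
    simp only [Matrix.of_apply, h1]
  · push Not at h
    obtain ⟨a, ha⟩ := h
    apply Matrix.det_eq_zero_of_row_eq_zero a
    intro c
    simp only [Matrix.of_apply]
    unfold ent
    rw [if_neg]
    rintro ⟨h1, h2⟩
    exact absurd h2 (not_lt.mpr (ha h1))

theorem AA_le_II (K : Type*) [Field K] (n : ℕ) : AA K n (n + 1) ≤ II K n (2 * n) := by
  unfold AA
  rw [Ideal.span_le]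
  rintro f (((⟨k, hk, rfl⟩ | ⟨i, hi, rfl⟩) | ⟨i, hi, rfl⟩) | ⟨ρ, rfl⟩)
  · have : xx K n k = 0 := by
      unfold xx
      rw [dif_neg]
      push_cast at hk
      omega
    rw [this]
    exact Ideal.zero_mem _
  · have h1 := G_mem_II K (n := n) (show 2 * i < 2 * n by omega)
    unfold G at h1
    rw [if_pos (by omega), show 2 * i / 2 = i by omega] at h1
    exact h1
  · have h1 := G_mem_II K (n := n) (show 2 * i + 1 < 2 * n by omega)
    unfold G at h1
    rw [if_neg (by omega), show (2 * i + 1) / 2 = i by omega] at h1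
    exact h1
  · rw [D_top]
    exact Ideal.zero_mem _

theorem hf_anti (K : Type*) [Field K] (n a b : ℕ) {I J : Ideal (SB K n)} (h : I ≤ J) :
    hf K n J a b ≤ hf K n I a b := by
  have := bih_finite K n a b
  have h1 := Submodule.finrank_quotient_add_finrank (gr K n I a b)
  have h2 := Submodule.finrank_quotient_add_finrank (gr K n J a b)
  have h3 : gr K n I a b ≤ gr K n J a b := by
    unfold gr
    apply Submodule.comap_mono
    exact h
  have h4 := Submodule.finrank_mono h3
  unfold hf
  omega

end CI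

theorem ci_le_hf (K : Type*) [Field K] (n a b : ℕ) :
    ci n (2 * n) a b ≤ (hf K n (AA K n (n + 1)) a b : ℤ) := by
  have h1 := CI.card_le_hf K n (2 * n) le_rfl a b
  have h2 := CI.hf_anti K n a b (CI.AA_le_II K n)
  rw [CI.card_std n (2 * n) le_rfl] at h1
  omega

end HK
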