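import Pool.Agent.HK.Defs

namespace HK

open MvPolynomial Finset

namespace CI

/-! ### monomials of bidegree `(a,b)` -/

theorem weight_fst (n : ℕ) (w : Vr n →₀ ℕ) :
    (Finsupp.weight (wt n) w).1 = (w.comapDomain Sum.inl Sum.inl_injective.injOn).degree := by
  classical
  rw [Finsupp.weight_apply, Finsupp.sum_fintype _ _ (fun i => zero_smul ℕ (wt n i)), Prod.fst_sum,
    Fintype.sum_sum_type, Finsupp.degree_eq_sum]
  simp [wt]

theorem weight_snd (n : ℕ) (w : Vr n →₀ ℕ) :
    (Finsupp.weight (wt n) w).2 = (w.comapDomain Sum.inr Sum.inr_injective.injOn).degree := by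
  classical
  rw [Finsupp.weight_apply, Finsupp.sum_fintype _ _ (fun i => zero_smul ℕ (wt n i)), Prod.snd_sum,
    Fintype.sum_sum_type, Finsupp.degree_eq_sum]
  simp [wt]

/-- monomials of bidegree `(a,b)` -/
noncomputable def mon (n a b : ℕ) : Finset (Vr n →₀ ℕ) :=
  (finsuppAntidiag (univ : Finset (Vr n)) (a + b)).filter
    (fun w => Finsupp.weight (wt n) w = (a, b))

theorem mem_mon {n a b : ℕ} {w : Vr n →₀ ℕ} :
    w ∈ mon n a b ↔ Finsupp.weight (wt n) w = (a, b) := by
  classical
  unfold mon
  rw [mem_filter, mem_finsuppAntidiag, and_iff_right_iff_imp]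
  intro h
  refine ⟨?_, by simp⟩
  have h1 := weight_fst n w
  have h2 := weight_snd n w
  rw [h, Finsupp.degree_eq_sum] at h1 h2
  rw [Fintype.sum_sum_type]
  simp only [Finsupp.comapDomain_apply] at h1 h2
  rw [← h1, ← h2]

theorem card_mon (n a b : ℕ) :
    (mon n a b).card = Nat.multichoose (2 * n + 1) a * Nat.multichoose (2 * n + 4) b := by
  classical
  have e1 : Nat.multichoose (2 * n + 1) a =
      (finsuppAntidiag (univ : Finset (Fin (2 * n + 1))) a).card := by
    rw [card_finsuppAntidiag_nat_eq_multichoose]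
    simp
  have e2 : Nat.multichoose (2 * n + 4) b =
      (finsuppAntidiag (univ : Finset (Fin (n + 2) ⊕ Fin (n + 2))) b).card := by
    rw [card_finsuppAntidiag_nat_eq_multichoose]
    simp
    congr 1
    omega
  rw [e1, e2, ← card_product]
  apply card_bij' (fun (w : Vr n →₀ ℕ) _ => (w.comapDomain Sum.inl Sum.inl_injective.injOn,
      w.comapDomain Sum.inr Sum.inr_injective.injOn))
    (fun x _ => Finsupp.sumElim x.1 x.2)
  · intro w hw
    rw [mem_mon] at hw
    have h1 := weight_fst n w
    have h2 := weight_snd n w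
    rw [hw, Finsupp.degree_eq_sum] at h1 h2
    rw [mem_product, mem_finsuppAntidiag, mem_finsuppAntidiag]
    exact ⟨⟨h1.symm, by simp⟩, ⟨h2.symm, by simp⟩⟩
  · intro x hx
    rw [mem_product, mem_finsuppAntidiag, mem_finsuppAntidiag] at hx
    rw [mem_mon]
    apply Prod.ext
    · rw [weight_fst, Finsupp.degree_eq_sum]
      simp only [Finsupp.comapDomain_apply, Finsupp.sumElim_apply, Sum.elim_inl]
      exact hx.1.1
    · rw [weight_snd, Finsupp.degree_eq_sum]
      simp only [Finsupp.comapDomain_apply, Finsupp.sumElim_apply, Sum.elim_inr]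
      exact hx.2.1
  · intro w _
    ext v
    cases v <;> simp
  · intro x _
    apply Prod.ext
    · ext v
      simp
    · ext v
      simp

/-! ### the forms and their leading monomials -/

/-- `k` as an element of `Fin (N+1)` -/
def fi (N k : ℕ) : Fin (N + 1) := ⟨k % (N + 1), Nat.mod_lt _ (Nat.succ_pos N)⟩

theorem fi_val {N k : ℕ} (h : k < N + 1) : ((fi N k : Fin (N + 1)) : ℕ) = k :=
  Nat.mod_eq_of_lt h

/-- variable of kind `c` (`0`: `p`, else `q`) -/
def vv (n c k : ℕ) : Fin (n + 2) ⊕ Fin (n + 2) :=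
  if c = 0 then Sum.inl (fi (n + 1) k) else Sum.inr (fi (n + 1) k)

/-- the monomial `x_{k+i} p_k` or `x_{k+i} q_k` -/
noncomputable def mm (n c i k : ℕ) : Vr n →₀ ℕ :=
  Finsupp.single (Sum.inl (fi (2 * n) (k + i))) 1 +
    Finsupp.single (Sum.inr (vv n c k)) 1

/-- the weights -/
def W (n : ℕ) : Vr n → ℤ
  | Sum.inl k => ((k : ℤ) + 1) ^ 2
  | Sum.inr (Sum.inl k) => -2 * (k : ℤ) ^ 2 - 2 * k
  | Sum.inr (Sum.inr k) => -2 * (k : ℤ) ^ 2

/-- weight of a monomial -/
noncomputable def Wm (n : ℕ) (w : Vr n →₀ ℕ) : ℤ := w.sum fun v e => (e : ℤ) * W n v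

theorem Wm_add (n : ℕ) (w w' : Vr n →₀ ℕ) : Wm n (w + w') = Wm n w + Wm n w' := by
  unfold Wm
  rw [Finsupp.sum_add_index' (fun _ => by simp) (fun _ _ _ => by push_cast; ring)]

theorem Wm_single (n : ℕ) (v : Vr n) : Wm n (Finsupp.single v 1) = W n v := by
  unfold Wm
  rw [Finsupp.sum_single_index (by simp)]
  simp

/-- the forms -/
noncomputable def G (K : Type*) [Field K] (n j : ℕ) : SB K n :=
  if j % 2 = 0 then Lp K n (j / 2) else Lq K n (j / 2)

/-- their leading monomials -/
noncomputable def ld (n j : ℕ) : Vr n →₀ ℕ := mm n (j % 2) (j / 2) (j / 2 + j % 2)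

theorem Wm_mm {n c i k : ℕ} (hi : i < n) (hk : k < n + 2) :
    Wm n (mm n c i k) = ((k : ℤ) + i + 1) ^ 2 +
      (if c = 0 then -2 * (k : ℤ) ^ 2 - 2 * k else -2 * (k : ℤ) ^ 2) := by
  unfold mm
  rw [Wm_add, Wm_single, Wm_single]
  congr 1
  · simp only [W]
    rw [fi_val (by omega)]
    push_cast
    ring
  · unfold vv
    split_ifs
    · simp only [W]
      rw [fi_val (by omega)]
    · simp only [W]
      rw [fi_val (by omega)]

theorem mm_inj {n c i k k' : ℕ} (hi : i < n) (hk : k < n + 2) (hk' : k' < n + 2)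
    (h : mm n c i k = mm n c i k') : k = k' := by
  have h1 := DFunLike.congr_fun h (Sum.inl (fi (2 * n) (k + i)))
  unfold mm at h1
  by_contra hne
  have h2 : fi (2 * n) (k' + i) ≠ fi (2 * n) (k + i) := by
    intro h3
    have := congrArg Fin.val h3
    rw [fi_val (by omega), fi_val (by omega)] at this
    omega
  simp [h2] at h1

theorem xx_eq (K : Type*) [Field K] {n k : ℕ} (h : k < 2 * n + 1) :
    xx K n (k : ℤ) = X (Sum.inl (fi (2 * n) k)) := by
  unfold xx
  rw [dif_pos ⟨by omega, by omega⟩]
  congr 2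
  ext
  rw [fi_val h]
  simp

theorem pp_eq (K : Type*) [Field K] {n k : ℕ} (h : k < n + 2) :
    pp K n (k : ℤ) = X (Sum.inr (vv n 0 k)) := by
  unfold pp vv
  rw [dif_pos ⟨by omega, by omega⟩, if_pos rfl]
  congr 3
  ext
  rw [fi_val h]
  simp

theorem qq_eq (K : Type*) [Field K] {n c k : ℕ} (hc : c ≠ 0) (h : k < n + 2) :
    qq K n (k : ℤ) = X (Sum.inr (vv n c k)) := by
  unfold qq vv
  rw [dif_pos ⟨by omega, by omega⟩, if_neg hc]
  congr 3
  ext
  rw [fi_val h]
  simp

theorem G_eq (K : Type*) [Field K] {n j : ℕ} (hj : j < 2 * n) :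
    G K n j = ∑ k ∈ range (n + 2), monomial (mm n (j % 2) (j / 2) k) 1 := by
  have hi : j / 2 < n := by omega
  unfold G
  split_ifs with h
  · unfold Lp
    apply Finset.sum_congr rfl
    intro k hk
    rw [mem_range] at hk
    have e : (k : ℤ) + (j / 2 : ℕ) = ((k + j / 2 : ℕ) : ℤ) := by push_cast; ring
    rw [e, xx_eq K (by omega), pp_eq K hk, h]
    unfold mm
    rw [X, X, monomial_mul, one_mul]
  · unfold Lq
    apply Finset.sum_congr rfl
    intro k hk
    rw [mem_range] at hk
    have e : (k : ℤ) + (j / 2 : ℕ) = ((k + j / 2 : ℕ) : ℤ) := by push_cast; ring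
    rw [e, xx_eq K (by omega), qq_eq K h hk]
    unfold mm
    rw [X, X, monomial_mul, one_mul]

theorem coeff_G (K : Type*) [Field K] {n j : ℕ} (hj : j < 2 * n) : coeff (ld n j) (G K n j) = 1 := by
  classical
  rw [G_eq K hj, coeff_sum, Finset.sum_eq_single (j / 2 + j % 2)]
  · rw [coeff_monomial]
    exact if_pos rfl
  · intro k hk hne
    rw [mem_range] at hk
    rw [coeff_monomial, if_neg]
    intro h
    exact hne (mm_inj (by omega) hk (by omega) h)
  · intro h
    exfalso
    apply h
    rw [mem_range]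
    omega

theorem of_mem_support (K : Type*) [Field K] {n j : ℕ} (hj : j < 2 * n) {w : Vr n →₀ ℕ}
    (hw : w ∈ (G K n j).support) : ∃ k < n + 2, w = mm n (j % 2) (j / 2) k := by
  classical
  rw [mem_support_iff, G_eq K hj, coeff_sum] at hw
  obtain ⟨k, hk, h⟩ := Finset.exists_ne_zero_of_sum_ne_zero hw
  rw [coeff_monomial] at h
  refine ⟨k, mem_range.mp hk, ?_⟩
  by_contra hne
  rw [if_neg (fun h' => hne h'.symm)] at h
  exact h rfl

theorem Wm_lt (K : Type*) [Field K] {n j : ℕ} (hj : j < 2 * n) {w : Vr n →₀ ℕ}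
    (hw : w ∈ (G K n j).support) (hne : w ≠ ld n j) : Wm n w < Wm n (ld n j) := by
  obtain ⟨k, hk, rfl⟩ := of_mem_support K hj hw
  unfold ld at hne ⊢
  have hk2 : k ≠ j / 2 + j % 2 := by
    intro h
    apply hne
    rw [h]
  rw [Wm_mm (by omega) hk, Wm_mm (by omega) (by omega)]
  have hk3 : (k : ℤ) - ((j / 2 + j % 2 : ℕ) : ℤ) ≠ 0 := by
    intro h
    apply hk2
    exact_mod_cast sub_eq_zero.mp h
  have h1 : (0 : ℤ) < ((k : ℤ) - ((j / 2 + j % 2 : ℕ) : ℤ)) ^ 2 := by positivity
  split_ifs with h
  · rw [h] at h1 ⊢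
    push_cast at h1 ⊢
    nlinarith [h1]
  · have h2 : j % 2 = 1 := by omega
    rw [h2] at h1 ⊢
    push_cast at h1 ⊢
    nlinarith [h1]

theorem weight_single (n : ℕ) (v : Vr n) :
    Finsupp.weight (wt n) (Finsupp.single v 1) = wt n v := by
  rw [Finsupp.weight_apply, Finsupp.sum_single_index (zero_smul ℕ (wt n v)), one_smul]

theorem weight_mm (n c i k : ℕ) : Finsupp.weight (wt n) (mm n c i k) = (1, 1) := by
  unfold mm
  rw [map_add, weight_single, weight_single]
  rfl

theorem G_mem (K : Type*) [Field K] {n j : ℕ} (hj : j < 2 * n) {w : Vr n →₀ ℕ}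
    (hw : w ∈ (G K n j).support) : Finsupp.weight (wt n) w = (1, 1) := by
  obtain ⟨k, hk, rfl⟩ := of_mem_support K hj hw
  exact weight_mm _ _ _ _

theorem vv_inj {n c c' k k' : ℕ} (hc : c < 2) (hc' : c' < 2) (hk : k < n + 2) (hk' : k' < n + 2)
    (h : vv n c k = vv n c' k') : c = c' ∧ k = k' := by
  unfold vv at h
  split_ifs at h with h1 h2 h2
  · have := congrArg Fin.val (Sum.inl.inj h)
    rw [fi_val (by omega), fi_val (by omega)] at this
    exact ⟨by omega, this⟩
  · have := congrArg Fin.val (Sum.inr.inj h)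
    rw [fi_val (by omega), fi_val (by omega)] at this
    exact ⟨by omega, this⟩

theorem ld_le_iff {n j : ℕ} (w : Vr n →₀ ℕ) : ld n j ≤ w ↔
    1 ≤ w (Sum.inl (fi (2 * n) (j / 2 + j % 2 + j / 2))) ∧
      1 ≤ w (Sum.inr (vv n (j % 2) (j / 2 + j % 2))) := by
  classical
  unfold ld mm
  constructor
  · intro h
    have h1 := h (Sum.inl (fi (2 * n) (j / 2 + j % 2 + j / 2)))
    have h2 := h (Sum.inr (vv n (j % 2) (j / 2 + j % 2)))
    simp at h1 h2
    exact ⟨by omega, by omega⟩
  · rintro ⟨h1, h2⟩ v
    simp only [Finsupp.add_apply, Finsupp.single_apply]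
    by_cases e1 : Sum.inl (fi (2 * n) (j / 2 + j % 2 + j / 2)) = v
    · subst e1
      simp
      omega
    · by_cases e2 : Sum.inr (vv n (j % 2) (j / 2 + j % 2)) = v
      · subst e2
        simp
        omega
      · simp [e1, e2]

/-- coprimality of the leading monomials -/
theorem ld_le_add {n j j' : ℕ} (hj : j < 2 * n) (hj' : j' < 2 * n) (hne : j ≠ j')
    (w : Vr n →₀ ℕ) : ld n j ≤ w + ld n j' ↔ ld n j ≤ w := by
  classical
  rw [ld_le_iff, ld_le_iff]
  have h1 : fi (2 * n) (j' / 2 + j' % 2 + j' / 2) ≠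
      fi (2 * n) (j / 2 + j % 2 + j / 2) := by
    intro h
    have := congrArg Fin.val h
    rw [fi_val (by omega), fi_val (by omega)] at this
    omega
  have h2 : vv n (j' % 2) (j' / 2 + j' % 2) ≠ vv n (j % 2) (j / 2 + j % 2) := by
    intro h
    have := vv_inj (by omega) (by omega) (by omega) (by omega) h
    omega
  unfold ld mm
  simp [h1, h2]

/-! ### the counts -/

/-- monomials of bidegree `(a,b)` divisible by none of the first `k` leading monomials -/
noncomputable def std (n k a b : ℕ) : Finset (Vr n →₀ ℕ) := by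
  classical exact (mon n a b).filter (fun w => ∀ j < k, ¬ ld n j ≤ w)

theorem mem_std {n k a b : ℕ} {w : Vr n →₀ ℕ} :
    w ∈ std n k a b ↔ w ∈ mon n a b ∧ ∀ j < k, ¬ ld n j ≤ w := by
  classical
  unfold std
  rw [mem_filter]

theorem weight_ld (n j : ℕ) : Finsupp.weight (wt n) (ld n j) = (1, 1) := weight_mm _ _ _ _

theorem card_std_succ {n k : ℕ} (hk : k < 2 * n) (a b : ℕ) :
    ((std n (k + 1) a b).card : ℤ) = (std n k a b).card -
      (if 1 ≤ a ∧ 1 ≤ b then ((std n k (a - 1) (b - 1)).card : ℤ) else 0) := by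
  classical
  have e1 : std n (k + 1) a b = (std n k a b).filter (fun w => ¬ ld n k ≤ w) := by
    ext w
    rw [mem_std, mem_filter, mem_std, and_assoc]
    constructor
    · rintro ⟨h1, h2⟩
      exact ⟨h1, fun j hj => h2 j (by omega), h2 k (by omega)⟩
    · rintro ⟨h1, h2, h3⟩
      refine ⟨h1, fun j hj => ?_⟩
      rcases Nat.lt_or_ge j k with h | h
      · exact h2 j h
      · have : j = k := by omega
        rw [this]
        exact h3
  have e2 : (((std n k a b).filter (fun w => ld n k ≤ w)).card : ℤ) =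
      (if 1 ≤ a ∧ 1 ≤ b then ((std n k (a - 1) (b - 1)).card : ℤ) else 0) := by
    split_ifs with h
    · norm_cast
      apply card_bij' (fun w _ => w - ld n k) (fun w _ => w + ld n k)
      · intro w hw
        rw [mem_filter, mem_std, mem_mon] at hw
        obtain ⟨⟨h1, h2⟩, h3⟩ := hw
        have h4 : w - ld n k + ld n k = w := tsub_add_cancel_of_le h3
        rw [mem_std, mem_mon]
        constructor
        · have h5 := congrArg (Finsupp.weight (wt n)) h4
          rw [map_add, weight_ld, h1] at h5
          have h6 := congrArg Prod.fst h5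
          have h7 := congrArg Prod.snd h5
          simp only [Prod.fst_add, Prod.snd_add] at h6 h7
          apply Prod.ext
          · simp only
            omega
          · simp only
            omega
        · intro j hj h5
          rw [← h4] at h2
          apply h2 j hj
          rw [ld_le_add (by omega) (by omega) (by omega)]
          exact h5
      · intro w hw
        rw [mem_std, mem_mon] at hw
        obtain ⟨h1, h2⟩ := hw
        rw [mem_filter, mem_std, mem_mon, map_add, weight_ld, h1]
        refine ⟨⟨?_, fun j hj => ?_⟩, le_add_self⟩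
        · apply Prod.ext
          · simp only [Prod.fst_add]
            omega
          · simp only [Prod.snd_add]
            omega
        · rw [ld_le_add (by omega) (by omega) (by omega)]
          exact h2 j hj
      · intro w hw
        rw [mem_filter] at hw
        exact tsub_add_cancel_of_le hw.2
      · intro w _
        exact add_tsub_cancel_right _ _
    · norm_cast
      rw [card_eq_zero, filter_eq_empty_iff]
      intro w hw h3
      rw [mem_std, mem_mon] at hw
      have h4 : w - ld n k + ld n k = w := tsub_add_cancel_of_le h3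
      have h5 := congrArg (Finsupp.weight (wt n)) h4
      rw [map_add, weight_ld, hw.1] at h5
      have h6 := congrArg Prod.fst h5
      have h7 := congrArg Prod.snd h5
      simp only [Prod.fst_add, Prod.snd_add] at h6 h7
      apply h
      omega
  have e3 := card_filter_add_card_filter_not (s := std n k a b) (fun w => ld n k ≤ w)
  rw [e1, ← e2]
  omega

theorem card_std (n : ℕ) : ∀ k ≤ 2 * n, ∀ a b : ℕ, ((std n k a b).card : ℤ) = ci n k a b := by
  intro k
  induction k with
  | zero =>
    intro _ a b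
    have e : std n 0 a b = mon n a b := by
      ext w
      rw [mem_std]
      simp
    rw [e, card_mon]
    rfl
  | succ k ih =>
    intro hk a b
    rw [card_std_succ (by omega), ci, ih (by omega), ih (by omega)]

/-! ### the upper bound -/

/-- the ideal of the first `k` forms -/
noncomputable def II (K : Type*) [Field K] (n k : ℕ) : Ideal (SB K n) :=
  Ideal.span (G K n '' {j | j < k})

/-- the span of the standard monomials -/
noncomputable def SS (K : Type*) [Field K] (n k a b : ℕ) : Submodule K (SB K n) :=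
  Submodule.span K ((fun w => monomial w (1 : K)) '' (std n k a b : Set (Vr n →₀ ℕ)))

theorem G_mem_II (K : Type*) [Field K] {n j k : ℕ} (hj : j < k) : G K n j ∈ II K n k :=
  Ideal.subset_span ⟨j, hj, rfl⟩

theorem reduce (K : Type*) [Field K] {n k : ℕ} (hk : k ≤ 2 * n) (a b : ℕ) :
    ∀ N : ℕ, ∀ w ∈ mon n a b, ((mon n a b).filter (fun w' => Wm n w' < Wm n w)).card = N →
      (monomial w (1 : K) : SB K n) ∈ SS K n k a b ⊔ (II K n k).restrictScalars K := by
  classical
  intro N
  induction N using Nat.strong_induction_on with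
  | _ N ih =>
    intro w hw hN
    by_cases hs : w ∈ std n k a b
    · exact Submodule.mem_sup_left (Submodule.subset_span ⟨w, hs, rfl⟩)
    · rw [mem_std] at hs
      push Not at hs
      obtain ⟨j, hj, hle⟩ := hs hw
      have h4 : w - ld n j + ld n j = w := tsub_add_cancel_of_le hle
      have hwt : Finsupp.weight (wt n) (w - ld n j) + (1, 1) = (a, b) := by
        have h5 := congrArg (Finsupp.weight (wt n)) h4
        rwa [map_add, weight_ld, mem_mon.mp hw] at h5
      have hsum : (monomial w (1 : K) : SB K n) = monomial (w - ld n j) 1 * G K n j -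
          ∑ v ∈ (G K n j).support.erase (ld n j),
            coeff v (G K n j) • monomial (w - ld n j + v) 1 := by
        rw [eq_sub_iff_add_eq]
        conv_rhs => rw [(G K n j).as_sum, Finset.mul_sum]
        have hmem : ld n j ∈ (G K n j).support := by
          rw [mem_support_iff, coeff_G K (by omega)]
          exact one_ne_zero
        rw [← Finset.add_sum_erase _ _ hmem, monomial_mul, h4, coeff_G K (by omega), one_mul]
        congr 1
        apply Finset.sum_congr rfl
        intro v _
        rw [monomial_mul, one_mul, smul_monomial, smul_eq_mul, mul_one]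
      rw [hsum]
      apply Submodule.sub_mem
      · apply Submodule.mem_sup_right
        exact Ideal.mul_mem_left _ _ (G_mem_II K hj)
      · apply Submodule.sum_mem
        intro v hv
        rw [mem_erase] at hv
        apply Submodule.smul_mem
        have hlt := Wm_lt K (show j < 2 * n by omega) hv.2 hv.1
        have hlt2 : Wm n (w - ld n j + v) < Wm n w := by
          conv_rhs => rw [← h4]
          rw [Wm_add, Wm_add]
          omega
        have hmon : w - ld n j + v ∈ mon n a b := by
          rw [mem_mon, map_add, G_mem K (show j < 2 * n by omega) hv.2]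
          exact hwt
        refine ih _ ?_ _ hmon rfl
        rw [← hN]
        apply card_lt_card
        rw [ssubset_iff_of_subset]
        · refine ⟨w - ld n j + v, ?_, ?_⟩
          · rw [mem_filter]
            exact ⟨hmon, hlt2⟩
          · rw [mem_filter]
            rintro ⟨_, h⟩
            exact lt_irrefl _ h
        · intro w' hw'
          rw [mem_filter] at hw' ⊢
          exact ⟨hw'.1, hw'.2.trans hlt2⟩

theorem mem_bih (K : Type*) [Field K] {n a b : ℕ} {f : SB K n} :
    f ∈ bih K n a b ↔ ∀ w ∈ f.support, w ∈ mon n a b := by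
  unfold bih
  rw [mem_weightedHomogeneousSubmodule]
  constructor
  · intro h w hw
    rw [mem_mon]
    rw [mem_support_iff] at hw
    exact h hw
  · intro h w hw
    exact mem_mon.mp (h w (mem_support_iff.mpr hw))

theorem monomial_mem_bih (K : Type*) [Field K] {n a b : ℕ} {w : Vr n →₀ ℕ} (hw : w ∈ mon n a b)
    (c : K) : (monomial w c : SB K n) ∈ bih K n a b :=
  isWeightedHomogeneous_monomial _ _ _ (mem_mon.mp hw)

theorem SS_le (K : Type*) [Field K] (n k a b : ℕ) : SS K n k a b ≤ bih K n a b := by
  unfold SS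
  rw [Submodule.span_le]
  rintro _ ⟨w, hw, rfl⟩
  rw [mem_coe, mem_std] at hw
  exact monomial_mem_bih K hw.1 1

theorem bih_le (K : Type*) [Field K] {n k : ℕ} (hk : k ≤ 2 * n) (a b : ℕ) :
    bih K n a b ≤ SS K n k a b ⊔ (II K n k).restrictScalars K := by
  intro f hf
  rw [mem_bih] at hf
  rw [f.as_sum]
  apply Submodule.sum_mem
  intro w hw
  have h : (monomial w (coeff w f) : SB K n) = coeff w f • monomial w 1 := by
    rw [smul_monomial, smul_eq_mul, mul_one]
  rw [h]
  exact Submodule.smul_mem _ _ (reduce K hk a b _ w (hf w hw) rfl)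

theorem bih_finite (K : Type*) [Field K] (n a b : ℕ) : Module.Finite K (bih K n a b) := by
  have h1 := bih_le K (n := n) (k := 0) (Nat.zero_le _) a b
  have h2 : II K n 0 = ⊥ := by
    unfold II
    simp
  rw [h2, Submodule.restrictScalars_bot, sup_bot_eq] at h1
  have : FiniteDimensional K (SS K n 0 a b) := by
    unfold SS
    apply FiniteDimensional.span_of_finite
    exact (std n 0 a b).finite_toSet.image _
  exact Submodule.finiteDimensional_of_le h1

theorem hf_le (K : Type*) [Field K] {n k : ℕ} (hk : k ≤ 2 * n) (a b : ℕ) :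
    hf K n (II K n k) a b ≤ (std n k a b).card := by
  unfold hf
  let v : (std n k a b) → (bih K n a b ⧸ gr K n (II K n k) a b) := fun w =>
    Submodule.Quotient.mk ⟨monomial (w : Vr n →₀ ℕ) (1 : K),
      monomial_mem_bih K (mem_std.mp w.2).1 1⟩
  have hv : Submodule.span K (Set.range v) = ⊤ := by
    rw [eq_top_iff]
    rintro x -
    obtain ⟨⟨f, hf⟩, rfl⟩ := Submodule.Quotient.mk_surjective _ x
    obtain ⟨s, hs, i, hi, hsi⟩ := Submodule.mem_sup.mp (bih_le K hk a b hf)
    have hs' : s ∈ bih K n a b := SS_le K n k a b hs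
    have e1 : (Submodule.Quotient.mk ⟨f, hf⟩ : bih K n a b ⧸ gr K n (II K n k) a b) =
        Submodule.Quotient.mk ⟨s, hs'⟩ := by
      rw [Submodule.Quotient.eq]
      unfold gr
      rw [Submodule.mem_comap]
      change f - s ∈ (II K n k).restrictScalars K
      rw [← hsi, add_sub_cancel_left]
      exact hi
    rw [e1]
    clear e1 hsi hf hi
    unfold SS at hs
    have key : ∀ s ∈ Submodule.span K ((fun w => monomial w (1 : K)) ''
        (std n k a b : Set (Vr n →₀ ℕ))), ∃ h : s ∈ bih K n a b,
        (Submodule.Quotient.mk ⟨s, h⟩ : bih K n a b ⧸ gr K n (II K n k) a b) ∈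
          Submodule.span K (Set.range v) := by
      intro s hs
      induction hs using Submodule.span_induction with
      | mem x hx =>
        obtain ⟨w, hw, rfl⟩ := hx
        refine ⟨monomial_mem_bih K (mem_std.mp hw).1 1, ?_⟩
        exact Submodule.subset_span ⟨⟨w, hw⟩, rfl⟩
      | zero => exact ⟨Submodule.zero_mem _, Submodule.zero_mem _⟩
      | add x y _ _ hx hy =>
        obtain ⟨h1, h2⟩ := hx
        obtain ⟨h3, h4⟩ := hy
        exact ⟨Submodule.add_mem _ h1 h3, Submodule.add_mem _ h2 h4⟩
      | smul c x _ hx =>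
        obtain ⟨h1, h2⟩ := hx
        exact ⟨Submodule.smul_mem _ c h1, Submodule.smul_mem _ c h2⟩
    obtain ⟨h1, h2⟩ := key s hs
    exact h2
  have := finrank_le_of_span_eq_top hv
  simpa using this

end CI

end HK
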