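import Pool.Agent.HK.Defs

/-! # Module Canc: the cancellation lemma and the repeated column relation -/

namespace HK

open MvPolynomial Finset

/-- expansion of a determinant with a repeated column -/
theorem rel {K : Type*} [Field K] (n μ c : ℕ) (hc : c < 2 * μ) (ρ : Fin (2 * μ + 1) → ℤ) :
    ∑ a : Fin (2 * μ + 1), (-1 : SB K n) ^ (a : ℕ) * ent K n μ (ρ a) c *
      D K n μ (fun b => ρ (a.succAbove b)) = 0 := by
  set M : Matrix (Fin (2 * μ + 1)) (Fin (2 * μ + 1)) (SB K n) :=
    Matrix.of fun a j => Fin.cases (ent K n μ (ρ a) c) (fun j' : Fin (2 * μ) => ent K n μ (ρ a) j') j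
    with hM
  have h0 : M.det = 0 := by
    apply Matrix.det_zero_of_column_eq (i := 0) (j := Fin.succ ⟨c, hc⟩) (Fin.succ_ne_zero _).symm
    intro a
    simp [hM]
  rw [Matrix.det_succ_column_zero] at h0
  rw [← h0]
  apply Finset.sum_congr rfl
  intro a _
  congr 1

/-- cancellation lemma -/
theorem canc {M : Type*} [AddCommGroup M] (c : ℕ) (ε : ℤ) (F : ℤ → (Fin c → ℤ) → M)
    (κ : Fin (c + 1) → ℤ) (i : ℤ) :
    ∑ J : Finset (Fin (c + 1)), (-1 : ℤ) ^ J.card • ∑ a : Fin (c + 1), (-1 : ℤ) ^ (a : ℕ) •
      F (κ a + (if a ∈ J then ε else 0) - ε * J.card + i)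
        (fun b => κ (a.succAbove b) + (if a.succAbove b ∈ J then ε else 0)) = 0 := by
  classical
  simp only [Finset.smul_sum]
  rw [Finset.sum_comm]
  apply Finset.sum_eq_zero
  intro a _
  have hu : (univ : Finset (Finset (Fin (c + 1)))) =
      (insert a (univ.erase a) : Finset (Fin (c + 1))).powerset := by
    rw [Finset.insert_erase (mem_univ a)]
    simp
  rw [hu, Finset.sum_powerset_insert (Finset.notMem_erase a univ), ← Finset.sum_add_distrib]
  apply Finset.sum_eq_zero
  intro J hJ
  have haJ : a ∉ J := fun h => Finset.notMem_erase a univ (mem_powerset.mp hJ h)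
  have hrest : (fun b => κ (a.succAbove b) + (if a.succAbove b ∈ insert a J then ε else 0)) =
      (fun b => κ (a.succAbove b) + (if a.succAbove b ∈ J then ε else 0)) := by
    funext b
    have hne := Fin.succAbove_ne a b
    simp only [Finset.mem_insert, hne, false_or]
  have hidx : κ a + (if a ∈ insert a J then ε else 0) - ε * ((insert a J).card : ℕ) + i =
      κ a + (if a ∈ J then ε else 0) - ε * (J.card : ℕ) + i := by
    rw [if_pos (Finset.mem_insert_self a J), if_neg haJ, Finset.card_insert_of_notMem haJ]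
    push_cast
    ring
  rw [hrest, hidx, Finset.card_insert_of_notMem haJ, pow_succ, mul_neg_one, neg_smul,
    add_neg_cancel]

end HK
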