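import Pool.Agent.HK.LocT

/-! # Module Loc: blueprint section 7 -/

namespace HK

open MvPolynomial Finset

/-- algebra homomorphisms from `SB` are determined on `x_{m-1-k}`, `p_k`, `q_k` and `x_k`, `k ≥ m` -/
theorem hom_eq (K : Type*) [Field K] (n μ : ℕ) {A : Type*} [CommRing A]
    (f g : SB K n →+* A) (hC : ∀ c : K, f (C c) = g (C c))
    (hx : ∀ k : ℤ, (n : ℤ) + μ ≤ k → f (xx K n k) = g (xx K n k))
    (hx1 : ∀ k : ℕ, k < n + μ → f (xx K n ((n : ℤ) + μ - 1 - k)) = g (xx K n ((n : ℤ) + μ - 1 - k)))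
    (hp : ∀ k : ℕ, k < n + 2 → f (pp K n k) = g (pp K n k))
    (hq : ∀ k : ℕ, k < n + 2 → f (qq K n k) = g (qq K n k)) : f = g := by
  refine MvPolynomial.ringHom_ext hC ?_
  rintro (k | k | k)
  · have h1 : (X (Sum.inl k) : SB K n) = xx K n k := by
      unfold xx
      rw [dif_pos ⟨by omega, by omega⟩]
      congr 2
    rw [h1]
    by_cases h : (n : ℤ) + μ ≤ k
    · exact hx _ h
    · have := hx1 (n + μ - 1 - k) (by omega)
      rwa [show ((n : ℤ) + μ - 1 - ((n + μ - 1 - k : ℕ) : ℤ)) = ((k : ℕ) : ℤ) by omega] at this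
  · have h1 : (X (Sum.inr (Sum.inl k)) : SB K n) = pp K n k := by
      unfold pp
      rw [dif_pos ⟨by omega, by omega⟩]
      congr 2
    rw [h1]
    exact hp _ k.2
  · have h1 : (X (Sum.inr (Sum.inr k)) : SB K n) = qq K n k := by
      unfold qq
      rw [dif_pos ⟨by omega, by omega⟩]
      congr 2
    rw [h1]
    exact hq _ k.2

theorem loc (K : Type*) [Field K] (n μ : ℕ) (hμ : 2 ≤ μ) (hn : μ ≤ n + 1)
    (hP : (AA K (μ - 2) (μ - 1)).IsPrime)
    (hnzd : ∀ z, xx K n ((n : ℤ) + μ - 1) * z ∈ AA K n μ → z ∈ AA K n μ) :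
    (AA K n μ).IsPrime := by
  classical
  -- the domain `E`
  let B : Type _ := SB K (μ - 2) ⧸ AA K (μ - 2) (μ - 1)
  have : IsDomain B := (Ideal.Quotient.isDomain_iff_prime _).2 hP
  have : NeZero (n + 3 - μ) := ⟨by omega⟩
  let E0 : Type _ := MvPolynomial (Fin (n + 3 - μ)) B
  have hX0 : (X 0 : E0) ≠ 0 := X_ne_zero _
  let E : Type _ := Localization.Away (X 0 : E0)
  have : IsDomain E := IsLocalization.isDomain_localization
    (powers_le_nonZeroDivisors_of_noZeroDivisors hX0)
  let σ0 : SB K (μ - 2) →ₐ[K] E0 :=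
    (IsScalarTower.toAlgHom K B E0).comp (Ideal.Quotient.mkₐ K (AA K (μ - 2) (μ - 1)))
  let σ : SB K (μ - 2) →ₐ[K] E := (IsScalarTower.toAlgHom K E0 E).comp σ0
  have hσ : ∀ z ∈ AA K (μ - 2) (μ - 1), σ z = 0 := by
    intro z hz
    have : (Ideal.Quotient.mk (AA K (μ - 2) (μ - 1)) z) = 0 := Ideal.Quotient.eq_zero_iff_mem.2 hz
    change algebraMap E0 E (algebraMap B E0 (Ideal.Quotient.mk (AA K (μ - 2) (μ - 1)) z)) = 0
    rw [this, map_zero, map_zero]
  let g : ℕ → E0 := fun i => if h : i < n + 3 - μ then X ⟨i, h⟩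
    else σ0 (xx K (μ - 2) ((i - (n + 3 - μ) : ℕ) : ℤ))
  let G : PowerSeries E := PowerSeries.mk fun i => algebraMap E0 E (g i)
  have hg0 : g 0 = X 0 := by
    simp only [g]
    rw [dif_pos (by omega)]
    congr 1
  have hu0 : IsUnit (algebraMap E0 E (X 0)) := IsLocalization.Away.algebraMap_isUnit _
  obtain ⟨u, hu⟩ := hu0
  have hG0 : PowerSeries.constantCoeff G = u := by
    rw [← PowerSeries.coeff_zero_eq_constantCoeff_apply, PowerSeries.coeff_mk, hg0, hu]
  let F : PowerSeries E := PowerSeries.invOfUnit G u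
  have hGF : G * F = 1 := PowerSeries.mul_invOfUnit G u hG0
  have hFG : F * G = 1 := by rw [mul_comm]; exact hGF
  obtain ⟨θ, hθ, hθx, hθp, hθq⟩ := LocY.locT n μ hμ hn σ hσ F G hFG (by
    intro j hj
    rw [PowerSeries.coeff_mk]
    simp only [g]
    rw [dif_neg (by omega), show n + 3 - μ + j - (n + 3 - μ) = j by omega]
    rfl)
  -- the localized quotient
  let R : Type _ := SB K n ⧸ AA K n μ
  let xm : R := Ideal.Quotient.mk (AA K n μ) (xx K n ((n : ℤ) + μ - 1))
  let L : Type _ := Localization.Away xm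
  let ψ : SB K n →ₐ[K] L :=
    (IsScalarTower.toAlgHom K R L).comp (Ideal.Quotient.mkₐ K (AA K n μ))
  have hψ : ∀ z ∈ AA K n μ, ψ z = 0 := by
    intro z hz
    have : (Ideal.Quotient.mk (AA K n μ) z) = 0 := Ideal.Quotient.eq_zero_iff_mem.2 hz
    change algebraMap R L (Ideal.Quotient.mk (AA K n μ) z) = 0
    rw [this, map_zero]
  obtain ⟨F', G', τ, hFG', hF', hτ, hτx, hτp, hτq⟩ := LocY.locY n μ hμ hn ψ hψ
    (IsLocalization.Away.algebraMap_isUnit xm)
  -- the map `Y`
  let τ' : B →+* L := Ideal.Quotient.lift (AA K (μ - 2) (μ - 1)) (τ : SB K (μ - 2) →+* L) hτ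
  let Y0 : E0 →+* L := eval₂Hom τ' (fun i => PowerSeries.coeff i G')
  have hY0σ : ∀ z, Y0 (σ0 z) = τ z := by
    intro z
    change eval₂Hom τ' (fun i : Fin (n + 3 - μ) => PowerSeries.coeff (i : ℕ) G')
      (algebraMap B (MvPolynomial (Fin (n + 3 - μ)) B)
        (Ideal.Quotient.mk (AA K (μ - 2) (μ - 1)) z)) = τ z
    rw [algebraMap_eq, eval₂Hom_C]
    exact Ideal.Quotient.lift_mk _ _ _
  have hY0g : ∀ i, i < n + μ → Y0 (g i) = PowerSeries.coeff i G' := by
    intro i hi
    simp only [g]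
    split_ifs with h
    · exact eval₂Hom_X' _ _ _
    · rw [hY0σ, hτx _ (by omega)]
      congr 2
      omega
  have hunit : IsUnit (Y0 (X 0)) := by
    rw [← hg0, hY0g 0 (by omega)]
    have := congrArg PowerSeries.constantCoeff hFG'
    rw [map_mul, map_one] at this
    rw [PowerSeries.coeff_zero_eq_constantCoeff_apply]
    exact IsUnit.of_mul_eq_one _ (by rw [mul_comm]; exact this)
  let Y : E →+* L := IsLocalization.Away.lift (X 0 : E0) hunit
  have hY : ∀ z, Y (algebraMap E0 E z) = Y0 z := fun z => IsLocalization.Away.lift_eq _ _ _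
  have hYG : ∀ i, i < n + μ → Y (PowerSeries.coeff i G) = PowerSeries.coeff i G' := by
    intro i hi
    rw [PowerSeries.coeff_mk, hY, hY0g i hi]
  have hYσ : ∀ z, Y (σ z) = τ z := by
    intro z
    change Y (algebraMap E0 E (σ0 z)) = τ z
    rw [hY, hY0σ]
  have hYF : ∀ i, i < n + μ → Y (PowerSeries.coeff i F) = PowerSeries.coeff i F' := by
    have h1 : PSer.Cg (n + μ) (PowerSeries.map Y G) G' := by
      intro i hi
      rw [PowerSeries.coeff_map, hYG i hi]
    have h2 : PowerSeries.map Y F * PowerSeries.map Y G = 1 := by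
      rw [← map_mul, hFG, map_one]
    have h3 : PSer.Cg (n + μ) (PowerSeries.map Y F) F' := by
      have h4 := ((PSer.Cg.refl (n + μ) (PowerSeries.map Y F)).mul h1).mul
        (PSer.Cg.refl (n + μ) F')
      have h5 : PowerSeries.map Y F * G' * F' = PowerSeries.map Y F := by
        rw [mul_assoc, mul_comm G' F', hFG', mul_one]
      rw [h2, one_mul, h5] at h4
      exact h4.symm
    intro i hi
    rw [← h3 i hi, PowerSeries.coeff_map]
  have hcomp : Y.comp (θ : SB K n →+* E) = (ψ : SB K n →+* L) := by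
    refine hom_eq K n μ _ _ ?_ ?_ ?_ ?_ ?_
    · intro c
      have h1 : θ (C c) = σ (C c) := by
        rw [← algebraMap_eq, ← algebraMap_eq, AlgHom.commutes, AlgHom.commutes]
      have h2 : τ (C c) = ψ (C c) := by
        rw [← algebraMap_eq, ← algebraMap_eq, AlgHom.commutes, AlgHom.commutes]
      change Y (θ (C c)) = ψ (C c)
      rw [h1, hYσ, h2]
    · intro k hk
      change Y (θ (xx K n k)) = ψ (xx K n k)
      have h0 : xx K n k ∈ AA K n μ :=
        Ideal.subset_span (Or.inl (Or.inl (Or.inl ⟨k, hk, rfl⟩)))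
      rw [hθ _ h0, hψ _ h0, map_zero]
    · intro k hk
      change Y (θ _) = ψ _
      rw [hθx k hk, hYF k hk, hF']
    · intro k hk
      change Y (θ _) = ψ _
      rw [hθp k hk, hτp k (by omega), map_sum]
      refine Finset.sum_congr rfl fun j _ => ?_
      rw [map_mul, hYσ]
      split_ifs with h
      · rw [hYG _ (by omega)]
      · rw [map_zero]
    · intro k hk
      change Y (θ _) = ψ _
      rw [hθq k hk, hτq k (by omega), map_sum]
      refine Finset.sum_congr rfl fun j _ => ?_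
      rw [map_mul, hYσ]
      split_ifs with h
      · rw [hYG _ (by omega)]
      · rw [map_zero]
  have hker : ∀ z, θ z = 0 → z ∈ AA K n μ := by
    intro z hz
    have h1 : ψ z = 0 := by
      have := congrArg (fun f => f z) hcomp
      change Y (θ z) = ψ z at this
      rw [← this, hz, map_zero]
    change algebraMap R L (Ideal.Quotient.mk (AA K n μ) z) = 0 at h1
    rw [IsLocalization.map_eq_zero_iff (Submonoid.powers xm) L] at h1
    obtain ⟨⟨_, N, rfl⟩, h2⟩ := h1
    have h3 : xx K n ((n : ℤ) + μ - 1) ^ N * z ∈ AA K n μ := by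
      rw [← Ideal.Quotient.eq_zero_iff_mem, map_mul, map_pow]
      exact h2
    clear h2
    induction N with
    | zero => simpa using h3
    | succ N ih =>
      refine ih (hnzd _ ?_)
      rwa [← mul_assoc, ← pow_succ']
  have hfin : AA K n μ = RingHom.ker (θ : SB K n →+* E) :=
    le_antisymm (fun z hz => hθ z hz) (fun z hz => hker z hz)
  rw [hfin]
  exact RingHom.ker_isPrime _

theorem prime_zero (K : Type*) [Field K] : (AA K 0 1).IsPrime := by
  have h : AA K 0 1 = ⊥ := by
    rw [eq_bot_iff]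
    unfold AA
    rw [Ideal.span_le]
    rintro f (((⟨k, hk, rfl⟩ | ⟨i, hi, rfl⟩) | ⟨i, hi, rfl⟩) | ⟨ρ, rfl⟩)
    · have : xx K 0 k = 0 := LocY.xx_zero (by omega)
      rw [this]
      exact Ideal.zero_mem _
    · omega
    · omega
    · have := LocY.D_top' K 0 ρ
      rw [show D K 0 1 ρ = 0 from this]
      exact Ideal.zero_mem _
  rw [h]
  exact Ideal.isPrime_bot

end HK
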