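import Pool.Agent.HK.Defs

/-! # Module Num: the numeric identity (blueprint section 1) -/

namespace HK

open Finset

theorem uB_mono (M a : ℕ) {v w : ℕ → ℤ} (h : ∀ k ≤ M, v k ≤ w k) : uB M a v ≤ uB M a w := by
  induction M generalizing a v w with
  | zero =>
    simp only [uB]
    split
    · exact h 0 le_rfl
    · exact le_rfl
  | succ M ih =>
    simp only [uB]
    exact add_le_add (ih _ fun k hk => h k (by omega))
      (Finset.sum_le_sum fun e _ => ih _ fun k hk => h (k + 1) (by omega))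

/-! ### generic version of `uB` -/

/-- `uB` with values in an arbitrary additive monoid -/
def uBg {A : Type*} [AddCommMonoid A] : ℕ → ℕ → (ℕ → A) → A
  | 0, a, v => if a = 0 then v 0 else 0
  | M + 1, a, v => uBg M a v + ∑ e ∈ range a, uBg M (a - 1 - e) (fun k => v (k + 1))

theorem map_uBg {A B : Type*} [AddCommMonoid A] [AddCommMonoid B] (φ : A →+ B) (M a : ℕ)
    (v : ℕ → A) : φ (uBg M a v) = uBg M a (fun k => φ (v k)) := by
  induction M generalizing a v with
  | zero =>
    simp only [uBg]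
    split <;> simp
  | succ M ih =>
    simp only [uBg, map_add, map_sum, ih]

theorem uB_eq_uBg (M a : ℕ) (v : ℕ → ℤ) : uB M a v = uBg M a v := by
  induction M generalizing a v with
  | zero => rfl
  | succ M ih => simp only [uB, uBg, ih]

/-! ### the generating function of `uB` -/

section genU
variable {R : Type*} [CommRing R]

open PowerSeries in
theorem gen_aux (u : ℕ → R) :
    (1 - X) * PowerSeries.mk (fun a => ∑ e ∈ range a, u (a - 1 - e)) =
      X * PowerSeries.mk u := by
  ext a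
  rw [sub_mul, one_mul, map_sub]
  cases a with
  | zero => simp
  | succ a =>
    rw [coeff_succ_X_mul, coeff_succ_X_mul]
    simp only [coeff_mk]
    rw [Finset.sum_range_succ']
    have : ∀ e ∈ range a, u (a + 1 - 1 - (e + 1)) = u (a - 1 - e) := by
      intro e _
      congr 1
      omega
    rw [Finset.sum_congr rfl this]
    simp

open PowerSeries in
theorem gen_aux2 (u : ℕ → R) :
    (1 - X) * PowerSeries.mk (fun a => ∑ e ∈ range (a + 1), u e) = PowerSeries.mk u := by
  ext a
  rw [sub_mul, one_mul, map_sub]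
  cases a with
  | zero => simp
  | succ a =>
    rw [coeff_succ_X_mul]
    simp only [coeff_mk]
    rw [Finset.sum_range_succ]
    ring

open PowerSeries in
/-- `∑_k C(M,k) v_k x^k (1-x)^(M-k)` -/
noncomputable def bS (M : ℕ) (v : ℕ → R) : PowerSeries R :=
  ∑ k ∈ range (M + 1), (M.choose k : PowerSeries R) * (C (v k) * X ^ k) * (1 - X) ^ (M - k)

open PowerSeries in
theorem bS_succ (M : ℕ) (v : ℕ → R) :
    bS (M + 1) v = (1 - X) * bS M v + X * bS M (fun k => v (k + 1)) := by
  unfold bS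
  rw [Finset.sum_range_succ' _ (M + 1), Finset.mul_sum, Finset.mul_sum]
  have h1 : ∀ k ∈ range (M + 1), (((M + 1).choose (k + 1) : ℕ) : PowerSeries R) *
      (C (v (k + 1)) * X ^ (k + 1)) * (1 - X) ^ (M + 1 - (k + 1)) =
      X * ((M.choose k : PowerSeries R) * (C (v (k + 1)) * X ^ k) * (1 - X) ^ (M - k)) +
      (M.choose (k + 1) : PowerSeries R) * (C (v (k + 1)) * X ^ (k + 1)) * (1 - X) ^ (M - k) := by
    intro k _
    rw [Nat.choose_succ_succ, Nat.add_sub_add_right]
    push_cast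
    ring
  rw [Finset.sum_congr rfl h1, Finset.sum_add_distrib, Finset.sum_range_succ (fun k =>
      (M.choose (k + 1) : PowerSeries R) * (C (v (k + 1)) * X ^ (k + 1)) * (1 - X) ^ (M - k)) M]
  rw [Finset.sum_range_succ' (fun k => (1 - X) * ((M.choose k : PowerSeries R) *
    (C (v k) * X ^ k) * (1 - X) ^ (M - k))) M]
  have h2 : ∀ k ∈ range M, (1 - X) * ((M.choose (k + 1) : PowerSeries R) *
      (C (v (k + 1)) * X ^ (k + 1)) * (1 - X) ^ (M - (k + 1))) =
      (M.choose (k + 1) : PowerSeries R) * (C (v (k + 1)) * X ^ (k + 1)) * (1 - X) ^ (M - k) := by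
    intro k hk
    have : M - k = M - (k + 1) + 1 := by
      have := Finset.mem_range.1 hk
      omega
    rw [this, pow_succ]
    ring
  rw [Finset.sum_congr rfl h2]
  simp only [Nat.choose_succ_self, Nat.cast_zero, zero_mul, add_zero, Nat.choose_zero_right,
    Nat.cast_one, one_mul, pow_zero, mul_one, Nat.sub_zero]
  ring

open PowerSeries in
theorem genU (M : ℕ) (v : ℕ → R) :
    (1 - X) ^ M * PowerSeries.mk (fun a => uBg M a v) = bS M v := by
  induction M generalizing v with
  | zero =>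
    ext a
    simp only [pow_zero, one_mul, coeff_mk, uBg, bS, zero_add, range_one, sum_singleton,
      Nat.choose_self, Nat.cast_one, mul_one, Nat.sub_zero]
    rw [coeff_C]
  | succ M ih =>
    rw [bS_succ, ← ih, ← ih]
    have : PowerSeries.mk (fun a => uBg (M + 1) a v) = PowerSeries.mk (fun a => uBg M a v) +
        PowerSeries.mk (fun a => ∑ e ∈ range a, uBg M (a - 1 - e) (fun k => v (k + 1))) := by
      ext a
      simp [uBg]
    rw [this, mul_add, pow_succ]
    have h := gen_aux (fun a => uBg M a (fun k => v (k + 1)))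
    rw [mul_assoc ((1 - X : PowerSeries R) ^ M) (1 - X) (PowerSeries.mk (fun a => ∑ e ∈ range a, uBg M (a - 1 - e) (fun k => v (k + 1)))), h]
    ring

end genU

/-! ### the series in `w` -/

section wser
variable {A : Type*} [CommRing A]

open PowerSeries in
theorem coeff_lin_pow (a b : A) (m k : ℕ) :
    coeff k ((C a + C b * X) ^ m) = (m.choose k : A) * (b ^ k * a ^ (m - k)) := by
  rw [add_comm, add_pow, map_sum]
  have h : ∀ j ∈ range (m + 1), coeff k ((C b * X) ^ j * C a ^ (m - j) * (m.choose j : PowerSeries A))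
      = if k = j then (m.choose k : A) * (b ^ k * a ^ (m - k)) else 0 := by
    intro j _
    have : (C b * X) ^ j * C a ^ (m - j) * (m.choose j : PowerSeries A) =
        C ((m.choose j : A) * (b ^ j * a ^ (m - j))) * X ^ j := by
      rw [map_mul, map_mul, map_pow, map_pow, map_natCast]
      ring
    rw [this, coeff_C_mul, coeff_X_pow]
    split
    · next h => subst h; simp
    · simp
  rw [Finset.sum_congr rfl h, Finset.sum_ite_eq]
  split
  · rfl
  · next h =>
    have : m < k := by simpa using h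
    rw [Nat.choose_eq_zero_of_lt this]
    simp

open PowerSeries in
theorem coeff_lin_geom (a b c : A) (n : ℕ) :
    coeff n ((C a + C b * X) ^ n * PowerSeries.mk (fun j => c ^ j)) = (a * c + b) ^ n := by
  rw [coeff_mul, Finset.Nat.sum_antidiagonal_eq_sum_range_succ_mk]
  rw [add_comm (a * c) b, add_pow b (a * c) n]
  refine Finset.sum_congr rfl fun k hk => ?_
  simp only [coeff_lin_pow, coeff_mk, mul_pow]
  ring

open PowerSeries in
theorem geom_mul (c : A) : (1 - C c * X) * PowerSeries.mk (fun j => c ^ j) = 1 := by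
  ext j
  rw [sub_mul, one_mul, map_sub, mul_assoc]
  cases j with
  | zero => simp
  | succ j =>
    rw [coeff_C_mul, coeff_succ_X_mul, coeff_mk, coeff_mk, coeff_one]
    simp [pow_succ']

open PowerSeries in
/-- coefficients of `(1-cw)^(-(d+1))` -/
theorem coeff_geom_pow (c : A) (d j : ℕ) :
    coeff j ((PowerSeries.mk (fun j => c ^ j) : PowerSeries A) ^ (d + 1)) =
      ((d + j).choose d : A) * c ^ j := by
  have h1 : (PowerSeries.mk (fun j => c ^ j) : PowerSeries A) = rescale c (PowerSeries.mk 1) := by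
    ext j
    simp [coeff_rescale]
  rw [h1, ← map_pow, mk_one_pow_eq_mk_choose_add, coeff_rescale, coeff_mk]
  ring

open PowerSeries in
theorem wsum (t x : A) (n : ℕ) :
    ∑ μ ∈ range (n + 1), t ^ (2 * μ) * coeff (n - μ)
      ((C (1 - x) + C (x * (1 - t) ^ 2) * X) ^ (n + μ) *
        ((1 - C ((1 - t) ^ 2) * X) * (PowerSeries.mk (fun j => (1 - t) ^ j)) ^ (2 * μ + 2))) =
      (1 - x * t) ^ (2 * n) := by
  set P : PowerSeries A := C (1 - x) + C (x * (1 - t) ^ 2) * X with hP
  set G : PowerSeries A := PowerSeries.mk (fun j => (1 - t) ^ j) with hG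
  set B : PowerSeries A := 1 - C ((1 - t) ^ 2) * X with hB
  set Cc : PowerSeries A := PowerSeries.mk (fun j => (1 - t ^ 2 * x) ^ j) with hCc
  set z : PowerSeries A := C (t ^ 2) * X * P * G ^ 2 with hz
  have hG1 : (1 - C (1 - t) * X) * G = 1 := geom_mul _
  have hC1 : (1 - C (1 - t ^ 2 * x) * X) * Cc = 1 := geom_mul _
  have h1 : ∀ μ ∈ range (n + 1), t ^ (2 * μ) * coeff (n - μ) (P ^ (n + μ) * (B * G ^ (2 * μ + 2)))
      = coeff n (P ^ n * (B * G ^ 2) * z ^ μ) := by
    intro μ hμ
    have hμ' : μ ≤ n := by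
      have := Finset.mem_range.1 hμ
      omega
    have h2 : P ^ n * (B * G ^ 2) * z ^ μ =
        X ^ μ * (C (t ^ (2 * μ)) * (P ^ (n + μ) * (B * G ^ (2 * μ + 2)))) := by
      rw [hz, pow_mul t 2 μ, map_pow C (t ^ 2) μ]
      simp only [mul_pow]
      rw [pow_add P n μ, pow_add G (2 * μ) 2, pow_mul G 2 μ]
      ring
    rw [h2, coeff_X_pow_mul', if_pos hμ', coeff_C_mul]
  rw [Finset.sum_congr rfl h1, ← map_sum, ← Finset.mul_sum]
  set S := ∑ μ ∈ range (n + 1), z ^ μ with hS
  have h4 : (1 - z) * S = 1 - z ^ (n + 1) := mul_neg_geom_sum z (n + 1)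
  have h5 : (1 - C (1 - t) * X) ^ 2 * G ^ 2 = 1 := by
    rw [← mul_pow, hG1, one_pow]
  have h6 : (1 - C (1 - t ^ 2 * x) * X) * B = (1 - C (1 - t) * X) ^ 2 - C (t ^ 2) * X * P := by
    rw [hB, hP]
    simp only [map_sub, map_mul, map_pow, map_one]
    ring
  have h7 : (1 - C (1 - t ^ 2 * x) * X) * (B * G ^ 2 * S) = 1 - z ^ (n + 1) := by
    rw [← h4]
    have : (1 - C (1 - t ^ 2 * x) * X) * (B * G ^ 2 * S) =
        ((1 - C (1 - t ^ 2 * x) * X) * B) * G ^ 2 * S := by ring
    rw [this, h6, sub_mul, h5, hz]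
  have h8 : B * G ^ 2 * S = Cc * (1 - z ^ (n + 1)) := by
    rw [← h7]
    have : Cc * ((1 - C (1 - t ^ 2 * x) * X) * (B * G ^ 2 * S)) =
      ((1 - C (1 - t ^ 2 * x) * X) * Cc) * (B * G ^ 2 * S) := by ring
    rw [this, hC1, one_mul]
  have h9 : P ^ n * (B * G ^ 2) * S = P ^ n * Cc - X ^ (n + 1) *
      (P ^ n * Cc * (C (t ^ 2) * P * G ^ 2) ^ (n + 1)) := by
    have : P ^ n * (B * G ^ 2) * S = P ^ n * (B * G ^ 2 * S) := by ring
    have hz2 : z ^ (n + 1) = X ^ (n + 1) * (C (t ^ 2) * P * G ^ 2) ^ (n + 1) := by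
      rw [← mul_pow, hz]
      congr 1
      ring
    rw [this, h8, hz2]
    ring
  rw [h9, map_sub, coeff_X_pow_mul']
  rw [if_neg (by omega), sub_zero, hP, hCc, coeff_lin_geom, pow_mul]
  congr 1
  ring

end wser

/-! ### series in `t` -/

section tser
open PowerSeries

/-- `β^k ∑ mc(k,b) t^b = 1` -/
theorem mc_gen (k : ℕ) : (1 - X) ^ k *
    (PowerSeries.mk (fun b => ((Nat.multichoose k b : ℕ) : ℤ)) : PowerSeries ℤ) = 1 := by
  cases k with
  | zero =>
    ext b
    cases b with
    | zero => simp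
    | succ b => simp [coeff_one]
  | succ d =>
    rw [mul_comm]
    refine Eq.trans ?_ (mk_add_choose_mul_one_sub_pow_eq_one ℤ d)
    congr 1
    ext b
    simp only [coeff_mk]
    rw [Nat.multichoose_eq]
    congr 1
    have : d + 1 + b - 1 = d + b := by omega
    rw [this, Nat.choose_symm_add]

/-- the series `HM` -/
noncomputable def HMR (n μ : ℕ) : PowerSeries ℤ := PowerSeries.mk (fun b => HM n μ b)

theorem HMR_of_lt {n μ : ℕ} (h : n < μ) : HMR n μ = 0 := by
  ext b
  simp [HMR, HM, not_le.2 h]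

theorem HMR_eq {n μ : ℕ} (h : μ ≤ n) : (1 - X) ^ (2 * n + 4) * HMR n μ =
    X ^ (2 * μ) * ∑ s ∈ range (n - μ + 1), ((Nat.multichoose (2 * μ) s : ℕ) : PowerSeries ℤ) *
      (1 - X) ^ s := by
  have h1 : HMR n μ = X ^ (2 * μ) * ∑ s ∈ range (n - μ + 1),
      ((Nat.multichoose (2 * μ) s : ℕ) : PowerSeries ℤ) *
        PowerSeries.mk (fun b => ((Nat.multichoose (2 * n + 4 - s) b : ℕ) : ℤ)) := by
    ext b
    rw [coeff_X_pow_mul', HMR, coeff_mk, HM]
    by_cases hb : 2 * μ ≤ b
    · rw [if_pos ⟨h, hb⟩, if_pos hb, map_sum]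
      refine Finset.sum_congr rfl fun s _ => ?_
      rw [← map_natCast (C (R := ℤ)), coeff_C_mul, coeff_mk]
      push_cast
      rfl
    · rw [if_neg (fun h => hb h.2), if_neg hb]
  rw [h1, mul_left_comm, Finset.mul_sum]
  congr 1
  refine Finset.sum_congr rfl fun s hs => ?_
  have hs' : s ≤ n := by
    have := Finset.mem_range.1 hs
    omega
  have h2 : 2 * n + 4 = s + (2 * n + 4 - s) := by omega
  have h3 := mc_gen (2 * n + 4 - s)
  rw [mul_left_comm]
  congr 1
  conv_lhs => rw [h2, pow_add]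
  have h4 : s + (2 * n + 4 - s) - s = 2 * n + 4 - s := by omega
  rw [h4, mul_assoc, h3, mul_one]

/-- the finite identity behind `q` -/
theorem g_diff {R : Type*} [CommRing R] (β : R) (μ j : ℕ) :
    ∑ s ∈ range (j + 1), ((Nat.multichoose (2 * μ) s : ℕ) : R) * β ^ s -
      (1 - β) ^ 2 * ∑ s ∈ range j, ((Nat.multichoose (2 * μ + 2) s : ℕ) : R) * β ^ s =
    ((2 * μ + 1 + j).choose (2 * μ + 1) : R) * β ^ j -
      ((2 * μ + j).choose (2 * μ + 1) : R) * β ^ (j + 1) := by
  induction j with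
  | zero => simp
  | succ j ih =>
    rw [Finset.sum_range_succ (fun s => ((Nat.multichoose (2 * μ) s : ℕ) : R) * β ^ s) (j + 1),
      Finset.sum_range_succ (fun s => ((Nat.multichoose (2 * μ + 2) s : ℕ) : R) * β ^ s) j]
    have h1 : Nat.multichoose (2 * μ + 2) j = (2 * μ + 1 + j).choose (2 * μ + 1) := by
      rw [Nat.multichoose_eq]
      have : 2 * μ + 2 + j - 1 = 2 * μ + 1 + j := by omega
      rw [this, Nat.choose_symm_add]
    have h2 : Nat.multichoose (2 * μ) (j + 1) + 2 * (2 * μ + 1 + j).choose (2 * μ + 1) =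
        (2 * μ + 1 + (j + 1)).choose (2 * μ + 1) + (2 * μ + j).choose (2 * μ + 1) := by
      have h3 : (2 * μ + 1 + (j + 1)).choose (2 * μ + 1) =
          (2 * μ + 1 + j).choose (2 * μ) + (2 * μ + 1 + j).choose (2 * μ + 1) := by
        have : 2 * μ + 1 + (j + 1) = (2 * μ + 1 + j) + 1 := by ring
        rw [this, Nat.choose_succ_succ]
      have h4 : (2 * μ + 1 + j).choose (2 * μ + 1) =
          (2 * μ + j).choose (2 * μ) + (2 * μ + j).choose (2 * μ + 1) := by
        have : 2 * μ + 1 + j = (2 * μ + j) + 1 := by ring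
        rw [this, Nat.choose_succ_succ]
      have h5 : (2 * μ + 1 + j).choose (2 * μ) =
          Nat.multichoose (2 * μ) (j + 1) + (2 * μ + j).choose (2 * μ) := by
        rw [Nat.multichoose_eq]
        rcases Nat.eq_zero_or_pos μ with rfl | hμ
        · simp
        · have h6 : 2 * μ + (j + 1) - 1 = 2 * μ + j := by omega
          have h7 : 2 * μ = (2 * μ - 1) + 1 := by omega
          rw [h6]
          have h8 : (2 * μ + j).choose (j + 1) = (2 * μ + j).choose (2 * μ - 1) := by
            have : 2 * μ + j = (j + 1) + (2 * μ - 1) := by omega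
            rw [this, Nat.choose_symm_add]
          rw [h8]
          have h9 : 2 * μ + 1 + j = (2 * μ + j) + 1 := by ring
          rw [h9]
          conv_lhs => rw [h7]
          have h10 : 2 * μ - 1 + 1 + j = 2 * μ + j := by omega
          rw [Nat.choose_succ_succ, h10]
          have h11 : (2 * μ - 1).succ = 2 * μ := by omega
          rw [h11]
      omega
    have h2' : ((Nat.multichoose (2 * μ) (j + 1) : ℕ) : R) + 2 * ((2 * μ + 1 + j).choose (2 * μ + 1) : R) =
        ((2 * μ + 1 + (j + 1)).choose (2 * μ + 1) : R) + ((2 * μ + j).choose (2 * μ + 1) : R) := by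
      exact_mod_cast congrArg (Nat.cast : ℕ → R) h2
    have h3 : 2 * μ + (j + 1) = 2 * μ + 1 + j := by ring
    rw [h3, h1]
    linear_combination ih + β ^ (j + 1) * h2'

/-- the series `q` -/
noncomputable def qR (n μ : ℕ) : PowerSeries ℤ := PowerSeries.mk (fun b => qn n μ b)

theorem qR_eq_sub (n μ : ℕ) : qR n μ = HMR n μ - HMR n (μ + 1) := by
  ext b
  simp [qR, HMR, qn]

theorem qR_of_lt {n μ : ℕ} (h : n < μ) : qR n μ = 0 := by
  rw [qR_eq_sub, HMR_of_lt h, HMR_of_lt (by omega), sub_zero]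

theorem qR_eq {n μ : ℕ} (h : μ ≤ n) : (1 - X) ^ (2 * n + 4) * qR n μ =
    X ^ (2 * μ) * ((((2 * μ + 1 + (n - μ)).choose (2 * μ + 1) : ℕ) : PowerSeries ℤ) *
      (1 - X) ^ (n - μ) - (((2 * μ + (n - μ)).choose (2 * μ + 1) : ℕ) : PowerSeries ℤ) *
      (1 - X) ^ (n - μ + 1)) := by
  rw [qR_eq_sub, mul_sub, HMR_eq h, ← g_diff (1 - X : PowerSeries ℤ) μ (n - μ), mul_sub]
  congr 1
  rcases Nat.lt_or_ge n (μ + 1) with h' | h'
  · rw [HMR_of_lt h']
    have : n - μ = 0 := by omega
    simp [this]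
  · rw [HMR_eq h']
    have h1 : n - (μ + 1) + 1 = n - μ := by omega
    have h2 : 2 * (μ + 1) = 2 * μ + 2 := by ring
    rw [h1, h2, pow_add]
    ring

/-- `[w^j] (1-β²w)/(1-βw)^(2μ+2)` -/
theorem coeff_H {A : Type*} [CommRing A] (β : A) (μ j : ℕ) :
    coeff j ((1 - C (β ^ 2) * X) * (PowerSeries.mk (fun j => β ^ j)) ^ (2 * μ + 2)) =
      ((2 * μ + 1 + j).choose (2 * μ + 1) : A) * β ^ j -
        ((2 * μ + j).choose (2 * μ + 1) : A) * β ^ (j + 1) := by
  rw [sub_mul, one_mul, map_sub, coeff_geom_pow β (2 * μ + 1) j, mul_assoc, coeff_C_mul]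
  congr 1
  cases j with
  | zero => simp
  | succ j =>
    rw [coeff_succ_X_mul, coeff_geom_pow β (2 * μ + 1) j]
    have : 2 * μ + (j + 1) = 2 * μ + 1 + j := by ring
    rw [this]
    ring

end tser

/-! ### assembling -/

section asm
open PowerSeries

/-- `t` in the two-variable ring -/
noncomputable abbrev tt : PowerSeries (PowerSeries ℤ) := C (X : PowerSeries ℤ)

/-- the series `e` -/
noncomputable def eR (n μ k : ℕ) : PowerSeries ℤ := PowerSeries.mk (fun b => eU n μ b k)

theorem eR_eq (n μ k : ℕ) : eR n μ k = if k ≤ n then qR (n - k) μ else 0 := by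
  ext b
  by_cases h : k ≤ n <;> simp [eR, eU, qR, h]

theorem eR_eq_H {n μ k : ℕ} (hμ : μ ≤ n) : (1 - tt) ^ (2 * n + 4) * C (eR n μ k) =
    if k ≤ n - μ then tt ^ (2 * μ) * (((1 - tt) ^ 2) ^ k * coeff (n - μ - k)
      ((1 - C ((1 - tt) ^ 2) * X) * (PowerSeries.mk (fun j => (1 - tt) ^ j)) ^ (2 * μ + 2)))
    else 0 := by
  by_cases hk : k ≤ n - μ
  · rw [if_pos hk, eR_eq, if_pos (by omega), coeff_H]
    have h1 : (2 * n + 4) = 2 * k + (2 * (n - k) + 4) := by omega
    have h2 : (1 - tt) = C (1 - X : PowerSeries ℤ) := by simp [tt]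
    have h3 := qR_eq (n := n - k) (μ := μ) (by omega)
    have h4 : n - k - μ = n - μ - k := by omega
    rw [h4] at h3
    have h5 := congrArg (C (R := PowerSeries ℤ)) h3
    simp only [map_mul, map_pow, map_sub, map_natCast] at h5
    rw [h1, pow_add, mul_assoc]
    simp only [map_one] at h5
    rw [h5, ← pow_mul]
    ring
  · rw [if_neg hk, eR_eq]
    split
    · rw [qR_of_lt (by omega), map_zero, mul_zero]
    · rw [map_zero, mul_zero]

theorem mk_uB (M a : ℕ) (v : ℕ → ℕ → ℤ) :
    (PowerSeries.mk (fun b => uB M a (v b)) : PowerSeries ℤ) =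
      uBg M a (fun k => PowerSeries.mk (fun b => v b k)) := by
  ext b
  have h := map_uBg ((coeff (R := ℤ) b).toAddMonoidHom) M a
    (fun k => PowerSeries.mk (fun b => v b k))
  simp only [LinearMap.toAddMonoidHom_coe, coeff_mk] at h
  rw [h, coeff_mk, uB_eq_uBg]

/-- the series `Q` -/
noncomputable def QR (n μ : ℕ) : PowerSeries (PowerSeries ℤ) :=
  PowerSeries.mk (fun a => PowerSeries.mk (fun b => uB (n + μ) a (eU n μ b)))

theorem QR_eq {n μ : ℕ} (hμ : μ ≤ n) :
    (1 - tt) ^ (2 * n + 4) * ((1 - X) ^ (n + μ) * QR n μ) = tt ^ (2 * μ) * coeff (n - μ)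
      ((C (1 - X) + C (X * (1 - tt) ^ 2) * X) ^ (n + μ) *
        ((1 - C ((1 - tt) ^ 2) * X) * (PowerSeries.mk (fun j => (1 - tt) ^ j)) ^ (2 * μ + 2))) := by
  have h1 : QR n μ = PowerSeries.mk (fun a => uBg (n + μ) a (fun k => eR n μ k)) := by
    ext1 a
    rw [QR, coeff_mk, coeff_mk]
    exact mk_uB (n + μ) a (fun b => eU n μ b)
  rw [h1, genU, bS, coeff_mul, Finset.Nat.sum_antidiagonal_eq_sum_range_succ_mk, Finset.mul_sum,
    Finset.mul_sum]
  have h2 : range (n - μ + 1) ⊆ range (n + μ + 1) := by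
    apply Finset.range_subset_range.2
    omega
  rw [← Finset.sum_subset h2]
  · refine Finset.sum_congr rfl fun k hk => ?_
    have hk' : k ≤ n - μ := by
      have := Finset.mem_range.1 hk
      omega
    have h3 := eR_eq_H (k := k) hμ
    rw [if_pos hk'] at h3
    rw [coeff_lin_pow]
    calc (1 - tt) ^ (2 * n + 4) * (((n + μ).choose k : PowerSeries (PowerSeries ℤ)) *
          (C (eR n μ k) * X ^ k) * (1 - X) ^ (n + μ - k))
        = ((n + μ).choose k : PowerSeries (PowerSeries ℤ)) * X ^ k * (1 - X) ^ (n + μ - k) *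
          ((1 - tt) ^ (2 * n + 4) * C (eR n μ k)) := by ring
      _ = _ := by
        rw [h3, mul_pow]
        ring
  · intro k hk hk2
    have hk' : ¬ k ≤ n - μ := by
      intro h
      exact hk2 (Finset.mem_range.2 (by omega))
    have h3 := eR_eq_H (k := k) hμ
    rw [if_neg hk'] at h3
    calc (1 - tt) ^ (2 * n + 4) * (((n + μ).choose k : PowerSeries (PowerSeries ℤ)) *
          (C (eR n μ k) * X ^ k) * (1 - X) ^ (n + μ - k))
        = ((n + μ).choose k : PowerSeries (PowerSeries ℤ)) * X ^ k * (1 - X) ^ (n + μ - k) *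
          ((1 - tt) ^ (2 * n + 4) * C (eR n μ k)) := by ring
      _ = 0 := by rw [h3, mul_zero]

/-- the series of `tr` -/
noncomputable def TR (n μ : ℕ) : PowerSeries (PowerSeries ℤ) :=
  PowerSeries.mk (fun a => PowerSeries.mk (fun b => tr n μ a b))

theorem TR_succ (n μ : ℕ) : (1 - X) * TR n (μ + 1) = QR n μ + TR n μ := by
  have h1 : TR n (μ + 1) = PowerSeries.mk (fun a => ∑ e ∈ range (a + 1),
      (PowerSeries.mk (fun b => uB (n + μ) e (eU n μ b)) +
        PowerSeries.mk (fun b => tr n μ e b))) := by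
    ext a b
    simp [TR, tr]
  rw [h1, gen_aux2]
  ext a b
  simp [QR, TR]

theorem TR_eq (n μ : ℕ) : (1 - X) ^ (n + μ) * TR n μ =
    ∑ ν ∈ range μ, (1 - X) ^ (n + ν) * QR n ν := by
  induction μ with
  | zero =>
    have : TR n 0 = 0 := by
      ext a b
      simp [TR, tr]
    simp [this]
  | succ μ ih =>
    rw [Finset.sum_range_succ, ← ih]
    have : (1 - X) ^ (n + (μ + 1)) * TR n (μ + 1) =
        (1 - X) ^ (n + μ) * ((1 - X) * TR n (μ + 1)) := by ring
    rw [this, TR_succ]
    ring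

/-- the series of `ci` -/
noncomputable def CR (n k : ℕ) : PowerSeries (PowerSeries ℤ) :=
  PowerSeries.mk (fun a => PowerSeries.mk (fun b => ci n k a b))

theorem CR_zero (n : ℕ) : (1 - tt) ^ (2 * n + 4) * ((1 - X) ^ (2 * n + 1) * CR n 0) = 1 := by
  have h1 : CR n 0 = PowerSeries.map (C (R := ℤ))
      (PowerSeries.mk (fun a => ((Nat.multichoose (2 * n + 1) a : ℕ) : ℤ))) *
      C (PowerSeries.mk (fun b => ((Nat.multichoose (2 * n + 4) b : ℕ) : ℤ))) := by
    ext a b
    rw [mul_comm, coeff_C_mul, coeff_map, coeff_mk, mul_comm, coeff_C_mul, CR, coeff_mk, coeff_mk,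
      coeff_mk, ci]
    push_cast
    rfl
  have h2 := congrArg (PowerSeries.map (C (R := ℤ))) (mc_gen (2 * n + 1))
  have h3 := congrArg (C (R := PowerSeries ℤ)) (mc_gen (2 * n + 4))
  rw [map_mul, map_pow, map_sub, map_one, map_X] at h2
  rw [map_mul, map_pow, map_sub, map_one] at h3
  rw [h1, ← mul_assoc ((1 - X) ^ (2 * n + 1)), h2, one_mul, h3]

theorem CR_succ (n k : ℕ) : CR n (k + 1) = (1 - X * tt) * CR n k := by
  ext a b
  rw [sub_mul, one_mul, map_sub, map_sub, mul_assoc]
  simp only [CR, coeff_mk, ci]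
  congr 1
  rcases a with _ | a
  · simp
  · rw [coeff_succ_X_mul, tt, coeff_C_mul, coeff_mk]
    rcases b with _ | b
    · simp
    · rw [coeff_succ_X_mul, coeff_mk]
      simp

theorem CR_eq (n k : ℕ) : (1 - tt) ^ (2 * n + 4) * ((1 - X) ^ (2 * n + 1) * CR n k) =
    (1 - X * tt) ^ k := by
  induction k with
  | zero => rw [CR_zero, pow_zero]
  | succ k ih =>
    rw [CR_succ, pow_succ (1 - X * tt) k, ← ih]
    ring

theorem TR_final (n : ℕ) : (1 - tt) ^ (2 * n + 4) * ((1 - X) ^ (2 * n + 1) * TR n (n + 1)) =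
    (1 - X * tt) ^ (2 * n) := by
  have h1 : 2 * n + 1 = n + (n + 1) := by ring
  rw [h1, TR_eq, Finset.mul_sum, ← wsum tt X n]
  refine Finset.sum_congr rfl fun μ hμ => ?_
  have hμ' : μ ≤ n := by
    have := Finset.mem_range.1 hμ
    omega
  exact QR_eq hμ'

theorem TR_eq_CR (n : ℕ) : TR n (n + 1) = CR n (2 * n) := by
  have h := (TR_final n).trans (CR_eq n (2 * n)).symm
  have h1 : (1 - tt) ^ (2 * n + 4) ≠ 0 := by
    apply pow_ne_zero
    intro h
    have := congrArg (coeff (R := ℤ) 0) (congrArg (coeff (R := PowerSeries ℤ) 0) h)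
    simp [tt] at this
  have h2 : (1 - X : PowerSeries (PowerSeries ℤ)) ^ (2 * n + 1) ≠ 0 := by
    apply pow_ne_zero
    intro h
    have := congrArg (coeff (R := ℤ) 0) (congrArg (coeff (R := PowerSeries ℤ) 0) h)
    simp at this
  exact mul_left_cancel₀ h2 (mul_left_cancel₀ h1 h)

end asm

/-- the telescoping identity -/
theorem tr_eq_ci (n a b : ℕ) : tr n (n + 1) a b = ci n (2 * n) a b := by
  have h := congrArg (PowerSeries.coeff (R := ℤ) b)
    (congrArg (PowerSeries.coeff (R := PowerSeries ℤ) a) (TR_eq_CR n))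
  simpa [TR, CR] using h

end HK
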