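import Pool.Agent.HK.StepBAux

/-! # Module StepB: blueprint (5d), (5f), (5g) -/

namespace HK

open MvPolynomial Finset

/-! ### additive functions of exponents -/

theorem sb_sum_lower {n : ℕ} (φ : Fin (n + 2) ⊕ Fin (n + 2) → ℤ) (C : ℤ) (h : ∀ v, -C ≤ φ v)
    (w : (Fin (n + 2) ⊕ Fin (n + 2)) →₀ ℕ) :
    0 ≤ (w.sum fun v e => (e : ℤ) * φ v) + C * w.degree := by
  rw [Finsupp.sum, Finsupp.degree_apply]
  push_cast
  rw [Finset.mul_sum, ← Finset.sum_add_distrib]
  refine Finset.sum_nonneg fun v _ => ?_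
  have h1 := h v
  have h4 : (0 : ℤ) ≤ (w v : ℤ) := by positivity
  nlinarith

theorem sb_sum_add {n : ℕ} (φ : Fin (n + 2) ⊕ Fin (n + 2) → ℤ)
    (w w' : (Fin (n + 2) ⊕ Fin (n + 2)) →₀ ℕ) :
    ((w + w').sum fun v e => (e : ℤ) * φ v) =
      (w.sum fun v e => (e : ℤ) * φ v) + (w'.sum fun v e => (e : ℤ) * φ v) :=
  Finsupp.sum_add_index' (fun v => by simp) (fun v e e' => by push_cast; ring)

theorem sb_sum_single {n : ℕ} (φ : Fin (n + 2) ⊕ Fin (n + 2) → ℤ) (v : Fin (n + 2) ⊕ Fin (n + 2)) :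
    ((Finsupp.single v 1 : (Fin (n + 2) ⊕ Fin (n + 2)) →₀ ℕ).sum fun v e => (e : ℤ) * φ v) =
      φ v := by
  rw [Finsupp.sum_single_index (by simp)]
  simp

theorem sb_sum_gm {n μ : ℕ} (φ : Fin (n + 2) ⊕ Fin (n + 2) → ℤ) (ρ : Fin (2 * μ) → ℤ) :
    ((gm n μ ρ).sum fun v e => (e : ℤ) * φ v) = ∑ a, φ (sbV n μ ρ a) := by
  rw [sb_gm]
  rw [← Finsupp.sum_finsetSum_index (fun v => by simp) (fun v e e' => by push_cast; ring)]
  exact Finset.sum_congr rfl fun a _ => sb_sum_single φ _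

theorem sb_degree_gm {n μ : ℕ} (ρ : Fin (2 * μ) → ℤ) : (gm n μ ρ).degree = 2 * μ := by
  rw [sb_gm, map_sum]
  simp [Finsupp.degree_single]

theorem sb_mem_gm {n μ : ℕ} {ρ : Fin (2 * μ) → ℤ} {v : Fin (n + 2) ⊕ Fin (n + 2)} :
    v ∈ (gm n μ ρ).support ↔ ∃ a, sbV n μ ρ a = v := by
  rw [sb_gm, Finsupp.mem_support_iff, Finsupp.finsetSum_apply]
  constructor
  · intro h
    obtain ⟨a, _, ha⟩ := Finset.exists_ne_zero_of_sum_ne_zero h
    refine ⟨a, ?_⟩
    by_contra hne
    exact ha (Finsupp.single_eq_of_ne (fun h => hne h.symm))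
  · rintro ⟨a, rfl⟩ h
    rw [Finset.sum_eq_zero_iff] at h
    have := h a (mem_univ _)
    simp at this

/-- index of a variable, with sign -/
def sbix {n : ℕ} : Fin (n + 2) ⊕ Fin (n + 2) → ℤ
  | Sum.inl i => (i : ℕ)
  | Sum.inr i => -((i : ℕ) : ℤ)

/-- the second coordinate decreases -/
theorem sb_second {n μ : ℕ} (hμ : 1 ≤ μ) {ρ ρ' : Fin (2 * μ) → ℤ} (hρ : StrictMono ρ)
    (h : ∀ a, 0 ≤ ρ a ∧ ρ a < (n : ℤ) + μ) (hρ' : StrictMono ρ')
    (h' : ∀ a, 0 ≤ ρ' a ∧ ρ' a < (n : ℤ) + μ) {v v' : Fin (n + 2) ⊕ Fin (n + 2)}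
    (hv : ¬ good n μ ρ v) (hv' : good n μ ρ' v')
    (heq : Finsupp.single v' 1 + gm n μ ρ' = Finsupp.single v 1 + gm n μ ρ) :
    ((gm n μ ρ').sum fun v e => (e : ℤ) * sbix v) <
      ((gm n μ ρ).sum fun v e => (e : ℤ) * sbix v) := by
  -- `v` and `v'` have the same type
  have hcnt : ∀ (ρ : Fin (2 * μ) → ℤ), ((gm n μ ρ).sum fun v e =>
      (e : ℤ) * (Sum.elim (fun _ => 1) (fun _ => 0) v : ℤ)) =
        ∑ a : Fin (2 * μ), if (a : ℕ) < μ then 1 else 0 := by
    intro ρ
    rw [sb_sum_gm (fun v => (Sum.elim (fun _ => 1) (fun _ => 0) v : ℤ))]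
    refine Finset.sum_congr rfl fun a _ => ?_
    unfold sbV
    split_ifs <;> simp
  have h1 := congrArg (fun w : (Fin (n + 2) ⊕ Fin (n + 2)) →₀ ℕ =>
    w.sum fun v e => (e : ℤ) * (Sum.elim (fun _ => 1) (fun _ => 0) v : ℤ)) heq
  rw [sb_sum_add, sb_sum_add, sb_sum_single, sb_sum_single, hcnt, hcnt, add_left_inj] at h1
  -- it is enough to compare `v` and `v'`
  have h2 := congrArg (fun w : (Fin (n + 2) ⊕ Fin (n + 2)) →₀ ℕ =>
    w.sum fun v e => (e : ℤ) * sbix v) heq
  rw [sb_sum_add, sb_sum_add, sb_sum_single, sb_sum_single] at h2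
  suffices h3 : sbix v < sbix v' by omega
  have hsub : ∀ x ∈ (gm n μ ρ).support, x = v' ∨ x ∈ (gm n μ ρ').support := by
    intro x hx
    have hx2 : x ∈ (Finsupp.single v' 1 + gm n μ ρ').support := by
      rw [heq, Finsupp.mem_support_iff, Finsupp.add_apply]
      have := Finsupp.mem_support_iff.1 hx
      omega
    have hx3 := Finsupp.support_add hx2
    rw [mem_union] at hx3
    rcases hx3 with hx3 | hx3
    · left
      exact Finset.mem_singleton.1 (Finsupp.support_single_subset hx3)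
    · exact Or.inr hx3
  match v, v' with
  | Sum.inl c, Sum.inl c' =>
    rw [sb_good_inl hμ hρ, not_le] at hv
    rw [sb_good_inl hμ hρ'] at hv'
    simp only [sbix]
    obtain ⟨x, hx1, hx2⟩ := sbV_lt hρ h ⟨μ - 1, by omega⟩ (by simp only; omega)
    have hx3 := hsub (Sum.inl x) (sb_mem_gm.2 ⟨_, hx1⟩)
    simp only at hx2
    rcases hx3 with hx3 | hx3
    · rw [Sum.inl.injEq] at hx3
      subst hx3
      push_cast [hμ] at hx2
      omega
    · obtain ⟨a, ha⟩ := sb_mem_gm.1 hx3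
      by_cases haμ : (a : ℕ) < μ
      · obtain ⟨y, hy1, hy2⟩ := sbV_lt hρ' h' a haμ
        rw [ha, Sum.inl.injEq] at hy1
        subst hy1
        have h5 := sb_diff hρ' (a := a) (b := ⟨μ - 1, by omega⟩) (by
          rw [Fin.le_def]; simp only; omega)
        simp only at h5
        push_cast [hμ] at hx2 h5
        omega
      · obtain ⟨y, hy1, hy2⟩ := sbV_ge hρ' h' a (by omega)
        rw [ha] at hy1
        exact absurd hy1 (by simp)
  | Sum.inr c, Sum.inr c' =>
    rw [sb_good_inr hμ hρ, not_or, not_le] at hv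
    rw [sb_good_inr hμ hρ'] at hv'
    simp only [sbix]
    have hc' : ((c' : ℕ) : ℤ) ≤ ρ' ⟨μ, by omega⟩ := by
      rcases hv' with hv' | hv'
      · exfalso
        have hx2 : Sum.inr c' ∈ (Finsupp.single (Sum.inr c) 1 + gm n μ ρ).support := by
          rw [← heq, Finsupp.mem_support_iff, Finsupp.add_apply, Finsupp.single_eq_same]
          omega
        have hx3 := Finsupp.support_add hx2
        rw [mem_union] at hx3
        rcases hx3 with hx3 | hx3
        · have h5 := Finset.mem_singleton.1 (Finsupp.support_single_subset hx3)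
          rw [Sum.inr.injEq] at h5
          subst h5
          exact hv.1 hv'
        · obtain ⟨a, ha⟩ := sb_mem_gm.1 hx3
          by_cases haμ : (a : ℕ) < μ
          · obtain ⟨y, hy1, hy2⟩ := sbV_lt hρ h a haμ
            rw [ha] at hy1
            exact absurd hy1 (by simp)
          · obtain ⟨y, hy1, hy2⟩ := sbV_ge hρ h a (by omega)
            rw [ha, Sum.inr.injEq] at hy1
            subst hy1
            have h5 := sb_upper hρ (fun a => (h a).2) a
            omega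
      · exact hv'
    obtain ⟨x, hx1, hx2⟩ := sbV_ge hρ h ⟨μ, by omega⟩ (by simp)
    have hx3 := hsub (Sum.inr x) (sb_mem_gm.2 ⟨_, hx1⟩)
    simp only at hx2
    rcases hx3 with hx3 | hx3
    · rw [Sum.inr.injEq] at hx3
      subst hx3
      omega
    · obtain ⟨a, ha⟩ := sb_mem_gm.1 hx3
      by_cases haμ : (a : ℕ) < μ
      · obtain ⟨y, hy1, hy2⟩ := sbV_lt hρ' h' a haμ
        rw [ha] at hy1
        exact absurd hy1 (by simp)
      · obtain ⟨y, hy1, hy2⟩ := sbV_ge hρ' h' a (by omega)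
        rw [ha, Sum.inr.injEq] at hy1
        subst hy1
        have h5 := sb_diff hρ' (a := ⟨μ, by omega⟩) (b := a) (by
          rw [Fin.le_def]; simp only; omega)
        simp only at h5
        omega
  | Sum.inl c, Sum.inr c' => simp at h1
  | Sum.inr c, Sum.inl c' => simp at h1

/-! ### straightening -/

theorem sb_canon (K : Type*) [Field K] (n μ d : ℕ) (hμ : 1 ≤ μ) (hn : μ ≤ n) :
    ∀ (A B : ℕ) (ρ : Fin (2 * μ) → ℤ) (u : (Fin (n + 2) ⊕ Fin (n + 2)) →₀ ℕ),
      StrictMono ρ → (∀ a, 0 ≤ ρ a ∧ ρ a < (n : ℤ) + μ) → u.degree = d →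
      (sbW n (u + gm n μ ρ) + ((n + 1) ^ 2 + (n + 2) * (n + 1)) * (d + 2 * μ)).toNat = A →
      (((gm n μ ρ).sum fun v e => (e : ℤ) * sbix v) + (n + 1) * (2 * μ)).toNat = B →
      mono K n u * D K n μ ρ ∈
        Submodule.span K ((fun x => mono K n x.2 * D K n μ x.1) '' CP n μ 0 (2 * μ + d)) := by
  intro A
  induction A using Nat.strong_induction_on with
  | _ A ihA =>
  intro B
  induction B using Nat.strong_induction_on with
  | _ B ihB =>
  intro ρ u hρ hr hu hA hB
  by_cases hg : ∀ v ∈ u.support, good n μ ρ v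
  · refine Submodule.subset_span ⟨(ρ, u), ⟨hρ, ?_, by omega, ?_, ?_⟩, rfl⟩
    · intro a
      exact ⟨by simpa using (hr a).1, (hr a).2⟩
    · rw [hu]; omega
    · exact fun v hv => ⟨hg v hv, Nat.zero_le _⟩
  · push Not at hg
    obtain ⟨v, hv, hvg⟩ := hg
    obtain ⟨u1, rfl⟩ : ∃ u1, u = u1 + Finsupp.single v 1 := by
      refine ⟨u - Finsupp.single v 1, ?_⟩
      ext x
      rw [Finsupp.add_apply, Finsupp.tsub_apply]
      by_cases hx : x = v
      · subst hx
        have := Finsupp.mem_support_iff.1 hv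
        rw [Finsupp.single_eq_same]
        omega
      · rw [Finsupp.single_eq_of_ne hx]
        omega
    have hst := stepA K n μ hμ hn ρ v
    have hset : {f : SB K n | ∃ (ρ' : Fin (2 * μ) → ℤ) (v' : Fin (n + 2) ⊕ Fin (n + 2)),
        StrictMono ρ' ∧ (∀ a, 0 ≤ ρ' a ∧ ρ' a < (n : ℤ) + μ) ∧ good n μ ρ' v' ∧
        f = X (Sum.inr v') * D K n μ ρ'} =
        (fun x : (Fin (2 * μ) → ℤ) × (Fin (n + 2) ⊕ Fin (n + 2)) =>
          (X (Sum.inr x.2) * D K n μ x.1 : SB K n)) '' {x | StrictMono x.1 ∧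
            (∀ a, 0 ≤ x.1 a ∧ x.1 a < (n : ℤ) + μ) ∧ good n μ x.1 x.2} := by
      ext f
      constructor
      · rintro ⟨ρ', v', h1, h2, h3, rfl⟩
        exact ⟨(ρ', v'), ⟨h1, h2, h3⟩, rfl⟩
      · rintro ⟨⟨ρ', v'⟩, ⟨h1, h2, h3⟩, rfl⟩
        exact ⟨ρ', v', h1, h2, h3, rfl⟩
    rw [hset, Finsupp.mem_span_image_iff_linearCombination] at hst
    obtain ⟨l, hl, hls⟩ := hst
    rw [Finsupp.mem_supported] at hl
    rw [Finsupp.linearCombination_apply, Finsupp.sum] at hls
    have htop : ∀ (ρ' : Fin (2 * μ) → ℤ) (v' : Fin (n + 2) ⊕ Fin (n + 2)), StrictMono ρ' →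
        (∀ a, 0 ≤ ρ' a ∧ ρ' a < (n : ℤ) + μ) → Top (lw n) (X (Sum.inr v') * D K n μ ρ')
          ((Finsupp.single v' 1 + gm n μ ρ').mapDomain Sum.inr) := by
      intro ρ' v' h1 h2
      have h3 := top_mono_mul (lw n) _ _ (top_D K n μ (by omega) ρ' h1 h2) (Finsupp.single v' 1)
      rw [sb_mono_single, ← Finsupp.mapDomain_add] at h3
      exact h3
    have hkey : ∀ x ∈ l.support, mono K n (u1 + Finsupp.single x.2 1) * D K n μ x.1 ∈
        Submodule.span K ((fun x => mono K n x.2 * D K n μ x.1) '' CP n μ 0 (2 * μ + d)) := by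
      intro x hx
      have hxT := hl hx
      have hdeg : (u1 + Finsupp.single x.2 1).degree = d := by
        rw [map_add, Finsupp.degree_single] at hu ⊢
        exact hu
      have hcmp := sb_top_sum (lw n) l.support l
        (fun x : (Fin (2 * μ) → ℤ) × (Fin (n + 2) ⊕ Fin (n + 2)) =>
          (X (Sum.inr x.2) * D K n μ x.1 : SB K n))
        (fun x => (Finsupp.single x.2 1 + gm n μ x.1).mapDomain Sum.inr)
        (fun i hi => htop _ _ (hl hi).1 (hl hi).2.1)
        (fun i hi => Finsupp.mem_support_iff.1 hi)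
        (by
          intro y hy y' hy' hyy
          simp only at hyy
          have h1 := Finsupp.mapDomain_injective Sum.inr_injective hyy
          have h2 := CP_inj n μ (2 * μ + 1) (y.1, Finsupp.single y.2 1)
            (y'.1, Finsupp.single y'.2 1)
            ⟨(hl hy).1, fun a => ⟨by simpa using ((hl hy).2.1 a).1, ((hl hy).2.1 a).2⟩, by omega,
              by simp only [Finsupp.degree_single]; omega, fun v hv => by
                have := Finset.mem_singleton.1 (Finsupp.support_single_subset hv)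
                rw [this]
                exact ⟨(hl hy).2.2, Nat.zero_le _⟩⟩
            ⟨(hl hy').1, fun a => ⟨by simpa using ((hl hy').2.1 a).1, ((hl hy').2.1 a).2⟩,
              by omega, by simp only [Finsupp.degree_single]; omega, fun v hv => by
                have := Finset.mem_singleton.1 (Finsupp.support_single_subset hv)
                rw [this]
                exact ⟨(hl hy').2.2, Nat.zero_le _⟩⟩ h1
          rw [Prod.mk.injEq] at h2
          exact Prod.ext h2.1 (Finsupp.single_left_injective one_ne_zero h2.2))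
        (X (Sum.inr v) * D K n μ ρ) _ (htop ρ v hρ hr) hls.symm x hx
      have hnnA : ∀ (ρ' : Fin (2 * μ) → ℤ) (v' : Fin (n + 2) ⊕ Fin (n + 2)),
          0 ≤ sbW n (u1 + Finsupp.single v' 1 + gm n μ ρ') +
            ((n + 1) ^ 2 + (n + 2) * (n + 1)) * (d + 2 * μ) := by
        intro ρ' v'
        have h1 := sbW_lower n (u1 + Finsupp.single v' 1 + gm n μ ρ')
        have h2 : (u1 + Finsupp.single v' 1 + gm n μ ρ').degree = d + 2 * μ := by
          rw [map_add, map_add, Finsupp.degree_single, sb_degree_gm]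
          rw [map_add, Finsupp.degree_single] at hu
          omega
        rw [h2] at h1
        exact_mod_cast h1
      have hnnB : ∀ (ρ' : Fin (2 * μ) → ℤ),
          0 ≤ ((gm n μ ρ').sum fun v e => (e : ℤ) * sbix v) + (n + 1) * (2 * μ) := by
        intro ρ'
        have h1 := sb_sum_lower (n := n) sbix (n + 1) (by
          intro v
          cases v with
          | inl i => simp only [sbix]; omega
          | inr i => simp only [sbix]; have := i.2; omega) (gm n μ ρ')
        rw [sb_degree_gm] at h1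
        exact_mod_cast h1
      have hA1 := hnnA ρ v
      have hA2 := hnnA x.1 x.2
      rcases hcmp with hcmp | hcmp
      · have h1 := Finsupp.mapDomain_injective Sum.inr_injective hcmp
        have h2 := sb_second hμ hρ hr hxT.1 hxT.2.1 hvg hxT.2.2 h1
        have hB1 := hnnB ρ
        have hB2 := hnnB x.1
        refine ihB _ ?_ x.1 _ hxT.1 hxT.2.1 hdeg ?_ rfl
        · rw [← hB]
          omega
        · rw [← hA, add_assoc u1, h1, ← add_assoc]
      · rw [sbW_mapDomain, sbW_mapDomain] at hcmp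
        refine ihA _ ?_ _ x.1 _ hxT.1 hxT.2.1 hdeg rfl rfl
        rw [← hA]
        have h3 : sbW n (u1 + Finsupp.single x.2 1 + gm n μ x.1) <
            sbW n (u1 + Finsupp.single v 1 + gm n μ ρ) := by
          rw [add_assoc, add_assoc, sbW_add, sbW_add n u1]
          omega
        omega
    have h1 : mono K n (u1 + Finsupp.single v 1) * D K n μ ρ =
        ∑ x ∈ l.support, l x • (mono K n (u1 + Finsupp.single x.2 1) * D K n μ x.1) := by
      rw [← sb_mono_mul, sb_mono_single, mul_assoc, ← hls, Finset.mul_sum]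
      refine Finset.sum_congr rfl fun x _ => ?_
      rw [← sb_mono_mul, sb_mono_single, mul_smul_comm, mul_assoc]
    rw [h1]
    exact Submodule.sum_mem _ fun x hx => Submodule.smul_mem _ _ (hkey x hx)

/-- (5d) -/
theorem Vs_eq_span (K : Type*) [Field K] (n μ b : ℕ) :
    Vs K n μ b = Submodule.span K ((fun x => mono K n x.2 * D K n μ x.1) '' CP n μ 0 b) := by
  refine le_antisymm ?_ ?_
  · unfold Vs
    rw [Submodule.span_le]
    rintro _ ⟨u, ρ, hb, hu, rfl⟩
    have h1 : bih K n 0 (b - 2 * μ) ≤ Submodule.comap (LinearMap.mulRight K (D K n μ ρ))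
        (Submodule.span K ((fun x => mono K n x.2 * D K n μ x.1) '' CP n μ 0 b)) := by
      refine (sb_bih_le K n _).trans ?_
      rw [Submodule.span_le]
      rintro _ ⟨u, hu, rfl⟩
      rw [SetLike.mem_coe, Submodule.mem_comap, LinearMap.mulRight_apply]
      rcases sb_D_sort K n μ ρ with h0 | ⟨ρ', h1, h2, ⟨s, h3⟩, _⟩
      · rw [h0, mul_zero]; exact Submodule.zero_mem _
      · rw [h3, mul_smul_comm]
        refine zsmul_mem ?_ s
        rcases Nat.eq_zero_or_pos μ with rfl | hμ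
        · refine Submodule.subset_span ⟨(ρ', u), ⟨h1, fun a => a.elim0, by omega, hu, ?_⟩, rfl⟩
          intro v hv
          refine ⟨?_, Nat.zero_le _⟩
          cases v with
          | inl c => exact Nat.zero_le _
          | inr c => exact Or.inr (Nat.zero_le _)
        · have h4 : μ ≤ n := by
            have h5 := sb_upper h1 (fun a => (h2 a).2) ⟨0, by omega⟩
            have h6 := (h2 ⟨0, by omega⟩).1
            simp only at h5
            push_cast at h5
            omega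
          have h5 := sb_canon K n μ (b - 2 * μ) hμ h4 _ _ ρ' u h1 h2 hu rfl rfl
          rwa [show 2 * μ + (b - 2 * μ) = b by omega] at h5
    exact h1 hu
  · rw [Submodule.span_le]
    rintro _ ⟨⟨ρ, u⟩, ⟨h1, h2, h3, h4, h5⟩, rfl⟩
    exact Submodule.subset_span ⟨mono K n u, ρ, h3, sb_mono_mem_bih K n u h4, rfl⟩

/-! ### dimensions -/

theorem sb_Vs_fd (K : Type*) [Field K] (n μ b : ℕ) : FiniteDimensional K (Vs K n μ b) := by
  rw [Vs_eq_span]
  exact FiniteDimensional.span_of_finite K ((CP_finite n μ 0 b).image _)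

theorem sb_finrank_le (K : Type*) [Field K] (n μ b : ℕ) :
    Module.finrank K (Vs K n μ b) ≤ (CP n μ 0 b).ncard := by
  classical
  rw [Vs_eq_span]
  have h1 : ((fun x => mono K n x.2 * D K n μ x.1) '' CP n μ 0 b) =
      (((CP_finite n μ 0 b).toFinset.image fun x => mono K n x.2 * D K n μ x.1 : Finset (SB K n)) :
        Set (SB K n)) := by
    simp
  rw [h1]
  refine (finrank_span_finset_le_card _).trans (Finset.card_image_le.trans ?_)
  rw [Set.ncard_eq_toFinset_card _ (CP_finite n μ 0 b)]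

theorem sb_card_le {K : Type*} [Field K] {n : ℕ} (wgt : Vr n → ℤ) {ι : Type*} [Finite ι]
    (f : ι → SB K n) (w : ι → Vr n →₀ ℕ) (h : ∀ i, Top wgt (f i) (w i))
    (hw : Function.Injective w) (W : Submodule K (SB K n)) [FiniteDimensional K W]
    (hW : ∀ i, f i ∈ W) : Nat.card ι ≤ Module.finrank K W := by
  have := Fintype.ofFinite ι
  have h1 := linearIndependent_of_top wgt f w h hw
  rw [Nat.card_eq_fintype_card, ← finrank_span_eq_card h1]
  refine Submodule.finrank_mono ?_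
  rw [Submodule.span_le]
  rintro _ ⟨i, rfl⟩
  exact hW i

theorem sb_CP_mono (n μ k b : ℕ) : CP n μ k b ⊆ CP n μ 0 b := by
  rintro x ⟨h1, h2, h3, h4, h5⟩
  refine ⟨h1, fun a => ⟨?_, (h2 a).2⟩, h3, h4, fun v hv => ⟨(h5 v hv).1, Nat.zero_le _⟩⟩
  have := (h2 a).1
  push_cast
  omega

/-- a pair of `CP n μ 0 b` outside `CP n μ k b` has a row or a variable of index `< k` -/
theorem sb_not_CP (n μ k b : ℕ) {x : (Fin (2 * μ) → ℤ) × ((Fin (n + 2) ⊕ Fin (n + 2)) →₀ ℕ)}
    (hx : x ∈ CP n μ 0 b) (hx' : x ∉ CP n μ k b) :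
    (∃ a, x.1 a < k) ∨ ((∀ a, (k : ℤ) ≤ x.1 a) ∧ ∃ v ∈ x.2.support, vidx v < k) := by
  by_cases h1 : ∃ a, x.1 a < k
  · exact Or.inl h1
  · right
    push Not at h1
    refine ⟨h1, ?_⟩
    by_contra h2
    push Not at h2
    exact hx' ⟨hx.1, fun a => ⟨h1 a, (hx.2.1 a).2⟩, hx.2.2.1, hx.2.2.2.1,
      fun v hv => ⟨(hx.2.2.2.2 v hv).1, h2 v hv⟩⟩

theorem sb_CP_row (n μ b : ℕ) {x : (Fin (2 * μ) → ℤ) × ((Fin (n + 2) ⊕ Fin (n + 2)) →₀ ℕ)}
    (hx : x ∈ CP n μ 0 b) : ∀ a, 0 ≤ x.1 a ∧ x.1 a < (n : ℤ) + μ :=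
  fun a => ⟨by simpa using (hx.2.1 a).1, (hx.2.1 a).2⟩

theorem sb_CP_le (n μ b : ℕ) {x : (Fin (2 * μ) → ℤ) × ((Fin (n + 2) ⊕ Fin (n + 2)) →₀ ℕ)}
    (hx : x ∈ CP n μ 0 b) : μ ≤ n := by
  rcases Nat.eq_zero_or_pos μ with rfl | hμ
  · exact Nat.zero_le _
  · have h2 := sb_CP_row n μ b hx
    have h5 := sb_upper hx.1 (fun a => (h2 a).2) ⟨0, by omega⟩
    have h6 := (h2 ⟨0, by omega⟩).1
    simp only at h5
    push_cast at h5
    omega

theorem sb_top_CP (K : Type*) [Field K] (n μ b : ℕ)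
    {x : (Fin (2 * μ) → ℤ) × ((Fin (n + 2) ⊕ Fin (n + 2)) →₀ ℕ)}
    (hx : x ∈ CP n μ 0 b) : Top (lw n) (mono K n x.2 * D K n μ x.1)
      ((x.2 + gm n μ x.1).mapDomain Sum.inr) := by
  have h1 := sb_CP_le n μ b hx
  have h3 := top_mono_mul (lw n) _ _ (top_D K n μ (by omega) x.1 hx.1 (sb_CP_row n μ b hx)) x.2
  rw [← Finsupp.mapDomain_add] at h3
  exact h3

theorem sb_core (K : Type*) [Field K] (n μ b k : ℕ) (hk : k ≤ n) (W : Submodule K (SB K n))
    [FiniteDimensional K W]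
    (h1 : ∀ x ∈ CP n μ 0 b, x ∉ CP n μ k b → mono K n x.2 * D K n μ x.1 ∈ W)
    (h2 : ∀ x ∈ CP n (μ + 1) k b, mono K n x.2 * D K n (μ + 1) x.1 ∈ W) :
    (Module.finrank K (Vs K n μ b) : ℤ) - Module.finrank K W ≤ eU n μ b k := by
  have hf1 := CP_finite n μ 0 b
  have hf2 := CP_finite n (μ + 1) k b
  have : Finite ↥(CP n μ 0 b \ CP n μ k b) := (hf1.subset Set.sdiff_subset).to_subtype
  have : Finite ↥(CP n (μ + 1) k b) := hf2.to_subtype
  have hidx1 : ∀ x ∈ CP n μ 0 b, x ∉ CP n μ k b →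
      ∃ v ∈ (x.2 + gm n μ x.1).support, vidx v < k := by
    intro x hx hx'
    rcases sb_not_CP n μ k b hx hx' with ⟨a, ha⟩ | ⟨_, v, hv, hvk⟩
    · obtain ⟨v, hv, hvk⟩ := exists_vidx_gm_lt n μ k x.1 hx.1 (sb_CP_row n μ b hx) a ha
      refine ⟨v, ?_, hvk⟩
      rw [Finsupp.mem_support_iff] at hv ⊢
      rw [Finsupp.add_apply]
      omega
    · refine ⟨v, ?_, hvk⟩
      rw [Finsupp.mem_support_iff] at hv ⊢
      rw [Finsupp.add_apply]
      omega
  have hidx2 : ∀ x ∈ CP n (μ + 1) k b, ∀ v ∈ (x.2 + gm n (μ + 1) x.1).support, k ≤ vidx v := by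
    intro x hx v hv
    have hv2 := Finsupp.support_add hv
    rw [mem_union] at hv2
    rcases hv2 with hv2 | hv2
    · exact (hx.2.2.2.2 v hv2).2
    · exact le_vidx_gm n (μ + 1) k x.1 hx.1 hx.2.1 v hv2
  have hcard := sb_card_le (lw n) (ι := ↥(CP n μ 0 b \ CP n μ k b) ⊕ ↥(CP n (μ + 1) k b))
    (Sum.elim (fun x => mono K n x.1.2 * D K n μ x.1.1)
      (fun x => mono K n x.1.2 * D K n (μ + 1) x.1.1))
    (Sum.elim (fun x => (x.1.2 + gm n μ x.1.1).mapDomain Sum.inr)
      (fun x => (x.1.2 + gm n (μ + 1) x.1.1).mapDomain Sum.inr))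
    (by
      rintro (x | x)
      · exact sb_top_CP K n μ b x.2.1
      · exact sb_top_CP K n (μ + 1) b (sb_CP_mono _ _ _ _ x.2))
    (by
      rintro (x | x) (y | y) hxy
      · have h3 := Finsupp.mapDomain_injective Sum.inr_injective hxy
        exact congrArg Sum.inl (Subtype.ext (CP_inj n μ b _ _ x.2.1 y.2.1 h3))
      · exfalso
        have h3 : x.1.2 + gm n μ x.1.1 = y.1.2 + gm n (μ + 1) y.1.1 :=
          Finsupp.mapDomain_injective Sum.inr_injective hxy
        obtain ⟨v, hv, hvk⟩ := hidx1 x.1 x.2.1 x.2.2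
        rw [h3] at hv
        have := hidx2 y.1 y.2 v hv
        omega
      · exfalso
        have h3 : x.1.2 + gm n (μ + 1) x.1.1 = y.1.2 + gm n μ y.1.1 :=
          Finsupp.mapDomain_injective Sum.inr_injective hxy
        obtain ⟨v, hv, hvk⟩ := hidx1 y.1 y.2.1 y.2.2
        rw [← h3] at hv
        have := hidx2 x.1 x.2 v hv
        omega
      · have h3 := Finsupp.mapDomain_injective Sum.inr_injective hxy
        exact congrArg Sum.inr (Subtype.ext (CP_inj n (μ + 1) b _ _ (sb_CP_mono _ _ _ _ x.2)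
          (sb_CP_mono _ _ _ _ y.2) h3)))
    W
    (by
      rintro (x | x)
      · exact h1 _ x.2.1 x.2.2
      · exact h2 _ x.2)
  rw [Nat.card_sum, Nat.card_coe_set_eq, Nat.card_coe_set_eq] at hcard
  have h3 := Set.ncard_sdiff_add_ncard_of_subset (sb_CP_mono n μ k b) hf1
  have h4 := sb_finrank_le K n μ b
  have h5 := card_CP n μ k b hk
  have h6 := card_CP n (μ + 1) k b hk
  rw [eU, if_pos hk, qn, ← h5, ← h6]
  omega

theorem sb_ent (K : Type*) [Field K] (n μ : ℕ) (r : ℤ) (c : ℕ) :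
    ent K n μ r c = 0 ∨ ∃ v, ent K n μ r c = X (Sum.inr v) := by
  unfold ent
  split_ifs with h1 h2
  · unfold pp
    split_ifs
    · exact Or.inr ⟨_, rfl⟩
    · exact Or.inl rfl
  · unfold qq
    split_ifs
    · exact Or.inr ⟨_, rfl⟩
    · exact Or.inl rfl
  · exact Or.inl rfl

theorem sb_Vlow_le (K : Type*) [Field K] (n μ k b : ℕ) : Vlow K n μ k b ≤ Vs K n μ b := by
  unfold Vlow
  rw [Submodule.span_le]
  rintro _ ⟨u, ρ, hb, hu, _, rfl⟩
  exact Submodule.subset_span ⟨u, ρ, hb, hu, rfl⟩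

/-- a product of a monomial with a variable of index `i < k` and `D_μ(ρ)` is in `Vlow` -/
theorem sb_mem_Vlow (K : Type*) [Field K] (n μ k b : ℕ) (hμ : 1 ≤ μ) (hk : k ≤ n)
    (hb : 2 * μ ≤ b) (ρ : Fin (2 * μ) → ℤ) (u : (Fin (n + 2) ⊕ Fin (n + 2)) →₀ ℕ)
    (hu : u.degree = b - 2 * μ) (v : Fin (n + 2) ⊕ Fin (n + 2)) (hv : v ∈ u.support)
    (hvk : vidx v < k) : mono K n u * D K n μ ρ ∈ Vlow K n μ k b := by
  obtain ⟨u1, rfl⟩ : ∃ u1, u = u1 + Finsupp.single v 1 := by
    refine ⟨u - Finsupp.single v 1, ?_⟩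
    ext x
    rw [Finsupp.add_apply, Finsupp.tsub_apply]
    by_cases hx : x = v
    · subst hx
      have := Finsupp.mem_support_iff.1 hv
      rw [Finsupp.single_eq_same]
      omega
    · rw [Finsupp.single_eq_of_ne hx]
      omega
  rw [map_add, Finsupp.degree_single] at hu
  obtain ⟨c, hc, hcv⟩ : ∃ c < 2 * μ, ent K n μ (vidx v : ℤ) c = X (Sum.inr v) := by
    cases v with
    | inl i =>
      refine ⟨0, by omega, ?_⟩
      simp only [vidx] at hvk
      simp only [vidx]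
      unfold ent
      rw [if_pos ⟨by omega, by omega⟩, if_pos (by omega)]
      unfold pp
      rw [dif_pos ⟨by omega, by omega⟩]
      congr 3
    | inr i =>
      refine ⟨μ, by omega, ?_⟩
      simp only [vidx] at hvk
      simp only [vidx]
      unfold ent
      rw [if_pos ⟨by omega, by omega⟩, if_neg (by omega)]
      unfold qq
      rw [dif_pos ⟨by simp, by simp; omega⟩]
      congr 3
      ext
      simp
  have hrel := rel (K := K) n μ c hc (Fin.cons (vidx v : ℤ) ρ)
  rw [Fin.sum_univ_succ] at hrel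
  have h0 : (fun b : Fin (2 * μ) => (Fin.cons (vidx v : ℤ) ρ : Fin (2 * μ + 1) → ℤ)
      ((0 : Fin (2 * μ + 1)).succAbove b)) = ρ := by
    funext b
    rw [Fin.zero_succAbove, Fin.cons_succ]
  rw [h0, Fin.cons_zero, hcv] at hrel
  have h1 : (X (Sum.inr v) * D K n μ ρ : SB K n) =
      -∑ a : Fin (2 * μ), (-1 : SB K n) ^ ((a.succ : Fin (2 * μ + 1)) : ℕ) *
        ent K n μ ((Fin.cons (vidx v : ℤ) ρ : Fin (2 * μ + 1) → ℤ) a.succ) c *
        D K n μ (fun b => (Fin.cons (vidx v : ℤ) ρ : Fin (2 * μ + 1) → ℤ)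
          (a.succ.succAbove b)) := by
    rw [eq_neg_iff_add_eq_zero]
    simpa using hrel
  rw [← sb_mono_mul, sb_mono_single, mul_assoc, h1, mul_neg, Finset.mul_sum]
  refine Submodule.neg_mem _ (Submodule.sum_mem _ fun a _ => ?_)
  have h2 : mono K n u1 * ((-1 : SB K n) ^ ((a.succ : Fin (2 * μ + 1)) : ℕ) *
        ent K n μ ((Fin.cons (vidx v : ℤ) ρ : Fin (2 * μ + 1) → ℤ) a.succ) c *
        D K n μ (fun b => (Fin.cons (vidx v : ℤ) ρ : Fin (2 * μ + 1) → ℤ)
          (a.succ.succAbove b))) =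
      ((-1 : K) ^ ((a.succ : Fin (2 * μ + 1)) : ℕ)) • ((mono K n u1 *
        ent K n μ ((Fin.cons (vidx v : ℤ) ρ : Fin (2 * μ + 1) → ℤ) a.succ) c) *
        D K n μ (fun b => (Fin.cons (vidx v : ℤ) ρ : Fin (2 * μ + 1) → ℤ)
          (a.succ.succAbove b))) := by
    rw [smul_eq_C_mul, map_pow, map_neg, map_one]
    ring
  rw [h2]
  refine Submodule.smul_mem _ _ ?_
  rcases sb_ent K n μ ((Fin.cons (vidx v : ℤ) ρ : Fin (2 * μ + 1) → ℤ) a.succ) c with h3 | ⟨v', h3⟩
  · rw [h3, mul_zero, zero_mul]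
    exact Submodule.zero_mem _
  · rw [h3, ← sb_mono_single, sb_mono_mul]
    refine Submodule.subset_span ⟨_, _, hb, sb_mono_mem_bih K n _ ?_, ?_, rfl⟩
    · rw [map_add, Finsupp.degree_single]
      exact hu
    · refine ⟨⟨0, by omega⟩, ?_⟩
      have h4 : (a.succ).succAbove (⟨0, by omega⟩ : Fin (2 * μ)) = 0 := by
        rw [Fin.succAbove_of_castSucc_lt _ _ (by
          rw [Fin.lt_def]
          simp)]
        rfl
      rw [h4, Fin.cons_zero]
      omega

/-- (5g), `μ ≥ 1` -/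
theorem finrank_Vs (K : Type*) [Field K] (n μ b k : ℕ) (hμ : 1 ≤ μ) :
    (Module.finrank K (Vs K n μ b) : ℤ) -
      Module.finrank K (Vs K n (μ + 1) b ⊔ Vlow K n μ k b : Submodule K (SB K n)) ≤
      eU n μ b k := by
  have i1 := sb_Vs_fd K n μ b
  have i2 := sb_Vs_fd K n (μ + 1) b
  have i3 : FiniteDimensional K (Vlow K n μ k b) :=
    Submodule.finiteDimensional_of_le (sb_Vlow_le K n μ k b)
  by_cases hk : k ≤ n
  · refine sb_core K n μ b k hk _ ?_ ?_
    · intro x hx hx'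
      refine Submodule.mem_sup_right ?_
      rcases sb_not_CP n μ k b hx hx' with ⟨a, ha⟩ | ⟨_, v, hv, hvk⟩
      · exact Submodule.subset_span ⟨mono K n x.2, x.1, hx.2.2.1,
          sb_mono_mem_bih K n _ hx.2.2.2.1, ⟨a, (sb_CP_row n μ b hx a).1, ha⟩, rfl⟩
      · exact sb_mem_Vlow K n μ k b hμ hk hx.2.2.1 x.1 x.2 hx.2.2.2.1 v hv hvk
    · intro x hx
      exact Submodule.mem_sup_left (Submodule.subset_span ⟨mono K n x.2, x.1, hx.2.2.1,
        sb_mono_mem_bih K n _ hx.2.2.2.1, rfl⟩)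
  · rw [eU, if_neg hk]
    have h1 : Vs K n μ b ≤ Vs K n (μ + 1) b ⊔ Vlow K n μ k b := by
      refine le_trans ?_ le_sup_right
      rw [Vs_eq_span, Submodule.span_le]
      rintro _ ⟨x, hx, rfl⟩
      have h2 := sb_CP_row n μ b hx
      have h3 := sb_upper hx.1 (fun a => (h2 a).2) ⟨0, by omega⟩
      simp only at h3
      push_cast at h3
      exact Submodule.subset_span ⟨mono K n x.2, x.1, hx.2.2.1,
        sb_mono_mem_bih K n _ hx.2.2.2.1, ⟨⟨0, by omega⟩, (h2 _).1, by omega⟩, rfl⟩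
    have h2 := Submodule.finrank_mono h1
    omega

/-- (5g), `μ = 0` -/
theorem finrank_Vs0 (K : Type*) [Field K] (n b k : ℕ) (hk : k ≤ n) :
    (Module.finrank K (Vs K n 0 b) : ℤ) -
      Module.finrank K (Vs K n 1 b ⊔ Vlow0 K n k b : Submodule K (SB K n)) ≤
      eU n 0 b k := by
  have i1 := sb_Vs_fd K n 0 b
  have i2 := sb_Vs_fd K n 1 b
  have hD : ∀ ρ : Fin (2 * 0) → ℤ, D K n 0 ρ = 1 := by
    intro ρ
    have : IsEmpty (Fin (2 * 0)) := ⟨fun a => a.elim0⟩
    unfold D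
    exact Matrix.det_isEmpty
  have hle : Vlow0 K n k b ≤ Vs K n 0 b := by
    unfold Vlow0
    rw [Submodule.span_le]
    rintro f ⟨u, i, hi, hb, hu, hf⟩
    have hv : ∃ v, f = u * X (Sum.inr v) := by
      rcases hf with rfl | rfl
      · unfold pp
        rw [dif_pos ⟨by omega, by omega⟩]
        exact ⟨_, rfl⟩
      · unfold qq
        rw [dif_pos ⟨by omega, by omega⟩]
        exact ⟨_, rfl⟩
    obtain ⟨v, rfl⟩ := hv
    refine Submodule.subset_span ⟨u * X (Sum.inr v), fun _ => 0, by omega, ?_, ?_⟩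
    · have h1 : (X (Sum.inr v) : SB K n) ∈ bih K n 0 1 := by
        rw [← sb_mono_single]
        exact sb_mono_mem_bih K n _ (Finsupp.degree_single _ _)
      unfold bih at hu h1 ⊢
      rw [mem_weightedHomogeneousSubmodule] at hu h1 ⊢
      have h2 := hu.mul h1
      rwa [show ((0, b - 1) + (0, 1) : ℕ × ℕ) = (0, b - 2 * 0) by
        rw [Prod.mk_add_mk, Prod.mk.injEq]; omega] at h2
    · rw [hD, mul_one]
  have i3 : FiniteDimensional K (Vlow0 K n k b) := Submodule.finiteDimensional_of_le hle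
  refine sb_core K n 0 b k hk _ ?_ ?_
  · intro x hx hx'
    refine Submodule.mem_sup_right ?_
    rcases sb_not_CP n 0 k b hx hx' with ⟨a, _⟩ | ⟨_, v, hv, hvk⟩
    · exact a.elim0
    · rw [hD, mul_one]
      have hd := hx.2.2.2.1
      obtain ⟨u1, hu1⟩ : ∃ u1, x.2 = u1 + Finsupp.single v 1 := by
        refine ⟨x.2 - Finsupp.single v 1, ?_⟩
        ext y
        rw [Finsupp.add_apply, Finsupp.tsub_apply]
        by_cases hy : y = v
        · subst hy
          have := Finsupp.mem_support_iff.1 hv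
          rw [Finsupp.single_eq_same]
          omega
        · rw [Finsupp.single_eq_of_ne hy]
          omega
      rw [hu1, map_add, Finsupp.degree_single] at hd
      rw [hu1, ← sb_mono_mul, sb_mono_single]
      refine Submodule.subset_span ⟨mono K n u1, vidx v, hvk, by omega,
        sb_mono_mem_bih K n _ (by omega), ?_⟩
      cases v with
      | inl i =>
        left
        unfold pp
        rw [dif_pos ⟨by simp [vidx], by simp [vidx]; omega⟩]
        congr 4
      | inr i =>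
        right
        unfold qq
        rw [dif_pos ⟨by simp [vidx], by simp [vidx]; omega⟩]
        congr 4
  · intro x hx
    exact Submodule.mem_sup_left (Submodule.subset_span ⟨mono K n x.2, x.1, hx.2.2.1,
      sb_mono_mem_bih K n _ hx.2.2.2.1, rfl⟩)

end HK
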