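import Pool.Agent.HK.ChainAux
import Pool.Agent.HK.Num
import Pool.Agent.HK.CI
import Pool.Agent.HK.StepB
import Pool.Agent.HK.Loc

/-! # Module Chain: blueprint section 6 -/

namespace HK

open MvPolynomial Finset

section

variable {K : Type*} [Field K] {n : ℕ}

theorem D_zero (ρ : Fin (2 * 0) → ℤ) : D K n 0 ρ = 1 := by
  have : IsEmpty (Fin (2 * 0)) := ⟨fun x => absurd x.2 (by omega)⟩
  unfold D
  exact Matrix.det_isEmpty

theorem finite_of_le_bih {a b : ℕ} {U : Submodule K (SB K n)} (h : U ≤ bih K n a b) :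
    FiniteDimensional K U := Submodule.finiteDimensional_of_le h

theorem finrank_comap_bih {a b : ℕ} {U : Submodule K (SB K n)} (h : U ≤ bih K n a b) :
    Module.finrank K (U.comap (bih K n a b).subtype) = Module.finrank K U :=
  (Submodule.comapSubtypeEquivOfLe h).finrank_eq

/-- the bound for one step of the chain, from abstract data -/
theorem imgBound (μ b : ℕ) {C : Type*} (δ : ℕ → C → SB K n) (hδ : ∀ j c, δ j c ∈ Vs K n μ b)
    (hrel : ∀ (i : ℕ) (c : C), ∑ j ∈ range (n + μ - i), xx K n (i + j) * δ j c ∈ CC K n μ)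
    (e : ℕ → ℤ) (he : ∀ k ≤ n + μ, (Module.finrank K (Vs K n μ b) : ℤ) - Module.finrank K
      (Vs K n (μ + 1) b ⊔ Submodule.span K {v | ∃ j < k, ∃ c, v = δ j c} :
        Submodule K (SB K n)) ≤ e k) (a : ℕ) :
    (Module.finrank K ((gr K n (AA K n μ) a b).map (gr K n (CC K n μ) a b).mkQ) : ℤ) ≤
      uB (n + μ) a e := by
  have hVE : Vs K n μ b ≤ bih K n 0 b := Vs_le_bih μ b
  have hV0E : Vs K n (μ + 1) b ≤ bih K n 0 b := Vs_le_bih (μ + 1) b
  have h1 : (Module.finrank K (SUm K n μ b a) : ℤ) ≤ uB (n + μ) a e := by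
    refine lemmaU (W := fun a => bih K n a b ⧸ gr K n (CC K n μ) a b) (n + μ) (YY μ b)
      (YY_comm μ b) (gr K n (CC K n μ) 0 b).mkQ ((Vs K n (μ + 1) b).comap (bih K n 0 b).subtype)
      ((Vs K n μ b).comap (bih K n 0 b).subtype) (Submodule.comap_mono (Vs_le K n μ b)) ?_
      (fun j c => (⟨δ j c, hVE (hδ j c)⟩ : bih K n 0 b)) (fun j c => hδ j c) ?_ e ?_ a
    · intro v hv
      rw [Submodule.mkQ_apply, Submodule.Quotient.mk_eq_zero, mem_gr]
      exact Ideal.mem_sup_left (Vs_le_AA _ _ _ hv)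
    · intro i c
      have h2 : ∀ j : ℕ, YY μ b (i + j) 0 ((gr K n (CC K n μ) 0 b).mkQ
          (⟨δ j c, hVE (hδ j c)⟩ : bih K n 0 b)) = (gr K n (CC K n μ) (0 + 1) b).mkQ
          (mulB (xx K n ((i + j : ℕ) : ℤ)) (xx_mem _) 0 b ⟨δ j c, hVE (hδ j c)⟩) := fun j => rfl
      rw [Finset.sum_congr rfl fun j _ => h2 j, ← map_sum, Submodule.mkQ_apply,
        Submodule.Quotient.mk_eq_zero, mem_gr]
      have h3 : ((∑ j ∈ range (n + μ - i), mulB (xx K n ((i + j : ℕ) : ℤ)) (xx_mem _) 0 b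
          (⟨δ j c, hVE (hδ j c)⟩ : bih K n 0 b) : bih K n (0 + 1) b) : SB K n) =
          ∑ j ∈ range (n + μ - i), xx K n (i + j) * δ j c := by
        rw [AddSubmonoidClass.coe_finsetSum]
        apply Finset.sum_congr rfl
        intro j _
        change xx K n ((i + j : ℕ) : ℤ) * δ j c = _
        push_cast
        rfl
      rw [h3]
      exact hrel i c
    · intro k hk
      rw [finrank_comap_bih hVE, ← Submodule.finrank_map_subtype_eq (bih K n 0 b), Submodule.map_sup,
        Submodule.map_comap_subtype, inf_eq_right.2 hV0E, Submodule.map_span]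
      have h4 : ((bih K n 0 b).subtype '' {v | ∃ j < k, ∃ c, v =
          (⟨δ j c, hVE (hδ j c)⟩ : bih K n 0 b)}) = {v | ∃ j < k, ∃ c, v = δ j c} := by
        ext v
        constructor
        · rintro ⟨w, ⟨j, hj, c, rfl⟩, rfl⟩
          exact ⟨j, hj, c, rfl⟩
        · rintro ⟨j, hj, c, rfl⟩
          exact ⟨_, ⟨j, hj, c, rfl⟩, rfl⟩
      rw [h4]
      exact he k hk
  refine le_trans ?_ h1
  have h2 := Submodule.finrank_mono (map_gr_le_SU (K := K) (n := n) μ a b)
  exact_mod_cast h2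

theorem he_bound (μ b : ℕ) (U : Submodule K (SB K n)) (hU : U ≤ bih K n 0 b)
    (W : Submodule K (SB K n)) (hW : W ≤ U) (e : ℤ)
    (h : (Module.finrank K (Vs K n μ b) : ℤ) -
      Module.finrank K (Vs K n (μ + 1) b ⊔ W : Submodule K (SB K n)) ≤ e) :
    (Module.finrank K (Vs K n μ b) : ℤ) -
      Module.finrank K (Vs K n (μ + 1) b ⊔ U : Submodule K (SB K n)) ≤ e := by
  have h1 : FiniteDimensional K (Vs K n (μ + 1) b ⊔ U : Submodule K (SB K n)) :=
    finite_of_le_bih (sup_le (Vs_le_bih (μ + 1) b) hU)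
  have h2 := Submodule.finrank_mono (sup_le_sup_left hW (Vs K n (μ + 1) b))
  have h3 : (Module.finrank K (Vs K n (μ + 1) b ⊔ W : Submodule K (SB K n)) : ℤ) ≤
      Module.finrank K (Vs K n (μ + 1) b ⊔ U : Submodule K (SB K n)) := by exact_mod_cast h2
  linarith

/-- the step of the chain -/
theorem img_le (μ a b : ℕ) (hμ : μ ≤ n) :
    (Module.finrank K ((gr K n (AA K n μ) a b).map (gr K n (CC K n μ) a b).mkQ) : ℤ) ≤
      uB (n + μ) a (eU n μ b) := by
  rcases Nat.eq_zero_or_pos μ with rfl | hpos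
  · -- μ = 0
    let C := {u : SB K n // 1 ≤ b ∧ u ∈ bih K n 0 (b - 1)} × Bool
    let δ : ℕ → C → SB K n := fun j c => c.1.1 * (if c.2 then pp K n j else qq K n j)
    have hδ0 : ∀ j c, δ j c ∈ bih K n 0 b := by
      intro j c
      have h1 : (if c.2 then pp K n j else qq K n j) ∈ bih K n 0 1 := by
        split_ifs
        · exact pp_mem _
        · exact qq_mem _
      have h2 := mul_mem_bih c.1.2.2 h1
      have h3 := c.1.2.1
      rwa [show b - 1 + 1 = b by omega] at h2
    have hV : Vs K n 0 b = bih K n 0 b := by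
      apply le_antisymm (Vs_le_bih 0 b)
      intro u hu
      refine Submodule.subset_span ⟨u, fun _ => 0, by omega, ?_, ?_⟩
      · simpa using hu
      · rw [D_zero, mul_one]
    refine imgBound 0 b δ (fun j c => by rw [hV]; exact hδ0 j c) ?_ (eU n 0 b) ?_ a
    · rintro i ⟨⟨u, hu⟩, t⟩
      have h1 : ∀ (f : ℤ → SB K n), (∑ k ∈ range (n + 2), xx K n (k + i) * f k ∈ CC K n 0) →
          ∑ j ∈ range (n + 0 - i), xx K n (i + j) * (u * f j) ∈ CC K n 0 := by
        intro f hf
        have h2 : ∑ j ∈ range (n + 0 - i), xx K n (i + j) * (u * f j) =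
            u * ∑ k ∈ range (n - i), xx K n (k + i) * f k := by
          rw [Finset.mul_sum, Nat.add_zero]
          apply Finset.sum_congr rfl
          intro j _
          rw [add_comm (i : ℤ) j]
          ring
        rw [h2]
        refine Ideal.mul_mem_left _ _ ?_
        have h3 : ∑ k ∈ range (n + 2), xx K n (k + i) * f k =
            ∑ k ∈ range (n - i), xx K n (k + i) * f k +
            ∑ k ∈ Finset.Ico (n - i) (n + 2), xx K n (k + i) * f k := by
          rw [Finset.range_eq_Ico, Finset.range_eq_Ico,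
            Finset.sum_Ico_consecutive _ (Nat.zero_le _) (by omega)]
        rw [h3] at hf
        have h4 : ∑ k ∈ Finset.Ico (n - i) (n + 2), xx K n (k + i) * f k ∈ CC K n 0 := by
          refine Ideal.sum_mem _ fun k hk => ?_
          rw [Finset.mem_Ico] at hk
          refine Ideal.mul_mem_right _ _ (xx_mem_CC 0 _ ?_)
          push_cast
          omega
        have h5 := Ideal.sub_mem _ hf h4
        rwa [add_sub_cancel_right] at h5
      by_cases hi : i < n
      · cases t
        · exact h1 (fun k => qq K n k) (Lq_mem_CC 0 i hi)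
        · exact h1 (fun k => pp K n k) (Lp_mem_CC 0 i hi)
      · rw [show n + 0 - i = 0 by omega, Finset.range_zero, Finset.sum_empty]
        exact Ideal.zero_mem _
    · intro k hk
      refine he_bound 0 b _ ?_ (Vlow0 K n k b) ?_ _ (finrank_Vs0 K n b k (by omega))
      · rw [Submodule.span_le]
        rintro v ⟨j, _, c, rfl⟩
        exact hδ0 j c
      · unfold Vlow0
        rw [Submodule.span_le]
        rintro f ⟨u, i, hi, hb, hu, h⟩
        rcases h with rfl | rfl
        · exact Submodule.subset_span ⟨i, hi, ⟨⟨u, hb, hu⟩, true⟩, rfl⟩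
        · exact Submodule.subset_span ⟨i, hi, ⟨⟨u, hb, hu⟩, false⟩, rfl⟩
  · -- μ ≥ 1
    obtain ⟨C', δ', hspan, hex, hrel⟩ := zrel K n μ hpos hμ
    let C := {u : SB K n // 2 * μ ≤ b ∧ u ∈ bih K n 0 (b - 2 * μ)} × C'
    let δ : ℕ → C → SB K n := fun j c => c.1.1 * δ' j c.2
    have hδV : ∀ j c, δ j c ∈ Vs K n μ b := by
      rintro j ⟨⟨u, hb, hu⟩, c⟩
      change u * δ' j c ∈ Vs K n μ b
      refine Submodule.span_induction (p := fun x _ => u * x ∈ Vs K n μ b) ?_ ?_ ?_ ?_ (hspan j c)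
      · rintro x ⟨ρ, rfl⟩
        exact Submodule.subset_span ⟨u, ρ, hb, hu, rfl⟩
      · rw [mul_zero]
        exact Submodule.zero_mem _
      · intro x y _ _ hx hy
        rw [mul_add]
        exact Submodule.add_mem _ hx hy
      · intro r x _ hx
        rw [mul_smul_comm]
        exact Submodule.smul_mem _ _ hx
    refine imgBound μ b δ hδV ?_ (eU n μ b) ?_ a
    · rintro i ⟨⟨u, hu⟩, c⟩
      have h2 : ∑ j ∈ range (n + μ - i), xx K n (i + j) * δ j (⟨⟨u, hu⟩, c⟩ : C) =
          u * ∑ j ∈ range (n + μ - i), xx K n (i + j) * δ' j c := by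
        rw [Finset.mul_sum]
        apply Finset.sum_congr rfl
        intro j _
        change xx K n (i + j) * (u * δ' j c) = _
        ring
      rw [h2]
      exact Ideal.mul_mem_left _ _ (hrel i c)
    · intro k hk
      refine he_bound μ b _ ?_ (Vlow K n μ k b) ?_ _ (finrank_Vs K n μ b k hpos)
      · rw [Submodule.span_le]
        rintro v ⟨j, _, c, rfl⟩
        exact Vs_le_bih μ b (hδV j c)
      · unfold Vlow
        rw [Submodule.span_le]
        rintro f ⟨u, ρ, hb, hu, ⟨a', ha0, hak⟩, rfl⟩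
        by_cases h0 : D K n μ ρ = 0
        · rw [h0, mul_zero]
          exact Submodule.zero_mem _
        · obtain ⟨c, hc⟩ := hex ρ a' h0 ha0
          have hlt : (ρ a').toNat < k := by omega
          rcases hc with hc | hc
          · rw [hc]
            exact Submodule.subset_span ⟨_, hlt, ⟨⟨u, hb, hu⟩, c⟩, rfl⟩
          · rw [hc, mul_neg]
            exact Submodule.neg_mem _ (Submodule.subset_span ⟨_, hlt, ⟨⟨u, hb, hu⟩, c⟩, rfl⟩)

theorem hf_AA_zero (a b : ℕ) : hf K n (AA K n 0) a b = 0 := by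
  have h1 : AA K n 0 = ⊤ := by
    rw [Ideal.eq_top_iff_one]
    rw [← D_zero (K := K) (n := n) (fun _ => 0)]
    exact D_mem_AA _ _
  unfold hf
  rw [h1]
  have h2 : gr K n (⊤ : Ideal (SB K n)) a b = ⊤ := by
    ext x
    simp [mem_gr]
  rw [h2]
  exact Module.finrank_zero_of_subsingleton

/-- one step, as a pair of inequalities -/
theorem step_zero (μ b : ℕ) (hμ : μ ≤ n) :
    (hf K n (AA K n (μ + 1)) 0 b : ℤ) ≤ uB (n + μ) 0 (eU n μ b) + hf K n (AA K n μ) 0 b := by
  have h1 := hf_zero_sup (AA K n (μ + 1)) (BH_AA _) (xx K n ((n : ℤ) + μ)) (xx_mem _) b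
  have h2 := hf_le_add (CC K n μ) (AA K n μ) (CC_le_AA μ) 0 b
  have h3 := img_le (K := K) μ 0 b hμ
  rw [h1]
  change (hf K n (CC K n μ) 0 b : ℤ) ≤ _
  rw [h2]
  push_cast
  linarith

theorem step_succ (μ a b : ℕ) (hμ : μ ≤ n) :
    (hf K n (CC K n μ) (a + 1) b : ℤ) ≤
      uB (n + μ) (a + 1) (eU n μ b) + hf K n (AA K n μ) (a + 1) b := by
  have h2 := hf_le_add (CC K n μ) (AA K n μ) (CC_le_AA μ) (a + 1) b
  have h3 := img_le (K := K) μ (a + 1) b hμ
  rw [h2]
  push_cast
  linarith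

theorem tr_succ_zero (μ b : ℕ) :
    tr n (μ + 1) 0 b = uB (n + μ) 0 (eU n μ b) + tr n μ 0 b := by
  simp [tr]

theorem tr_succ_succ (μ a b : ℕ) :
    tr n (μ + 1) (a + 1) b = tr n (μ + 1) a b + (uB (n + μ) (a + 1) (eU n μ b) +
      tr n μ (a + 1) b) := by
  simp only [tr]
  rw [Finset.sum_range_succ]

/-- upper bound for all members of the chain -/
theorem hf_le_tr (μ : ℕ) (hμ : μ ≤ n + 1) (b : ℕ) : ∀ a, (hf K n (AA K n μ) a b : ℤ) ≤ tr n μ a b := by
  induction μ with
  | zero =>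
    intro a
    rw [hf_AA_zero]
    simp [tr]
  | succ μ ih =>
    have ih' := ih (by omega)
    intro a
    induction a with
    | zero =>
      rw [tr_succ_zero]
      have h1 := step_zero (K := K) μ b (by omega : μ ≤ n)
      have h2 := ih' 0
      linarith
    | succ a iha =>
      rw [tr_succ_succ]
      have h1 := hf_step_le (AA K n (μ + 1)) (BH_AA _) (xx K n ((n : ℤ) + μ)) (xx_mem _) a b
      have h2 := step_succ (K := K) μ a b (by omega : μ ≤ n)
      have h3 := ih' (a + 1)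
      have h4 : (hf K n (AA K n (μ + 1)) (a + 1) b : ℤ) ≤
          hf K n (CC K n μ) (a + 1) b + hf K n (AA K n (μ + 1)) a b := by exact_mod_cast h1
      linarith

/-- all members of the chain have the expected Hilbert function -/
theorem hf_eq_tr (b : ℕ) (d : ℕ) : ∀ μ, μ + d = n + 1 → ∀ a,
    (hf K n (AA K n μ) a b : ℤ) = tr n μ a b := by
  induction d with
  | zero =>
    intro μ hμ a
    obtain rfl : μ = n + 1 := by omega
    apply le_antisymm (hf_le_tr _ le_rfl b a)
    rw [tr_eq_ci]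
    exact ci_le_hf K n a b
  | succ d ih =>
    intro μ hμ a
    have h0 := ih (μ + 1) (by omega)
    apply le_antisymm (hf_le_tr _ (by omega) b a)
    cases a with
    | zero =>
      have h1 := step_zero (K := K) μ b (by omega : μ ≤ n)
      rw [h0 0, tr_succ_zero] at h1
      linarith
    | succ a =>
      have h1 := hf_step_le (AA K n (μ + 1)) (BH_AA _) (xx K n ((n : ℤ) + μ)) (xx_mem _) a b
      have h2 := step_succ (K := K) μ a b (by omega : μ ≤ n)
      have h4 : (hf K n (AA K n (μ + 1)) (a + 1) b : ℤ) ≤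
          hf K n (CC K n μ) (a + 1) b + hf K n (AA K n (μ + 1)) a b := by exact_mod_cast h1
      rw [h0 (a + 1), h0 a, tr_succ_succ] at h4
      linarith

end

theorem nzd (K : Type*) [Field K] (n μ : ℕ) (hμ : 1 ≤ μ) (hn : μ ≤ n + 1) :
    ∀ z, xx K n ((n : ℤ) + μ - 1) * z ∈ AA K n μ → z ∈ AA K n μ := by
  obtain ⟨ν, rfl⟩ : ∃ ν, μ = ν + 1 := ⟨μ - 1, by omega⟩
  intro z hz
  have hx : xx K n ((n : ℤ) + (ν + 1 : ℕ) - 1) = xx K n ((n : ℤ) + ν) := by
    congr 1
    push_cast
    ring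
  rw [hx] at hz
  apply mem_of_cmp_mem
  intro a b
  have h1 := BH_AA (K := K) (n := n) (ν + 1) _ hz (a + 1) b
  rw [mul_comm, cmp_mul (xx_mem _), if_pos (by omega), Nat.add_sub_cancel, Nat.sub_zero,
    mul_comm] at h1
  refine nzd_of_eq (AA K n (ν + 1)) (BH_AA _) (xx K n ((n : ℤ) + ν)) (xx_mem _) a b ?_ _
    (cmp_mem _ _ _) h1
  have h2 := hf_eq_tr (K := K) (n := n) b (n - ν) (ν + 1) (by omega)
  have h3 := hf_eq_tr (K := K) (n := n) b (n - ν + 1) ν (by omega)
  have h4 := hf_step_le (AA K n (ν + 1)) (BH_AA _) (xx K n ((n : ℤ) + ν)) (xx_mem _) a b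
  have h5 := step_succ (K := K) ν a b (by omega : ν ≤ n)
  have h6 : (hf K n (AA K n (ν + 1)) (a + 1) b : ℤ) ≤
      hf K n (CC K n ν) (a + 1) b + hf K n (AA K n (ν + 1)) a b := by exact_mod_cast h4
  have h7 := tr_succ_succ (n := n) ν a b
  rw [← h2 (a + 1), ← h2 a, ← h3 (a + 1)] at h7
  have h8 : (hf K n (AA K n (ν + 1)) (a + 1) b : ℤ) =
      hf K n (CC K n ν) (a + 1) b + hf K n (AA K n (ν + 1)) a b := by linarith
  exact_mod_cast h8

theorem AA_top_prime (K : Type*) [Field K] (n : ℕ) : (AA K n (n + 1)).IsPrime := by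
  induction n with
  | zero => exact prime_zero K
  | succ n ih =>
    exact loc K (n + 1) (n + 1 + 1) (by omega) (by omega) ih (nzd K _ _ (by omega) (by omega))

theorem AA_prime (K : Type*) [Field K] (n μ : ℕ) (hμ : 2 ≤ μ) (hn : μ ≤ n + 1) :
    (AA K n μ).IsPrime := by
  refine loc K n μ hμ hn ?_ (nzd K _ _ (by omega) (by omega))
  have := AA_top_prime K (μ - 2)
  rwa [show μ - 2 + 1 = μ - 1 by omega] at this

end HK
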