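import Pool.Agent.HK.Defs

/-!
# Module LemU: Lemma U (blueprint section 4), pure linear algebra

The proof is in a relative form without dimensions: all statements are about spans.
-/

namespace HK

open Finset

section Rel

open Submodule

/-- The bound of Lemma U. Generating function: `∑ a, uBn M a v x ^ a` is
`∑ k, (M choose k) (x / (1 - x)) ^ k v k`. -/
def uBn : ℕ → ℕ → (ℕ → ℕ) → ℕ
  | 0, a, v => if a = 0 then v 0 else 0
  | M + 1, a, v => uBn M a v + ∑ e ∈ Finset.range a, uBn M (a - 1 - e) (fun k => v (k + 1))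

variable {K V E : Type*} [Field K] [AddCommGroup V] [Module K V] [AddCommGroup E] [Module K E]

/-- `S` is contained in `N` plus the span of at most `B` vectors. -/
def RelLE (S N : Submodule K V) (B : ℕ) : Prop :=
  ∃ t : Finset V, t.card ≤ B ∧ S ≤ N ⊔ span K (t : Set V)

/-- The subspaces `S 0 = S0`, `S (a+1) = ∑_{j<M} Y_j (S a)`. -/
def US (M : ℕ) (Y : ℕ → V →ₗ[K] V) (S0 : Submodule K V) : ℕ → Submodule K V
  | 0 => S0
  | a + 1 => ⨆ j : Fin M, (US M Y S0 a).map (Y j)

theorem RelLE.mono {S S' N N' : Submodule K V} {B B' : ℕ} (h : RelLE S N B) (h1 : S' ≤ S)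
    (h2 : N ≤ N') (h3 : B ≤ B') : RelLE S' N' B' := by
  obtain ⟨t, ht, hS⟩ := h
  exact ⟨t, ht.trans h3, (h1.trans hS).trans (sup_le_sup_right h2 _)⟩

theorem RelLE.trans_sup {S1 S2 N : Submodule K V} {B1 B2 : ℕ} (h1 : RelLE S1 N B1)
    (h2 : RelLE S2 (N ⊔ S1) B2) : RelLE (S2 ⊔ S1) N (B2 + B1) := by
  classical
  obtain ⟨t1, ht1, hS1⟩ := h1
  obtain ⟨t2, ht2, hS2⟩ := h2
  refine ⟨t2 ∪ t1, (Finset.card_union_le _ _).trans (add_le_add ht2 ht1), ?_⟩
  have e1 : span K (t1 : Set V) ≤ span K ((t2 ∪ t1 : Finset V) : Set V) :=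
    span_mono (by simp)
  have e2 : span K (t2 : Set V) ≤ span K ((t2 ∪ t1 : Finset V) : Set V) :=
    span_mono (by simp)
  have f1 : S1 ≤ N ⊔ span K ((t2 ∪ t1 : Finset V) : Set V) := hS1.trans (sup_le_sup_left e1 _)
  refine sup_le (hS2.trans (sup_le (sup_le le_sup_left f1) (e2.trans le_sup_right))) f1

theorem RelLE.zero (N : Submodule K V) : RelLE ⊥ N 0 := ⟨∅, by simp, by simp⟩

theorem RelLE.sup {S1 S2 N : Submodule K V} {B1 B2 : ℕ} (h1 : RelLE S1 N B1)
    (h2 : RelLE S2 N B2) : RelLE (S2 ⊔ S1) N (B2 + B1) :=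
  h1.trans_sup (h2.mono le_rfl le_sup_left le_rfl)

theorem RelLE.iSup_range {S : ℕ → Submodule K V} {N : Submodule K V} {B : ℕ → ℕ} (n : ℕ)
    (h : ∀ e < n, RelLE (S e) N (B e)) :
    RelLE (⨆ e ∈ Finset.range n, S e) N (∑ e ∈ Finset.range n, B e) := by
  induction n with
  | zero => simpa using RelLE.zero N
  | succ n ih =>
    rw [Finset.sum_range_succ]
    have h1 := ih (fun e he => h e (Nat.lt_succ_of_lt he))
    have h2 := h n (Nat.lt_succ_self n)
    refine (h2.sup h1).mono ?_ le_rfl le_rfl
    refine iSup₂_le fun e he => ?_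
    rw [Finset.mem_range, Nat.lt_succ_iff_lt_or_eq] at he
    rcases he with he | rfl
    · exact le_trans (le_iSup₂_of_le e (Finset.mem_range.2 he) le_rfl) le_sup_left
    · exact le_sup_right

theorem RelLE.map {F : Type*} [AddCommGroup F] [Module K F] {S N : Submodule K V} {B : ℕ}
    (h : RelLE S N B) (f : V →ₗ[K] F) : RelLE (S.map f) (N.map f) B := by
  classical
  obtain ⟨t, ht, hS⟩ := h
  refine ⟨t.image f, Finset.card_image_le.trans ht, ?_⟩
  refine (Submodule.map_mono hS).trans ?_
  rw [Submodule.map_sup, Submodule.map_span]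
  simp

theorem US_mono (M : ℕ) (Y : ℕ → V →ₗ[K] V) {S0 S0' : Submodule K V} (h : S0 ≤ S0') (a : ℕ) :
    US M Y S0 a ≤ US M Y S0' a := by
  induction a with
  | zero => exact h
  | succ a ih => exact iSup_mono fun j => Submodule.map_mono ih

theorem map_US_le (M : ℕ) (Y : ℕ → V →ₗ[K] V) (S0 : Submodule K V) (a : ℕ) {j : ℕ} (hj : j < M) :
    (US M Y S0 a).map (Y j) ≤ US M Y S0 (a + 1) :=
  le_iSup (fun j : Fin M => (US M Y S0 a).map (Y j)) ⟨j, hj⟩

/-- One can move a commuting operator through `US`. -/
theorem map_US (M : ℕ) (Y : ℕ → V →ₗ[K] V) (T : V →ₗ[K] V) (hT : ∀ j, Commute T (Y j))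
    (S0 : Submodule K V) (a : ℕ) : (US M Y S0 a).map T = US M Y (S0.map T) a := by
  induction a with
  | zero => rfl
  | succ a ih =>
    simp only [US, Submodule.map_iSup]
    refine iSup_congr fun j => ?_
    rw [← ih, ← Submodule.map_comp, ← Submodule.map_comp]
    exact congrArg (fun f => (US M Y S0 a).map f) (hT j)

/-- Splitting off the last operator. -/
theorem US_succ_le (M : ℕ) (Y : ℕ → V →ₗ[K] V) (hY : ∀ i j, Commute (Y i) (Y j))
    (S0 : Submodule K V) (a : ℕ) :
    US (M + 1) Y S0 (a + 1) ≤ US M Y S0 (a + 1) ⊔ (US (M + 1) Y S0 a).map (Y M) := by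
  induction a with
  | zero =>
    simp only [US]
    refine iSup_le fun j => ?_
    by_cases hj : (j : ℕ) < M
    · exact le_trans (le_iSup (fun j : Fin M => S0.map (Y j)) ⟨j, hj⟩) le_sup_left
    · have : (j : ℕ) = M := by omega
      rw [this]; exact le_sup_right
  | succ a ih =>
    rw [US]
    refine iSup_le fun j => ?_
    by_cases hj : (j : ℕ) < M
    · refine (Submodule.map_mono ih).trans ?_
      rw [Submodule.map_sup]
      refine sup_le_sup (map_US_le M Y S0 (a + 1) hj) ?_
      rw [← Submodule.map_comp]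
      have hc : (Y (j : ℕ)).comp (Y M) = (Y M).comp (Y (j : ℕ)) := hY j M
      rw [hc, Submodule.map_comp]
      exact Submodule.map_mono (map_US_le (M + 1) Y S0 a (j := j) j.2)
    · have : (j : ℕ) = M := by omega
      rw [this]; exact le_sup_right

/-- Splitting off powers of the first operator. -/
theorem US_le_iSup (M : ℕ) (Y : ℕ → V →ₗ[K] V) (hY : ∀ i j, Commute (Y i) (Y j))
    (S0 : Submodule K V) (a : ℕ) :
    US (M + 1) Y S0 a ≤
      ⨆ e ∈ Finset.range (a + 1), US M (fun j => Y (j + 1)) (S0.map (Y 0 ^ e)) (a - e) := by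
  induction a with
  | zero =>
    refine le_iSup₂_of_le 0 (by simp) ?_
    rw [show ((Y 0 ^ 0 : V →ₗ[K] V)) = LinearMap.id from pow_zero _, Submodule.map_id]
    exact le_rfl
  | succ a ih =>
    rw [US]
    refine iSup_le fun j => ?_
    refine (Submodule.map_mono ih).trans ?_
    simp only [Submodule.map_iSup]
    refine iSup₂_le fun e he => ?_
    rw [Finset.mem_range] at he
    by_cases hj : (j : ℕ) = 0
    · refine le_iSup₂_of_le (e + 1) (Finset.mem_range.2 (by omega)) ?_
      rw [hj, map_US M (fun j => Y (j + 1)) (Y 0) (fun j => hY 0 (j + 1)), ← Submodule.map_comp,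
        show a + 1 - (e + 1) = a - e by omega, pow_succ']
      exact le_rfl
    · refine le_iSup₂_of_le e (Finset.mem_range.2 (by omega)) ?_
      obtain ⟨i, hi⟩ := Nat.exists_eq_succ_of_ne_zero hj
      have := map_US_le M (fun j => Y (j + 1)) (S0.map (Y 0 ^ e)) (a - e) (j := i) (by omega)
      rw [show a + 1 - e = a - e + 1 by omega, hi]
      exact this

theorem map_pow_mem {N : ℕ → Submodule K V} {T : V →ₗ[K] V}
    (h : ∀ a, (N a).map T ≤ N (a + 1)) (e : ℕ) {a : ℕ} {v : V} (hv : v ∈ N a) :
    (T ^ e) v ∈ N (a + e) := by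
  induction e with
  | zero => simpa using hv
  | succ e ih =>
    rw [pow_succ', Module.End.mul_apply, ← add_assoc]
    exact h _ (Submodule.mem_map_of_mem ih)

/-- Lemma U. -/
theorem lemU (M : ℕ) : ∀ (Y : ℕ → V →ₗ[K] V) (_ : ∀ i j, Commute (Y i) (Y j))
    (N : ℕ → Submodule K V) (_ : ∀ j < M, ∀ a, (N a).map (Y j) ≤ N (a + 1))
    (W0 W : Submodule K E) (z : E →ₗ[K] V) (_ : W0.map z ≤ N 0) {ι : Type*} (δ : ℕ → ι → E)
    (_ : ∀ j c, δ j c ∈ W)
    (_ : ∀ i c, ∑ j ∈ Finset.range (M - i), Y (i + j) (z (δ j c)) ∈ N 1) (e : ℕ → ℕ)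
    (_ : ∀ k ≤ M, RelLE W (W0 ⊔ span K {x | ∃ j < k, ∃ c, x = δ j c}) (e k)) (a : ℕ),
    RelLE (US M Y (W.map z) a) (N a) (uBn M a e) := by
  induction M with
  | zero =>
    intro Y hY N hN W0 W z hz ι δ hδ hrel e he a
    cases a with
    | zero =>
      have h0 := (he 0 le_rfl).map z
      refine h0.mono le_rfl ?_ (by simp [uBn])
      rw [Submodule.map_sup]
      refine sup_le hz ?_
      have : {x : E | ∃ j < 0, ∃ c, x = δ j c} = ∅ := by
        ext x; simp
      rw [this]
      simp
    | succ a =>
      refine (RelLE.zero (N (a + 1))).mono ?_ le_rfl (Nat.zero_le _)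
      simp [US]
  | succ M ih =>
    intro Y hY N hN W0 W z hz ι δ hδ hrel e he a
    have hY' : ∀ i j, Commute (Y (i + 1)) (Y (j + 1)) := fun i j => hY _ _
    -- the part modulo `B`
    set B : ℕ → Submodule K V := fun a => match a with
      | 0 => ⊥
      | a + 1 => (US (M + 1) Y (W.map z) a).map (Y M) with hB
    have key1 : RelLE (US M Y (W.map z) a) (N a ⊔ B a) (uBn M a e) := by
      refine ih Y hY (fun a => N a ⊔ B a) ?_ W0 W z (hz.trans le_sup_left) δ hδ ?_ e
        (fun k hk => he k (by omega)) a
      · intro j hj a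
        rw [Submodule.map_sup]
        refine sup_le_sup (hN j (by omega) a) ?_
        cases a with
        | zero => simp [hB]
        | succ a =>
          simp only [hB]
          rw [← Submodule.map_comp]
          have hc : (Y j).comp (Y M) = (Y M).comp (Y j) := hY j M
          rw [hc, Submodule.map_comp]
          exact Submodule.map_mono (map_US_le (M + 1) Y _ a (by omega))
      · intro i c
        by_cases hi : i ≤ M
        · have h1 := hrel i c
          rw [show M + 1 - i = (M - i) + 1 by omega, Finset.sum_range_succ] at h1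
          have h2 : Y (i + (M - i)) (z (δ (M - i) c)) ∈ B 1 := by
            rw [show i + (M - i) = M by omega]
            exact Submodule.mem_map_of_mem (Submodule.mem_map_of_mem (hδ _ _))
          have h3 : _ ∈ N 1 ⊔ B 1 := Submodule.sub_mem _ (Submodule.mem_sup_left h1)
            (Submodule.mem_sup_right h2)
          rwa [add_sub_cancel_right] at h3
        · rw [show M - i = 0 by omega]
          simp
    have key2 : RelLE (B a) (N a)
        (∑ f ∈ Finset.range a, uBn M (a - 1 - f) (fun k => e (k + 1))) := by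
      cases a with
      | zero => simpa [hB] using RelLE.zero (N 0)
      | succ a =>
        have h1 : ∀ f < a + 1, RelLE (US M (fun j => Y (j + 1))
            (W.map ((Y M ∘ₗ (Y 0 ^ f)) ∘ₗ z)) (a - f)) (N (a + 1))
            (uBn M (a + 1 - 1 - f) (fun k => e (k + 1))) := by
          intro f hf
          have hN0 : ∀ a, (N a).map (Y 0) ≤ N (a + 1) := fun a => hN 0 (by omega) a
          have hNM : ∀ a, (N a).map (Y M) ≤ N (a + 1) := fun a => hN M (by omega) a
          have hcT : ∀ i, Commute (Y M ∘ₗ (Y 0 ^ f)) (Y i) := fun i =>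
            (Commute.mul_left (hY M i) ((hY 0 i).pow_left f))
          have hcT' : ∀ i v, Y M ((Y 0 ^ f) (Y i v)) = Y i (Y M ((Y 0 ^ f) v)) := fun i v =>
            congrArg (fun g : V →ₗ[K] V => g v) (hcT i)
          have hc0 : ∀ v, Y M ((Y 0 ^ f) v) = (Y 0 ^ f) (Y M v) := fun v =>
            congrArg (fun g : V →ₗ[K] V => g v) ((hY M 0).pow_right f)
          have hT0 : ∀ c, Y M (z (δ 0 c)) ∈ N 1 := by
            intro c
            have := hrel M c
            rw [show M + 1 - M = 1 by omega] at this
            simpa using this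
          have hTN : ∀ v ∈ N 1, Y M ((Y 0 ^ f) v) ∈ N (f + 2) := by
            intro v hv
            have h1 := map_pow_mem hN0 f hv
            have h2 := hNM _ (Submodule.mem_map_of_mem h1)
            rwa [show 1 + f + 1 = f + 2 by omega] at h2
          have hTN0 : ∀ v ∈ N 0, Y M ((Y 0 ^ f) v) ∈ N (f + 1) := by
            intro v hv
            have h1 := map_pow_mem hN0 f hv
            have h2 := hNM _ (Submodule.mem_map_of_mem h1)
            rwa [show 0 + f + 1 = f + 1 by omega] at h2
          have := ih (fun j => Y (j + 1)) hY' (fun a => N (a + f + 1))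
            (fun j hj a => by
              have := hN (j + 1) (by omega) (a + f + 1)
              rwa [show a + f + 1 + 1 = a + 1 + f + 1 by omega] at this)
            (W0 ⊔ span K {x | ∃ c, x = δ 0 c}) W ((Y M ∘ₗ (Y 0 ^ f)) ∘ₗ z) ?_
            (fun j c => δ (j + 1) c) (fun j c => hδ _ _) ?_ (fun k => e (k + 1)) ?_ (a - f)
          · rw [show a + 1 - 1 - f = a - f by omega]
            refine this.mono le_rfl ?_ le_rfl
            rw [show a - f + f + 1 = a + 1 by omega]
          · rw [Submodule.map_sup]
            refine sup_le ?_ ?_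
            · rintro _ ⟨v, hv, rfl⟩
              have := hTN0 _ (hz (Submodule.mem_map_of_mem hv))
              simpa using this
            · rw [Submodule.map_span_le]
              rintro _ ⟨c, rfl⟩
              have h1 := map_pow_mem hN0 f (hT0 c)
              rw [← hc0] at h1
              simp only [LinearMap.comp_apply]
              rwa [show 0 + f + 1 = 1 + f by omega]
          · intro i c
            by_cases hi : i ≤ M
            · have h1 := hrel i c
              rw [show M + 1 - i = (M - i) + 1 by omega, Finset.sum_range_succ'] at h1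
              have h2 := hTN _ h1
              have h3 : Y M ((Y 0 ^ f) (Y (i + 0) (z (δ 0 c)))) ∈ N (f + 2) := by
                rw [hcT', hc0]
                have h4 := map_pow_mem hN0 f (hT0 c)
                have h5 := hN (i + 0) (by omega) _ (Submodule.mem_map_of_mem h4)
                rwa [show 1 + f + 1 = f + 2 by omega] at h5
              rw [map_add, map_add] at h2
              have h4 := Submodule.sub_mem _ h2 h3
              rw [add_sub_cancel_right, map_sum, map_sum] at h4
              rw [show 1 + f + 1 = f + 2 by omega]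
              convert h4 using 1
              refine Finset.sum_congr rfl fun j _ => ?_
              rw [show i + (j + 1) = i + j + 1 by omega, hcT']
              rfl
            · rw [show M - i = 0 by omega]
              simp
          · intro k hk
            refine (he (k + 1) (by omega)).mono le_rfl ?_ le_rfl
            refine sup_le (le_sup_left.trans le_sup_left) ?_
            rw [span_le]
            rintro _ ⟨j, hj, c, rfl⟩
            cases j with
            | zero =>
              exact Submodule.mem_sup_left (Submodule.mem_sup_right (subset_span ⟨c, rfl⟩))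
            | succ j =>
              exact Submodule.mem_sup_right (subset_span ⟨j, by omega, c, rfl⟩)
        have h2 := RelLE.iSup_range (a + 1) h1
        refine h2.mono ?_ le_rfl le_rfl
        simp only [hB]
        refine (Submodule.map_mono (US_le_iSup M Y hY (W.map z) a)).trans ?_
        simp only [Submodule.map_iSup]
        refine iSup₂_mono fun f hf => ?_
        rw [map_US M (fun j => Y (j + 1)) (Y M) (fun j => hY M (j + 1)), ← Submodule.map_comp,
          ← Submodule.map_comp]
    have key3 : US (M + 1) Y (W.map z) a ≤ US M Y (W.map z) a ⊔ B a := by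
      cases a with
      | zero => simp [US]
      | succ a => exact US_succ_le M Y hY _ a
    exact (key2.trans_sup key1).mono key3 le_rfl le_rfl

/-- From dimensions to relative spans. -/
theorem RelLE.of_finrank {W U : Submodule K E} [FiniteDimensional K W] (hU : U ≤ W) {e : ℕ}
    (h : Module.finrank K W ≤ Module.finrank K U + e) : RelLE W U e := by
  classical
  obtain ⟨C, hC⟩ := Submodule.exists_isCompl (U.submoduleOf W)
  have h1 : Module.finrank K (U.submoduleOf W) + Module.finrank K C = Module.finrank K W :=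
    Submodule.finrank_add_eq_of_isCompl hC
  have h2 : Module.finrank K (U.submoduleOf W) = Module.finrank K U :=
    (Submodule.submoduleOfEquivOfLe hU).finrank_eq
  have h3 : Module.finrank K C ≤ e := by omega
  let b := Module.finBasis K C
  refine ⟨Finset.univ.image (fun i => ((b i : W) : E)), ?_, ?_⟩
  · exact Finset.card_image_le.trans (by simpa using h3)
  · intro w hw
    have h4 : (⟨w, hw⟩ : W) ∈ U.submoduleOf W ⊔ C := by
      rw [hC.sup_eq_top]; trivial
    obtain ⟨u, hu, c, hc, huc⟩ := Submodule.mem_sup.1 h4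
    have h5 : w = (u : E) + (c : E) := by
      have := congrArg (fun x : W => (x : E)) huc
      simpa using this.symm
    rw [h5]
    refine Submodule.add_mem _ (Submodule.mem_sup_left hu) (Submodule.mem_sup_right ?_)
    have h6 := b.sum_repr ⟨c, hc⟩
    have h7 : (c : E) = ∑ i, (b.repr ⟨c, hc⟩ i) • ((b i : W) : E) := by
      have h8 := congrArg (W.subtype ∘ₗ C.subtype) h6
      rw [map_sum] at h8
      simp only [map_smul] at h8
      exact h8.symm
    rw [h7]
    refine Submodule.sum_mem _ fun i _ => Submodule.smul_mem _ _ (subset_span ?_)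
    simp

/-- From relative spans to dimensions in the quotient. -/
theorem RelLE.finrank_map_mkQ {S N : Submodule K V} {B : ℕ} (h : RelLE S N B) :
    Module.finrank K (S.map N.mkQ) ≤ B := by
  classical
  obtain ⟨t, ht, hS⟩ := h.map N.mkQ
  have h1 : N.map N.mkQ = ⊥ := by
    rw [eq_bot_iff]
    rintro _ ⟨v, hv, rfl⟩
    simpa using hv
  rw [h1, bot_sup_eq] at hS
  exact (Submodule.finrank_mono hS).trans ((finrank_span_finset_le_card t).trans ht)

/-- From relative spans to dimensions. -/
theorem RelLE.finrank_le {S N : Submodule K V} {B : ℕ} [FiniteDimensional K N]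
    (h : RelLE S N B) : Module.finrank K S ≤ Module.finrank K N + B := by
  obtain ⟨t, ht, hS⟩ := h
  refine (Submodule.finrank_mono hS).trans ((Submodule.finrank_add_le_finrank_add_finrank _ _).trans
    (Nat.add_le_add_left ((finrank_span_finset_le_card t).trans ht) _))

/-- A subspace is relatively small over a smaller one iff the dimension count says so. -/
theorem RelLE.fd {S N : Submodule K V} {B : ℕ} [FiniteDimensional K N]
    (h : RelLE S N B) : FiniteDimensional K S := by
  obtain ⟨t, ht, hS⟩ := h
  exact Submodule.finiteDimensional_of_le hS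

end Rel

/-- span of the degree-`a` monomials in `Y_0, ..., Y_{M-1}` applied to `z(V)` -/
def SU {K E : Type*} {W : ℕ → Type*} [Field K] [AddCommGroup E] [Module K E]
    [∀ a, AddCommGroup (W a)] [∀ a, Module K (W a)] (M : ℕ)
    (Y : ℕ → ∀ a, W a →ₗ[K] W (a + 1)) (z : E →ₗ[K] W 0) (V : Submodule K E) :
    ∀ a, Submodule K (W a)
  | 0 => V.map z
  | a + 1 => ⨆ j : Fin M, (SU M Y z V a).map (Y j a)

theorem uBn_cast (M : ℕ) : ∀ (a : ℕ) (e' : ℕ → ℕ) (e : ℕ → ℤ), (∀ k ≤ M, (e' k : ℤ) = e k) →
    ((uBn M a e' : ℕ) : ℤ) = uB M a e := by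
  induction M with
  | zero =>
    intro a e' e h
    simp only [uBn, uB]
    split_ifs
    · exact h 0 le_rfl
    · rfl
  | succ M ih =>
    intro a e' e h
    simp only [uBn, uB]
    push_cast
    rw [ih a e' e fun k hk => h k (by omega)]
    congr 1
    refine Finset.sum_congr rfl fun f _ => ih _ _ _ fun k hk => h (k + 1) (by omega)

/-- the operator of degree one on the product of all graded pieces -/
def shiftOp {K : Type*} {W : ℕ → Type*} [Field K] [∀ a, AddCommGroup (W a)] [∀ a, Module K (W a)]
    (y : ∀ a, W a →ₗ[K] W (a + 1)) : (∀ a, W a) →ₗ[K] (∀ a, W a) :=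
  LinearMap.pi fun a => match a with
    | 0 => 0
    | a + 1 => (y a).comp (LinearMap.proj a)

theorem shiftOp_single {K : Type*} {W : ℕ → Type*} [Field K] [∀ a, AddCommGroup (W a)]
    [∀ a, Module K (W a)] (y : ∀ a, W a →ₗ[K] W (a + 1)) (a : ℕ) (v : W a) :
    shiftOp y (LinearMap.single K W a v) = LinearMap.single K W (a + 1) (y a v) := by
  funext b
  cases b with
  | zero =>
    have : (LinearMap.single K W (a + 1) (y a v)) 0 = 0 := by
      simp [LinearMap.single_apply]
    rw [this]
    rfl
  | succ b =>
    change y b ((LinearMap.single K W a v) b) = _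
    by_cases h : b = a
    · subst h
      simp [LinearMap.single_apply]
    · have h1 : (LinearMap.single K W a v) b = 0 := by
        simp [LinearMap.single_apply, h]
      have h2 : (LinearMap.single K W (a + 1) (y a v)) (b + 1) = 0 := by
        simp [LinearMap.single_apply, h]
      rw [h1, h2, map_zero]

theorem lemmaU {K E : Type*} {W : ℕ → Type*} {C : Type*} [Field K] [AddCommGroup E] [Module K E]
    [∀ a, AddCommGroup (W a)] [∀ a, Module K (W a)] (M : ℕ)
    (Y : ℕ → ∀ a, W a →ₗ[K] W (a + 1))
    (hY : ∀ i j a, (Y i (a + 1)).comp (Y j a) = (Y j (a + 1)).comp (Y i a))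
    (z : E →ₗ[K] W 0) (V0 V : Submodule K E) [FiniteDimensional K V] (h0 : V0 ≤ V)
    (hz : ∀ v ∈ V0, z v = 0) (δ : ℕ → C → E) (hδ : ∀ j c, δ j c ∈ V)
    (hrel : ∀ i c, ∑ j ∈ range (M - i), Y (i + j) 0 (z (δ j c)) = 0)
    (e : ℕ → ℤ)
    (he : ∀ k ≤ M, (Module.finrank K V : ℤ) - Module.finrank K
      (V0 ⊔ Submodule.span K {v | ∃ j < k, ∃ c, v = δ j c} : Submodule K E) ≤ e k) (a : ℕ) :
    (Module.finrank K (SU M Y z V a) : ℤ) ≤ uB M a e := by
  have hle : ∀ k, (V0 ⊔ Submodule.span K {v | ∃ j < k, ∃ c, v = δ j c} : Submodule K E) ≤ V := by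
    intro k
    refine sup_le h0 (Submodule.span_le.2 ?_)
    rintro _ ⟨j, _, c, rfl⟩
    exact hδ j c
  have hnn : ∀ k ≤ M, ((e k).toNat : ℤ) = e k := by
    intro k hk
    rw [Int.toNat_of_nonneg]
    have h1 := Submodule.finrank_mono (hle k)
    have h2 := he k hk
    omega
  let Y' : ℕ → (∀ a, W a) →ₗ[K] (∀ a, W a) := fun j => shiftOp (Y j)
  let z' : E →ₗ[K] (∀ a, W a) := (LinearMap.single K W 0).comp z
  have hcomm : ∀ i j, Commute (Y' i) (Y' j) := by
    intro i j
    change (Y' i).comp (Y' j) = (Y' j).comp (Y' i)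
    refine LinearMap.ext fun f => funext fun b => ?_
    match b with
    | 0 => rfl
    | 1 =>
      change Y i 0 (0 : W 0) = Y j 0 (0 : W 0)
      rw [map_zero, map_zero]
    | b + 2 =>
      change (Y i (b + 1)) (Y j b (f b)) = (Y j (b + 1)) (Y i b (f b))
      exact congrArg (fun g : W b →ₗ[K] W (b + 2) => g (f b)) (hY i j b)
  have key := lemU M Y' hcomm (fun _ => ⊥) (fun j _ a => by simp) V0 V z'
    (by
      rw [Submodule.map_le_iff_le_comap]
      intro v hv
      have h1 : z' v = LinearMap.single K W 0 (z v) := rfl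
      rw [Submodule.mem_comap, h1, hz v hv, map_zero]
      exact Submodule.zero_mem _) δ hδ
    (by
      intro i c
      have h1 : ∀ j, Y' (i + j) (z' (δ j c)) =
          LinearMap.single K W 1 (Y (i + j) 0 (z (δ j c))) := fun j => shiftOp_single _ 0 _
      rw [Finset.sum_congr rfl fun j _ => h1 j, ← map_sum, hrel i c, map_zero]
      exact Submodule.zero_mem _) (fun k => (e k).toNat)
    (fun k hk => RelLE.of_finrank (hle k) (by
      have h1 := he k hk
      have h2 := hnn k hk
      zify
      rw [h2]
      omega)) a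
  have hUS : US M Y' (V.map z') a = (SU M Y z V a).map (LinearMap.single K W a) := by
    clear key
    induction a with
    | zero => exact Submodule.map_comp _ _ _
    | succ a ih =>
      simp only [US, SU, Submodule.map_iSup]
      refine iSup_congr fun j => ?_
      rw [ih, ← Submodule.map_comp, ← Submodule.map_comp]
      congr 1
      exact LinearMap.ext fun v => shiftOp_single _ a v
  have : FiniteDimensional K (⊥ : Submodule K (∀ a, W a)) := inferInstance
  have h3 := key.finrank_le
  rw [finrank_bot, zero_add, hUS] at h3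
  have h4 : Module.finrank K ((SU M Y z V a).map (LinearMap.single K W a)) =
      Module.finrank K (SU M Y z V a) :=
    (Submodule.equivMapOfInjective _ (fun v w h => by
      have := congrFun h a
      simpa using this) _).finrank_eq.symm
  rw [h4] at h3
  rw [← uBn_cast M a (fun k => (e k).toNat) e hnn]
  exact_mod_cast h3

end HK
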