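import Pool.Agent.HK.ZLap

/-! # Module Zrel: cofactor relations (blueprint section 3) -/

namespace HK

open MvPolynomial Finset

namespace Zr

variable (K : Type*) [Field K] (n μ : ℕ)

/-- the columns: first `l` unit columns at the rows `κ`, then the columns of `ψ_μ` -/
noncomputable def cols (l : ℕ) (κ : Fin l → ℤ) (b : ℕ) (r : ℤ) : SB K n :=
  if h : b < l then (if r = κ ⟨b, h⟩ then 1 else 0) else ent K n μ r (b - l)

/-- the determinant `[ψ | e_κ]` -/
noncomputable def Dc (κ : Fin (n - μ) → ℤ) : SB K n :=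
  Matrix.det (Matrix.of fun r b : Fin (n + μ) => cols K n μ (n - μ) κ b ((r : ℕ) : ℤ))

/-- `Z_i(κ)` -/
noncomputable def ZZ (i : ℤ) (κ : Fin (n - μ + 1) → ℤ) : SB K n :=
  ∑ a : Fin (n - μ + 1), (-1 : SB K n) ^ (a : ℕ) * (xx K n (κ a + i) *
    Dc K n μ (fun b => κ (a.succAbove b)))

/-! ### `Dc` is `± D` -/

variable {K n μ}

theorem Dc_eq_zero_of_out (κ : Fin (n - μ) → ℤ) (b : Fin (n - μ)) (h : κ b < 0 ∨ (n : ℤ) + μ ≤ κ b) :
    Dc K n μ κ = 0 := by
  have hb : (b : ℕ) < n + μ := by omega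
  apply Matrix.det_eq_zero_of_column_eq_zero (⟨b, hb⟩ : Fin (n + μ))
  intro r
  simp only [Matrix.of_apply, cols, b.2, dif_pos]
  rw [if_neg]
  have := r.2
  simp only [Fin.eta]
  omega

theorem Dc_eq_zero_of_not_injective (κ : Fin (n - μ) → ℤ) (h : ¬ Function.Injective κ) :
    Dc K n μ κ = 0 := by
  simp only [Function.Injective, not_forall] at h
  obtain ⟨b, b', hbb, hne⟩ := h
  have hb : (b : ℕ) < n + μ := by omega
  have hb' : (b' : ℕ) < n + μ := by omega
  apply Matrix.det_zero_of_column_eq (i := (⟨b, hb⟩ : Fin (n + μ))) (j := ⟨b', hb'⟩)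
  · intro he
    apply hne
    exact Fin.ext (by simpa using he)
  · intro r
    simp only [Matrix.of_apply, cols, b.2, b'.2, dif_pos, Fin.eta, hbb]

theorem Dc_eq_or (hn : μ ≤ n) (κ : Fin (n - μ) → ℤ) (ρ : Fin (2 * μ) → ℤ)
    (hκ : Function.Injective κ) (hρ : Function.Injective ρ)
    (hκr : ∀ b, 0 ≤ κ b ∧ κ b < n + μ) (hρr : ∀ a, 0 ≤ ρ a ∧ ρ a < n + μ)
    (hd : ∀ a b, ρ a ≠ κ b) : Dc K n μ κ = D K n μ ρ ∨ Dc K n μ κ = - D K n μ ρ := by
  have hcard : Fintype.card (Fin (2 * μ) ⊕ Fin (n - μ)) = Fintype.card (Fin (n + μ)) := by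
    simp
    omega
  -- rows
  let fr : Fin (2 * μ) ⊕ Fin (n - μ) → Fin (n + μ) := Sum.elim
    (fun a => ⟨(ρ a).toNat, by have := hρr a; omega⟩)
    (fun b => ⟨(κ b).toNat, by have := hκr b; omega⟩)
  have hfr : Function.Injective fr := by
    rintro (a | b) (a' | b') h
    · have h1 : (ρ a).toNat = (ρ a').toNat := by simpa [fr] using h
      have : ρ a = ρ a' := by
        have := hρr a
        have := hρr a'
        omega
      rw [hρ this]
    · exfalso
      have h1 : (ρ a).toNat = (κ b').toNat := by simpa [fr] using h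
      apply hd a b'
      have := hρr a
      have := hκr b'
      omega
    · exfalso
      have h1 : (κ b).toNat = (ρ a').toNat := by simpa [fr] using h
      apply hd a' b
      have := hρr a'
      have := hκr b
      omega
    · have h1 : (κ b).toNat = (κ b').toNat := by simpa [fr] using h
      have : κ b = κ b' := by
        have := hκr b
        have := hκr b'
        omega
      rw [hκ this]
  let er : Fin (2 * μ) ⊕ Fin (n - μ) ≃ Fin (n + μ) := Equiv.ofBijective fr
    ((Fintype.bijective_iff_injective_and_card fr).2 ⟨hfr, hcard⟩)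
  -- columns
  let fc : Fin (2 * μ) ⊕ Fin (n - μ) → Fin (n + μ) := Sum.elim
    (fun t => ⟨t + (n - μ), by omega⟩) (fun b => ⟨b, by omega⟩)
  have hfc : Function.Injective fc := by
    rintro (a | b) (a' | b') h
    · have h1 : (a : ℕ) + (n - μ) = a' + (n - μ) := by simpa [fc] using h
      congr 1
      apply Fin.ext
      omega
    · exfalso
      have h1 : (a : ℕ) + (n - μ) = b' := by simpa [fc] using h
      omega
    · exfalso
      have h1 : (b : ℕ) = a' + (n - μ) := by simpa [fc] using h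
      omega
    · have h1 : (b : ℕ) = b' := by simpa [fc] using h
      congr 1
      exact Fin.ext h1
  let ec : Fin (2 * μ) ⊕ Fin (n - μ) ≃ Fin (n + μ) := Equiv.ofBijective fc
    ((Fintype.bijective_iff_injective_and_card fc).2 ⟨hfc, hcard⟩)
  set M : Matrix (Fin (n + μ)) (Fin (n + μ)) (SB K n) :=
    Matrix.of fun r b : Fin (n + μ) => cols K n μ (n - μ) κ b ((r : ℕ) : ℤ) with hM
  have h1 : M.submatrix er ec = Matrix.fromBlocks
      (Matrix.of fun a c : Fin (2 * μ) => ent K n μ (ρ a) c) 0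
      (Matrix.of fun (b : Fin (n - μ)) (c : Fin (2 * μ)) => ent K n μ (κ b) c) 1 := by
    ext (a | b) (c | d)
    · have h2 : ((ρ a).toNat : ℤ) = ρ a := Int.toNat_of_nonneg (hρr a).1
      simp [hM, er, ec, fr, fc, cols, Matrix.submatrix_apply, h2]
    · have h2 : ((ρ a).toNat : ℤ) = ρ a := Int.toNat_of_nonneg (hρr a).1
      simp [hM, er, ec, fr, fc, cols, Matrix.submatrix_apply, h2, hd a d]
    · have h2 : ((κ b).toNat : ℤ) = κ b := Int.toNat_of_nonneg (hκr b).1
      simp [hM, er, ec, fr, fc, cols, Matrix.submatrix_apply, h2]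
    · have h2 : ((κ b).toNat : ℤ) = κ b := Int.toNat_of_nonneg (hκr b).1
      simp [hM, er, ec, fr, fc, cols, Matrix.submatrix_apply, h2, hκ.eq_iff, Matrix.one_apply]
  have h2 : (M.submatrix er ec).det = D K n μ ρ := by
    rw [h1, Matrix.det_fromBlocks_zero₁₂, Matrix.det_one, mul_one, D]
  have h3 : (M.submatrix er ec).det = Equiv.Perm.sign (ec.symm.trans er) * M.det := by
    have h4 : M.submatrix er ec = (M.submatrix (ec.symm.trans er) id).submatrix ec ec := by
      ext i j
      simp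
    rw [h4, Matrix.det_submatrix_equiv_self, Matrix.det_permute]
  have h5 : M.det = Dc K n μ κ := rfl
  rw [h2, h5] at h3
  rcases Int.units_eq_one_or (Equiv.Perm.sign (ec.symm.trans er)) with h | h
  · left
    rw [h3, h]
    simp
  · right
    rw [h3, h]
    simp

/-- complementary enumeration -/
theorem exists_compl (k l : ℕ) (f : Fin k → ℤ) (N : ℤ) (hN : N = k + l)
    (hf : Function.Injective f) (hr : ∀ a, 0 ≤ f a ∧ f a < N) :
    ∃ g : Fin l → ℤ, Function.Injective g ∧ (∀ b, 0 ≤ g b ∧ g b < N) ∧ ∀ a b, f a ≠ g b := by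
  classical
  set s : Finset ℤ := Finset.Ico 0 N \ univ.image f with hs
  have hsub : univ.image f ⊆ Finset.Ico 0 N := by
    intro x hx
    obtain ⟨a, _, rfl⟩ := Finset.mem_image.1 hx
    exact Finset.mem_Ico.2 (hr a)
  have hc : s.card = l := by
    rw [hs, Finset.card_sdiff_of_subset hsub, Finset.card_image_of_injective _ hf]
    simp
    omega
  have hmem : ∀ x ∈ s, (0 ≤ x ∧ x < N) ∧ x ∉ univ.image f := fun x hx =>
    ⟨Finset.mem_Ico.1 (Finset.mem_sdiff.1 hx).1, (Finset.mem_sdiff.1 hx).2⟩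
  refine ⟨fun b => ((s.equivFinOfCardEq hc).symm b : ℤ), ?_, ?_, ?_⟩
  · intro b b' h
    exact (s.equivFinOfCardEq hc).symm.injective (Subtype.ext h)
  · intro b
    exact (hmem _ ((s.equivFinOfCardEq hc).symm b).2).1
  · intro a b h
    apply (hmem _ ((s.equivFinOfCardEq hc).symm b).2).2
    have h' : f a = ((s.equivFinOfCardEq hc).symm b : ℤ) := h
    rw [← h']
    exact Finset.mem_image_of_mem _ (Finset.mem_univ a)

theorem Dc_mem (hn : μ ≤ n) (κ : Fin (n - μ) → ℤ) :
    Dc K n μ κ ∈ Submodule.span K {f | ∃ ρ : Fin (2 * μ) → ℤ, f = D K n μ ρ} := by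
  by_cases hi : Function.Injective κ
  · by_cases hr : ∀ b, 0 ≤ κ b ∧ κ b < n + μ
    · obtain ⟨ρ, hρ, hρr, hd⟩ := exists_compl (n - μ) (2 * μ) κ ((n : ℤ) + μ) (by omega) hi hr
      rcases Dc_eq_or (K := K) hn κ ρ hi hρ hr hρr (fun a b => (hd b a).symm) with h | h
      · rw [h]
        exact Submodule.subset_span ⟨ρ, rfl⟩
      · rw [h]
        exact Submodule.neg_mem _ (Submodule.subset_span ⟨ρ, rfl⟩)
    · push Not at hr
      obtain ⟨b, hb⟩ := hr
      rw [Dc_eq_zero_of_out κ b (by
        by_cases h : 0 ≤ κ b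
        · exact Or.inr (hb h)
        · exact Or.inl (by omega))]
      exact Submodule.zero_mem _
  · rw [Dc_eq_zero_of_not_injective κ hi]
    exact Submodule.zero_mem _

/-! ### membership in `C_μ` -/

theorem xx_mem_CC (k : ℤ) (hk : (n : ℤ) + μ ≤ k) : xx K n k ∈ CC K n μ := by
  rcases eq_or_lt_of_le hk with h | h
  · rw [← h]
    exact Ideal.mem_sup_right (Ideal.subset_span rfl)
  · apply Ideal.mem_sup_left
    apply Ideal.subset_span
    refine Or.inl (Or.inl (Or.inl ⟨k, ?_, rfl⟩))
    push_cast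
    omega

theorem Lp_mem_CC (i : ℕ) (hi : i < n) : Lp K n i ∈ CC K n μ :=
  Ideal.mem_sup_left (Ideal.subset_span (Or.inl (Or.inl (Or.inr ⟨i, hi, rfl⟩))))

theorem Lq_mem_CC (i : ℕ) (hi : i < n) : Lq K n i ∈ CC K n μ :=
  Ideal.mem_sup_left (Ideal.subset_span (Or.inl (Or.inr ⟨i, hi, rfl⟩)))

theorem pp_zero (k : ℤ) (hk : k < 0 ∨ (n : ℤ) + 2 ≤ k) : pp K n k = 0 := by
  rw [pp, dif_neg]
  omega

theorem qq_zero (k : ℤ) (hk : k < 0 ∨ (n : ℤ) + 2 ≤ k) : qq K n k = 0 := by
  rw [qq, dif_neg]
  omega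

/-- shifting a convolution sum -/
theorem shiftsum {R : Type*} [CommRing R] (X P : ℤ → R) (m N t i : ℕ)
    (hX : ∀ k : ℤ, (m : ℤ) ≤ k → X k = 0) (hP : ∀ k : ℤ, k < 0 ∨ (N : ℤ) ≤ k → P k = 0) :
    ∑ k ∈ range m, X (k + i) * P (k - t) = ∑ l ∈ range N, X (l + (i + t : ℕ)) * P l := by
  have h1 : ∑ k ∈ range m, X (k + i) * P (k - t) =
      ∑ k ∈ range (t + (m + N)), X (k + i) * P (k - t) := by
    apply Finset.sum_subset
    · apply Finset.range_subset_range.2
      omega
    · intro k _ hk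
      rw [hX _ (by
        have := Finset.mem_range.not.1 hk
        omega), zero_mul]
  have h2 : ∑ l ∈ range N, X (l + (i + t : ℕ)) * P l =
      ∑ l ∈ range (m + N), X (l + (i + t : ℕ)) * P l := by
    apply Finset.sum_subset
    · apply Finset.range_subset_range.2
      omega
    · intro k _ hk
      rw [hP _ (by
        have := Finset.mem_range.not.1 hk
        omega), mul_zero]
  rw [h1, h2, Finset.sum_range_add]
  have h3 : ∑ x ∈ range t, X (x + i) * P (x - t) = 0 := by
    apply Finset.sum_eq_zero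
    intro k hk
    rw [hP _ (by
      have := Finset.mem_range.1 hk
      omega), mul_zero]
  rw [h3, zero_add]
  refine Finset.sum_congr rfl fun l _ => ?_
  congr 2 <;> push_cast <;> ring

variable (K n μ) in
/-- the functional applied to a column -/
noncomputable def xi (i : ℕ) (v : ℤ → SB K n) : SB K n :=
  ∑ k ∈ range (n + μ), xx K n (k + i) * v k

theorem xi_psi_mem (i t : ℕ) (ht : t < 2 * μ) (hi : i + μ ≤ n) :
    xi K n μ i (fun r => ent K n μ r t) ∈ CC K n μ := by
  rw [← Ideal.Quotient.eq_zero_iff_mem]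
  set φ := Ideal.Quotient.mk (CC K n μ) with hφ
  have hX : ∀ k : ℤ, ((n + μ : ℕ) : ℤ) ≤ k → φ (xx K n k) = 0 := by
    intro k hk
    rw [hφ, Ideal.Quotient.eq_zero_iff_mem]
    apply xx_mem_CC
    push_cast at hk
    exact hk
  rw [xi, map_sum]
  by_cases h : t < μ
  · have h1 : ∑ k ∈ range (n + μ), φ (xx K n (k + i) * ent K n μ k t) =
        ∑ k ∈ range (n + μ), φ (xx K n (k + i)) * φ (pp K n (k - t)) := by
      refine Finset.sum_congr rfl fun k hk => ?_
      have := Finset.mem_range.1 hk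
      rw [ent, if_pos (by omega), if_pos h, map_mul]
    rw [h1, shiftsum (fun k => φ (xx K n k)) (fun k => φ (pp K n k)) (n + μ) (n + 2) t i hX
      (fun k hk => by
        show φ (pp K n k) = 0
        rw [pp_zero k (by push_cast at hk; exact hk), map_zero])]
    have h2 : φ (Lp K n (i + t)) = 0 := by
      rw [hφ, Ideal.Quotient.eq_zero_iff_mem]
      exact Lp_mem_CC _ (by omega)
    rw [Lp, map_sum] at h2
    rw [← h2]
    exact Finset.sum_congr rfl fun l _ => by rw [map_mul]
  · have h1 : ∑ k ∈ range (n + μ), φ (xx K n (k + i) * ent K n μ k t) =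
        ∑ k ∈ range (n + μ), φ (xx K n (k + i)) * φ (qq K n (k - (t - μ : ℕ))) := by
      refine Finset.sum_congr rfl fun k hk => ?_
      have := Finset.mem_range.1 hk
      rw [ent, if_pos (by omega), if_neg h, map_mul]
    rw [h1, shiftsum (fun k => φ (xx K n k)) (fun k => φ (qq K n k)) (n + μ) (n + 2) (t - μ) i hX
      (fun k hk => by
        show φ (qq K n k) = 0
        rw [qq_zero k (by push_cast at hk; exact hk), map_zero])]
    have h2 : φ (Lq K n (i + (t - μ))) = 0 := by
      rw [hφ, Ideal.Quotient.eq_zero_iff_mem]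
      exact Lq_mem_CC _ (by omega)
    rw [Lq, map_sum] at h2
    rw [← h2]
    exact Finset.sum_congr rfl fun l _ => by rw [map_mul]

/-! ### Cramer-like identity -/

theorem cramer {R : Type*} [CommRing R] [IsDomain R] (m : ℕ) (x : Fin m → R)
    (w : Fin (m + 1) → Fin m → R) :
    ∑ j : Fin (m + 1), (-1) ^ (j : ℕ) * (∑ k, x k * w j k) *
      Matrix.det (Matrix.of fun r b : Fin m => w (j.succAbove b) r) = 0 := by
  classical
  set M : Matrix (Fin (m + 1)) (Fin (m + 1)) R :=
    Matrix.of fun r j => (Fin.cons (∑ k, x k * w j k) (fun k => w j k) : Fin (m + 1) → R) r with hM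
  have h0 : M.det = 0 := by
    rw [← Matrix.exists_vecMul_eq_zero_iff]
    refine ⟨Fin.cons (-1) x, ?_, ?_⟩
    · intro h
      have := congrFun h 0
      simp at this
    · ext j
      simp [Matrix.vecMul, dotProduct, Fin.sum_univ_succ, hM]
  rw [Matrix.det_succ_row_zero] at h0
  rw [← h0]
  refine Finset.sum_congr rfl fun j _ => ?_
  rfl

theorem cols_lt (l : ℕ) (κ : Fin l → ℤ) (a : Fin l) (r : ℤ) :
    cols K n μ l κ a r = if r = κ a then 1 else 0 := by
  rw [cols, dif_pos a.2]

/-- removing the unit column `a` -/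
theorem cols_succAbove (κ : Fin (n - μ + 1) → ℤ) (a : Fin (n - μ + 1)) (ha : (a : ℕ) < n + μ + 1)
    (b : Fin (n + μ)) (r : ℤ) :
    cols K n μ (n - μ + 1) κ ((⟨a, ha⟩ : Fin (n + μ + 1)).succAbove b : Fin (n + μ + 1)) r =
      cols K n μ (n - μ) (fun b => κ (a.succAbove b)) b r := by
  have hv : (((⟨a, ha⟩ : Fin (n + μ + 1)).succAbove b : Fin (n + μ + 1)) : ℕ) =
      if (b : ℕ) < a then (b : ℕ) else b + 1 := by
    rw [Fin.succAbove]
    split <;> rename_i h
    · have : (b : ℕ) < a := by simpa [Fin.lt_def] using h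
      simp [this]
    · have : ¬ (b : ℕ) < a := by simpa [Fin.lt_def] using h
      simp [this]
  have ha2 := a.2
  by_cases hb : (b : ℕ) < n - μ
  · have hlt : (((⟨a, ha⟩ : Fin (n + μ + 1)).succAbove b : Fin (n + μ + 1)) : ℕ) < n - μ + 1 := by
      rw [hv]
      split <;> omega
    rw [cols, dif_pos hlt, cols, dif_pos hb]
    congr 3
    apply Fin.ext
    simp only [hv]
    rw [Fin.succAbove]
    split <;> rename_i h
    · rw [if_pos]
      · simpa [Fin.lt_def] using h
      · have : (b : ℕ) < a := h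
        simp [Fin.lt_def, this]
    · rw [if_neg]
      · simp
      · intro h'
        apply h
        simpa [Fin.lt_def] using h'
  · have h1 : (if (b : ℕ) < a then (b : ℕ) else b + 1) = b + 1 := by
      rw [if_neg]
      omega
    rw [cols, dif_neg (by rw [hv, h1]; omega), cols, dif_neg hb, hv, h1]
    congr 1
    omega

/-- (3a) -/
theorem ZZ_mem_small (hn : μ ≤ n) (i : ℕ) (hi : i + μ ≤ n) (κ : Fin (n - μ + 1) → ℤ)
    (hκ : ∀ a, 0 ≤ κ a) : ZZ K n μ i κ ∈ CC K n μ := by
  classical
  have hcr := cramer (R := SB K n) (n + μ) (fun k => xx K n (k + i))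
    (fun j r => cols K n μ (n - μ + 1) κ j ((r : ℕ) : ℤ))
  rw [← Ideal.Quotient.eq_zero_iff_mem]
  set φ := Ideal.Quotient.mk (CC K n μ) with hφ
  have hcr2 := congrArg φ hcr
  rw [map_sum, map_zero] at hcr2
  rw [← hcr2, ZZ, map_sum]
  have hle : n - μ + 1 ≤ n + μ + 1 := by omega
  apply Finset.sum_of_injOn (Fin.castLE hle)
  · exact (Fin.castLE_injective hle).injOn
  · intro a _
    simp
  · intro j _ hj
    have hj' : n - μ + 1 ≤ (j : ℕ) := by
      by_contra hlt
      apply hj
      exact ⟨⟨j, by omega⟩, by simp, by ext; simp⟩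
    have h1 : (∑ k : Fin (n + μ), xx K n ((k : ℕ) + i) * cols K n μ (n - μ + 1) κ j ((k : ℕ) : ℤ)) =
        xi K n μ i (fun r => ent K n μ r (j - (n - μ + 1) : ℕ)) := by
      rw [xi, ← Fin.sum_univ_eq_sum_range (fun k => xx K n (k + i) *
        ent K n μ k (j - (n - μ + 1) : ℕ))]
      refine Finset.sum_congr rfl fun k _ => ?_
      rw [cols, dif_neg (by omega)]
    rw [h1, map_mul, map_mul]
    have h2 : φ (xi K n μ i (fun r => ent K n μ r (j - (n - μ + 1) : ℕ))) = 0 := by
      rw [hφ, Ideal.Quotient.eq_zero_iff_mem]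
      exact xi_psi_mem i _ (by omega) hi
    rw [h2, mul_zero, zero_mul]
  · intro a _
    have ha : (a : ℕ) < n + μ + 1 := by omega
    have h1 : φ (∑ k : Fin (n + μ), xx K n ((k : ℕ) + i) *
        cols K n μ (n - μ + 1) κ (Fin.castLE hle a : Fin (n + μ + 1)) ((k : ℕ) : ℤ)) =
        φ (xx K n (κ a + i)) := by
      simp only [Fin.val_castLE, cols_lt]
      by_cases hk : κ a < n + μ
      · congr 1
        have h0 := hκ a
        rw [Finset.sum_eq_single (⟨(κ a).toNat, by omega⟩ : Fin (n + μ))]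
        · have h3 : ((κ a).toNat : ℤ) = κ a := Int.toNat_of_nonneg h0
          simp only [h3, if_true, mul_one]
        · intro k _ hk2
          have h3 : ((k : ℕ) : ℤ) ≠ κ a := by
            intro h
            apply hk2
            apply Fin.ext
            simp only
            omega
          rw [if_neg h3, mul_zero]
        · simp
      · have h2 : φ (xx K n (κ a + i)) = 0 := by
          rw [hφ, Ideal.Quotient.eq_zero_iff_mem]
          exact xx_mem_CC _ (by omega)
        rw [h2]
        rw [Finset.sum_eq_zero, map_zero]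
        intro k _
        have h3 : ((k : ℕ) : ℤ) ≠ κ a := by
          have := k.2
          omega
        rw [if_neg h3, mul_zero]
    have h2 : (Matrix.of fun r b : Fin (n + μ) => cols K n μ (n - μ + 1) κ
        (((Fin.castLE hle a : Fin (n + μ + 1)).succAbove b : Fin (n + μ + 1)) : ℕ)
          ((r : ℕ) : ℤ)) = Matrix.of fun r b : Fin (n + μ) =>
        cols K n μ (n - μ) (fun b => κ (a.succAbove b)) b ((r : ℕ) : ℤ) := by
      ext r b
      simp only [Matrix.of_apply]
      exact congrArg _ (cols_succAbove κ a ha b r)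
    rw [map_mul, map_mul φ _ (Matrix.det _), map_mul φ _ (∑ k : Fin (n + μ), _), h1, h2, map_mul]
    simp only [Fin.val_castLE]
    rw [mul_assoc]
    rfl

/-- (3c) -/
theorem ZZ_mem (hn : μ ≤ n) (i : ℕ) : ∀ κ : Fin (n - μ + 1) → ℤ, (∀ a, 0 ≤ κ a) →
    ZZ K n μ i κ ∈ CC K n μ := by
  induction i using Nat.strong_induction_on with
  | _ i ih =>
    intro κ hκ
    by_cases hi : i + μ ≤ n
    · exact ZZ_mem_small hn i hi κ hκ
    · have h := canc (n - μ) 1 (fun k κ' => xx K n k * Dc K n μ κ') κ i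
      rw [← Finset.sum_erase_add _ _ (Finset.mem_univ (∅ : Finset (Fin (n - μ + 1))))] at h
      have h0 : ((-1 : ℤ) ^ (∅ : Finset (Fin (n - μ + 1))).card • ∑ a : Fin (n - μ + 1),
          (-1 : ℤ) ^ (a : ℕ) • (xx K n (κ a + (if a ∈ (∅ : Finset (Fin (n - μ + 1))) then 1 else 0) -
            1 * (∅ : Finset (Fin (n - μ + 1))).card + i) *
            Dc K n μ (fun b => κ (a.succAbove b) +
              (if a.succAbove b ∈ (∅ : Finset (Fin (n - μ + 1))) then 1 else 0)))) =
          ZZ K n μ i κ := by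
        simp [ZZ, zsmul_eq_mul]
      rw [h0] at h
      have h2 : ZZ K n μ i κ = - ∑ J ∈ univ.erase (∅ : Finset (Fin (n - μ + 1))),
          ((-1 : ℤ) ^ J.card • ∑ a : Fin (n - μ + 1),
          (-1 : ℤ) ^ (a : ℕ) • (xx K n (κ a + (if a ∈ J then 1 else 0) - 1 * J.card + i) *
            Dc K n μ (fun b => κ (a.succAbove b) + (if a.succAbove b ∈ J then 1 else 0)))) := by
        rw [eq_neg_iff_add_eq_zero, add_comm]
        exact h
      rw [h2]
      apply Ideal.neg_mem_iff _ |>.2
      apply Ideal.sum_mem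
      intro J hJ
      have hJ1 : 1 ≤ J.card := by
        rw [Nat.one_le_iff_ne_zero, Finset.card_ne_zero]
        exact Finset.nonempty_iff_ne_empty.2 (Finset.ne_of_mem_erase hJ)
      have hJ2 : J.card ≤ n - μ + 1 := by
        simpa using Finset.card_le_univ J
      have h3 : (∑ a : Fin (n - μ + 1),
          (-1 : ℤ) ^ (a : ℕ) • (xx K n (κ a + (if a ∈ J then 1 else 0) - 1 * J.card + i) *
            Dc K n μ (fun b => κ (a.succAbove b) + (if a.succAbove b ∈ J then 1 else 0)))) =
          ZZ K n μ ((i - J.card : ℕ) : ℤ) (fun a => κ a + (if a ∈ J then 1 else 0)) := by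
        rw [ZZ]
        refine Finset.sum_congr rfl fun a _ => ?_
        rw [zsmul_eq_mul]
        push_cast
        have h4 : κ a + (if a ∈ J then (1 : ℤ) else 0) - 1 * (J.card : ℤ) + i =
            κ a + (if a ∈ J then (1 : ℤ) else 0) + ((i - J.card : ℕ) : ℤ) := by
          rw [Nat.cast_sub (by omega)]
          ring
        rw [h4]
      rw [h3, zsmul_eq_mul]
      apply Ideal.mul_mem_left
      apply ih (i - J.card) (by omega)
      intro a
      have := hκ a
      split <;> omega

end Zr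

open Zr in
/-- there is a family `δ j c` (`j`: row) in the span of the minors, containing up to sign every
minor `D ρ` as `δ (ρ a) c` for every `a`, and with `∑_j x_{i+j} δ j c ∈ C_μ` for all `i`, `c` -/
theorem zrel (K : Type*) [Field K] (n μ : ℕ) (hμ : 1 ≤ μ) (hn : μ ≤ n) :
    ∃ (C : Type) (δ : ℕ → C → SB K n),
      (∀ j c, δ j c ∈ Submodule.span K {f | ∃ ρ : Fin (2 * μ) → ℤ, f = D K n μ ρ}) ∧
      (∀ (ρ : Fin (2 * μ) → ℤ) (a : Fin (2 * μ)), D K n μ ρ ≠ 0 → 0 ≤ ρ a →
        ∃ c, D K n μ ρ = δ (ρ a).toNat c ∨ D K n μ ρ = -δ (ρ a).toNat c) ∧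
      (∀ (i : ℕ) (c : C), ∑ j ∈ range (n + μ - i), xx K n (i + j) * δ j c ∈ CC K n μ) := by
  classical
  refine ⟨Fin (n - μ + 1) → ℕ, fun j κ => ∑ a : Fin (n - μ + 1), if κ a = j then
    (-1 : SB K n) ^ (a : ℕ) * Dc K n μ (fun b => (κ (a.succAbove b) : ℤ)) else 0, ?_, ?_, ?_⟩
  · intro j κ
    apply Submodule.sum_mem
    intro a _
    split
    · rcases neg_one_pow_eq_or (SB K n) (a : ℕ) with h | h
      · rw [h, one_mul]
        exact Dc_mem hn _
      · rw [h, neg_one_mul]
        exact Submodule.neg_mem _ (Dc_mem hn _)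
    · exact Submodule.zero_mem _
  · intro ρ a hD h0
    -- `ρ` is injective with values in the range
    have hout : ∀ a, 0 ≤ ρ a ∧ ρ a < n + μ := by
      intro a
      by_contra hcon
      apply hD
      apply Matrix.det_eq_zero_of_row_eq_zero a
      intro c
      simp [ent, hcon]
    have hinj : Function.Injective ρ := by
      intro a b hab
      by_contra hne
      apply hD
      apply Matrix.det_zero_of_row_eq hne
      ext c
      simp [hab]
    obtain ⟨κ, hκ, hκr, hd⟩ := exists_compl (2 * μ) (n - μ) ρ ((n : ℤ) + μ) (by omega) hinj hout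
    refine ⟨Fin.cons (ρ a).toNat (fun b => (κ b).toNat), ?_⟩
    have h1 : (∑ b : Fin (n - μ + 1), if (Fin.cons (ρ a).toNat (fun b => (κ b).toNat) :
        Fin (n - μ + 1) → ℕ) b = (ρ a).toNat then
        (-1 : SB K n) ^ (b : ℕ) * Dc K n μ (fun d => ((Fin.cons (ρ a).toNat
          (fun b => (κ b).toNat) : Fin (n - μ + 1) → ℕ) (b.succAbove d) : ℤ)) else 0) =
        Dc K n μ κ := by
      rw [Fin.sum_univ_succ, Finset.sum_eq_zero]
      · simp only [Fin.cons_zero, if_true, Fin.val_zero, pow_zero, one_mul, add_zero,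
          Fin.succAbove_zero, Fin.cons_succ]
        congr 1
        ext d
        exact Int.toNat_of_nonneg (hκr d).1
      · intro b _
        rw [if_neg]
        simp only [Fin.cons_succ]
        intro h
        apply hd a b
        have := hκr b
        have := hout a
        omega
    simp only [h1]
    rcases Dc_eq_or (K := K) hn κ ρ hκ hinj hκr hout hd with h | h
    · left; exact h.symm
    · right; rw [h, neg_neg]
  · intro i κ
    have hZ := ZZ_mem (K := K) hn i (fun a => (κ a : ℤ)) (fun a => by positivity)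
    have h1 : ∑ j ∈ range (n + μ - i), xx K n (i + j) * (∑ a : Fin (n - μ + 1), if κ a = j then
        (-1 : SB K n) ^ (a : ℕ) * Dc K n μ (fun b => (κ (a.succAbove b) : ℤ)) else 0) =
        ZZ K n μ i (fun a => (κ a : ℤ)) - ∑ a : Fin (n - μ + 1), if κ a < n + μ - i then 0 else
          (-1 : SB K n) ^ (a : ℕ) * (xx K n (κ a + i) *
            Dc K n μ (fun b => (κ (a.succAbove b) : ℤ))) := by
      simp only [Finset.mul_sum]
      rw [Finset.sum_comm, ZZ, ← Finset.sum_sub_distrib]
      refine Finset.sum_congr rfl fun a _ => ?_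
      simp only [mul_ite, mul_zero]
      rw [Finset.sum_ite_eq]
      by_cases h : κ a < n + μ - i
      · rw [if_pos (Finset.mem_range.2 h), if_pos h, sub_zero]
        rw [add_comm (i : ℤ) (κ a : ℤ)]
        ring
      · rw [if_neg (fun h' => h (Finset.mem_range.1 h')), if_neg h, sub_self]
    rw [h1]
    apply Ideal.sub_mem _ hZ
    apply Ideal.sum_mem
    intro a _
    split
    · exact Ideal.zero_mem _
    · apply Ideal.mul_mem_left
      apply Ideal.mul_mem_right
      apply xx_mem_CC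
      omega

end HK
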