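import Pool.Agent.HK.Grad
import Pool.Agent.HK.LemU
import Pool.Agent.HK.Zrel

/-! # Auxiliary statements for the chain -/

namespace HK

open MvPolynomial Finset

section

variable {K : Type*} [Field K] {n : ℕ}

theorem X_inl_mem (j : Fin (2 * n + 1)) : (X (Sum.inl j) : SB K n) ∈ bih K n 1 0 :=
  isWeightedHomogeneous_X K (wt n) (Sum.inl j)

theorem X_inr_mem (v : Fin (n + 2) ⊕ Fin (n + 2)) : (X (Sum.inr v) : SB K n) ∈ bih K n 0 1 :=
  isWeightedHomogeneous_X K (wt n) (Sum.inr v)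

theorem xx_mem (k : ℤ) : xx K n k ∈ bih K n 1 0 := by
  unfold xx
  split_ifs
  · exact X_inl_mem _
  · exact Submodule.zero_mem _

theorem pp_mem (k : ℤ) : pp K n k ∈ bih K n 0 1 := by
  unfold pp
  split_ifs
  · exact X_inr_mem _
  · exact Submodule.zero_mem _

theorem qq_mem (k : ℤ) : qq K n k ∈ bih K n 0 1 := by
  unfold qq
  split_ifs
  · exact X_inr_mem _
  · exact Submodule.zero_mem _

theorem ent_mem (μ : ℕ) (r : ℤ) (c : ℕ) : ent K n μ r c ∈ bih K n 0 1 := by
  unfold ent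
  split_ifs
  · exact pp_mem _
  · exact qq_mem _
  · exact Submodule.zero_mem _

theorem Lp_mem (i : ℕ) : Lp K n i ∈ bih K n 1 1 := by
  refine Submodule.sum_mem _ fun k _ => ?_
  exact mul_mem_bih (xx_mem _) (pp_mem _)

theorem Lq_mem (i : ℕ) : Lq K n i ∈ bih K n 1 1 := by
  refine Submodule.sum_mem _ fun k _ => ?_
  exact mul_mem_bih (xx_mem _) (qq_mem _)

theorem D_mem (μ : ℕ) (ρ : Fin (2 * μ) → ℤ) : D K n μ ρ ∈ bih K n 0 (2 * μ) := by
  unfold D
  rw [Matrix.det_apply]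
  refine Submodule.sum_mem _ fun σ _ => ?_
  rw [Units.smul_def]
  refine zsmul_mem ?_ _
  have h := IsWeightedHomogeneous.prod (R := K) (w := wt n) (univ : Finset (Fin (2 * μ)))
    (fun i => Matrix.of (fun a c : Fin (2 * μ) => ent K n μ (ρ a) c) (σ i) i)
    (fun _ => ((0 : ℕ), (1 : ℕ))) (fun i _ => ent_mem μ _ _)
  have h2 : (∑ _i : Fin (2 * μ), ((0 : ℕ), (1 : ℕ))) = (0, 2 * μ) := by
    rw [Finset.sum_const, Finset.card_univ, Fintype.card_fin, Prod.smul_mk, smul_zero,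
      smul_eq_mul, mul_one]
  rw [h2] at h
  exact h

theorem gensA_bih (μ : ℕ) : ∀ g ∈ gensA K n μ, ∃ a b, g ∈ bih K n a b := by
  rintro g (((⟨k, _, rfl⟩ | ⟨i, _, rfl⟩) | ⟨i, _, rfl⟩) | ⟨ρ, rfl⟩)
  · exact ⟨_, _, xx_mem _⟩
  · exact ⟨_, _, Lp_mem _⟩
  · exact ⟨_, _, Lq_mem _⟩
  · exact ⟨_, _, D_mem _ _⟩

theorem BH_AA (μ : ℕ) : BH (AA K n μ) := BH_span (gensA_bih μ)

theorem BH_CC (μ : ℕ) : BH (CC K n μ) := by
  refine BH_sup (BH_AA _) (BH_span ?_)
  intro g hg
  rw [Set.mem_singleton_iff] at hg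
  rw [hg]
  exact ⟨_, _, xx_mem _⟩

theorem xx_mem_CC (μ : ℕ) (k : ℤ) (hk : (n : ℤ) + μ ≤ k) : xx K n k ∈ CC K n μ := by
  rcases eq_or_lt_of_le hk with h | h
  · rw [← h]
    exact Ideal.mem_sup_right (Ideal.mem_span_singleton_self _)
  · refine Ideal.mem_sup_left (Ideal.subset_span (Or.inl (Or.inl (Or.inl ⟨k, ?_, rfl⟩))))
    push_cast
    omega

theorem Lp_mem_CC (μ i : ℕ) (hi : i < n) : Lp K n i ∈ CC K n μ :=
  Ideal.mem_sup_left (Ideal.subset_span (Or.inl (Or.inl (Or.inr ⟨i, hi, rfl⟩))))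

theorem Lq_mem_CC (μ i : ℕ) (hi : i < n) : Lq K n i ∈ CC K n μ :=
  Ideal.mem_sup_left (Ideal.subset_span (Or.inl (Or.inr ⟨i, hi, rfl⟩)))

theorem D_mem_AA (μ : ℕ) (ρ : Fin (2 * μ) → ℤ) : D K n μ ρ ∈ AA K n μ :=
  Ideal.subset_span (Or.inr ⟨ρ, rfl⟩)

theorem CC_le_AA (μ : ℕ) : CC K n μ ≤ AA K n μ := by
  refine sup_le (AA_le K n μ) ?_
  rw [Ideal.span_singleton_le_iff_mem]
  exact Ideal.subset_span (Or.inl (Or.inl (Or.inl ⟨_, le_rfl, rfl⟩)))

theorem Vs_le_bih (μ b : ℕ) : Vs K n μ b ≤ bih K n 0 b := by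
  unfold Vs
  rw [Submodule.span_le]
  rintro f ⟨u, ρ, hb, hu, rfl⟩
  have := mul_mem_bih hu (D_mem μ ρ)
  rwa [show b - 2 * μ + 2 * μ = b by omega] at this

theorem Vs_le_AA (μ b : ℕ) : ∀ f ∈ Vs K n μ b, f ∈ AA K n μ := by
  intro f hf
  refine Submodule.span_induction (p := fun x _ => x ∈ AA K n μ) ?_ ?_ ?_ ?_ hf
  · rintro x ⟨u, ρ, _, _, rfl⟩
    exact Ideal.mul_mem_left _ _ (D_mem_AA _ _)
  · exact Ideal.zero_mem _
  · intro x y _ _ hx hy
    exact Ideal.add_mem _ hx hy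
  · intro r x _ hx
    rw [← algebraMap_smul (SB K n) r x, smul_eq_mul]
    exact Ideal.mul_mem_left _ _ hx

/-- every bihomogeneous polynomial of positive `x`-degree is a combination of multiples of the
`x_j` -/
theorem bih_succ_le (a b : ℕ) : bih K n (a + 1) b ≤
    Submodule.span K {h | ∃ (j : Fin (2 * n + 1)) (u : SB K n), u ∈ bih K n a b ∧
      h = xx K n (j : ℕ) * u} := by
  intro f hf
  rw [f.as_sum]
  refine Submodule.sum_mem _ fun d hd => ?_
  rw [mem_support_iff] at hd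
  have h1 : Finsupp.weight (wt n) d = (a + 1, b) := hf hd
  have h2 : ∃ j : Fin (2 * n + 1), d (Sum.inl j) ≠ 0 := by
    by_contra hcon
    push Not at hcon
    have h3 : (Finsupp.weight (wt n) d).1 = 0 := by
      rw [Finsupp.weight_apply]
      unfold Finsupp.sum
      rw [Prod.fst_sum]
      apply Finset.sum_eq_zero
      rintro (i | i) _
      · rw [hcon i]
        simp
      · simp [wt]
    rw [h1] at h3
    simp at h3
  obtain ⟨j, hj⟩ := h2
  have h4 : Finsupp.single (Sum.inl j) 1 + (d - Finsupp.single (Sum.inl j) 1) = d := by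
    rw [add_comm]
    apply tsub_add_cancel_of_le
    rw [Finsupp.single_le_iff]
    omega
  refine Submodule.subset_span ⟨j, monomial (d - Finsupp.single (Sum.inl j) 1) (coeff d f), ?_, ?_⟩
  · refine isWeightedHomogeneous_monomial _ _ _ ?_
    have h5 := congrArg (Finsupp.weight (wt n)) h4
    rw [map_add, h1, Finsupp.weight_single] at h5
    simp only [wt, one_smul] at h5
    rw [Prod.ext_iff] at h5 ⊢
    simp only [Prod.fst_add, Prod.snd_add] at h5 ⊢
    constructor
    · omega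
    · omega
  · have h6 : xx K n (j : ℕ) = X (Sum.inl j) := by
      unfold xx
      rw [dif_pos (by constructor <;> omega)]
      congr 2
    rw [h6, X, monomial_mul, one_mul, h4]

/-- multiplication operators on the quotients by `CC` -/
noncomputable def YY (μ b : ℕ) (j a : ℕ) :
    (bih K n a b ⧸ gr K n (CC K n μ) a b) →ₗ[K] (bih K n (a + 1) b ⧸ gr K n (CC K n μ) (a + 1) b) :=
  mulQ (CC K n μ) (xx K n j) (xx_mem _) a b

theorem YY_mk (μ b j a : ℕ) (x : bih K n a b) :
    YY μ b j a ((gr K n (CC K n μ) a b).mkQ x) =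
      (gr K n (CC K n μ) (a + 1) b).mkQ (mulB (xx K n j) (xx_mem _) a b x) := rfl

theorem YY_comm (μ b i j a : ℕ) :
    (YY (K := K) (n := n) μ b i (a + 1)).comp (YY μ b j a) =
      (YY μ b j (a + 1)).comp (YY μ b i a) := by
  apply LinearMap.ext
  intro y
  obtain ⟨x, rfl⟩ := Submodule.mkQ_surjective _ y
  simp only [LinearMap.comp_apply]
  rw [YY_mk, YY_mk, YY_mk, YY_mk]
  congr 1
  ext1
  change xx K n i * (xx K n j * x) = xx K n j * (xx K n i * x)
  ring

/-- the spans `SU` for the quotient by `CC` -/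
noncomputable def SUm (K : Type*) [Field K] (n μ b a : ℕ) :
    Submodule K (bih K n a b ⧸ gr K n (CC K n μ) a b) :=
  SU (W := fun a => bih K n a b ⧸ gr K n (CC K n μ) a b) (n + μ) (YY μ b)
    (gr K n (CC K n μ) 0 b).mkQ ((Vs K n μ b).comap (bih K n 0 b).subtype) a

/-- products of arbitrary bihomogeneous elements with the minors lie in `SU` -/
theorem mem_SU (μ b : ℕ) (hb : 2 * μ ≤ b) (ρ : Fin (2 * μ) → ℤ) : ∀ (a : ℕ) (u : SB K n),
    u ∈ bih K n a (b - 2 * μ) → ∀ x : bih K n a b, (x : SB K n) = u * D K n μ ρ →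
      (gr K n (CC K n μ) a b).mkQ x ∈ SUm K n μ b a := by
  intro a
  induction a with
  | zero =>
    intro u hu x hx
    refine Submodule.mem_map_of_mem ?_
    rw [Submodule.mem_comap]
    exact Submodule.subset_span ⟨u, ρ, hb, hu, hx⟩
  | succ a ih =>
    intro u hu
    have hdeg : ∀ w ∈ bih K n (a + 1) (b - 2 * μ), w * D K n μ ρ ∈ bih K n (a + 1) b := by
      intro w hw
      have := mul_mem_bih hw (D_mem μ ρ)
      rwa [show b - 2 * μ + 2 * μ = b by omega] at this
    have hdeg' : ∀ w ∈ bih K n a (b - 2 * μ), w * D K n μ ρ ∈ bih K n a b := by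
      intro w hw
      have := mul_mem_bih hw (D_mem μ ρ)
      rwa [show b - 2 * μ + 2 * μ = b by omega] at this
    have hle : Submodule.span K {h | ∃ (j : Fin (2 * n + 1)) (u : SB K n),
        u ∈ bih K n a (b - 2 * μ) ∧ h = xx K n (j : ℕ) * u} ≤ bih K n (a + 1) (b - 2 * μ) := by
      rw [Submodule.span_le]
      rintro f ⟨j, v, hv, rfl⟩
      have := mul_mem_bih (xx_mem (K := K) (n := n) (j : ℕ)) hv
      rwa [add_comm 1 a, zero_add] at this
    refine Submodule.span_induction (p := fun u _ => ∀ x : bih K n (a + 1) b,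
      (x : SB K n) = u * D K n μ ρ → (gr K n (CC K n μ) (a + 1) b).mkQ x ∈
        SUm K n μ b (a + 1)) ?_ ?_ ?_ ?_ (bih_succ_le _ _ hu)
    · rintro w ⟨j, v, hv, rfl⟩ x hx
      by_cases hj : (j : ℕ) < n + μ
      · have h1 := ih v hv ⟨v * D K n μ ρ, hdeg' v hv⟩ rfl
        have h2 : (gr K n (CC K n μ) (a + 1) b).mkQ x = YY μ b j a
            ((gr K n (CC K n μ) a b).mkQ ⟨v * D K n μ ρ, hdeg' v hv⟩) := by
          rw [YY_mk]
          congr 1
          ext1
          rw [hx]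
          change _ = xx K n (j : ℕ) * (v * D K n μ ρ)
          ring
        rw [h2]
        exact Submodule.mem_iSup_of_mem (⟨j, hj⟩ : Fin (n + μ)) (Submodule.mem_map_of_mem h1)
      · have h3 : (gr K n (CC K n μ) (a + 1) b).mkQ x = 0 := by
          rw [Submodule.mkQ_apply, Submodule.Quotient.mk_eq_zero, mem_gr, hx, mul_assoc]
          refine Ideal.mul_mem_right _ _ (xx_mem_CC μ _ ?_)
          push Not at hj
          exact_mod_cast hj
        rw [h3]
        exact Submodule.zero_mem _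
    · intro x hx
      have : x = 0 := by
        ext1
        rw [hx, zero_mul]
        rfl
      rw [this, map_zero]
      exact Submodule.zero_mem _
    · intro y z hy hz hy' hz' x hx
      have h1 := hy' ⟨y * D K n μ ρ, hdeg _ (hle hy)⟩ rfl
      have h2 := hz' ⟨z * D K n μ ρ, hdeg _ (hle hz)⟩ rfl
      have h3 : x = ⟨y * D K n μ ρ, hdeg _ (hle hy)⟩ + ⟨z * D K n μ ρ, hdeg _ (hle hz)⟩ := by
        ext1
        rw [hx, add_mul]
        rfl
      rw [h3, map_add]
      exact Submodule.add_mem _ h1 h2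
    · intro r y hy hy' x hx
      have h1 := hy' ⟨y * D K n μ ρ, hdeg _ (hle hy)⟩ rfl
      have h3 : x = r • (⟨y * D K n μ ρ, hdeg _ (hle hy)⟩ : bih K n (a + 1) b) := by
        ext1
        rw [hx, smul_mul_assoc]
        rfl
      rw [h3, map_smul]
      exact Submodule.smul_mem _ _ h1

theorem gens_dichotomy (μ : ℕ) (g : SB K n) (hg : g ∈ gensA K n μ) :
    g ∈ CC K n μ ∨ ∃ ρ, g = D K n μ ρ := by
  rcases hg with ((⟨k, hk, rfl⟩ | ⟨i, hi, rfl⟩) | ⟨i, hi, rfl⟩) | ⟨ρ, rfl⟩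
  · exact Or.inl (xx_mem_CC μ k hk)
  · exact Or.inl (Lp_mem_CC μ i hi)
  · exact Or.inl (Lq_mem_CC μ i hi)
  · exact Or.inr ⟨ρ, rfl⟩

/-- the image of the graded piece of `A_μ` modulo `C_μ` is contained in `SU` -/
theorem map_gr_le_SU (μ a b : ℕ) :
    (gr K n (AA K n μ) a b).map (gr K n (CC K n μ) a b).mkQ ≤
      SUm K n μ b a := by
  rintro _ ⟨f, hf, rfl⟩
  have h1 := cmp_mem_span (gensA_bih (K := K) (n := n) μ) hf a b
  rw [cmp_self (by exact f.2)] at h1
  have hle : ∀ x ∈ Submodule.span K {h | ∃ g ∈ gensA K n μ, ∃ a' b' u, a' ≤ a ∧ b' ≤ b ∧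
      g ∈ bih K n a' b' ∧ u ∈ bih K n (a - a') (b - b') ∧ h = u * g}, x ∈ bih K n a b := by
    intro x hx
    refine Submodule.span_le.2 ?_ hx
    rintro h ⟨g, hg, a', b', u, ha, hb, hg', hu, rfl⟩
    have := mul_mem_bih hu hg'
    rwa [show a - a' + a' = a by omega, show b - b' + b' = b by omega] at this
  have key : ∀ x ∈ Submodule.span K {h | ∃ g ∈ gensA K n μ, ∃ a' b' u, a' ≤ a ∧ b' ≤ b ∧
      g ∈ bih K n a' b' ∧ u ∈ bih K n (a - a') (b - b') ∧ h = u * g},
      ∀ y : bih K n a b, (y : SB K n) = x → (gr K n (CC K n μ) a b).mkQ y ∈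
      SUm K n μ b a := by
    intro x hx
    refine Submodule.span_induction (p := fun x _ => ∀ y : bih K n a b, (y : SB K n) = x →
      (gr K n (CC K n μ) a b).mkQ y ∈ SUm K n μ b a) ?_ ?_ ?_ ?_ hx
    · rintro h ⟨g, hg, a', b', u, ha, hb, hg', hu, rfl⟩ y hy
      rcases gens_dichotomy μ g hg with h2 | ⟨ρ, rfl⟩
      · have h3 : (gr K n (CC K n μ) a b).mkQ y = 0 := by
          rw [Submodule.mkQ_apply, Submodule.Quotient.mk_eq_zero, mem_gr, hy]
          exact Ideal.mul_mem_left _ _ h2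
        rw [h3]
        exact Submodule.zero_mem _
      · by_cases h0 : D K n μ ρ = 0
        · have h3 : y = 0 := by
            ext1
            rw [hy, h0, mul_zero]
            rfl
          rw [h3, map_zero]
          exact Submodule.zero_mem _
        · have h4 := IsWeightedHomogeneous.inj_right h0 hg' (D_mem (K := K) (n := n) μ ρ)
          rw [Prod.mk.injEq] at h4
          obtain ⟨rfl, rfl⟩ := h4
          exact mem_SU μ b hb ρ a u hu y hy
    · intro y hy
      have : y = 0 := by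
        ext1
        rw [hy]
        rfl
      rw [this, map_zero]
      exact Submodule.zero_mem _
    · intro v w hv hw hv' hw' y hy
      have h3 : y = ⟨v, hle _ hv⟩ + ⟨w, hle _ hw⟩ := by
        ext1
        rw [hy]
        rfl
      rw [h3, map_add]
      exact Submodule.add_mem _ (hv' _ rfl) (hw' _ rfl)
    · intro r v hv hv' y hy
      have h3 : y = r • (⟨v, hle _ hv⟩ : bih K n a b) := by
        ext1
        rw [hy]
        rfl
      rw [h3, map_smul]
      exact Submodule.smul_mem _ _ (hv' _ rfl)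
  exact key _ h1 f rfl

end

end HK
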