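import Pool.Agent.HK.Defs

/-! # Module Cnt: counting canonical pairs (blueprint (5e)) -/

namespace HK

namespace Cnt

open Finset

/-- admissible rows -/
noncomputable def Rows (n μ k : ℕ) : Finset (Fin (2 * μ) → ℤ) := by
  classical
  exact (Fintype.piFinset (fun _ : Fin (2 * μ) => Finset.Ico (k : ℤ) ((n : ℤ) + μ))).filter StrictMono

theorem mem_Rows {n μ k : ℕ} {ρ : Fin (2 * μ) → ℤ} :
    ρ ∈ Rows n μ k ↔ StrictMono ρ ∧ ∀ a, (k : ℤ) ≤ ρ a ∧ ρ a < n + μ := by
  classical
  simp only [Rows, Finset.mem_filter, Fintype.mem_piFinset, Finset.mem_Ico]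
  tauto

/-- good variables -/
noncomputable def Gd (n μ k : ℕ) (ρ : Fin (2 * μ) → ℤ) : Finset (Fin (n + 2) ⊕ Fin (n + 2)) := by
  classical
  exact univ.filter fun v => good n μ ρ v ∧ k ≤ vidx v

theorem mem_Gd {n μ k : ℕ} {ρ : Fin (2 * μ) → ℤ} {v} :
    v ∈ Gd n μ k ρ ↔ good n μ ρ v ∧ k ≤ vidx v := by
  classical
  simp [Gd]

/-- canonical pairs as a finset -/
noncomputable def CPf (n μ k d : ℕ) :
    Finset ((Fin (2 * μ) → ℤ) × ((Fin (n + 2) ⊕ Fin (n + 2)) →₀ ℕ)) :=
  ((Rows n μ k).sigma fun ρ => (Gd n μ k ρ).finsuppAntidiag d).map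
    (Equiv.sigmaEquivProd _ _).toEmbedding

theorem mem_CPf {n μ k d : ℕ} {x} :
    x ∈ CPf n μ k d ↔ x.1 ∈ Rows n μ k ∧ x.2 ∈ (Gd n μ k x.1).finsuppAntidiag d := by
  simp only [CPf, Finset.mem_map, Finset.mem_sigma, Equiv.coe_toEmbedding]
  constructor
  · rintro ⟨a, ⟨h1, h2⟩, rfl⟩
    exact ⟨h1, h2⟩
  · rintro ⟨h1, h2⟩
    exact ⟨⟨x.1, x.2⟩, ⟨h1, h2⟩, rfl⟩

theorem CP_eq (n μ k b : ℕ) (hb : 2 * μ ≤ b) : CP n μ k b = ↑(CPf n μ k (b - 2 * μ)) := by
  ext ⟨ρ, u⟩
  simp only [CP, Set.mem_ofPred_eq, Finset.mem_coe, mem_CPf, mem_Rows, mem_finsuppAntidiag']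
  constructor
  · rintro ⟨h1, h2, -, h3, h4⟩
    refine ⟨⟨h1, h2⟩, ?_, ?_⟩
    · rw [← h3]; rfl
    · intro v hv
      exact mem_Gd.2 (h4 v hv)
  · rintro ⟨⟨h1, h2⟩, h3, h4⟩
    refine ⟨h1, h2, hb, ?_, ?_⟩
    · rw [← h3]; rfl
    · intro v hv
      exact mem_Gd.1 (h4 hv)

theorem CP_empty (n μ k b : ℕ) (hb : ¬ 2 * μ ≤ b) : CP n μ k b = ∅ := by
  ext ⟨ρ, u⟩
  simp only [CP, Set.mem_ofPred_eq, Set.mem_empty_iff_false, iff_false]
  rintro ⟨-, -, h, -⟩
  exact hb h

theorem card_CPf (n μ k d : ℕ) :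
    (CPf n μ k d).card = ∑ ρ ∈ Rows n μ k, (Gd n μ k ρ).card.multichoose d := by
  rw [CPf, Finset.card_map, Finset.card_sigma]
  refine Finset.sum_congr rfl fun ρ _ => ?_
  rw [Finset.card_finsuppAntidiag_nat_eq_multichoose]

/-- extension of a row vector to `ℕ` -/
def ex {N : ℕ} (ρ : Fin N → ℤ) (j : ℕ) : ℤ := if h : j < N then ρ ⟨j, h⟩ else 0

theorem ex_fin {N : ℕ} (ρ : Fin N → ℤ) (a : Fin N) : ex ρ a = ρ a := by simp [ex]

theorem ex_lt {N : ℕ} {ρ : Fin N → ℤ} (h : StrictMono ρ) {i j : ℕ} (hij : i < j) (hj : j < N) :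
    ex ρ i < ex ρ j := by
  rw [ex, ex, dif_pos hj, dif_pos (hij.trans hj)]
  exact h hij

theorem ex_add_le {N : ℕ} {ρ : Fin N → ℤ} (h : StrictMono ρ) {i : ℕ} :
    ∀ j : ℕ, i + j < N → ex ρ i + j ≤ ex ρ (i + j) := by
  intro j
  induction j with
  | zero => simp
  | succ j ih =>
    intro hj
    have h1 := ih (by omega)
    have h2 := ex_lt h (show i + j < i + (j + 1) by omega) hj
    push_cast
    omega

/-- the number `s` of a row vector -/
def sr (n μ k : ℕ) (ρ : Fin (2 * μ) → ℤ) : ℕ :=
  ((ex ρ (μ - 1) - μ + 1 - k) + (n - ex ρ μ)).toNat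

theorem Rows_bounds {n μ k : ℕ} (hμ : 1 ≤ μ) {ρ : Fin (2 * μ) → ℤ} (h : ρ ∈ Rows n μ k) :
    (k : ℤ) + μ - 1 ≤ ex ρ (μ - 1) ∧ ex ρ μ ≤ n ∧ ex ρ (μ - 1) < ex ρ μ ∧
      (sr n μ k ρ : ℤ) = (ex ρ (μ - 1) - μ + 1 - k) + (n - ex ρ μ) ∧
      (sr n μ k ρ : ℤ) ≤ (n : ℤ) - k - μ := by
  obtain ⟨h1, h2⟩ := mem_Rows.1 h
  have a1 : (k : ℤ) + μ - 1 ≤ ex ρ (μ - 1) := by
    have := ex_add_le h1 (i := 0) (μ - 1) (by omega)
    have h3 := (h2 ⟨0, by omega⟩).1
    have h4 : ex ρ 0 = ρ ⟨0, by omega⟩ := by rw [ex, dif_pos]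
    rw [zero_add] at this
    rw [← h4] at h3
    have : ((μ - 1 : ℕ) : ℤ) = (μ : ℤ) - 1 := by omega
    omega
  have a2 : ex ρ μ ≤ n := by
    have := ex_add_le h1 (i := μ) (μ - 1) (by omega)
    have h3 := (h2 ⟨μ + (μ - 1), by omega⟩).2
    have h4 : ex ρ (μ + (μ - 1)) = ρ ⟨μ + (μ - 1), by omega⟩ := by rw [ex, dif_pos]
    rw [← h4] at h3
    have : ((μ - 1 : ℕ) : ℤ) = (μ : ℤ) - 1 := by omega
    omega
  have a3 := ex_lt h1 (show μ - 1 < μ by omega) (by omega)
  refine ⟨a1, a2, a3, ?_, ?_⟩
  · rw [sr, Int.toNat_of_nonneg]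
    omega
  · rw [sr, Int.toNat_of_nonneg]
    · omega
    · omega

theorem good_inl {n μ : ℕ} (hμ : 1 ≤ μ) {ρ : Fin (2 * μ) → ℤ} (h : StrictMono ρ) (c : Fin (n + 2)) :
    good n μ ρ (Sum.inl c) ↔ ex ρ (μ - 1) ≤ (c : ℤ) + μ - 1 := by
  have := Tuple.lt_card_le_iff_apply_le_of_monotone (j := (⟨μ - 1, by omega⟩ : Fin (2 * μ)))
    (f := ρ) (a := (c : ℤ) + μ - 1) h.monotone
  rw [good, ex, dif_pos (by omega : μ - 1 < 2 * μ), ← this]
  simp only
  omega

theorem good_inr {n μ : ℕ} (hμ : 1 ≤ μ) {ρ : Fin (2 * μ) → ℤ} (h : StrictMono ρ) (c : Fin (n + 2)) :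
    good n μ ρ (Sum.inr c) ↔ ((c : ℕ) = n + 1 ∨ (c : ℤ) ≤ ex ρ μ) := by
  have := Tuple.lt_card_lt_iff_apply_lt_of_monotone (j := (⟨μ, by omega⟩ : Fin (2 * μ)))
    (f := ρ) (a := (c : ℤ)) h.monotone
  have hc := Finset.card_filter_add_card_filter_not (s := (univ : Finset (Fin (2 * μ))))
    (fun a => (c : ℤ) ≤ ρ a)
  simp only [not_le, Finset.card_univ, Fintype.card_fin] at hc
  have e : ex ρ μ = ρ ⟨μ, by omega⟩ := by rw [ex, dif_pos]
  rw [good, e, ← not_lt (b := (c : ℤ)), ← this]
  simp only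
  omega

theorem card_Gd {n μ k : ℕ} (hμ : 1 ≤ μ) {ρ : Fin (2 * μ) → ℤ} (h : ρ ∈ Rows n μ k) :
    (Gd n μ k ρ).card = 2 * (n - k) + 4 - sr n μ k ρ := by
  classical
  obtain ⟨a1, a2, a3, a4, a5⟩ := Rows_bounds hμ h
  have h1 := (mem_Rows.1 h).1
  have e : (Gd n μ k ρ).card =
      ((range (n + 2)).filter fun c : ℕ => ex ρ (μ - 1) ≤ (c : ℤ) + μ - 1 ∧ k ≤ c).card +
      ((range (n + 2)).filter fun c : ℕ => (c = n + 1 ∨ (c : ℤ) ≤ ex ρ μ) ∧ k ≤ c).card := by
    have : (Gd n μ k ρ).card = ∑ v : Fin (n + 2) ⊕ Fin (n + 2),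
        if good n μ ρ v ∧ k ≤ vidx v then 1 else 0 := by
      rw [← Finset.card_filter]
      rfl
    rw [this, Fintype.sum_sum_type, Finset.card_filter, Finset.card_filter,
      ← Fin.sum_univ_eq_sum_range, ← Fin.sum_univ_eq_sum_range]
    congr 1
    · exact Finset.sum_congr rfl fun c _ => if_congr (and_congr (good_inl hμ h1 c) Iff.rfl) rfl rfl
    · exact Finset.sum_congr rfl fun c _ => if_congr (and_congr (good_inr hμ h1 c) Iff.rfl) rfl rfl
  have e1 : ((range (n + 2)).filter fun c : ℕ => ex ρ (μ - 1) ≤ (c : ℤ) + μ - 1 ∧ k ≤ c) =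
      Ico (ex ρ (μ - 1) - μ + 1).toNat (n + 2) := by
    ext c
    simp only [Finset.mem_filter, Finset.mem_range, Finset.mem_Ico]
    omega
  have e2 : ((range (n + 2)).filter fun c : ℕ => (c = n + 1 ∨ (c : ℤ) ≤ ex ρ μ) ∧ k ≤ c) =
      insert (n + 1) (Ico k ((ex ρ μ).toNat + 1)) := by
    ext c
    simp only [Finset.mem_filter, Finset.mem_range, Finset.mem_Ico, Finset.mem_insert]
    omega
  rw [e, e1, e2, Finset.card_insert_of_notMem (by simp; omega), Nat.card_Ico, Nat.card_Ico]
  omega

/-- row vector of a gap vector -/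
def rowOf (n μ k s : ℕ) (g : ℕ → ℕ) : Fin (2 * μ) → ℤ := fun a =>
  if (a : ℕ) < μ then (k : ℤ) + a + ∑ i ∈ range (a + 1), g i
  else (n : ℤ) - μ + a - s + ∑ i ∈ range a, g i

theorem card_fiber {n μ k s : ℕ} (hμ : 1 ≤ μ) (hs : s + k + μ ≤ n) :
    ((Rows n μ k).filter fun ρ => sr n μ k ρ = s).card = (2 * μ).multichoose s := by
  classical
  have hc := Finset.card_finsuppAntidiag_nat_eq_multichoose (s := range (2 * μ)) s
  rw [Finset.card_range] at hc
  rw [← hc]
  symm
  refine Finset.card_bij (fun g _ => rowOf n μ k s g) ?_ ?_ ?_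
  · intro g hg
    rw [mem_finsuppAntidiag] at hg
    obtain ⟨hg1, hg2⟩ := hg
    replace hg1 : ∑ t ∈ range (2 * μ), g t = s := hg1
    have hle : ∀ {i j : ℕ}, i ≤ j → ∑ t ∈ range i, g t ≤ ∑ t ∈ range j, g t := fun {i j} hij =>
      Finset.sum_le_sum_of_subset (Finset.range_subset_range.2 hij)
    have hex : ∀ j, j < 2 * μ → ex (rowOf n μ k s g) j = if j < μ then (k : ℤ) + j + ((∑ i ∈ range (j + 1), g i : ℕ) : ℤ)
        else (n : ℤ) - μ + j - s + ((∑ i ∈ range j, g i : ℕ) : ℤ) := by
      intro j hj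
      rw [ex, dif_pos hj, rowOf]
    have hmem : rowOf n μ k s g ∈ Rows n μ k := by
      rw [mem_Rows]
      constructor
      · intro a b hab
        have hab' : (a : ℕ) < b := hab
        have ha := hex a a.2
        have hb := hex b b.2
        rw [ex_fin] at ha hb
        rw [ha, hb]
        have h1 := hle (show (a : ℕ) + 1 ≤ b + 1 by omega)
        have h2 := hle (show (a : ℕ) ≤ b by omega)
        have h3 := hle (show (a : ℕ) + 1 ≤ b by omega)
        split_ifs <;> omega
      · intro a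
        have ha := hex a a.2
        rw [ex_fin] at ha
        rw [ha]
        have := a.2
        have h1 := hle (show (a : ℕ) + 1 ≤ 2 * μ by omega)
        have h2 := hle (show (a : ℕ) ≤ 2 * μ by omega)
        split_ifs <;> omega
    rw [Finset.mem_filter]
    refine ⟨hmem, ?_⟩
    obtain ⟨a1, a2, a3, a4, a5⟩ := Rows_bounds hμ hmem
    have h1 := hex (μ - 1) (by omega)
    have h2 := hex μ (by omega)
    rw [if_pos (by omega), show μ - 1 + 1 = μ by omega] at h1
    rw [if_neg (by omega)] at h2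
    omega
  · intro g hg g' hg' h
    rw [mem_finsuppAntidiag] at hg hg'
    ext i
    have key : ∀ j, j ≤ 2 * μ → ∑ t ∈ range j, g t = ∑ t ∈ range j, g' t := by
      intro j hj
      rcases Nat.lt_or_ge 0 j with h0 | h0
      · by_cases hjm : j ≤ μ
        · have := congrFun h ⟨j - 1, by omega⟩
          simp only [rowOf] at this
          rw [if_pos (by omega), if_pos (by omega), show j - 1 + 1 = j by omega] at this
          have h2 : ((∑ t ∈ range j, g t : ℕ) : ℤ) = ((∑ t ∈ range j, g' t : ℕ) : ℤ) := by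
            linarith
          exact_mod_cast h2
        · by_cases hj2 : j = 2 * μ
          · rw [hj2, hg.1, hg'.1]
          · have := congrFun h ⟨j, by omega⟩
            simp only [rowOf] at this
            rw [if_neg (by omega), if_neg (by omega)] at this
            have h2 : ((∑ t ∈ range j, g t : ℕ) : ℤ) = ((∑ t ∈ range j, g' t : ℕ) : ℤ) := by
              linarith
            exact_mod_cast h2
      · have : j = 0 := by omega
        subst this
        simp
    by_cases hi : i < 2 * μ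
    · have h1 := key i (by omega)
      have h2 := key (i + 1) (by omega)
      rw [Finset.sum_range_succ, Finset.sum_range_succ] at h2
      omega
    · have h1 : g i = 0 := by
        by_contra hne
        exact hi (Finset.mem_range.1 (hg.2 (Finsupp.mem_support_iff.2 hne)))
      have h2 : g' i = 0 := by
        by_contra hne
        exact hi (Finset.mem_range.1 (hg'.2 (Finsupp.mem_support_iff.2 hne)))
      rw [h1, h2]
  · intro ρ hρ
    rw [Finset.mem_filter] at hρ
    obtain ⟨hρ, hsr⟩ := hρ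
    obtain ⟨a1, a2, a3, a4, a5⟩ := Rows_bounds hμ hρ
    obtain ⟨h1, h2⟩ := mem_Rows.1 hρ
    have hb : ∀ j, j < 2 * μ → (k : ℤ) ≤ ex ρ j ∧ ex ρ j < n + μ := by
      intro j hj
      rw [ex, dif_pos hj]
      exact h2 _
    let P : ℕ → ℤ := fun j => if j = 0 then 0 else if j ≤ μ then ex ρ (j - 1) - k - (j - 1)
      else if j < 2 * μ then ex ρ j - j + s + μ - n else s
    have hP : ∀ j, P j = if j = 0 then 0 else if j ≤ μ then ex ρ (j - 1) - k - (j - 1)
      else if j < 2 * μ then ex ρ j - j + s + μ - n else s := fun j => rfl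
    have hPμ : P μ = ex ρ μ - μ + s + μ - n := by
      rw [hP, if_neg (by omega), if_pos le_rfl]
      omega
    have hmono : ∀ j, j < 2 * μ → P j ≤ P (j + 1) := by
      intro j hj
      by_cases h0 : j = 0
      · subst h0
        rw [hP, if_pos rfl, hP, if_neg (by omega), if_pos (by omega)]
        have := (hb 0 (by omega)).1
        simp only [zero_add, Nat.sub_self]
        push_cast
        omega
      · by_cases hjμ : j < μ
        · rw [hP, if_neg h0, if_pos hjμ.le, hP, if_neg (by omega), if_pos (by omega)]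
          have := ex_lt h1 (show j - 1 < j by omega) hj
          rw [show j + 1 - 1 = j by omega]
          push_cast
          omega
        · have e : P j = ex ρ j - j + s + μ - n := by
            by_cases hjm : j = μ
            · rw [hjm, hPμ]
            · rw [hP, if_neg h0, if_neg (by omega), if_pos hj]
          rw [e]
          by_cases hj1 : j + 1 < 2 * μ
          · rw [hP, if_neg (by omega), if_neg (by omega), if_pos hj1]
            have := ex_lt h1 (show j < j + 1 by omega) hj1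
            push_cast
            omega
          · rw [hP, if_neg (by omega), if_neg (by omega), if_neg hj1]
            have := (hb j hj).2
            omega
    let g : ℕ →₀ ℕ := Finsupp.onFinset (range (2 * μ))
      (fun j => if j < 2 * μ then (P (j + 1) - P j).toNat else 0) (by
        intro j hj
        rw [Finset.mem_range]
        by_contra hne
        exact hj (if_neg hne))
    have hg : ∀ j, j < 2 * μ → (g j : ℤ) = P (j + 1) - P j := by
      intro j hj
      have : g j = (P (j + 1) - P j).toNat := by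
        simp only [g, Finsupp.onFinset_apply, if_pos hj]
      rw [this, Int.toNat_of_nonneg]
      have := hmono j hj
      omega
    have hsum : ∀ j, j ≤ 2 * μ → ((∑ t ∈ range j, g t : ℕ) : ℤ) = P j := by
      intro j
      induction j with
      | zero => intro _; simp [hP]
      | succ j ih =>
        intro hj
        rw [Finset.sum_range_succ, Nat.cast_add, ih (by omega), hg j (by omega)]
        ring
    refine ⟨g, ?_, ?_⟩
    · rw [mem_finsuppAntidiag]
      constructor
      · have := hsum (2 * μ) le_rfl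
        rw [hP, if_neg (by omega)] at this
        by_cases h' : 2 * μ ≤ μ
        · omega
        · rw [if_neg h', if_neg (by omega)] at this
          exact_mod_cast this
      · intro j hj
        by_contra hne
        have h3 : g j = 0 := by
          simp only [g, Finsupp.onFinset_apply]
          rw [if_neg (by simpa using hne)]
        exact (Finsupp.mem_support_iff.1 hj) h3
    · funext a
      rw [rowOf]
      by_cases ha : (a : ℕ) < μ
      · rw [if_pos ha]
        have := hsum (a + 1) (by omega)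
        rw [this, hP, if_neg (by omega), if_pos (by omega), show (a : ℕ) + 1 - 1 = a by omega, ex_fin]
        push_cast
        ring
      · rw [if_neg ha]
        have := hsum a (by omega)
        have e : P a = ex ρ a - a + s + μ - n := by
          by_cases hjm : (a : ℕ) = μ
          · rw [hjm, hPμ]
          · rw [hP, if_neg (by omega), if_neg (by omega), if_pos (by omega)]
        rw [this, e, ex_fin]
        ring

end Cnt

open Finset Cnt

theorem CP_finite (n μ k b : ℕ) : (CP n μ k b).Finite := by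
  by_cases hb : 2 * μ ≤ b
  · rw [CP_eq n μ k b hb]
    exact Finset.finite_toSet _
  · rw [CP_empty n μ k b hb]
    exact Set.finite_empty

theorem card_CP (n μ k b : ℕ) (hk : k ≤ n) : ((CP n μ k b).ncard : ℤ) = HM (n - k) μ b := by
  by_cases hb : 2 * μ ≤ b
  · rw [CP_eq n μ k b hb, Set.ncard_coe_finset, card_CPf, HM]
    rcases Nat.eq_zero_or_pos μ with h0 | hμ
    · subst h0
      rw [if_pos ⟨Nat.zero_le _, by omega⟩]
      have hR : Rows n 0 k = {fun a => absurd a.2 (by omega)} := by
        ext ρ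
        rw [mem_Rows, Finset.mem_singleton]
        constructor
        · intro _
          funext a
          exact absurd a.2 (by omega)
        · intro _
          refine ⟨?_, ?_⟩
          · intro a
            exact absurd a.2 (by omega)
          · intro a
            exact absurd a.2 (by omega)
      rw [hR, Finset.sum_singleton]
      have hG : (Gd n 0 k (fun a => absurd a.2 (by omega))).card = 2 * (n - k) + 4 := by
        classical
        have : (Gd n 0 k (fun a => absurd a.2 (by omega))).card =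
            ∑ v : Fin (n + 2) ⊕ Fin (n + 2), if k ≤ vidx v then 1 else 0 := by
          rw [← Finset.card_filter]
          congr 1
          ext v
          simp only [mem_Gd, Finset.mem_filter, Finset.mem_univ, true_and, and_iff_right_iff_imp]
          intro _
          rcases v with c | c
          · exact Nat.zero_le _
          · exact Or.inr (Nat.zero_le _)
        rw [this, Fintype.sum_sum_type]
        have e : ∑ c : Fin (n + 2), (if k ≤ (c : ℕ) then 1 else 0) = n + 2 - k := by
          rw [Fin.sum_univ_eq_sum_range (fun c => if k ≤ c then 1 else 0), ← Finset.card_filter]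
          have : ((range (n + 2)).filter fun c : ℕ => k ≤ c) = Ico k (n + 2) := by
            ext c
            simp only [Finset.mem_filter, Finset.mem_range, Finset.mem_Ico]
            omega
          rw [this, Nat.card_Ico]
        have e1 : ∑ c : Fin (n + 2), (if k ≤ vidx (Sum.inl c : Fin (n + 2) ⊕ Fin (n + 2)) then 1 else 0) =
            n + 2 - k := e
        have e2 : ∑ c : Fin (n + 2), (if k ≤ vidx (Sum.inr c : Fin (n + 2) ⊕ Fin (n + 2)) then 1 else 0) =
            n + 2 - k := e
        rw [e1, e2]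
        omega
      rw [hG, Finset.sum_range_succ', Finset.sum_eq_zero]
      · simp
      · intro s _
        simp
    · have h1 : ∑ ρ ∈ Rows n μ k, (Gd n μ k ρ).card.multichoose (b - 2 * μ) =
          ∑ ρ ∈ Rows n μ k, (2 * (n - k) + 4 - sr n μ k ρ).multichoose (b - 2 * μ) :=
        Finset.sum_congr rfl fun ρ hρ => by rw [card_Gd hμ hρ]
      rw [h1]
      by_cases hn : μ ≤ n - k
      · rw [if_pos ⟨hn, hb⟩]
        have hmaps : ∀ ρ ∈ Rows n μ k, sr n μ k ρ ∈ range (n - k - μ + 1) := by
          intro ρ hρ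
          obtain ⟨a1, a2, a3, a4, a5⟩ := Rows_bounds hμ hρ
          rw [Finset.mem_range]
          omega
        rw [← Finset.sum_fiberwise_of_maps_to hmaps]
        push_cast
        refine Finset.sum_congr rfl fun s hs => ?_
        rw [Finset.mem_range] at hs
        have h2 : ∀ ρ ∈ (Rows n μ k).filter (fun ρ => sr n μ k ρ = s),
            (((2 * (n - k) + 4 - sr n μ k ρ).multichoose (b - 2 * μ) : ℕ) : ℤ) =
              (((2 * (n - k) + 4 - s).multichoose (b - 2 * μ) : ℕ) : ℤ) := by
          intro ρ hρ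
          rw [(Finset.mem_filter.1 hρ).2]
        rw [Finset.sum_congr rfl h2, Finset.sum_const, card_fiber hμ (by omega), nsmul_eq_mul]
      · rw [if_neg (by omega)]
        have : Rows n μ k = ∅ := by
          rw [Finset.eq_empty_iff_forall_notMem]
          intro ρ hρ
          obtain ⟨a1, a2, a3, a4, a5⟩ := Rows_bounds hμ hρ
          omega
        rw [this]
        simp
  · rw [CP_empty n μ k b hb, HM, if_neg (by omega)]
    simp

end HK
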