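import Pool.Agent.HK.Defs

/-! # Plücker proportionality: maximal minors of `H` against the 2-minors of a kernel (8a) -/

namespace HK

open MvPolynomial

section

variable {R : Type*} [CommRing R] {n : ℕ}

/-- the matrix with rows `e_k`, `e_l` and the rows of `H` -/
def Nmat (H : Matrix (Fin n) (Fin (n + 2)) R) (k l : Fin (n + 2)) :
    Matrix (Fin (n + 2)) (Fin (n + 2)) R :=
  Matrix.of (Fin.cons (Pi.single k 1) (Fin.cons (Pi.single l 1) (fun i => H i)))

/-- the signed maximal minor with the columns `k`, `l` removed -/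
def Mdet (H : Matrix (Fin n) (Fin (n + 2)) R) (k l : Fin (n + 2)) : R := (Nmat H k l).det

theorem Nmat_mulVec (H : Matrix (Fin n) (Fin (n + 2)) R) (k l : Fin (n + 2))
    (p : Fin (n + 2) → R) (hp : H.mulVec p = 0) :
    (Nmat H k l).mulVec p = Fin.cons (p k) (Fin.cons (p l) (fun _ => 0)) := by
  funext r
  refine Fin.cases ?_ (fun r => Fin.cases ?_ (fun r => ?_) r) r
  · simp [Nmat, Matrix.mulVec]
  · simp [Nmat, Matrix.mulVec]
  · have := congrFun hp r
    simpa [Nmat, Matrix.mulVec] using this

theorem Mdet_relation (H : Matrix (Fin n) (Fin (n + 2)) R) (p : Fin (n + 2) → R)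
    (hp : H.mulVec p = 0) (i j k : Fin (n + 2)) :
    Mdet H i j * p k = Mdet H k j * p i + Mdet H i k * p j := by
  have h1 : (Nmat H i j).adjugate.mulVec ((Nmat H i j).mulVec p) = (Nmat H i j).det • p := by
    rw [Matrix.mulVec_mulVec, Matrix.adjugate_mul, Matrix.smul_mulVec, Matrix.one_mulVec]
  have h2 := congrFun h1 k
  rw [Nmat_mulVec H i j p hp, Pi.smul_apply, smul_eq_mul, Matrix.mulVec, dotProduct,
    Fin.sum_univ_succ, Fin.sum_univ_succ] at h2
  simp only [Fin.cons_zero, Fin.cons_succ, mul_zero, Finset.sum_const_zero, add_zero] at h2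
  have e1 : (Nmat H i j).adjugate k 0 = Mdet H k j := by
    rw [Matrix.adjugate_apply]
    unfold Mdet
    congr 1
    ext r c
    refine Fin.cases ?_ (fun r => ?_) r
    · simp [Nmat]
    · rw [Matrix.updateRow_ne (Fin.succ_ne_zero r)]
      simp [Nmat]
  have e2 : (Nmat H i j).adjugate k (Fin.succ 0) = Mdet H i k := by
    rw [Matrix.adjugate_apply]
    unfold Mdet
    congr 1
    ext r c
    refine Fin.cases ?_ (fun r => Fin.cases ?_ (fun r => ?_) r) r
    · rw [Matrix.updateRow_ne (Fin.succ_ne_zero 0).symm]
      simp [Nmat]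
    · simp [Nmat]
    · rw [Matrix.updateRow_ne (by
        intro h
        exact Fin.succ_ne_zero r (Fin.succ_injective _ h))]
      simp [Nmat]
  rw [e1, e2] at h2
  unfold Mdet at h2 ⊢
  exact h2.symm

theorem Mdet_swap (H : Matrix (Fin n) (Fin (n + 2)) R) (i j : Fin (n + 2)) :
    Mdet H j i = - Mdet H i j := by
  unfold Mdet
  have h : Nmat H j i = (Nmat H i j).submatrix (Equiv.swap 0 (Fin.succ 0)) id := by
    ext r c
    refine Fin.cases ?_ (fun r => Fin.cases ?_ (fun r => ?_) r) r
    · simp only [Matrix.submatrix_apply, Equiv.swap_apply_left]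
      simp [Nmat]
    · simp only [Matrix.submatrix_apply, Equiv.swap_apply_right]
      simp [Nmat]
    · simp only [Matrix.submatrix_apply]
      rw [Equiv.swap_apply_of_ne_of_ne (Fin.succ_ne_zero _)]
      · simp [Nmat]
      · intro h
        exact Fin.succ_ne_zero r (Fin.succ_injective _ h)
  rw [h, Matrix.det_permute, Equiv.Perm.sign_swap (Fin.succ_ne_zero 0).symm]
  simp

/-- proportionality of the Plücker vectors -/
theorem Mdet_mul (H : Matrix (Fin n) (Fin (n + 2)) R) (p q : Fin (n + 2) → R)
    (hp : H.mulVec p = 0) (hq : H.mulVec q = 0) (i j k l : Fin (n + 2)) :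
    Mdet H i j * (p k * q l - p l * q k) = Mdet H k l * (p i * q j - p j * q i) := by
  have h1 := Mdet_relation H p hp i j k
  have h2 := Mdet_relation H p hp i j l
  have h3 := Mdet_relation H q hq k j l
  have h4 := Mdet_relation H q hq i k l
  have h5 := Mdet_swap H k l
  linear_combination q l * h1 - q k * h2 + p i * h3 + p j * h4 + p j * q i * h5

theorem Mdet_succAbove (H : Matrix (Fin n) (Fin (n + 2)) R) (k : Fin (n + 2)) (l : Fin (n + 1)) :
    Mdet H k (k.succAbove l) = (-1) ^ ((k : ℕ) + (l : ℕ)) *
      (H.submatrix id (fun i => k.succAbove (l.succAbove i))).det := by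
  unfold Mdet
  rw [Matrix.det_succ_row_zero, Finset.sum_eq_single k]
  · have h1 : (Nmat H k (k.succAbove l)) 0 k = 1 := by simp [Nmat]
    rw [h1, mul_one, Matrix.det_succ_row_zero, Finset.sum_eq_single l]
    · have h2 : ((Nmat H k (k.succAbove l)).submatrix Fin.succ k.succAbove) 0 l = 1 := by
        simp [Nmat]
      rw [h2, mul_one, pow_add, mul_assoc]
      congr 2
    · intro c _ hc
      have h2 : ((Nmat H k (k.succAbove l)).submatrix Fin.succ k.succAbove) 0 c = 0 := by
        simp [Nmat, hc]
      rw [h2]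
      ring
    · intro h
      exact absurd (Finset.mem_univ _) h
  · intro c _ hc
    have h2 : (Nmat H k (k.succAbove l)) 0 c = 0 := by simp [Nmat, hc]
    rw [h2]
    ring
  · intro h
    exact absurd (Finset.mem_univ _) h

end

/-- an increasing choice of `n` among `n + 2` columns that omits two given columns -/
theorem omit_eq {n : ℕ} (f : Fin n ↪o Fin (n + 2)) (k : Fin (n + 2)) (l : Fin (n + 1))
    (hk : ∀ i, f i ≠ k) (hl' : ∀ i, f i ≠ k.succAbove l) :
    ∀ i, f i = k.succAbove (l.succAbove i) := by
  classical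
  choose g hg using fun i => Fin.exists_succAbove_eq (hk i)
  have hgm : StrictMono g := by
    intro i j hij
    have h1 : f i < f j := f.strictMono hij
    rw [← hg i, ← hg j] at h1
    exact (Fin.strictMono_succAbove k).lt_iff_lt.mp h1
  have hl : ∀ i, g i ≠ l := by
    intro i h
    apply hl' i
    rw [← hg i, h]
  choose g' hg' using fun i => Fin.exists_succAbove_eq (hl i)
  have hgm' : StrictMono g' := by
    intro i j hij
    have h1 : g i < g j := hgm hij
    rw [← hg' i, ← hg' j] at h1
    exact (Fin.strictMono_succAbove l).lt_iff_lt.mp h1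
  have hid : ∀ i, g' i = i := by
    intro i
    have : g' = id := by
      have h1 : Set.range g' = Set.range (id : Fin n → Fin n) := by
        rw [Set.range_id, Set.range_eq_univ]
        exact Finite.surjective_of_injective hgm'.injective
      exact StrictMono.range_inj hgm' strictMono_id |>.mp h1
    rw [this]
    rfl
  intro i
  rw [← hg i, ← hg' i, hid]

/-- every increasing choice of `n` among `n + 2` columns omits two columns -/
theorem exists_omit {n : ℕ} (f : Fin n ↪o Fin (n + 2)) :
    ∃ (k : Fin (n + 2)) (l : Fin (n + 1)), ∀ i, f i = k.succAbove (l.succAbove i) := by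
  classical
  obtain ⟨k, hk⟩ : ∃ k : Fin (n + 2), ∀ i, f i ≠ k := by
    by_contra h
    push Not at h
    have h1 : Function.Surjective f := fun k => h k
    have := Fintype.card_le_of_surjective f h1
    simp at this
  obtain ⟨l, hl⟩ : ∃ l : Fin (n + 1), ∀ i, f i ≠ k.succAbove l := by
    by_contra h
    push Not at h
    have h1 : Function.Surjective (fun x : Option (Fin n) => x.elim k f) := by
      intro y
      by_cases hy : y = k
      · exact ⟨none, hy.symm⟩
      · obtain ⟨l, rfl⟩ := Fin.exists_succAbove_eq hy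
        obtain ⟨i, hi⟩ := h l
        exact ⟨some i, hi⟩
    have := Fintype.card_le_of_surjective _ h1
    simp at this
  exact ⟨k, l, omit_eq f k l hk hl⟩

end HK
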