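import Pool.Agent.HK.Cramer

/-! # (8a): the relations of the Rees algebra go to `A_μ` -/

namespace HK

open MvPolynomial

theorem sq_sign (R : Type*) [CommRing R] (a : ℕ) : ((-1 : R) ^ a) * (-1) ^ a = 1 := by
  rw [← mul_pow]
  simp

section

variable (K : Type*) [Field K] (n μ : ℕ)

/-- the Hankel matrix -/
noncomputable def hkM (m : ℕ) : Matrix (Fin n) (Fin (n + 2)) (MvPolynomial (Fin m) K) :=
  Matrix.of fun i j => if h : (i : ℕ) + (j : ℕ) < m then X ⟨(i : ℕ) + (j : ℕ), h⟩ else 0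

/-- the inclusion of `K[x_0, ..., x_{n+μ-1}]` -/
noncomputable def incl (hn : μ ≤ n + 1) : MvPolynomial (Fin (n + μ)) K →ₐ[K] SB K n :=
  rename (fun k => Sum.inl (Fin.castLE (by omega) k))

variable {K n μ}

theorem incl_hkM (hn : μ ≤ n + 1) (i : Fin n) (j : Fin (n + 2)) :
    incl K n μ hn (hkM K n (n + μ) i j) - xx K n ((j : ℤ) + i) ∈ AA K n μ := by
  unfold hkM incl
  rw [Matrix.of_apply]
  by_cases h : (i : ℕ) + (j : ℕ) < n + μ
  · rw [dif_pos h, rename_X]
    have : xx K n ((j : ℤ) + i) = X (Sum.inl (Fin.castLE (by omega) ⟨(i : ℕ) + (j : ℕ), h⟩)) := by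
      unfold xx
      rw [dif_pos ⟨by omega, by omega⟩]
      congr 2
      ext
      simp only [Fin.val_castLE]
      omega
    rw [this, sub_self]
    exact Ideal.zero_mem _
  · rw [dif_neg h, map_zero, zero_sub]
    apply Submodule.neg_mem
    apply Ideal.subset_span
    exact Or.inl (Or.inl (Or.inl ⟨_, by omega, rfl⟩))

theorem sum_mk_p (hn : μ ≤ n + 1) :
    ((hkM K n (n + μ)).map (fun f => Ideal.Quotient.mk (AA K n μ) (incl K n μ hn f))).mulVec
      (fun k => Ideal.Quotient.mk (AA K n μ) (pp K n k)) = 0 := by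
  funext i
  simp only [Matrix.mulVec, dotProduct, Matrix.map_apply, Pi.zero_apply]
  have h1 : ∀ j : Fin (n + 2), Ideal.Quotient.mk (AA K n μ) (incl K n μ hn (hkM K n (n + μ) i j)) =
      Ideal.Quotient.mk (AA K n μ) (xx K n ((j : ℤ) + i)) :=
    fun j => Ideal.Quotient.eq.mpr (incl_hkM hn i j)
  rw [Finset.sum_congr rfl (fun j _ => by rw [h1 j, ← map_mul]), ← map_sum,
    Ideal.Quotient.eq_zero_iff_mem, Fin.sum_univ_eq_sum_range
      (fun j => xx K n ((j : ℤ) + i) * pp K n j) (n + 2)]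
  apply Ideal.subset_span
  exact Or.inl (Or.inl (Or.inr ⟨i, i.2, rfl⟩))

theorem sum_mk_q (hn : μ ≤ n + 1) :
    ((hkM K n (n + μ)).map (fun f => Ideal.Quotient.mk (AA K n μ) (incl K n μ hn f))).mulVec
      (fun k => Ideal.Quotient.mk (AA K n μ) (qq K n k)) = 0 := by
  funext i
  simp only [Matrix.mulVec, dotProduct, Matrix.map_apply, Pi.zero_apply]
  have h1 : ∀ j : Fin (n + 2), Ideal.Quotient.mk (AA K n μ) (incl K n μ hn (hkM K n (n + μ) i j)) =
      Ideal.Quotient.mk (AA K n μ) (xx K n ((j : ℤ) + i)) :=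
    fun j => Ideal.Quotient.eq.mpr (incl_hkM hn i j)
  rw [Finset.sum_congr rfl (fun j _ => by rw [h1 j, ← map_mul]), ← map_sum,
    Ideal.Quotient.eq_zero_iff_mem, Fin.sum_univ_eq_sum_range
      (fun j => xx K n ((j : ℤ) + i) * qq K n j) (n + 2)]
  apply Ideal.subset_span
  exact Or.inl (Or.inr ⟨i, i.2, rfl⟩)

/-- the evaluation `x_n ↦ 1`, all other variables `↦ 0` -/
noncomputable def ev0 (K : Type*) [Field K] (n : ℕ) : SB K n →+* K :=
  eval (Sum.elim (fun k : Fin (2 * n + 1) => if (k : ℕ) = n then (1 : K) else 0) (fun _ => 0))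

theorem ev0_pp (k : ℤ) : ev0 K n (pp K n k) = 0 := by
  unfold ev0 pp
  split_ifs
  · simp
  · simp

theorem ev0_qq (k : ℤ) : ev0 K n (qq K n k) = 0 := by
  unfold ev0 qq
  split_ifs
  · simp
  · simp

theorem ev0_AA (hμ : 1 ≤ μ) {f : SB K n} (hf : f ∈ AA K n μ) : ev0 K n f = 0 := by
  have h : AA K n μ ≤ RingHom.ker (ev0 K n) := by
    unfold AA
    rw [Ideal.span_le]
    rintro f (((⟨k, hk, rfl⟩ | ⟨i, hi, rfl⟩) | ⟨i, hi, rfl⟩) | ⟨ρ, rfl⟩)
    · rw [SetLike.mem_coe, RingHom.mem_ker]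
      unfold ev0 xx
      split_ifs with h
      · simp only [eval_X, Sum.elim_inl]
        rw [if_neg (by omega)]
      · simp
    · rw [SetLike.mem_coe, RingHom.mem_ker]
      unfold Lp
      rw [map_sum]
      exact Finset.sum_eq_zero (fun k _ => by rw [map_mul, ev0_pp, mul_zero])
    · rw [SetLike.mem_coe, RingHom.mem_ker]
      unfold Lq
      rw [map_sum]
      exact Finset.sum_eq_zero (fun k _ => by rw [map_mul, ev0_qq, mul_zero])
    · rw [SetLike.mem_coe, RingHom.mem_ker]
      unfold D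
      rw [RingHom.map_det]
      apply Matrix.det_eq_zero_of_row_eq_zero (⟨0, by omega⟩ : Fin (2 * μ))
      intro c
      rw [RingHom.mapMatrix_apply, Matrix.map_apply, Matrix.of_apply]
      unfold ent
      split_ifs
      · exact ev0_pp _
      · exact ev0_qq _
      · exact map_zero _
  exact h hf

/-- the columns `1, ..., n` -/
def f0 (n : ℕ) : Fin n ↪o Fin (n + 2) :=
  OrderEmbedding.ofStrictMono (fun i => i.succ.castSucc) (fun i j h => by
    rw [Fin.lt_def] at h ⊢
    simpa using h)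

theorem ev0_minor (hμ : 1 ≤ μ) (hn : μ ≤ n + 1) :
    ev0 K n (incl K n μ hn ((hkM K n (n + μ)).submatrix id (f0 n)).det) ≠ 0 := by
  have h1 : ev0 K n (incl K n μ hn ((hkM K n (n + μ)).submatrix id (f0 n)).det) =
      (((1 : Matrix (Fin n) (Fin n) K).submatrix (Fin.revPerm : Equiv.Perm (Fin n)) id)).det := by
    have e : ev0 K n (incl K n μ hn ((hkM K n (n + μ)).submatrix id (f0 n)).det) =
        ((ev0 K n).comp (incl K n μ hn).toRingHom)
          ((hkM K n (n + μ)).submatrix id (f0 n)).det := rfl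
    rw [e, RingHom.map_det]
    congr 1
    ext i c
    rw [RingHom.mapMatrix_apply, Matrix.map_apply, Matrix.submatrix_apply, Matrix.submatrix_apply,
      Matrix.one_apply, RingHom.comp_apply]
    change ev0 K n (incl K n μ hn (hkM K n (n + μ) i (f0 n c))) = _
    unfold hkM incl
    rw [Matrix.of_apply]
    have hval : ((f0 n c : Fin (n + 2)) : ℕ) = c + 1 := by
      simp [f0]
    by_cases h : (i : ℕ) + ((f0 n c : Fin (n + 2)) : ℕ) < n + μ
    · rw [dif_pos h, rename_X]
      unfold ev0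
      rw [eval_X, Sum.elim_inl]
      simp only [Fin.val_castLE, Fin.revPerm_apply, id]
      have : ((i : ℕ) + ((f0 n c : Fin (n + 2)) : ℕ) = n) ↔ (Fin.rev i = c) := by
        rw [Fin.ext_iff, Fin.val_rev]
        omega
      by_cases h2 : Fin.rev i = c
      · rw [if_pos (this.mpr h2), if_pos h2]
      · rw [if_neg (fun h3 => h2 (this.mp h3)), if_neg h2]
    · rw [dif_neg h, map_zero, map_zero]
      rw [if_neg]
      rw [Fin.revPerm_apply, id, Fin.ext_iff, Fin.val_rev]
      omega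
  rw [h1, Matrix.det_permute, Matrix.det_one, mul_one]
  have := Int.units_eq_one_or (Equiv.Perm.sign (Fin.revPerm : Equiv.Perm (Fin n)))
  rcases this with h | h
  · rw [h]; simp
  · rw [h]; simp

/-- (8a) -/
theorem eval_mem_AA (hμ : 1 ≤ μ) (hn : μ ≤ n + 1) (hprime : (AA K n μ).IsPrime)
    (τ : (Fin n ↪o Fin (n + 2)) → SB K n)
    (hτ : ∀ f : Fin n ↪o Fin (n + 2), ∃ (k : Fin (n + 2)) (l : Fin (n + 1)),
      (∀ i, f i = k.succAbove (l.succAbove i)) ∧
        τ f = (-1) ^ ((k : ℕ) + (l : ℕ)) *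
          (pp K n (k : ℕ) * qq K n (k.succAbove l : ℕ) -
            pp K n (k.succAbove l : ℕ) * qq K n (k : ℕ)))
    {b : ℕ} (G : MvPolynomial (Fin n ↪o Fin (n + 2)) (MvPolynomial (Fin (n + μ)) K))
    (hG : G.IsHomogeneous b)
    (h0 : aeval (fun f : Fin n ↪o Fin (n + 2) => ((hkM K n (n + μ)).submatrix id f).det) G = 0) :
    eval₂ (incl K n μ hn : MvPolynomial (Fin (n + μ)) K →+* SB K n) τ G ∈ AA K n μ := by
  set π := Ideal.Quotient.mk (AA K n μ) with hπ
  have hdom : IsDomain (SB K n ⧸ AA K n μ) := Ideal.Quotient.isDomain _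
  let H : Matrix (Fin n) (Fin (n + 2)) (SB K n ⧸ AA K n μ) :=
    (hkM K n (n + μ)).map (fun f => π (incl K n μ hn f))
  have hp : H.mulVec (fun k => π (pp K n k)) = 0 := sum_mk_p hn
  have hq : H.mulVec (fun k => π (qq K n k)) = 0 := sum_mk_q hn
  have hdet : ∀ f : Fin n ↪o Fin (n + 2),
      π (incl K n μ hn ((hkM K n (n + μ)).submatrix id f).det) = (H.submatrix id f).det := by
    intro f
    have e : π (incl K n μ hn ((hkM K n (n + μ)).submatrix id f).det) =
        (π.comp (incl K n μ hn).toRingHom) ((hkM K n (n + μ)).submatrix id f).det := rfl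
    rw [e, RingHom.map_det]
    rfl
  have hprop : ∀ f g : Fin n ↪o Fin (n + 2),
      π (incl K n μ hn ((hkM K n (n + μ)).submatrix id f).det) * π (τ g) =
        π (τ f) * π (incl K n μ hn ((hkM K n (n + μ)).submatrix id g).det) := by
    intro f g
    obtain ⟨k, l, hf, hτf⟩ := hτ f
    obtain ⟨k', l', hg, hτg⟩ := hτ g
    rw [hdet, hdet, hτf, hτg]
    have h1 := Mdet_succAbove H k l
    have h2 := Mdet_succAbove H k' l'
    have ef : (fun i => k.succAbove (l.succAbove i)) = (f : Fin n → Fin (n + 2)) :=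
      funext (fun i => (hf i).symm)
    have eg : (fun i => k'.succAbove (l'.succAbove i)) = (g : Fin n → Fin (n + 2)) :=
      funext (fun i => (hg i).symm)
    rw [ef] at h1
    rw [eg] at h2
    have h3 := Mdet_mul H _ _ hp hq k (k.succAbove l) k' (k'.succAbove l')
    rw [h1, h2] at h3
    have s1 : ((-1 : SB K n ⧸ AA K n μ) ^ ((k : ℕ) + (l : ℕ))) * (-1) ^ ((k : ℕ) + (l : ℕ)) = 1 :=
      sq_sign _ _
    have s2 : ((-1 : SB K n ⧸ AA K n μ) ^ ((k' : ℕ) + (l' : ℕ))) *
        (-1) ^ ((k' : ℕ) + (l' : ℕ)) = 1 := sq_sign _ _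
    simp only [map_mul, map_sub, map_pow, map_neg, map_one]
    set a := (-1 : SB K n ⧸ AA K n μ) ^ ((k : ℕ) + (l : ℕ))
    set c := (-1 : SB K n ⧸ AA K n μ) ^ ((k' : ℕ) + (l' : ℕ))
    set A := (H.submatrix id f).det
    set B := (H.submatrix id g).det
    set T' := π (pp K n (k' : ℕ)) * π (qq K n (k'.succAbove l' : ℕ)) -
      π (pp K n (k'.succAbove l' : ℕ)) * π (qq K n (k' : ℕ)) with hT'
    set T := π (pp K n (k : ℕ)) * π (qq K n (k.succAbove l : ℕ)) -
      π (pp K n (k.succAbove l : ℕ)) * π (qq K n (k : ℕ)) with hT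
    have h4 : a * A * T' = c * B * T := h3
    calc A * (c * T') = (a * a) * A * (c * T') := by rw [s1, one_mul]
      _ = a * c * (a * A * T') := by ring
      _ = a * c * (c * B * T) := by rw [h4]
      _ = (c * c) * (a * T * B) := by ring
      _ = a * T * B := by rw [s2, one_mul]
  set a := π (incl K n μ hn ((hkM K n (n + μ)).submatrix id (f0 n)).det) with ha
  have ha0 : a ≠ 0 := by
    intro h
    rw [ha, hπ, Ideal.Quotient.eq_zero_iff_mem] at h
    exact ev0_minor hμ hn (ev0_AA hμ h)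
  have hhom : ∀ (c : SB K n ⧸ AA K n μ) (v : (Fin n ↪o Fin (n + 2)) → SB K n ⧸ AA K n μ),
      eval₂ (π.comp (incl K n μ hn : MvPolynomial (Fin (n + μ)) K →+* SB K n))
        (fun f => c * v f) G =
      c ^ b * eval₂ (π.comp (incl K n μ hn : MvPolynomial (Fin (n + μ)) K →+* SB K n)) v G := by
    intro c v
    rw [eval₂_eq', eval₂_eq', Finset.mul_sum]
    apply Finset.sum_congr rfl
    intro d hd
    simp_rw [mul_pow]
    rw [Finset.prod_mul_distrib, Finset.prod_pow_eq_pow_sum]
    have : ∑ i, d i = b := by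
      rw [← Finsupp.degree_eq_sum]
      rw [mem_support_iff] at hd
      rw [Finsupp.degree_eq_weight_one]
      exact hG hd
    rw [this]
    ring
  have h1 : a ^ b * eval₂ (π.comp (incl K n μ hn : MvPolynomial (Fin (n + μ)) K →+* SB K n))
      (fun f => π (τ f)) G = 0 := by
    rw [← hhom]
    have e : (fun f : Fin n ↪o Fin (n + 2) => a * π (τ f)) =
        (fun f : Fin n ↪o Fin (n + 2) => π (τ (f0 n)) *
        π (incl K n μ hn ((hkM K n (n + μ)).submatrix id f).det)) :=
      funext (fun f => hprop (f0 n) f)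
    rw [e, hhom]
    have h2 : eval₂ (π.comp (incl K n μ hn : MvPolynomial (Fin (n + μ)) K →+* SB K n))
        (fun f : Fin n ↪o Fin (n + 2) =>
          π (incl K n μ hn ((hkM K n (n + μ)).submatrix id f).det)) G =
        π (incl K n μ hn (aeval (fun f : Fin n ↪o Fin (n + 2) =>
          ((hkM K n (n + μ)).submatrix id f).det) G)) := by
      rw [aeval_def, eval₂_eq', eval₂_eq', map_sum, map_sum]
      apply Finset.sum_congr rfl
      intro d _
      rw [map_mul, map_mul, map_prod, map_prod]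
      congr 1
      apply Finset.prod_congr rfl
      intro f _
      rw [map_pow, map_pow]
    rw [h2, h0, map_zero, map_zero, mul_zero]
  have h3 : eval₂ (π.comp (incl K n μ hn : MvPolynomial (Fin (n + μ)) K →+* SB K n))
      (fun f => π (τ f)) G = 0 := by
    rcases mul_eq_zero.mp h1 with h | h
    · exact absurd h (pow_ne_zero b ha0)
    · exact h
  rw [← Ideal.Quotient.eq_zero_iff_mem]
  rw [← h3, ← hπ, eval₂_eq', eval₂_eq', map_sum]
  apply Finset.sum_congr rfl
  intro d _
  rw [map_mul, map_prod]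
  congr 1

end

end HK
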