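import Mathlib

/-!
# MP_0201c8_ag: common definitions for the proof of fiber type (all n, r)

0-based indices everywhere.  `m = n + μ`, `μ = n + 1 - r`.
-/

namespace HK

open MvPolynomial Finset

/-- variables: `x_k` (`k < 2n+1`), `p_i`, `q_i` (`i < n+2`) -/
abbrev Vr (n : ℕ) := Fin (2 * n + 1) ⊕ (Fin (n + 2) ⊕ Fin (n + 2))

/-- the big polynomial ring `K[x_0..x_{2n}] ⊗ K[p,q]` -/
abbrev SB (K : Type*) [Field K] (n : ℕ) := MvPolynomial (Vr n) K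

section
variable (K : Type*) [Field K] (n : ℕ)

/-- `x_k`, zero unless `0 ≤ k ≤ 2n` -/
noncomputable def xx (k : ℤ) : SB K n :=
  if h : 0 ≤ k ∧ k < 2 * n + 1 then X (Sum.inl ⟨k.toNat, by omega⟩) else 0

/-- `p_i`, zero unless `0 ≤ i ≤ n+1` -/
noncomputable def pp (i : ℤ) : SB K n :=
  if h : 0 ≤ i ∧ i < n + 2 then X (Sum.inr (Sum.inl ⟨i.toNat, by omega⟩)) else 0

/-- `q_i`, zero unless `0 ≤ i ≤ n+1` -/
noncomputable def qq (i : ℤ) : SB K n :=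
  if h : 0 ≤ i ∧ i < n + 2 then X (Sum.inr (Sum.inr ⟨i.toNat, by omega⟩)) else 0

/-- `L_i(p) = ∑_k x_{k+i} p_k` -/
noncomputable def Lp (i : ℕ) : SB K n := ∑ k ∈ range (n + 2), xx K n (k + i) * pp K n k

/-- `L_i(q) = ∑_k x_{k+i} q_k` -/
noncomputable def Lq (i : ℕ) : SB K n := ∑ k ∈ range (n + 2), xx K n (k + i) * qq K n k

/-- entry of `ψ_μ` in row `r`, column `c < 2μ` (`c < μ`: shift `c` of `p`; `c = μ+t`: shift `t` of `q`);
rows outside `[0, n+μ)` are zero -/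
noncomputable def ent (μ : ℕ) (r : ℤ) (c : ℕ) : SB K n :=
  if 0 ≤ r ∧ r < n + μ then (if c < μ then pp K n (r - c) else qq K n (r - (c - μ : ℕ))) else 0

/-- the `2μ × 2μ` minor with rows `ρ` -/
noncomputable def D (μ : ℕ) (ρ : Fin (2 * μ) → ℤ) : SB K n :=
  Matrix.det (Matrix.of fun a c : Fin (2 * μ) => ent K n μ (ρ a) c)

/-- the generators of the ideal `A_μ` -/
noncomputable def gensA (μ : ℕ) : Set (SB K n) :=
  {f | ∃ k : ℤ, (n : ℤ) + μ ≤ k ∧ f = xx K n k} ∪ {f | ∃ i : ℕ, i < n ∧ f = Lp K n i} ∪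
    {f | ∃ i : ℕ, i < n ∧ f = Lq K n i} ∪ {f | ∃ ρ : Fin (2 * μ) → ℤ, f = D K n μ ρ}

/-- the ideal `A_μ` -/
noncomputable def AA (μ : ℕ) : Ideal (SB K n) := Ideal.span (gensA K n μ)

/-- the ideal `C_μ = A_{μ+1} + (x_{n+μ})` -/
noncomputable def CC (μ : ℕ) : Ideal (SB K n) := AA K n (μ + 1) ⊔ Ideal.span {xx K n ((n : ℤ) + μ)}

/-- bidegree weights -/
def wt : Vr n → ℕ × ℕ
  | Sum.inl _ => (1, 0)
  | Sum.inr _ => (0, 1)

/-- bihomogeneous polynomials of bidegree `(a,b)` -/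
noncomputable def bih (a b : ℕ) : Submodule K (SB K n) :=
  weightedHomogeneousSubmodule K (wt n) (a, b)

/-- graded piece of an ideal, as a submodule of `bih a b` -/
noncomputable def gr (I : Ideal (SB K n)) (a b : ℕ) : Submodule K (bih K n a b) :=
  (I.restrictScalars K).comap (bih K n a b).subtype

/-- bigraded Hilbert function of `SB / I` -/
noncomputable def hf (I : Ideal (SB K n)) (a b : ℕ) : ℕ :=
  Module.finrank K (bih K n a b ⧸ gr K n I a b)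

/-- `V(μ,b)`: span of `u * D_μ(ρ)`, `u` of bidegree `(0, b-2μ)` -/
noncomputable def Vs (μ b : ℕ) : Submodule K (SB K n) :=
  Submodule.span K {f | ∃ (u : SB K n) (ρ : Fin (2 * μ) → ℤ), 2 * μ ≤ b ∧ u ∈ bih K n 0 (b - 2 * μ) ∧ f = u * D K n μ ρ}

/-- span of the `u * D_μ(ρ)` with some `ρ_a ∈ [0,k)` -/
noncomputable def Vlow (μ k b : ℕ) : Submodule K (SB K n) :=
  Submodule.span K {f | ∃ (u : SB K n) (ρ : Fin (2 * μ) → ℤ), 2 * μ ≤ b ∧ u ∈ bih K n 0 (b - 2 * μ) ∧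
    (∃ a, 0 ≤ ρ a ∧ ρ a < (k : ℤ)) ∧ f = u * D K n μ ρ}

/-- for `μ = 0`: span of `u p_i`, `u q_i`, `i < k` -/
noncomputable def Vlow0 (k b : ℕ) : Submodule K (SB K n) :=
  Submodule.span K {f | ∃ (u : SB K n), ∃ i : ℕ, i < k ∧ 1 ≤ b ∧ u ∈ bih K n 0 (b - 1) ∧
    (f = u * pp K n i ∨ f = u * qq K n i)}

end

/-! ### combinatorics of rows and good variables -/

/-- index of a `p`/`q` variable -/
def vidx {n : ℕ} : Fin (n + 2) ⊕ Fin (n + 2) → ℕ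
  | Sum.inl i => i
  | Sum.inr i => i

/-- `p_c` is good for `ρ` iff at least `μ` rows are `≤ c + μ - 1`; `q_c` is good iff `c = n+1` or at
least `μ` rows are `≥ c` -/
def good (n μ : ℕ) (ρ : Fin (2 * μ) → ℤ) : Fin (n + 2) ⊕ Fin (n + 2) → Prop
  | Sum.inl c => μ ≤ (univ.filter fun a => ρ a ≤ (c : ℤ) + μ - 1).card
  | Sum.inr c => (c : ℕ) = n + 1 ∨ μ ≤ (univ.filter fun a => (c : ℤ) ≤ ρ a).card

/-- canonical pairs `(ρ, u)` with all rows and all variables of index `≥ k` -/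
def CP (n μ k b : ℕ) : Set ((Fin (2 * μ) → ℤ) × ((Fin (n + 2) ⊕ Fin (n + 2)) →₀ ℕ)) :=
  {x | StrictMono x.1 ∧ (∀ a, (k : ℤ) ≤ x.1 a ∧ x.1 a < n + μ) ∧ 2 * μ ≤ b ∧
    x.2.degree = b - 2 * μ ∧ ∀ v ∈ x.2.support, good n μ x.1 v ∧ k ≤ vidx v}

/-- the monomial in the big ring with exponent `u` in the `p,q` variables -/
noncomputable def mono (K : Type*) [Field K] (n : ℕ) (u : (Fin (n + 2) ⊕ Fin (n + 2)) →₀ ℕ) :
    SB K n :=
  monomial (u.mapDomain Sum.inr) 1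

/-- weight of a variable (used for leading monomials of the minors) -/
def lw (n : ℕ) : Vr n → ℤ
  | Sum.inl _ => 0
  | Sum.inr (Sum.inl i) => -(i : ℤ) ^ 2 - (n + 2) * i
  | Sum.inr (Sum.inr i) => -(i : ℤ) ^ 2 + (n + 2) * i

/-- `w` is the unique monomial of top weight of `f` -/
def Top {K : Type*} [Field K] {n : ℕ} (wgt : Vr n → ℤ) (f : SB K n) (w : Vr n →₀ ℕ) : Prop :=
  coeff w f ≠ 0 ∧ ∀ w' ∈ f.support, w' ≠ w →
    (w'.sum fun v e => (e : ℤ) * wgt v) < w.sum fun v e => (e : ℤ) * wgt v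

/-- the leading exponent of `D_μ(ρ)` for strictly increasing `ρ` -/
noncomputable def gm (n μ : ℕ) (ρ : Fin (2 * μ) → ℤ) : (Fin (n + 2) ⊕ Fin (n + 2)) →₀ ℕ :=
  ∑ a : Fin (2 * μ), Finsupp.single
    (if (a : ℕ) < μ then Sum.inl (Fin.ofNat (n + 2) (ρ a - a).toNat)
      else Sum.inr (Fin.ofNat (n + 2) (ρ a - (a - μ : ℕ)).toNat)) 1

/-! ### numbers -/

/-- `HM(n,μ,b)` -/
def HM (n μ b : ℕ) : ℤ :=
  if μ ≤ n ∧ 2 * μ ≤ b then
    ∑ s ∈ range (n - μ + 1),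
      ((Nat.multichoose (2 * μ) s * Nat.multichoose (2 * n + 4 - s) (b - 2 * μ) : ℕ) : ℤ)
  else 0

def qn (n μ b : ℕ) : ℤ := HM n μ b - HM n (μ + 1) b

def eU (n μ b k : ℕ) : ℤ := if k ≤ n then qn (n - k) μ b else 0

def uB : ℕ → ℕ → (ℕ → ℤ) → ℤ
  | 0, a, v => if a = 0 then v 0 else 0
  | M + 1, a, v => uB M a v + ∑ e ∈ range a, uB M (a - 1 - e) (fun k => v (k + 1))

/-- `tr n μ a b` -/
def tr (n : ℕ) : ℕ → ℕ → ℕ → ℤ
  | 0, _, _ => 0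
  | μ + 1, a, b => ∑ a' ∈ range (a + 1), (uB (n + μ) a' (eU n μ b) + tr n μ a' b)

/-- `ci n k a b` -/
def ci (n : ℕ) : ℕ → ℕ → ℕ → ℤ
  | 0, a, b => ((Nat.multichoose (2 * n + 1) a * Nat.multichoose (2 * n + 4) b : ℕ) : ℤ)
  | k + 1, a, b => ci n k a b - (if 1 ≤ a ∧ 1 ≤ b then ci n k (a - 1) (b - 1) else 0)

end HK
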