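import Pool.Agent.HK.Cramer

/-! # Signed minors and Cramer's identity (blueprint (8a)) -/

namespace HK

open Finset

section

variable {R : Type*} [CommRing R] {n : ℕ}

/-- the determinant of the matrix with rows `H`, `e_i`, `e_j` -/
def sM (H : Matrix (Fin n) (Fin (n + 2)) R) (i j : Fin (n + 2)) : R :=
  Matrix.det (Matrix.of fun (r c : Fin (n + 2)) =>
    if h : (r : ℕ) < n then H ⟨r, h⟩ c
    else if (r : ℕ) = n then (if c = i then 1 else 0) else (if c = j then 1 else 0))

theorem sM_eq_Mdet (H : Matrix (Fin n) (Fin (n + 2)) R) (i j : Fin (n + 2)) :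
    sM H i j = Mdet H i j := by
  unfold sM Mdet
  have h : (Matrix.of fun (r c : Fin (n + 2)) =>
      if h : (r : ℕ) < n then H ⟨r, h⟩ c
      else if (r : ℕ) = n then (if c = i then 1 else 0) else (if c = j then 1 else 0)) =
      (Nmat H i j).submatrix ((finRotate (n + 2)) * (finRotate (n + 2)) :
        Equiv.Perm (Fin (n + 2))) id := by
    ext r c
    rw [Matrix.of_apply, Matrix.submatrix_apply, Equiv.Perm.mul_apply]
    by_cases h1 : (r : ℕ) < n
    · rw [dif_pos h1]
      have : finRotate (n + 2) (finRotate (n + 2) r) = (⟨r, h1⟩ : Fin n).succ.succ := by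
        rw [finRotate_apply, finRotate_apply]
        ext
        rw [Fin.val_add, Fin.val_add]
        simp
        exact h1
      rw [this]
      rfl
    · rw [dif_neg h1]
      by_cases h2 : (r : ℕ) = n
      · rw [if_pos h2]
        have : finRotate (n + 2) (finRotate (n + 2) r) = 0 := by
          rw [finRotate_apply, finRotate_apply]
          ext
          rw [Fin.val_add, Fin.val_add]
          simp [h2]
        rw [this]
        simp [Nmat, Pi.single_apply]
      · rw [if_neg h2]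
        have h3 : (r : ℕ) = n + 1 := by omega
        have : finRotate (n + 2) (finRotate (n + 2) r) = (0 : Fin (n + 1)).succ := by
          rw [finRotate_apply, finRotate_apply]
          ext
          rw [Fin.val_add, Fin.val_add]
          simp [h3]
        rw [this]
        simp [Nmat, Pi.single_apply]
  rw [h, Matrix.det_permute, Equiv.Perm.sign_mul]
  have : Equiv.Perm.sign (finRotate (n + 2)) * Equiv.Perm.sign (finRotate (n + 2)) = 1 :=
    Int.units_mul_self _
  rw [this]
  simp

theorem sM_map {R' : Type*} [CommRing R'] (φ : R →+* R') (H : Matrix (Fin n) (Fin (n + 2)) R)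
    (i j : Fin (n + 2)) : φ (sM H i j) = sM (H.map φ) i j := by
  unfold sM
  rw [RingHom.map_det]
  congr 1
  ext r c
  rw [RingHom.mapMatrix_apply, Matrix.map_apply, Matrix.of_apply, Matrix.of_apply]
  split_ifs
  · rfl
  · exact map_one φ
  · exact map_zero φ
  · exact map_one φ
  · exact map_zero φ

theorem sM_swap (H : Matrix (Fin n) (Fin (n + 2)) R) (i j : Fin (n + 2)) :
    sM H j i = -sM H i j := by
  rw [sM_eq_Mdet, sM_eq_Mdet, Mdet_swap]

theorem sM_self (H : Matrix (Fin n) (Fin (n + 2)) R) (i : Fin (n + 2)) : sM H i i = 0 := by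
  rw [sM_eq_Mdet]
  unfold Mdet
  apply Matrix.det_zero_of_row_eq (i := 0) (j := Fin.succ 0) (Fin.succ_ne_zero 0).symm
  rfl

/-- the columns of signed minors are in the kernel of `H` -/
theorem sum_H_sM (H : Matrix (Fin n) (Fin (n + 2)) R) (r : Fin n) (l : Fin (n + 2)) :
    ∑ c, H r c * sM H c l = 0 := by
  have h1 : (Nmat H l l * (Nmat H l l).adjugate) r.succ.succ 0 = 0 := by
    rw [Matrix.mul_adjugate, Matrix.smul_apply, Matrix.one_apply_ne (Fin.succ_ne_zero _), smul_zero]
  rw [Matrix.mul_apply] at h1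
  rw [← h1]
  apply Finset.sum_congr rfl
  intro c _
  rw [sM_eq_Mdet]
  congr 1
  rw [Matrix.adjugate_apply]
  unfold Mdet
  congr 1
  ext a b
  refine Fin.cases ?_ (fun a => ?_) a
  · simp [Nmat]
  · rw [Matrix.updateRow_ne (Fin.succ_ne_zero a)]
    simp [Nmat]

theorem cramer (H : Matrix (Fin n) (Fin (n + 2)) R) (p q : Fin (n + 2) → R)
    (hp : ∀ r, ∑ c, H r c * p c = 0) (hq : ∀ r, ∑ c, H r c * q c = 0) (i j k l : Fin (n + 2)) :
    sM H k l * (p i * q j - p j * q i) = sM H i j * (p k * q l - p l * q k) := by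
  rw [sM_eq_Mdet, sM_eq_Mdet]
  exact Mdet_mul H p q (funext hp) (funext hq) k l i j

theorem exists_pred {i j : Fin (n + 2)} (hij : i < j) :
    ∃ l : Fin (n + 1), i.succAbove l = j ∧ (l : ℕ) + 1 = j := by
  have h1 : (i : ℕ) < j := hij
  refine ⟨⟨(j : ℕ) - 1, by omega⟩, ?_, by simp only; omega⟩
  rw [Fin.succAbove_of_le_castSucc]
  · ext
    simp only [Fin.val_succ]
    omega
  · rw [Fin.le_def]
    simp only [Fin.val_castSucc]
    omega

/-- the signed minor in terms of the minor on an increasing map `f` that misses `i < j` -/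
theorem sM_eq (H : Matrix (Fin n) (Fin (n + 2)) R) (f : Fin n ↪o Fin (n + 2)) (i j : Fin (n + 2))
    (hij : i < j) (hi : i ∉ Set.range f) (hj : j ∉ Set.range f) :
    sM H i j = (-1) ^ ((i : ℕ) + j + 1) * (H.submatrix id f).det := by
  obtain ⟨l, hl, hl2⟩ := exists_pred hij
  have h1 := omit_eq f i l (fun a h => hi ⟨a, h⟩) (fun a h => hj ⟨a, h.trans hl⟩)
  have h2 : (f : Fin n → Fin (n + 2)) = fun a => i.succAbove (l.succAbove a) := funext h1
  rw [h2, sM_eq_Mdet, ← hl, Mdet_succAbove, hl, ← hl2]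
  congr 1
  have : (i : ℕ) + ((l : ℕ) + 1) + 1 = (i : ℕ) + l + 2 := by ring
  rw [this, pow_add _ _ 2]
  simp

/-- complement of an increasing map -/
theorem exists_compl (f : Fin n ↪o Fin (n + 2)) :
    ∃ i j : Fin (n + 2), i < j ∧ i ∉ Set.range f ∧ j ∉ Set.range f := by
  obtain ⟨k, l, h⟩ := exists_omit f
  have hk : k ∉ Set.range f := by
    rintro ⟨a, ha⟩
    rw [h a] at ha
    exact Fin.succAbove_ne _ _ ha
  have hl : k.succAbove l ∉ Set.range f := by
    rintro ⟨a, ha⟩
    rw [h a] at ha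
    exact Fin.succAbove_ne _ _ (Fin.succAbove_right_injective ha)
  rcases lt_or_gt_of_ne (Fin.succAbove_ne k l) with h1 | h1
  · exact ⟨_, _, h1, hl, hk⟩
  · exact ⟨_, _, h1, hk, hl⟩

/-- increasing map with given complement -/
theorem exists_emb (i j : Fin (n + 2)) (hij : i < j) :
    ∃ f : Fin n ↪o Fin (n + 2), i ∉ Set.range f ∧ j ∉ Set.range f := by
  obtain ⟨l, hl, _⟩ := exists_pred hij
  refine ⟨OrderEmbedding.ofStrictMono (fun a => i.succAbove (l.succAbove a))
    ((Fin.strictMono_succAbove i).comp (Fin.strictMono_succAbove l)), ?_, ?_⟩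
  · rintro ⟨a, ha⟩
    exact Fin.succAbove_ne _ _ ha
  · rintro ⟨a, ha⟩
    rw [← hl] at ha
    exact Fin.succAbove_ne _ _ (Fin.succAbove_right_injective ha)

theorem compl_cases (f : Fin n ↪o Fin (n + 2)) (i j i' : Fin (n + 2)) (hij : i < j)
    (hi : i ∉ Set.range f) (hj : j ∉ Set.range f) (hi' : i' ∉ Set.range f) : i' = i ∨ i' = j := by
  obtain ⟨l, hl, hl2⟩ := exists_pred hij
  have h1 := omit_eq f i l (fun a h => hi ⟨a, h⟩) (fun a h => hj ⟨a, h.trans hl⟩)
  by_cases h2 : i' = i
  · exact Or.inl h2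
  · right
    obtain ⟨a, rfl⟩ := Fin.exists_succAbove_eq h2
    by_cases h3 : a = l
    · rw [h3, hl]
    · obtain ⟨c, rfl⟩ := Fin.exists_succAbove_eq h3
      exact absurd ⟨c, h1 c⟩ hi'

/-- uniqueness -/
theorem compl_unique (f : Fin n ↪o Fin (n + 2)) (i j i' j' : Fin (n + 2)) (hij : i < j)
    (hi : i ∉ Set.range f) (hj : j ∉ Set.range f) (hij' : i' < j')
    (hi' : i' ∉ Set.range f) (hj' : j' ∉ Set.range f) : i = i' ∧ j = j' := by
  have h1 := compl_cases f i j i' hij hi hj hi'
  have h2 := compl_cases f i j j' hij hi hj hj'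
  rcases h1 with h1 | h1
  · rcases h2 with h2 | h2
    · rw [h1, h2] at hij'
      exact absurd hij' (lt_irrefl _)
    · exact ⟨h1.symm, h2.symm⟩
  · rcases h2 with h2 | h2
    · rw [h1, h2] at hij'
      exact absurd hij' (not_lt.mpr hij.le)
    · rw [h1, h2] at hij'
      exact absurd hij' (lt_irrefl _)

theorem emb_unique (f g : Fin n ↪o Fin (n + 2)) (i j : Fin (n + 2)) (hij : i < j)
    (hi : i ∉ Set.range f) (hj : j ∉ Set.range f) (hi' : i ∉ Set.range g)
    (hj' : j ∉ Set.range g) : f = g := by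
  obtain ⟨l, hl, hl2⟩ := exists_pred hij
  have h1 := omit_eq f i l (fun a h => hi ⟨a, h⟩) (fun a h => hj ⟨a, h.trans hl⟩)
  have h2 := omit_eq g i l (fun a h => hi' ⟨a, h⟩) (fun a h => hj' ⟨a, h.trans hl⟩)
  ext a
  rw [h1, h2]

end

end HK
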