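import Pool.Agent.HK.FOp

/-! # The Cayley operator (blueprint (8b)(ii),(iii)) -/

namespace HK

open MvPolynomial Finset

section

variable {R : Type*} [CommRing R] {N : ℕ}

/-! ### the Cayley operator on `R[α,β,γ,δ]` (variables `0,1,2,3`) -/

noncomputable def Om (R : Type*) [CommRing R] : MvPolynomial (Fin 4) R →ₗ[R] MvPolynomial (Fin 4) R :=
  (pderiv 0).toLinearMap ∘ₗ (pderiv 3).toLinearMap - (pderiv 1).toLinearMap ∘ₗ (pderiv 2).toLinearMap

/-- substitution `p ↦ α p* + β q*`, `q ↦ γ p* + δ q*` -/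
noncomputable def sig (ps qs : Fin N → R) :
    MvPolynomial (Fin N ⊕ Fin N) R →ₐ[R] MvPolynomial (Fin 4) R :=
  aeval (Sum.elim (fun j => C (ps j) * X 0 + C (qs j) * X 1)
    (fun j => C (ps j) * X 2 + C (qs j) * X 3))

end

section

variable (A : Type*) [CommRing A]

/-- the determinant `ad - bc` -/
noncomputable def dt : MvPolynomial (Fin 4) A := X 0 * X 3 - X 1 * X 2

theorem Om_apply (F : MvPolynomial (Fin 4) A) :
    Om A F = pderiv 0 (pderiv 3 F) - pderiv 1 (pderiv 2 F) := rfl

theorem Om_dt_pow (b : ℕ) :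
    Om A (dt A ^ (b + 1)) = (((b + 1) * (b + 2) : ℕ) : A) • dt A ^ b := by
  have e0 : pderiv (0 : Fin 4) (dt A) = X 3 := by
    unfold dt
    rw [map_sub, pderiv_mul, pderiv_mul, pderiv_X_self,
      pderiv_X_of_ne (show (3 : Fin 4) ≠ 0 by decide),
      pderiv_X_of_ne (show (1 : Fin 4) ≠ 0 by decide),
      pderiv_X_of_ne (show (2 : Fin 4) ≠ 0 by decide)]
    ring
  have e1 : pderiv (1 : Fin 4) (dt A) = - X 2 := by
    unfold dt
    rw [map_sub, pderiv_mul, pderiv_mul, pderiv_X_self,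
      pderiv_X_of_ne (show (3 : Fin 4) ≠ 1 by decide),
      pderiv_X_of_ne (show (0 : Fin 4) ≠ 1 by decide),
      pderiv_X_of_ne (show (2 : Fin 4) ≠ 1 by decide)]
    ring
  have e2 : pderiv (2 : Fin 4) (dt A) = - X 1 := by
    unfold dt
    rw [map_sub, pderiv_mul, pderiv_mul, pderiv_X_self,
      pderiv_X_of_ne (show (3 : Fin 4) ≠ 2 by decide),
      pderiv_X_of_ne (show (0 : Fin 4) ≠ 2 by decide),
      pderiv_X_of_ne (show (1 : Fin 4) ≠ 2 by decide)]
    ring
  have e3 : pderiv (3 : Fin 4) (dt A) = X 0 := by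
    unfold dt
    rw [map_sub, pderiv_mul, pderiv_mul, pderiv_X_self,
      pderiv_X_of_ne (show (2 : Fin 4) ≠ 3 by decide),
      pderiv_X_of_ne (show (0 : Fin 4) ≠ 3 by decide),
      pderiv_X_of_ne (show (1 : Fin 4) ≠ 3 by decide)]
    ring
  have n1 : ∀ (i : Fin 4) (k : ℕ), pderiv i ((k : MvPolynomial (Fin 4) A)) = 0 := by
    intro i k
    exact Derivation.map_natCast _ _
  have hb : (b : MvPolynomial (Fin 4) A) * dt A ^ (b - 1) * dt A = (b : MvPolynomial (Fin 4) A) * dt A ^ b := by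
    rcases Nat.eq_zero_or_pos b with rfl | h
    · simp
    · rw [mul_assoc, ← pow_succ, Nat.sub_add_cancel h]
  rw [Om_apply, pderiv_pow, pderiv_pow, e2, e3]
  simp only [Nat.add_sub_cancel]
  rw [pderiv_mul, pderiv_mul, pderiv_mul, pderiv_mul, n1, n1, pderiv_pow, pderiv_pow, e0, e1,
    map_neg, pderiv_X_self, pderiv_X_self, smul_eq_C_mul]
  have e4 : (X 0 * X 3 : MvPolynomial (Fin 4) A) = dt A + X 1 * X 2 := by unfold dt; ring
  push_cast
  simp only [map_mul, map_add, map_natCast, map_one, map_ofNat]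
  calc _ = ((b : MvPolynomial (Fin 4) A) + 1) *
        ((b : MvPolynomial (Fin 4) A) * dt A ^ (b - 1) * (X 0 * X 3 - X 1 * X 2) +
          2 * dt A ^ b) := by ring
    _ = ((b : MvPolynomial (Fin 4) A) + 1) *
        ((b : MvPolynomial (Fin 4) A) * dt A ^ (b - 1) * dt A + 2 * dt A ^ b) := by rfl
    _ = _ := by rw [hb]; ring

/-- `Ω^b det^b = b! (b+1)!` -/
theorem Om_pow_dt (b : ℕ) :
    ((Om A) ^ b) (dt A ^ b) = C ((b.factorial * (b + 1).factorial : ℕ) : A) := by
  induction b with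
  | zero => simp
  | succ b ih =>
    rw [pow_succ, Module.End.mul_apply, Om_dt_pow, map_smul, ih, smul_eq_C_mul, ← C_mul]
    congr 1
    rw [← Nat.cast_mul]
    congr 1
    rw [Nat.factorial_succ (b + 1), Nat.factorial_succ b]
    ring

end

section

variable {A : Type*} [CommRing A] {N : ℕ}

theorem OO_sum_apply (T : Fin N → Fin N → A) (F : MvPolynomial (Fin N ⊕ Fin N) A) :
    OO T F = ∑ j, ∑ k, T j k • pderiv (Sum.inl j) (pderiv (Sum.inr k) F) := by
  unfold OO
  simp only [LinearMap.coe_sum, Finset.sum_apply, LinearMap.smul_apply]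
  rfl

/-- general chain rule -/
theorem pderiv_aeval_sum {σ τ : Type*} [Fintype σ] (f : σ → MvPolynomial τ A) (i : τ)
    (F : MvPolynomial σ A) :
    pderiv i (aeval f F) = ∑ s, pderiv i (f s) * aeval f (pderiv s F) := by
  classical
  induction F using MvPolynomial.induction_on with
  | C a =>
    rw [algHom_C, algebraMap_eq, pderiv_C]
    symm
    apply Finset.sum_eq_zero
    intro s _
    rw [pderiv_C, map_zero, mul_zero]
  | add p q hp hq =>
    rw [map_add, map_add, hp, hq, ← Finset.sum_add_distrib]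
    refine Finset.sum_congr rfl fun s _ => ?_
    rw [map_add, map_add, mul_add]
  | mul_X p j hp =>
    rw [map_mul, aeval_X, pderiv_mul, hp, Finset.sum_mul]
    have e1 : ∀ s, pderiv i (f s) * aeval f (pderiv s (p * X j)) =
        pderiv i (f s) * aeval f (pderiv s p) * f j +
          (if s = j then pderiv i (f s) * aeval f p else 0) := by
      intro s
      rw [pderiv_mul, map_add, map_mul, map_mul, aeval_X]
      by_cases hs : s = j
      · subst hs
        rw [pderiv_X_self, map_one, if_pos rfl]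
        ring
      · rw [pderiv_X_of_ne (fun h => hs h.symm), map_zero, if_neg hs]
        ring
    rw [Finset.sum_congr rfl (fun s _ => e1 s), Finset.sum_add_distrib, Finset.sum_ite_eq']
    simp only [Finset.mem_univ, if_true]
    ring

theorem pderiv_lin (i u v : Fin 4) (x y : A) :
    pderiv i (C x * X u + C y * X v : MvPolynomial (Fin 4) A) =
      C ((if u = i then x else 0) + (if v = i then y else 0)) := by
  rw [map_add, pderiv_C_mul, pderiv_C_mul, map_add]
  congr 1
  · by_cases h : u = i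
    · subst h; rw [pderiv_X_self, if_pos rfl, mul_one]
    · rw [pderiv_X_of_ne h, if_neg h, mul_zero, map_zero]
  · by_cases h : v = i
    · subst h; rw [pderiv_X_self, if_pos rfl, mul_one]
    · rw [pderiv_X_of_ne h, if_neg h, mul_zero, map_zero]

theorem pderiv_sig (ps qs : Fin N → A) (F : MvPolynomial (Fin N ⊕ Fin N) A) :
    (pderiv 0 (sig ps qs F) = ∑ j, C (ps j) * sig ps qs (pderiv (Sum.inl j) F)) ∧
    (pderiv 1 (sig ps qs F) = ∑ j, C (qs j) * sig ps qs (pderiv (Sum.inl j) F)) ∧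
    (pderiv 2 (sig ps qs F) = ∑ j, C (ps j) * sig ps qs (pderiv (Sum.inr j) F)) ∧
    (pderiv 3 (sig ps qs F) = ∑ j, C (qs j) * sig ps qs (pderiv (Sum.inr j) F)) := by
  refine ⟨?_, ?_, ?_, ?_⟩ <;>
  · unfold sig
    rw [pderiv_aeval_sum, Fintype.sum_sum_type]
    simp only [Sum.elim_inl, Sum.elim_inr, pderiv_lin]
    simp

/-- the chain rule -/
theorem sig_OO1 (ps qs : Fin N → A) (F : MvPolynomial (Fin N ⊕ Fin N) A) :
    sig ps qs (OO (fun j k => ps j * qs k - ps k * qs j) F) = Om A (sig ps qs F) := by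
  rw [Om_apply, (pderiv_sig ps qs F).2.2.2, (pderiv_sig ps qs F).2.2.1, map_sum, map_sum,
    OO_sum_apply, map_sum]
  have e1 : ∀ k, pderiv 0 (C (qs k) * sig ps qs (pderiv (Sum.inr k) F)) =
      ∑ j, C (qs k) * (C (ps j) * sig ps qs (pderiv (Sum.inl j) (pderiv (Sum.inr k) F))) := by
    intro k
    rw [pderiv_C_mul, (pderiv_sig ps qs _).1, Finset.mul_sum]
  have e2 : ∀ k, pderiv 1 (C (ps k) * sig ps qs (pderiv (Sum.inr k) F)) =
      ∑ j, C (ps k) * (C (qs j) * sig ps qs (pderiv (Sum.inl j) (pderiv (Sum.inr k) F))) := by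
    intro k
    rw [pderiv_C_mul, (pderiv_sig ps qs _).2.1, Finset.mul_sum]
  rw [Finset.sum_congr rfl (fun k _ => e1 k), Finset.sum_congr rfl (fun k _ => e2 k),
    ← Finset.sum_sub_distrib]
  simp only [← Finset.sum_sub_distrib]
  rw [Finset.sum_comm]
  refine Finset.sum_congr rfl fun j _ => ?_
  rw [map_sum]
  refine Finset.sum_congr rfl fun k _ => ?_
  rw [map_smul, smul_eq_C_mul, C_sub, C_mul, C_mul]
  ring

theorem constantCoeff_sig (ps qs : Fin N → A) (F : MvPolynomial (Fin N ⊕ Fin N) A) :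
    constantCoeff (sig ps qs F) = constantCoeff F := by
  unfold sig
  induction F using MvPolynomial.induction_on with
  | C a => rw [algHom_C, algebraMap_eq]; simp
  | add p q hp hq => rw [map_add, map_add, map_add, hp, hq]
  | mul_X p j hp =>
    rw [map_mul, map_mul, map_mul, aeval_X]
    rcases j with j | j <;> simp

theorem sig_OO (ps qs : Fin N → A) (b : ℕ) (F : MvPolynomial (Fin N ⊕ Fin N) A) :
    sig ps qs (((OO fun j k => ps j * qs k - ps k * qs j) ^ b) F) =
      ((Om A) ^ b) (sig ps qs F) := by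
  induction b generalizing F with
  | zero => simp
  | succ b ih =>
    rw [pow_succ, pow_succ, Module.End.mul_apply, Module.End.mul_apply, ih, sig_OO1]

theorem coeff_zero_sig (ps qs : Fin N → A) (F : MvPolynomial (Fin N ⊕ Fin N) A) :
    coeff 0 (sig ps qs F) = coeff 0 F :=
  constantCoeff_sig ps qs F

theorem Om_det (b : ℕ) :
    ((Om A) ^ b) ((X 0 * X 3 - X 1 * X 2) ^ b : MvPolynomial (Fin 4) A) =
      C ((b.factorial * (b + 1).factorial : ℕ) : A) :=
  Om_pow_dt A b

end

end HK
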