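import Pool.Agent.HK.ChainAux

/-! # Minors vanish on kernel pairs (blueprint section 8, (8b)(ii)) -/

namespace HK

open MvPolynomial Finset

namespace FVan

variable {R : Type*} [CommRing R]

/-- coefficient `j` of `F * f` -/
def U (N : ℕ) (m : ℤ) (x f : ℤ → R) (j : ℤ) : R := ∑ k ∈ range N, x (m - 1 - j + k) * f k

theorem U_neg {N : ℕ} {m : ℤ} {x f : ℤ → R} (hx : ∀ k, m ≤ k → x k = 0) {j : ℤ} (hj : j < 0) :
    U N m x f j = 0 := by
  refine Finset.sum_eq_zero fun k _ => ?_
  rw [hx _ (by omega), zero_mul]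

/-- reindexing -/
theorem sum_U {N μ : ℕ} {m : ℤ} {x f g : ℤ → R} (hx : ∀ k, m ≤ k → x k = 0)
    (hg : ∀ k : ℤ, k < 0 ∨ (N : ℤ) ≤ k → g k = 0)
    (hU : ∀ j : ℤ, (μ : ℤ) ≤ j → j < m → U N m x f j = 0) {r : ℕ} (hr : (r : ℤ) < m) :
    ∑ t ∈ range μ, U N m x f t * g (r - t) = ∑ l ∈ range N, U N m x f (r - l) * g l := by
  have h1 : ∑ t ∈ range μ, U N m x f t * g (r - t) =
      ∑ t ∈ range (r + 1), U N m x f t * g (r - t) := by
    rcases le_total μ (r + 1) with h | h
    · refine Finset.sum_subset (Finset.range_subset_range.2 h) fun t ht ht' => ?_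
      rw [Finset.mem_range] at ht ht'
      rw [hU t (by omega) (by omega), zero_mul]
    · symm
      refine Finset.sum_subset (Finset.range_subset_range.2 h) fun t ht ht' => ?_
      rw [Finset.mem_range] at ht ht'
      rw [hg _ (Or.inl (by omega)), mul_zero]
  have h2 : ∑ t ∈ range (r + 1), U N m x f t * g (r - t) =
      ∑ l ∈ range (r + 1), U N m x f (r - l) * g l := by
    rw [← Finset.sum_range_reflect]
    refine Finset.sum_congr rfl fun l hl => ?_
    rw [Finset.mem_range] at hl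
    have e : ((r + 1 - 1 - l : ℕ) : ℤ) = (r : ℤ) - l := by omega
    rw [e]
    congr 2
    ring
  rw [h1, h2]
  rcases le_total N (r + 1) with h | h
  · symm
    refine Finset.sum_subset (Finset.range_subset_range.2 h) fun l hl hl' => ?_
    rw [Finset.mem_range] at hl hl'
    rw [hg _ (Or.inr (by omega)), mul_zero]
  · refine Finset.sum_subset (Finset.range_subset_range.2 h) fun l hl hl' => ?_
    rw [Finset.mem_range] at hl hl'
    rw [U_neg hx (by omega), zero_mul]

theorem sum_symm {N μ : ℕ} {m : ℤ} {x f g : ℤ → R} (hx : ∀ k, m ≤ k → x k = 0)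
    (hf : ∀ k : ℤ, k < 0 ∨ (N : ℤ) ≤ k → f k = 0)
    (hg : ∀ k : ℤ, k < 0 ∨ (N : ℤ) ≤ k → g k = 0)
    (hUf : ∀ j : ℤ, (μ : ℤ) ≤ j → j < m → U N m x f j = 0)
    (hUg : ∀ j : ℤ, (μ : ℤ) ≤ j → j < m → U N m x g j = 0) {r : ℕ} (hr : (r : ℤ) < m) :
    ∑ t ∈ range μ, U N m x f t * g (r - t) = ∑ t ∈ range μ, U N m x g t * f (r - t) := by
  rw [sum_U hx hg hUf hr, sum_U hx hf hUg hr]
  simp only [U, Finset.sum_mul]
  rw [Finset.sum_comm]
  refine Finset.sum_congr rfl fun k _ => Finset.sum_congr rfl fun l _ => ?_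
  rw [show m - 1 - ((r : ℤ) - l) + k = m - 1 - ((r : ℤ) - k) + l by ring]
  ring

theorem f_zero [IsDomain R] {N : ℕ} {m : ℤ} {x f : ℤ → R} (hx : ∀ k, m ≤ k → x k = 0)
    (hx1 : x (m - 1) ≠ 0) (hf : ∀ k : ℤ, k < 0 ∨ (N : ℤ) ≤ k → f k = 0)
    (hU : ∀ j : ℤ, 0 ≤ j → j < m → U N m x f j = 0) : ∀ k : ℕ, (k : ℤ) < m → f k = 0 := by
  intro k
  induction k using Nat.strong_induction_on with
  | _ k ih =>
    intro hk
    by_cases hkN : k < N
    · have h1 := hU k (by omega) hk
      rw [U, Finset.sum_eq_single k] at h1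
      · rw [show m - 1 - (k : ℤ) + k = m - 1 by ring] at h1
        exact (mul_eq_zero.1 h1).resolve_left hx1
      · intro l _ hl
        rcases lt_or_gt_of_ne hl with h | h
        · rw [ih l h (by omega), mul_zero]
        · rw [hx _ (by omega), zero_mul]
      · intro h
        exact absurd (Finset.mem_range.2 hkN) h
    · exact hf _ (Or.inr (by omega))

end FVan

/-- In a domain `R` with a homomorphism `φ : SB → R` that kills the `L_i` and `x_k`, `k ≥ n+μ`, but
not `x_{n+μ-1}`, all the minors `D_μ(ρ)` are killed. -/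
theorem D_vanish (K : Type*) [Field K] (n μ : ℕ) (hμ : 1 ≤ μ) (hn : μ ≤ n + 1) {R : Type*}
    [CommRing R] [IsDomain R] (φ : SB K n →+* R)
    (hx : ∀ k : ℤ, (n : ℤ) + μ ≤ k → φ (xx K n k) = 0)
    (hx1 : φ (xx K n ((n : ℤ) + μ - 1)) ≠ 0)
    (hLp : ∀ i < n, φ (Lp K n i) = 0) (hLq : ∀ i < n, φ (Lq K n i) = 0)
    (ρ : Fin (2 * μ) → ℤ) : φ (D K n μ ρ) = 0 := by
  classical
  set x : ℤ → R := fun k => φ (xx K n k) with hxdef
  set p : ℤ → R := fun k => φ (pp K n k) with hpdef
  set q : ℤ → R := fun k => φ (qq K n k) with hqdef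
  have hp : ∀ k : ℤ, k < 0 ∨ ((n + 2 : ℕ) : ℤ) ≤ k → p k = 0 := by
    intro k hk
    simp only [hpdef]
    rw [pp, dif_neg (by push_cast at hk; omega), map_zero]
  have hq : ∀ k : ℤ, k < 0 ∨ ((n + 2 : ℕ) : ℤ) ≤ k → q k = 0 := by
    intro k hk
    simp only [hqdef]
    rw [qq, dif_neg (by push_cast at hk; omega), map_zero]
  have hUp : ∀ j : ℤ, (μ : ℤ) ≤ j → j < (n : ℤ) + μ → FVan.U (n + 2) ((n : ℤ) + μ) x p j = 0 := by
    intro j h1 h2
    have := hLp ((n : ℤ) + μ - 1 - j).toNat (by omega)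
    rw [Lp, map_sum] at this
    rw [← this, FVan.U]
    refine Finset.sum_congr rfl fun k _ => ?_
    rw [map_mul]
    simp only [hxdef, hpdef]
    congr 3
    omega
  have hUq : ∀ j : ℤ, (μ : ℤ) ≤ j → j < (n : ℤ) + μ → FVan.U (n + 2) ((n : ℤ) + μ) x q j = 0 := by
    intro j h1 h2
    have := hLq ((n : ℤ) + μ - 1 - j).toNat (by omega)
    rw [Lq, map_sum] at this
    rw [← this, FVan.U]
    refine Finset.sum_congr rfl fun k _ => ?_
    rw [map_mul]
    simp only [hxdef, hqdef]
    congr 3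
    omega
  rw [D, RingHom.map_det]
  by_cases hall : (∀ t < μ, FVan.U (n + 2) ((n : ℤ) + μ) x p t = 0) ∧
      (∀ t < μ, FVan.U (n + 2) ((n : ℤ) + μ) x q t = 0)
  · have hp0 := FVan.f_zero hx hx1 hp (fun j h1 h2 => by
      by_cases h : (μ : ℤ) ≤ j
      · exact hUp j h h2
      · have := hall.1 j.toNat (by omega)
        rwa [Int.toNat_of_nonneg h1] at this)
    have hq0 := FVan.f_zero hx hx1 hq (fun j h1 h2 => by
      by_cases h : (μ : ℤ) ≤ j
      · exact hUq j h h2
      · have := hall.2 j.toNat (by omega)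
        rwa [Int.toNat_of_nonneg h1] at this)
    have hp1 : ∀ k : ℤ, k < (n : ℤ) + μ → p k = 0 := by
      intro k hk
      by_cases h : 0 ≤ k
      · have := hp0 k.toNat (by omega)
        rwa [Int.toNat_of_nonneg h] at this
      · exact hp k (Or.inl (by omega))
    have hq1 : ∀ k : ℤ, k < (n : ℤ) + μ → q k = 0 := by
      intro k hk
      by_cases h : 0 ≤ k
      · have := hq0 k.toNat (by omega)
        rwa [Int.toNat_of_nonneg h] at this
      · exact hq k (Or.inl (by omega))
    refine Matrix.det_eq_zero_of_row_eq_zero (⟨0, by omega⟩ : Fin (2 * μ)) fun c => ?_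
    simp only [RingHom.mapMatrix_apply, Matrix.map_apply, Matrix.of_apply, ent]
    split_ifs with h1 h2
    · exact hp1 _ (by omega)
    · exact hq1 _ (by omega)
    · exact map_zero φ
  · rw [← Matrix.exists_mulVec_eq_zero_iff]
    refine ⟨fun c => if (c : ℕ) < μ then FVan.U (n + 2) ((n : ℤ) + μ) x q ((c : ℕ) : ℤ)
      else - FVan.U (n + 2) ((n : ℤ) + μ) x p (((c : ℕ) - μ : ℕ) : ℤ), ?_, ?_⟩
    · intro h
      apply hall
      constructor
      · intro t ht
        have := congrFun h ⟨μ + t, by omega⟩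
        simp only [Pi.zero_apply] at this
        rw [if_neg (by omega), neg_eq_zero, show μ + t - μ = t by omega] at this
        exact this
      · intro t ht
        have := congrFun h ⟨t, by omega⟩
        simp only [Pi.zero_apply] at this
        rw [if_pos ht] at this
        exact this
    · funext a
      simp only [Matrix.mulVec, dotProduct, RingHom.mapMatrix_apply, Matrix.map_apply,
        Matrix.of_apply, Pi.zero_apply]
      by_cases hr : 0 ≤ ρ a ∧ ρ a < (n : ℤ) + μ
      · have key := FVan.sum_symm (μ := μ) hx hq hp hUq hUp (r := (ρ a).toNat) (by omega)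
        rw [Int.toNat_of_nonneg hr.1] at key
        rw [Fin.sum_univ_eq_sum_range (fun c => φ (ent K n μ (ρ a) c) *
          (if (c : ℕ) < μ then FVan.U (n + 2) ((n : ℤ) + μ) x q ((c : ℕ) : ℤ)
          else - FVan.U (n + 2) ((n : ℤ) + μ) x p (((c : ℕ) - μ : ℕ) : ℤ))) (2 * μ), two_mul,
          Finset.sum_range_add]
        have e1 : ∑ t ∈ range μ, φ (ent K n μ (ρ a) t) *
            (if t < μ then FVan.U (n + 2) ((n : ℤ) + μ) x q ((t : ℕ) : ℤ)
            else - FVan.U (n + 2) ((n : ℤ) + μ) x p ((t - μ : ℕ) : ℤ)) =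
            ∑ t ∈ range μ, FVan.U (n + 2) ((n : ℤ) + μ) x q t * p (ρ a - t) := by
          refine Finset.sum_congr rfl fun t ht => ?_
          rw [Finset.mem_range] at ht
          rw [if_pos ht, ent, if_pos hr, if_pos ht, mul_comm]
        have e2 : ∑ t ∈ range μ, φ (ent K n μ (ρ a) (μ + t)) *
            (if μ + t < μ then FVan.U (n + 2) ((n : ℤ) + μ) x q ((μ + t : ℕ) : ℤ)
            else - FVan.U (n + 2) ((n : ℤ) + μ) x p ((μ + t - μ : ℕ) : ℤ)) =
            - ∑ t ∈ range μ, FVan.U (n + 2) ((n : ℤ) + μ) x p t * q (ρ a - t) := by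
          rw [← Finset.sum_neg_distrib]
          refine Finset.sum_congr rfl fun t ht => ?_
          rw [if_neg (by omega), ent, if_pos hr, if_neg (by omega), show μ + t - μ = t by omega]
          simp only [hqdef]
          ring
        rw [e1, e2, key]
        ring
      · refine Finset.sum_eq_zero fun c _ => ?_
        rw [ent, if_neg hr, map_zero, zero_mul]

end HK
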