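import Pool.Agent.HK.FTheta
import Pool.Agent.HK.FOm
import Pool.Agent.HK.FVan

/-! # Descent from `AA` to the fiber type ideal: blueprint (8b) -/

namespace HK

open MvPolynomial Finset

section

variable (K : Type*) [Field K] (n m : ℕ)

/-- The map `φ` from `S[T_f]` to `S[t]`, where `S = K[x_0, ..., x_{m-1}]`, that sends `T_f` to the
minor on the columns `f` times `t`. -/
noncomputable def phi :
    MvPolynomial (Fin n ↪o Fin (n + 2)) (MvPolynomial (Fin m) K) →ₐ[MvPolynomial (Fin m) K]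
      Polynomial (MvPolynomial (Fin m) K) :=
  aeval (fun f => Polynomial.C (maxMinor K n m f) * Polynomial.X)

/-- `F` is bihomogeneous of bidegree `(a, b)` -/
def BiHom (a b : ℕ) (F : MvPolynomial (Fin n ↪o Fin (n + 2)) (MvPolynomial (Fin m) K)) : Prop :=
  F.IsHomogeneous b ∧ ∀ d, (coeff d F).IsHomogeneous a

/-- the fiber type ideal -/
noncomputable def JJ : Ideal (MvPolynomial (Fin n ↪o Fin (n + 2)) (MvPolynomial (Fin m) K)) :=
  Ideal.span {F | F ∈ RingHom.ker (phi K n m) ∧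
      ((∃ b, BiHom K n m 0 b F) ∨ (∃ a, BiHom K n m a 1 F))}

/-- signed variables `T_{jk}` -/
noncomputable def tT (j k : Fin (n + 2)) :
    MvPolynomial (Fin n ↪o Fin (n + 2)) (MvPolynomial (Fin m) K) :=
  if h : j < k then (-1) ^ ((j : ℕ) + k + 1) * X (exists_emb j k h).choose
  else if h : k < j then -((-1) ^ ((k : ℕ) + j + 1) * X (exists_emb k j h).choose) else 0

/-- the projection to `S[p,q]` -/
noncomputable def piS :
    SB K n →ₐ[K] MvPolynomial (Fin (n + 2) ⊕ Fin (n + 2)) (MvPolynomial (Fin m) K) :=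
  aeval (Sum.elim (fun k : Fin (2 * n + 1) => if h : (k : ℕ) < m then C (X ⟨k, h⟩) else 0)
    (fun v => X v))

/-- the descent map -/
noncomputable def Psi (b : ℕ)
    (G : MvPolynomial (Fin (n + 2) ⊕ Fin (n + 2)) (MvPolynomial (Fin m) K)) :
    MvPolynomial (Fin n ↪o Fin (n + 2)) (MvPolynomial (Fin m) K) :=
  coeff 0 (((OO (tT K n m)) ^ b)
    (map (C : MvPolynomial (Fin m) K →+*
      MvPolynomial (Fin n ↪o Fin (n + 2)) (MvPolynomial (Fin m) K)) G))

end

section

variable {K : Type*} [Field K] {n m : ℕ}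

theorem phi_monomial (n m : ℕ) (d : (Fin n ↪o Fin (n + 2)) →₀ ℕ) (s : MvPolynomial (Fin m) K) :
    phi K n m (monomial d s) =
      Polynomial.C (aeval (maxMinor K n m) (monomial d s)) * Polynomial.X ^ d.degree := by
  unfold phi
  rw [aeval_monomial, aeval_monomial]
  have h1 : (algebraMap (MvPolynomial (Fin m) K) (Polynomial (MvPolynomial (Fin m) K))) s =
      Polynomial.C s := rfl
  have h2 : (algebraMap (MvPolynomial (Fin m) K) (MvPolynomial (Fin m) K)) s = s := rfl
  rw [h1, h2, Polynomial.C_mul, mul_assoc]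
  congr 1
  rw [Finsupp.prod_fintype _ _ (fun f => pow_zero _), Finsupp.prod_fintype _ _
    (fun f => pow_zero _)]
  simp_rw [mul_pow]
  rw [Finset.prod_mul_distrib, Finset.prod_pow_eq_pow_sum, map_prod]
  congr 1
  · apply Finset.prod_congr rfl
    intro f _
    rw [Polynomial.C_pow]
  · congr 1
    rw [Finsupp.degree_eq_sum]

theorem phi_homog {n m b : ℕ}
    {F : MvPolynomial (Fin n ↪o Fin (n + 2)) (MvPolynomial (Fin m) K)} (hF : F.IsHomogeneous b) :
    phi K n m F = Polynomial.C (aeval (maxMinor K n m) F) * Polynomial.X ^ b := by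
  conv_lhs => rw [F.as_sum]
  conv_rhs => rw [F.as_sum]
  rw [map_sum, map_sum, map_sum, Finset.sum_mul]
  apply Finset.sum_congr rfl
  intro d hd
  rw [phi_monomial]
  congr 2
  rw [mem_support_iff] at hd
  rw [Finsupp.degree_eq_weight_one]
  exact hF hd

theorem aeval_component {n m : ℕ}
    {F : MvPolynomial (Fin n ↪o Fin (n + 2)) (MvPolynomial (Fin m) K)}
    (hF : phi K n m F = 0) (b : ℕ) :
    aeval (maxMinor K n m) (homogeneousComponent b F) = 0 := by
  have h1 : F = ∑ i ∈ Finset.range (max (F.totalDegree + 1) (b + 1)),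
      homogeneousComponent i F := by
    conv_lhs => rw [← sum_homogeneousComponent F]
    apply Finset.sum_subset
    · intro i hi
      rw [Finset.mem_range] at hi ⊢
      exact lt_of_lt_of_le hi (le_max_left _ _)
    · intro i _ hi
      rw [Finset.mem_range, not_lt] at hi
      exact homogeneousComponent_eq_zero _ _ (by omega)
  have h2 : Polynomial.coeff (phi K n m F) b = Polynomial.coeff 0 b := by rw [hF]
  rw [h1, map_sum, Polynomial.finsetSum_coeff, Polynomial.coeff_zero] at h2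
  rw [Finset.sum_eq_single b] at h2
  · rw [phi_homog (homogeneousComponent_isHomogeneous b F), Polynomial.coeff_C_mul,
      Polynomial.coeff_X_pow, if_pos rfl, mul_one] at h2
    exact h2
  · intro i _ hi
    rw [phi_homog (homogeneousComponent_isHomogeneous i F), Polynomial.coeff_C_mul,
      Polynomial.coeff_X_pow, if_neg (fun h => hi h.symm), mul_zero]
  · intro h
    rw [Finset.mem_range, not_lt] at h
    have := le_max_right (F.totalDegree + 1) (b + 1)
    omega

/-! ### the projection `piS` -/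

theorem piS_xx (k : ℤ) : piS K n m (xx K n k) =
    if h : 0 ≤ k ∧ k < 2 * n + 1 ∧ k < m then C (X ⟨k.toNat, by omega⟩) else 0 := by
  unfold xx
  split_ifs with h1 h2 h2
  · unfold piS
    rw [aeval_X]
    simp only [Sum.elim_inl]
    rw [dif_pos (by omega)]
  · unfold piS
    rw [aeval_X]
    simp only [Sum.elim_inl]
    rw [dif_neg (by omega)]
  · omega
  · rw [map_zero]

theorem piS_pp (c : Fin (n + 2)) : piS K n m (pp K n (c : ℕ)) = X (Sum.inl c) := by
  unfold pp
  rw [dif_pos (by omega)]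
  unfold piS
  rw [aeval_X]
  rfl

theorem piS_qq (c : Fin (n + 2)) : piS K n m (qq K n (c : ℕ)) = X (Sum.inr c) := by
  unfold qq
  rw [dif_pos (by omega)]
  unfold piS
  rw [aeval_X]
  rfl

theorem piS_xx_hankel (hm : m ≤ 2 * n + 1) (r : Fin n) (c : Fin (n + 2)) :
    piS K n m (xx K n ((c : ℕ) + (r : ℕ) : ℤ)) = C (hankel K n m r c) := by
  rw [piS_xx, hankel, Matrix.of_apply]
  by_cases h : (r : ℕ) + (c : ℕ) < m
  · rw [dif_pos h, dif_pos (by omega)]
    congr 3
    omega
  · rw [dif_neg h, dif_neg (by omega), map_zero]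

theorem piS_Lp (hm : m ≤ 2 * n + 1) (r : Fin n) :
    piS K n m (Lp K n r) = ∑ c, C (hankel K n m r c) * X (Sum.inl c) := by
  unfold Lp
  rw [map_sum, Finset.sum_range]
  refine Finset.sum_congr rfl fun c _ => ?_
  rw [map_mul, piS_xx_hankel hm, piS_pp]

theorem piS_Lq (hm : m ≤ 2 * n + 1) (r : Fin n) :
    piS K n m (Lq K n r) = ∑ c, C (hankel K n m r c) * X (Sum.inr c) := by
  unfold Lq
  rw [map_sum, Finset.sum_range]
  refine Finset.sum_congr rfl fun c _ => ?_
  rw [map_mul, piS_xx_hankel hm, piS_qq]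

theorem piS_iot (hm : m ≤ 2 * n + 1) (s : MvPolynomial (Fin m) K) :
    piS K n m (iot K n m s) = C s := by
  have h : (piS K n m).comp (iot K n m) =
      (IsScalarTower.toAlgHom K (MvPolynomial (Fin m) K)
        (MvPolynomial (Fin (n + 2) ⊕ Fin (n + 2)) (MvPolynomial (Fin m) K))) := by
    apply MvPolynomial.algHom_ext
    intro k
    rw [AlgHom.comp_apply]
    unfold iot
    rw [aeval_X, piS_xx, dif_pos (by omega)]
    rfl
  exact congrArg (fun g => g s) h

/-- the subring of polynomials with coefficients in `K` -/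
noncomputable def A0 (K : Type*) [Field K] (m : ℕ) (σ : Type*) :
    Subring (MvPolynomial σ (MvPolynomial (Fin m) K)) :=
  (map (C : K →+* MvPolynomial (Fin m) K) : MvPolynomial σ K →+* _).range

theorem X_mem_A0 {σ : Type*} (v : σ) : (X v : MvPolynomial σ (MvPolynomial (Fin m) K)) ∈ A0 K m σ :=
  ⟨X v, map_X _ _⟩

theorem A0_coeff {σ : Type*} {F : MvPolynomial σ (MvPolynomial (Fin m) K)} (hF : F ∈ A0 K m σ)
    (d : σ →₀ ℕ) : ∃ c : K, coeff d F = C c := by
  obtain ⟨G, rfl⟩ := hF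
  exact ⟨coeff d G, coeff_map _ _ _⟩

theorem piS_ent_mem (μ : ℕ) (r : ℤ) (c : ℕ) :
    piS K n m (ent K n μ r c) ∈ A0 K m (Fin (n + 2) ⊕ Fin (n + 2)) := by
  unfold ent
  split_ifs
  · unfold pp
    split_ifs
    · unfold piS
      rw [aeval_X]
      exact X_mem_A0 _
    · rw [map_zero]
      exact Subring.zero_mem _
  · unfold qq
    split_ifs
    · unfold piS
      rw [aeval_X]
      exact X_mem_A0 _
    · rw [map_zero]
      exact Subring.zero_mem _
  · rw [map_zero]
    exact Subring.zero_mem _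

theorem piS_D_mem (μ : ℕ) (ρ : Fin (2 * μ) → ℤ) :
    piS K n m (D K n μ ρ) ∈ A0 K m (Fin (n + 2) ⊕ Fin (n + 2)) := by
  unfold D
  rw [Matrix.det_apply, map_sum]
  refine Subring.sum_mem _ fun σ _ => ?_
  have h : piS K n m (∏ i, (Matrix.of fun a c : Fin (2 * μ) => ent K n μ (ρ a) c) (σ i) i) ∈
      A0 K m (Fin (n + 2) ⊕ Fin (n + 2)) := by
    rw [map_prod]
    exact Subring.prod_mem _ fun i _ => piS_ent_mem _ _ _
  rcases Int.units_eq_one_or (Equiv.Perm.sign σ) with h1 | h1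
  · rw [h1, one_smul]
    exact h
  · rw [h1, Units.neg_smul, one_smul, map_neg]
    exact Subring.neg_mem _ h

/-! ### the signed variables -/

theorem tT_mem_A0 (j k : Fin (n + 2)) : tT K n m j k ∈ A0 K m (Fin n ↪o Fin (n + 2)) := by
  unfold tT
  have h1 : ∀ e : ℕ, ((-1) ^ e : MvPolynomial (Fin n ↪o Fin (n + 2)) (MvPolynomial (Fin m) K)) ∈
      A0 K m (Fin n ↪o Fin (n + 2)) := fun e =>
    Subring.pow_mem _ (Subring.neg_mem _ (Subring.one_mem _)) e
  split_ifs
  · exact Subring.mul_mem _ (h1 _) (X_mem_A0 _)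
  · exact Subring.neg_mem _ (Subring.mul_mem _ (h1 _) (X_mem_A0 _))
  · exact Subring.zero_mem _

theorem tT_homog (j k : Fin (n + 2)) : (tT K n m j k).IsHomogeneous 1 := by
  unfold tT
  have h1 : ∀ (e : ℕ) (f : Fin n ↪o Fin (n + 2)),
      ((-1) ^ e * X f : MvPolynomial (Fin n ↪o Fin (n + 2))
        (MvPolynomial (Fin m) K)).IsHomogeneous 1 := by
    intro e f
    rcases neg_one_pow_eq_or (MvPolynomial (Fin n ↪o Fin (n + 2)) (MvPolynomial (Fin m) K)) e with
      h | h
    · rw [h, one_mul]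
      exact isHomogeneous_X _ _
    · rw [h, neg_one_mul]
      exact (isHomogeneous_X _ _).neg
  split_ifs
  · exact h1 _ _
  · exact (h1 _ _).neg
  · exact isHomogeneous_zero _ _ _

theorem aeval_tT (j k : Fin (n + 2)) :
    aeval (maxMinor K n m) (tT K n m j k) = sM (hankel K n m) j k := by
  unfold tT
  split_ifs with h1 h2
  · obtain ⟨ha, hb⟩ := (exists_emb j k h1).choose_spec
    rw [sM_eq _ _ j k h1 ha hb, map_mul, map_pow, map_neg, map_one, aeval_X]
    rfl
  · obtain ⟨ha, hb⟩ := (exists_emb k j h2).choose_spec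
    rw [sM_swap, sM_eq _ _ k j h2 ha hb, map_neg, map_mul, map_pow, map_neg, map_one, aeval_X]
    rfl
  · have : j = k := le_antisymm (not_lt.1 h2) (not_lt.1 h1)
    subst this
    rw [sM_self, map_zero]

/-! ### properties of `Psi` -/

theorem Psi_add (b : ℕ) (G G' : MvPolynomial (Fin (n + 2) ⊕ Fin (n + 2)) (MvPolynomial (Fin m) K)) :
    Psi K n m b (G + G') = Psi K n m b G + Psi K n m b G' := by
  unfold Psi
  rw [map_add, map_add, coeff_add]

theorem Psi_C_mul (b : ℕ) (s : MvPolynomial (Fin m) K)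
    (G : MvPolynomial (Fin (n + 2) ⊕ Fin (n + 2)) (MvPolynomial (Fin m) K)) :
    Psi K n m b (C s * G) = C s * Psi K n m b G := by
  unfold Psi
  rw [map_mul, map_C, C_mul', LinearMap.map_smul, coeff_smul, smul_eq_mul]

theorem Psi_sum {ι : Type*} (s : Finset ι) (b : ℕ)
    (G : ι → MvPolynomial (Fin (n + 2) ⊕ Fin (n + 2)) (MvPolynomial (Fin m) K)) :
    Psi K n m b (∑ i ∈ s, G i) = ∑ i ∈ s, Psi K n m b (G i) := by
  unfold Psi
  rw [map_sum, map_sum, coeff_sum]

/-- values on polynomials with coefficients in `K` are bihomogeneous of bidegree `(0,b)` -/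
theorem Psi_biHom (b : ℕ) (W : MvPolynomial (Fin (n + 2) ⊕ Fin (n + 2)) (MvPolynomial (Fin m) K))
    (hW : W ∈ A0 K m (Fin (n + 2) ⊕ Fin (n + 2))) : BiHom K n m 0 b (Psi K n m b W) := by
  constructor
  · exact OO_pow_coeff_homog _ tT_homog b W 0
  · intro d
    have h1 := OO_pow_coeff_mem (A0 K m (Fin n ↪o Fin (n + 2))) (tT K n m) tT_mem_A0 b
      (map (C : MvPolynomial (Fin m) K →+*
        MvPolynomial (Fin n ↪o Fin (n + 2)) (MvPolynomial (Fin m) K)) W) (by
        intro e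
        rw [coeff_map]
        obtain ⟨c, hc⟩ := A0_coeff hW e
        rw [hc]
        exact ⟨C c, map_C _ _⟩) 0
    obtain ⟨c, hc⟩ := A0_coeff h1 d
    have h2 : coeff d (Psi K n m b W) = C c := hc
    rw [h2]
    exact isHomogeneous_C _ _

theorem Psi_mem_A0 (b : ℕ)
    (W : MvPolynomial (Fin (n + 2) ⊕ Fin (n + 2)) (MvPolynomial (Fin m) K))
    (hW : W ∈ A0 K m (Fin (n + 2) ⊕ Fin (n + 2))) :
    Psi K n m b W ∈ A0 K m (Fin n ↪o Fin (n + 2)) :=
  OO_pow_coeff_mem (A0 K m (Fin n ↪o Fin (n + 2))) (tT K n m) tT_mem_A0 b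
    (map (C : MvPolynomial (Fin m) K →+*
      MvPolynomial (Fin n ↪o Fin (n + 2)) (MvPolynomial (Fin m) K)) W) (by
      intro e
      rw [coeff_map]
      obtain ⟨c, hc⟩ := A0_coeff hW e
      rw [hc]
      exact ⟨C c, map_C _ _⟩) 0

theorem biHom_of_A0 {b : ℕ} {F : MvPolynomial (Fin n ↪o Fin (n + 2)) (MvPolynomial (Fin m) K)}
    (h1 : F.IsHomogeneous b) (h2 : F ∈ A0 K m (Fin n ↪o Fin (n + 2))) : BiHom K n m 0 b F := by
  refine ⟨h1, fun d => ?_⟩
  obtain ⟨c, hc⟩ := A0_coeff h2 d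
  rw [hc]
  exact isHomogeneous_C _ _

/-! ### evaluation -/

theorem OO_smul {R : Type*} [CommRing R] {N : ℕ} (c : R) (t : Fin N → Fin N → R) :
    OO (fun j k => c * t j k) = c • OO t := by
  unfold OO
  rw [Finset.smul_sum]
  refine Finset.sum_congr rfl fun j _ => ?_
  rw [Finset.smul_sum]
  refine Finset.sum_congr rfl fun k _ => ?_
  rw [mul_smul]

theorem ev_Psi' (b : ℕ)
    (W : MvPolynomial (Fin (n + 2) ⊕ Fin (n + 2)) (MvPolynomial (Fin m) K)) :
    aeval (maxMinor K n m) (Psi K n m b W) =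
      coeff 0 (((OO (sM (hankel K n m))) ^ b) W) := by
  set ev : MvPolynomial (Fin n ↪o Fin (n + 2)) (MvPolynomial (Fin m) K) →+*
    MvPolynomial (Fin m) K := (aeval (maxMinor K n m) : _ →ₐ[MvPolynomial (Fin m) K] _).toRingHom
    with hev
  have h2 := OO_map ev (tT K n m)
    (map (C : MvPolynomial (Fin m) K →+*
      MvPolynomial (Fin n ↪o Fin (n + 2)) (MvPolynomial (Fin m) K)) W) b
  have h3 : (fun j k => ev (tT K n m j k)) = sM (hankel K n m) := by
    funext j k
    exact aeval_tT j k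
  have h4 : ev.comp (C : MvPolynomial (Fin m) K →+*
      MvPolynomial (Fin n ↪o Fin (n + 2)) (MvPolynomial (Fin m) K)) = RingHom.id _ := by
    refine RingHom.ext fun s => ?_
    rw [RingHom.comp_apply, hev]
    change aeval _ (C s) = s
    rw [aeval_C]
    rfl
  rw [h3, MvPolynomial.map_map, h4, MvPolynomial.map_id] at h2
  rw [← h2, coeff_map]
  rfl

theorem ev_Psi (ps qs : Fin (n + 2) → MvPolynomial (Fin m) K) (c0 : MvPolynomial (Fin m) K)
    (h : ∀ j k, c0 * sM (hankel K n m) j k = ps j * qs k - ps k * qs j) (b : ℕ)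
    (W : MvPolynomial (Fin (n + 2) ⊕ Fin (n + 2)) (MvPolynomial (Fin m) K)) :
    c0 ^ b * aeval (maxMinor K n m) (Psi K n m b W) =
      coeff 0 (((Om (MvPolynomial (Fin m) K)) ^ b) (sig ps qs W)) := by
  rw [← sig_OO, coeff_zero_sig]
  have h1 : (fun j k => ps j * qs k - ps k * qs j) =
      fun j k => c0 * sM (hankel K n m) j k := by
    funext j k
    exact (h j k).symm
  rw [h1, OO_smul, smul_pow, LinearMap.smul_apply, coeff_smul, smul_eq_mul, ev_Psi']

/-- a pair of kernel vectors -/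
theorem exists_pair (K : Type*) [Field K] (n m : ℕ) (hn : 1 ≤ n) (hm : n ≤ m) :
    ∃ (c0 : MvPolynomial (Fin m) K) (ps qs : Fin (n + 2) → MvPolynomial (Fin m) K), c0 ≠ 0 ∧
      (∀ j k, c0 * sM (hankel K n m) j k = ps j * qs k - ps k * qs j) ∧
      (∀ r, ∑ c, hankel K n m r c * ps c = 0) ∧ (∀ r, ∑ c, hankel K n m r c * qs c = 0) := by
  obtain ⟨k, l, hkl⟩ := sM_hankel_ne_zero (K := K) (n := n) m hn hm
  set H := hankel K n m
  have hps : ∀ r, ∑ c, H r c * sM H c l = 0 := fun r => sum_H_sM H r l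
  have hqs : ∀ r, ∑ c, H r c * sM H k c = 0 := by
    intro r
    have h1 := sum_H_sM H r k
    have h2 : ∑ c, H r c * sM H k c = -∑ c, H r c * sM H c k := by
      rw [← Finset.sum_neg_distrib]
      refine Finset.sum_congr rfl fun c _ => ?_
      rw [sM_swap H c k]
      ring
    rw [h2, h1, neg_zero]
  refine ⟨sM H k l, fun c => sM H c l, fun c => sM H k c, hkl, ?_, hps, hqs⟩
  intro i j
  have h1 := cramer H (fun c => sM H c l) (fun c => sM H k c) hps hqs i j k l
  apply mul_left_cancel₀ hkl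
  simp only at h1 ⊢
  rw [h1, sM_self H l]
  ring

theorem sig_D (μ : ℕ) (hμ : 1 ≤ μ) (hn : μ ≤ n + 1)
    (ps qs : Fin (n + 2) → MvPolynomial (Fin (n + μ)) K)
    (hps : ∀ r, ∑ c, hankel K n (n + μ) r c * ps c = 0)
    (hqs : ∀ r, ∑ c, hankel K n (n + μ) r c * qs c = 0) (ρ : Fin (2 * μ) → ℤ) :
    sig ps qs (piS K n (n + μ) (D K n μ ρ)) = 0 := by
  refine D_vanish K n μ hμ hn ((sig ps qs).toRingHom.comp (piS K n (n + μ)).toRingHom)
    ?_ ?_ ?_ ?_ ρ
  · intro k hk
    change sig ps qs (piS K n (n + μ) (xx K n k)) = 0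
    rw [piS_xx, dif_neg, map_zero]
    push_cast
    omega
  · change sig ps qs (piS K n (n + μ) (xx K n _)) ≠ 0
    rw [piS_xx, dif_pos (by push_cast; omega)]
    unfold sig
    rw [aeval_C]
    change (C (X _) : MvPolynomial (Fin 4) (MvPolynomial (Fin (n + μ)) K)) ≠ 0
    rw [Ne, C_eq_zero]
    exact X_ne_zero _
  · intro i hi
    change sig ps qs (piS K n (n + μ) (Lp K n ((⟨i, hi⟩ : Fin n) : ℕ))) = 0
    rw [piS_Lp (by omega), map_sum]
    have h1 : ∀ c, sig ps qs (C (hankel K n (n + μ) ⟨i, hi⟩ c) * X (Sum.inl c)) =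
        C (hankel K n (n + μ) ⟨i, hi⟩ c * ps c) * X 0 +
          C (hankel K n (n + μ) ⟨i, hi⟩ c * qs c) * X 1 := by
      intro c
      unfold sig
      rw [map_mul, aeval_C, aeval_X]
      change C _ * (C (ps c) * X 0 + C (qs c) * X 1) = _
      rw [C_mul, C_mul]
      ring
    simp_rw [h1]
    rw [Finset.sum_add_distrib, ← Finset.sum_mul, ← Finset.sum_mul, ← map_sum, ← map_sum,
      hps, hqs]
    simp
  · intro i hi
    change sig ps qs (piS K n (n + μ) (Lq K n ((⟨i, hi⟩ : Fin n) : ℕ))) = 0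
    rw [piS_Lq (by omega), map_sum]
    have h1 : ∀ c, sig ps qs (C (hankel K n (n + μ) ⟨i, hi⟩ c) * X (Sum.inr c)) =
        C (hankel K n (n + μ) ⟨i, hi⟩ c * ps c) * X 2 +
          C (hankel K n (n + μ) ⟨i, hi⟩ c * qs c) * X 3 := by
      intro c
      unfold sig
      rw [map_mul, aeval_C, aeval_X]
      change C _ * (C (ps c) * X 2 + C (qs c) * X 3) = _
      rw [C_mul, C_mul]
      ring
    simp_rw [h1]
    rw [Finset.sum_add_distrib, ← Finset.sum_mul, ← Finset.sum_mul, ← map_sum, ← map_sum,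
      hps, hqs]
    simp

/-! ### generators -/

theorem hankel_homog (r : Fin n) (c : Fin (n + 2)) : (hankel K n m r c).IsHomogeneous 1 := by
  rw [hankel, Matrix.of_apply]
  split_ifs
  · exact isHomogeneous_X _ _
  · exact isHomogeneous_zero _ _ _

theorem lam_mem (r : Fin n)
    (T' : Fin (n + 2) → MvPolynomial (Fin n ↪o Fin (n + 2)) (MvPolynomial (Fin m) K))
    (hA : ∀ j, T' j ∈ A0 K m (Fin n ↪o Fin (n + 2))) (hh : ∀ j, (T' j).IsHomogeneous 1)
    (h0 : ∑ j, hankel K n m r j * aeval (maxMinor K n m) (T' j) = 0) :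
    ∑ j, C (hankel K n m r j) * T' j ∈ JJ K n m := by
  have hhom : (∑ j, C (hankel K n m r j) * T' j).IsHomogeneous 1 := by
    refine IsHomogeneous.sum _ _ _ fun j _ => ?_
    have := (isHomogeneous_C (Fin n ↪o Fin (n + 2)) (hankel K n m r j)).mul (hh j)
    rwa [zero_add] at this
  refine Ideal.subset_span ⟨?_, Or.inr ⟨1, hhom, fun d => ?_⟩⟩
  · rw [RingHom.mem_ker]
    change phi K n m _ = 0
    rw [phi_homog hhom, map_sum]
    have : ∑ j, aeval (maxMinor K n m) (C (hankel K n m r j) * T' j) = 0 := by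
      rw [← h0]
      refine Finset.sum_congr rfl fun j _ => ?_
      rw [map_mul, aeval_C]
      rfl
    rw [this, Polynomial.C_0, zero_mul]
  · rw [coeff_sum]
    refine IsHomogeneous.sum _ _ _ fun j _ => ?_
    rw [coeff_C_mul]
    obtain ⟨c, hc⟩ := A0_coeff (hA j) d
    rw [hc]
    have := (hankel_homog (K := K) (m := m) r j).mul (isHomogeneous_C (Fin m) c)
    rwa [add_zero] at this

theorem coeff_zero_mul' {σ R : Type*} [CommRing R] (F G : MvPolynomial σ R) :
    coeff 0 (F * G) = coeff 0 F * coeff 0 G := by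
  rw [← constantCoeff_eq, map_mul]

theorem Psi_mul_Lp (b : ℕ) (r : Fin n)
    (V : MvPolynomial (Fin (n + 2) ⊕ Fin (n + 2)) (MvPolynomial (Fin m) K)) :
    Psi K n m b (V * ∑ c, C (hankel K n m r c) * X (Sum.inl c)) ∈ JJ K n m := by
  have h1 : map (C : MvPolynomial (Fin m) K →+*
      MvPolynomial (Fin n ↪o Fin (n + 2)) (MvPolynomial (Fin m) K))
      (V * ∑ c, C (hankel K n m r c) * X (Sum.inl c)) =
      (∑ c, C (C (hankel K n m r c)) * X (Sum.inl c)) * map (C : MvPolynomial (Fin m) K →+*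
      MvPolynomial (Fin n ↪o Fin (n + 2)) (MvPolynomial (Fin m) K)) V := by
    rw [map_mul, map_sum, mul_comm]
    congr 1
    refine Finset.sum_congr rfl fun c _ => ?_
    rw [map_mul, map_C, map_X]
  have h2 : ∀ U : MvPolynomial (Fin (n + 2) ⊕ Fin (n + 2))
      (MvPolynomial (Fin n ↪o Fin (n + 2)) (MvPolynomial (Fin m) K)),
      coeff 0 ((∑ c, C (C (hankel K n m r c)) * X (Sum.inl c)) * U) = 0 := by
    intro U
    rw [coeff_zero_mul', coeff_sum]
    simp
  unfold Psi
  rw [h1]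
  cases b with
  | zero =>
    rw [pow_zero, Module.End.one_apply, h2]
    exact Ideal.zero_mem _
  | succ b =>
    rw [OO_pow_mul_left, coeff_add, h2, zero_add, coeff_smul, map_sum, coeff_sum, smul_eq_mul]
    refine Ideal.mul_mem_left _ _ (Ideal.sum_mem _ fun k _ => ?_)
    rw [C_mul', LinearMap.map_smul, coeff_smul, smul_eq_mul]
    refine Ideal.mul_mem_right _ _ (lam_mem r (fun j => tT K n m j k) (fun j => tT_mem_A0 j k)
      (fun j => tT_homog j k) ?_)
    simp_rw [aeval_tT]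
    exact sum_H_sM _ r k

theorem Psi_mul_Lq (b : ℕ) (r : Fin n)
    (V : MvPolynomial (Fin (n + 2) ⊕ Fin (n + 2)) (MvPolynomial (Fin m) K)) :
    Psi K n m b (V * ∑ c, C (hankel K n m r c) * X (Sum.inr c)) ∈ JJ K n m := by
  have h1 : map (C : MvPolynomial (Fin m) K →+*
      MvPolynomial (Fin n ↪o Fin (n + 2)) (MvPolynomial (Fin m) K))
      (V * ∑ c, C (hankel K n m r c) * X (Sum.inr c)) =
      (∑ c, C (C (hankel K n m r c)) * X (Sum.inr c)) * map (C : MvPolynomial (Fin m) K →+*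
      MvPolynomial (Fin n ↪o Fin (n + 2)) (MvPolynomial (Fin m) K)) V := by
    rw [map_mul, map_sum, mul_comm]
    congr 1
    refine Finset.sum_congr rfl fun c _ => ?_
    rw [map_mul, map_C, map_X]
  have h2 : ∀ U : MvPolynomial (Fin (n + 2) ⊕ Fin (n + 2))
      (MvPolynomial (Fin n ↪o Fin (n + 2)) (MvPolynomial (Fin m) K)),
      coeff 0 ((∑ c, C (C (hankel K n m r c)) * X (Sum.inr c)) * U) = 0 := by
    intro U
    rw [coeff_zero_mul', coeff_sum]
    simp
  unfold Psi
  rw [h1]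
  cases b with
  | zero =>
    rw [pow_zero, Module.End.one_apply, h2]
    exact Ideal.zero_mem _
  | succ b =>
    rw [OO_pow_mul_right, coeff_add, h2, zero_add, coeff_smul, map_sum, coeff_sum, smul_eq_mul]
    refine Ideal.mul_mem_left _ _ (Ideal.sum_mem _ fun k _ => ?_)
    rw [C_mul', LinearMap.map_smul, coeff_smul, smul_eq_mul]
    refine Ideal.mul_mem_right _ _ ?_
    have h3 := lam_mem r (fun j => tT K n m k j) (fun j => tT_mem_A0 k j)
      (fun j => tT_homog k j) (by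
        simp_rw [aeval_tT]
        have h4 := sum_H_sM (hankel K n m) r k
        have h5 : ∑ j, hankel K n m r j * sM (hankel K n m) k j =
            -∑ j, hankel K n m r j * sM (hankel K n m) j k := by
          rw [← Finset.sum_neg_distrib]
          refine Finset.sum_congr rfl fun j _ => ?_
          rw [sM_swap (hankel K n m) j k]
          ring
        rw [h5, h4, neg_zero])
    have h6 : ∑ j, tT K n m k j * C (hankel K n m r j) =
        ∑ j, C (hankel K n m r j) * tT K n m k j :=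
      Finset.sum_congr rfl fun j _ => mul_comm _ _
    rw [h6]
    exact h3

theorem mem_JJ_of (b : ℕ) (F : MvPolynomial (Fin n ↪o Fin (n + 2)) (MvPolynomial (Fin m) K))
    (h1 : BiHom K n m 0 b F) (h2 : aeval (maxMinor K n m) F = 0) : F ∈ JJ K n m := by
  refine Ideal.subset_span ⟨?_, Or.inl ⟨b, h1⟩⟩
  rw [RingHom.mem_ker]
  change phi K n m _ = 0
  rw [phi_homog h1.1, h2, Polynomial.C_0, zero_mul]

theorem Psi_mul_D (μ : ℕ) (hμ : 1 ≤ μ) (hn : μ ≤ n + 1) (hn1 : 1 ≤ n) (b : ℕ)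
    (ρ : Fin (2 * μ) → ℤ)
    (V : MvPolynomial (Fin (n + 2) ⊕ Fin (n + 2)) (MvPolynomial (Fin (n + μ)) K)) :
    Psi K n (n + μ) b (V * piS K n (n + μ) (D K n μ ρ)) ∈ JJ K n (n + μ) := by
  obtain ⟨c0, ps, qs, hc0, hM, hps, hqs⟩ := exists_pair K n (n + μ) hn1 (by omega)
  induction V using MvPolynomial.induction_on' with
  | monomial e c =>
    have h1 : (monomial e c : MvPolynomial (Fin (n + 2) ⊕ Fin (n + 2))
        (MvPolynomial (Fin (n + μ)) K)) = C c * monomial e 1 := by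
      rw [C_mul_monomial, mul_one]
    rw [h1, mul_assoc, Psi_C_mul]
    refine Ideal.mul_mem_left _ _ (mem_JJ_of b _ (Psi_biHom b _ ?_) ?_)
    · refine Subring.mul_mem _ ⟨monomial e 1, ?_⟩ (piS_D_mem μ ρ)
      rw [map_monomial, map_one]
    · have h2 := ev_Psi ps qs c0 hM b (monomial e 1 * piS K n (n + μ) (D K n μ ρ))
      rw [map_mul (sig ps qs), sig_D μ hμ hn ps qs hps hqs ρ, mul_zero, map_zero, coeff_zero] at h2
      rcases mul_eq_zero.1 h2 with h | h
      · exact absurd h (pow_ne_zero _ hc0)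
      · exact h
  | add V1 V2 h1 h2 =>
    rw [add_mul, Psi_add]
    exact Ideal.add_mem _ h1 h2

theorem Psi_mem (μ : ℕ) (hμ : 1 ≤ μ) (hn : μ ≤ n + 1) (hn1 : 1 ≤ n) (b : ℕ) (G : SB K n)
    (hG : G ∈ AA K n μ)
    (V : MvPolynomial (Fin (n + 2) ⊕ Fin (n + 2)) (MvPolynomial (Fin (n + μ)) K)) :
    Psi K n (n + μ) b (V * piS K n (n + μ) G) ∈ JJ K n (n + μ) := by
  have hz : Psi K n (n + μ) b 0 = 0 := by
    unfold Psi
    rw [map_zero, map_zero, coeff_zero]
  unfold AA at hG
  induction hG using Submodule.span_induction generalizing V with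
  | mem f hf =>
    rcases hf with (((⟨k, hk, rfl⟩ | ⟨i, hi, rfl⟩) | ⟨i, hi, rfl⟩) | ⟨ρ, rfl⟩)
    · rw [piS_xx, dif_neg (by push_cast; omega), mul_zero, hz]
      exact Ideal.zero_mem _
    · have := piS_Lp (K := K) (n := n) (m := n + μ) (by omega) ⟨i, hi⟩
      simp only at this
      rw [this]
      exact Psi_mul_Lp b _ V
    · have := piS_Lq (K := K) (n := n) (m := n + μ) (by omega) ⟨i, hi⟩
      simp only at this
      rw [this]
      exact Psi_mul_Lq b _ V
    · exact Psi_mul_D μ hμ hn hn1 b ρ V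
  | zero =>
    rw [map_zero, mul_zero, hz]
    exact Ideal.zero_mem _
  | add x y _ _ hx hy =>
    rw [map_add, mul_add, Psi_add]
    exact Ideal.add_mem _ (hx V) (hy V)
  | smul a x _ hx =>
    rw [smul_eq_mul, map_mul, ← mul_assoc]
    exact hx _

/-! ### the main descent statement -/

/-- image of `θ(T_f)` in `S[p,q]` -/
noncomputable def ttb (K : Type*) [Field K] (n m : ℕ) (f : Fin n ↪o Fin (n + 2)) :
    MvPolynomial (Fin (n + 2) ⊕ Fin (n + 2)) (MvPolynomial (Fin m) K) :=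
  (-1) ^ ((ci1 f : ℕ) + ci2 f + 1) *
      (X (Sum.inl (ci1 f)) * X (Sum.inr (ci2 f)) - X (Sum.inl (ci2 f)) * X (Sum.inr (ci1 f)))

theorem ttb_mem_A0 (f : Fin n ↪o Fin (n + 2)) :
    ttb K n m f ∈ A0 K m (Fin (n + 2) ⊕ Fin (n + 2)) := by
  unfold ttb
  exact Subring.mul_mem _ (Subring.pow_mem _ (Subring.neg_mem _ (Subring.one_mem _)) _)
    (Subring.sub_mem _ (Subring.mul_mem _ (X_mem_A0 _) (X_mem_A0 _))
      (Subring.mul_mem _ (X_mem_A0 _) (X_mem_A0 _)))

theorem sig_ttb (ps qs : Fin (n + 2) → MvPolynomial (Fin m) K) (c0 : MvPolynomial (Fin m) K)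
    (h : ∀ j k, c0 * sM (hankel K n m) j k = ps j * qs k - ps k * qs j)
    (f : Fin n ↪o Fin (n + 2)) :
    sig ps qs (ttb K n m f) = C (c0 * maxMinor K n m f) * (X 0 * X 3 - X 1 * X 2) := by
  have h1 : sM (hankel K n m) (ci1 f) (ci2 f) =
      (-1) ^ ((ci1 f : ℕ) + ci2 f + 1) * maxMinor K n m f :=
    sM_eq _ f _ _ (ci_spec f).1 (ci_spec f).2.1 (ci_spec f).2.2
  have h2 := h (ci1 f) (ci2 f)
  have h3 : ((-1 : MvPolynomial (Fin m) K) ^ ((ci1 f : ℕ) + ci2 f + 1)) *
      ((-1) ^ ((ci1 f : ℕ) + ci2 f + 1)) = 1 := by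
    rw [← mul_pow]
    norm_num
  have h4 : c0 * maxMinor K n m f = (-1) ^ ((ci1 f : ℕ) + ci2 f + 1) *
      (ps (ci1 f) * qs (ci2 f) - ps (ci2 f) * qs (ci1 f)) := by
    rw [← h2, h1]
    calc c0 * maxMinor K n m f = (((-1 : MvPolynomial (Fin m) K) ^ ((ci1 f : ℕ) + ci2 f + 1)) *
      ((-1) ^ ((ci1 f : ℕ) + ci2 f + 1))) * (c0 * maxMinor K n m f) := by rw [h3, one_mul]
      _ = _ := by ring
  rw [h4]
  unfold ttb sig
  rw [map_mul, map_pow, map_neg, map_one, map_sub, map_mul, map_mul, aeval_X, aeval_X, aeval_X,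
    aeval_X]
  simp only [Sum.elim_inl, Sum.elim_inr, C_mul, C_sub, C_pow, C_neg, C_1]
  ring

theorem piS_tht (hm : m ≤ 2 * n + 1)
    (F : MvPolynomial (Fin n ↪o Fin (n + 2)) (MvPolynomial (Fin m) K)) :
    piS K n m (tht K n m F) = ∑ d ∈ F.support, C (coeff d F) *
      d.prod fun f e => ttb K n m f ^ e := by
  have h1 : piS K n m (tht K n m F) = eval₂ (C : MvPolynomial (Fin m) K →+* _) (ttb K n m) F := by
    unfold tht
    rw [coe_eval₂Hom]
    change (piS K n m).toRingHom (eval₂ _ _ F) = _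
    rw [eval₂_comp_left (piS K n m).toRingHom]
    have h2 : (piS K n m).toRingHom.comp (iot K n m : MvPolynomial (Fin m) K →+* SB K n) = C := by
      refine RingHom.ext fun s => ?_
      exact piS_iot hm s
    rw [h2]
    congr 1
    funext f
    rw [Function.comp_apply]
    change piS K n m _ = _
    rw [map_mul, map_pow, map_neg, map_one, map_sub, map_mul, map_mul, piS_pp, piS_pp, piS_qq,
      piS_qq]
    rfl
  rw [h1, eval₂_eq']
  refine Finset.sum_congr rfl fun d _ => ?_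
  rw [Finsupp.prod_fintype _ _ fun f => pow_zero _]

theorem desc [CharZero K] (μ : ℕ) (hμ : 1 ≤ μ) (hn : μ ≤ n + 1) (hn1 : 1 ≤ n) (b : ℕ)
    (F : MvPolynomial (Fin n ↪o Fin (n + 2)) (MvPolynomial (Fin (n + μ)) K))
    (hF : F.IsHomogeneous b) (h : tht K n (n + μ) F ∈ AA K n μ) : F ∈ JJ K n (n + μ) := by
  obtain ⟨c0, ps, qs, hc0, hM, hps, hqs⟩ := exists_pair K n (n + μ) hn1 (by omega)
  set N : ℕ := b.factorial * (b + 1).factorial with hN
  have h1 := Psi_mem μ hμ hn hn1 b _ h 1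
  rw [one_mul, piS_tht (by omega), Psi_sum] at h1
  simp_rw [Psi_C_mul] at h1
  set P : ((Fin n ↪o Fin (n + 2)) →₀ ℕ) → MvPolynomial (Fin (n + 2) ⊕ Fin (n + 2))
    (MvPolynomial (Fin (n + μ)) K) := fun d => d.prod fun f e => ttb K n (n + μ) f ^ e with hP
  have hPA : ∀ d, P d ∈ A0 K (n + μ) (Fin (n + 2) ⊕ Fin (n + 2)) := by
    intro d
    rw [hP]
    exact Subring.prod_mem _ fun f _ => Subring.pow_mem _ (ttb_mem_A0 f) _
  have h2 : ∀ d ∈ F.support, monomial d (N : MvPolynomial (Fin (n + μ)) K) -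
      Psi K n (n + μ) b (P d) ∈ JJ K n (n + μ) := by
    intro d hd
    have hdeg : d.degree = b := by
      rw [mem_support_iff] at hd
      rw [Finsupp.degree_eq_weight_one]
      exact hF hd
    refine mem_JJ_of b _ (biHom_of_A0 ?_ ?_) ?_
    · exact (isHomogeneous_monomial _ hdeg).sub (Psi_biHom b _ (hPA d)).1
    · refine Subring.sub_mem _ ⟨monomial d (N : K), ?_⟩ (Psi_mem_A0 b _ (hPA d))
      rw [map_monomial, map_natCast]
    · have h3 := ev_Psi ps qs c0 hM b (P d)
      have h4 : sig ps qs (P d) = C (c0 ^ b * (d.prod fun f e => maxMinor K n (n + μ) f ^ e)) *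
          (X 0 * X 3 - X 1 * X 2) ^ b := by
        rw [hP]
        simp only [Finsupp.prod]
        rw [map_prod]
        simp_rw [map_pow, sig_ttb ps qs c0 hM, mul_pow]
        rw [Finset.prod_mul_distrib, Finset.prod_pow_eq_pow_sum]
        have h5 : ∑ f ∈ d.support, d f = b := hdeg
        rw [h5, C_mul, map_prod, C_pow]
        congr 1
        simp_rw [map_pow, C_mul, mul_pow]
        rw [Finset.prod_mul_distrib, Finset.prod_pow_eq_pow_sum, h5]
      rw [h4, C_mul', LinearMap.map_smul, Om_det, coeff_smul, coeff_C, if_pos rfl, smul_eq_mul,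
        mul_assoc] at h3
      have h6 := mul_left_cancel₀ (pow_ne_zero _ hc0) h3
      rw [map_sub, aeval_monomial, h6]
      change (N : MvPolynomial (Fin (n + μ)) K) * _ - _ = 0
      ring
  have h3 : (N : MvPolynomial (Fin n ↪o Fin (n + 2)) (MvPolynomial (Fin (n + μ)) K)) * F =
      ∑ d ∈ F.support, C (coeff d F) * Psi K n (n + μ) b (P d) +
      ∑ d ∈ F.support, C (coeff d F) * (monomial d (N : MvPolynomial (Fin (n + μ)) K) -
      Psi K n (n + μ) b (P d)) := by
    rw [← Finset.sum_add_distrib]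
    conv_lhs => rw [F.as_sum, Finset.mul_sum]
    refine Finset.sum_congr rfl fun d _ => ?_
    have h4 : (N : MvPolynomial (Fin n ↪o Fin (n + 2)) (MvPolynomial (Fin (n + μ)) K)) =
        C (N : MvPolynomial (Fin (n + μ)) K) := (map_natCast C N).symm
    rw [h4, C_mul_monomial, ← mul_add, add_sub_cancel, C_mul_monomial, mul_comm]
  have h4 : (N : MvPolynomial (Fin n ↪o Fin (n + 2)) (MvPolynomial (Fin (n + μ)) K)) * F ∈
      JJ K n (n + μ) := by
    rw [h3]
    exact Ideal.add_mem _ h1 (Ideal.sum_mem _ fun d hd => Ideal.mul_mem_left _ _ (h2 d hd))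
  have h5 : F = C (C ((N : K)⁻¹)) *
      ((N : MvPolynomial (Fin n ↪o Fin (n + 2)) (MvPolynomial (Fin (n + μ)) K)) * F) := by
    have h6 : (N : MvPolynomial (Fin n ↪o Fin (n + 2)) (MvPolynomial (Fin (n + μ)) K)) =
        C (C (N : K)) := by
      rw [map_natCast, map_natCast]
    have h7 : (N : K) ≠ 0 := by
      rw [Nat.cast_ne_zero, hN]
      exact mul_ne_zero (Nat.factorial_ne_zero _) (Nat.factorial_ne_zero _)
    rw [h6, ← mul_assoc, ← C_mul, ← C_mul, inv_mul_cancel₀ h7, C_1, C_1, one_mul]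
  rw [h5]
  exact Ideal.mul_mem_left _ _ h4

end

end HK
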