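import Pool.Agent.HK.Defs

/-! # The operator `O` (blueprint (8b)) -/

namespace HK

open MvPolynomial Finset

section

variable {R : Type*} [CommRing R] {N : ℕ}

/-- `O_t = ∑ t_{jk} ∂/∂p_j ∂/∂q_k` on `R[p,q]` -/
noncomputable def OO (t : Fin N → Fin N → R) :
    MvPolynomial (Fin N ⊕ Fin N) R →ₗ[R] MvPolynomial (Fin N ⊕ Fin N) R :=
  ∑ j : Fin N, ∑ k : Fin N,
    t j k • ((pderiv (Sum.inl j)).toLinearMap ∘ₗ (pderiv (Sum.inr k)).toLinearMap)

/-- weights for the bidegree in `(p, q)` -/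
def wpq : Fin N ⊕ Fin N → ℕ × ℕ
  | Sum.inl _ => (1, 0)
  | Sum.inr _ => (0, 1)

theorem OO_apply (t : Fin N → Fin N → R) (F : MvPolynomial (Fin N ⊕ Fin N) R) :
    OO t F = ∑ j : Fin N, ∑ k : Fin N,
      t j k • pderiv (Sum.inl j) (pderiv (Sum.inr k) F) := by
  simp [OO, LinearMap.sum_apply]

/-- partial derivatives commute -/
theorem pderiv_comm' {σ : Type*} (i j : σ) (F : MvPolynomial σ R) :
    pderiv i (pderiv j F) = pderiv j (pderiv i F) := by
  have h : ⁅(pderiv i : Derivation R (MvPolynomial σ R) (MvPolynomial σ R)),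
      (pderiv j : Derivation R (MvPolynomial σ R) (MvPolynomial σ R))⁆ = 0 := by
    apply MvPolynomial.derivation_ext
    intro k
    classical
    rw [Derivation.commutator_apply, pderiv_X, pderiv_X]
    by_cases h1 : i = k <;> by_cases h2 : j = k <;> simp [h1, h2]
  have h2 := congrArg (fun D : Derivation R (MvPolynomial σ R) (MvPolynomial σ R) => D F) h
  simp only [Derivation.commutator_apply, Derivation.coe_zero, Pi.zero_apply] at h2
  exact sub_eq_zero.1 h2

theorem pderiv_OO (t : Fin N → Fin N → R) (v : Fin N ⊕ Fin N) (F : MvPolynomial (Fin N ⊕ Fin N) R) :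
    pderiv v (OO t F) = OO t (pderiv v F) := by
  rw [OO_apply, OO_apply, map_sum]
  refine Finset.sum_congr rfl fun j _ => ?_
  rw [map_sum]
  refine Finset.sum_congr rfl fun k _ => ?_
  rw [Derivation.map_smul, pderiv_comm' v, pderiv_comm' v]

theorem OO_map1 {R' : Type*} [CommRing R'] (φ : R →+* R') (t : Fin N → Fin N → R)
    (F : MvPolynomial (Fin N ⊕ Fin N) R) :
    map φ (OO t F) = (OO fun j k => φ (t j k)) (map φ F) := by
  rw [OO_apply, OO_apply, map_sum]
  refine Finset.sum_congr rfl fun j _ => ?_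
  rw [map_sum]
  refine Finset.sum_congr rfl fun k _ => ?_
  rw [smul_eq_C_mul, smul_eq_C_mul, map_mul, map_C, pderiv_map, pderiv_map]

theorem OO_map {R' : Type*} [CommRing R'] (φ : R →+* R') (t : Fin N → Fin N → R)
    (F : MvPolynomial (Fin N ⊕ Fin N) R) (b : ℕ) :
    map φ (((OO t) ^ b) F) = ((OO fun j k => φ (t j k)) ^ b) (map φ F) := by
  induction b generalizing F with
  | zero => simp
  | succ b ih =>
    rw [pow_succ, pow_succ, Module.End.mul_apply, Module.End.mul_apply, ih, OO_map1]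

theorem coeff_OO (t : Fin N → Fin N → R) (F : MvPolynomial (Fin N ⊕ Fin N) R)
    (d : Fin N ⊕ Fin N →₀ ℕ) :
    coeff d (OO t F) = ∑ j : Fin N, ∑ k : Fin N, t j k *
      (coeff (d + Finsupp.single (Sum.inl j) 1 + Finsupp.single (Sum.inr k) 1) F *
        (((d + Finsupp.single (Sum.inl j) 1 : Fin N ⊕ Fin N →₀ ℕ) (Sum.inr k) : ℕ) + 1) *
          ((d (Sum.inl j) : ℕ) + 1)) := by
  rw [OO_apply, coeff_sum]
  refine Finset.sum_congr rfl fun j _ => ?_
  rw [coeff_sum]
  refine Finset.sum_congr rfl fun k _ => ?_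
  rw [coeff_smul, smul_eq_mul, coeff_pderiv, coeff_pderiv]

theorem weight_add_pq (d : Fin N ⊕ Fin N →₀ ℕ) (j k : Fin N) :
    Finsupp.weight wpq (d + Finsupp.single (Sum.inl j) 1 + Finsupp.single (Sum.inr k) 1) =
      Finsupp.weight wpq d + (1, 1) := by
  rw [map_add, map_add, Finsupp.weight_single, Finsupp.weight_single, add_assoc]
  congr 1

theorem exists_of_coeff_OO (t : Fin N → Fin N → R) {F : MvPolynomial (Fin N ⊕ Fin N) R}
    {b : ℕ × ℕ} (hF : F.IsWeightedHomogeneous wpq b) {d : Fin N ⊕ Fin N →₀ ℕ}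
    (hd : coeff d (OO t F) ≠ 0) : Finsupp.weight wpq d + (1, 1) = b := by
  rw [coeff_OO] at hd
  obtain ⟨j, _, hj⟩ := Finset.exists_ne_zero_of_sum_ne_zero hd
  obtain ⟨k, _, hk⟩ := Finset.exists_ne_zero_of_sum_ne_zero hj
  have h1 : coeff (d + Finsupp.single (Sum.inl j) 1 + Finsupp.single (Sum.inr k) 1) F ≠ 0 := by
    intro h0
    rw [h0, zero_mul, zero_mul, mul_zero] at hk
    exact hk rfl
  rw [← weight_add_pq d j k]
  exact hF h1

theorem OO_wh (t : Fin N → Fin N → R) {F : MvPolynomial (Fin N ⊕ Fin N) R} {b1 b2 : ℕ}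
    (hF : F.IsWeightedHomogeneous wpq (b1 + 1, b2 + 1)) :
    (OO t F).IsWeightedHomogeneous wpq (b1, b2) := by
  intro d hd
  have h1 := exists_of_coeff_OO t hF hd
  exact add_right_cancel (b := ((1, 1) : ℕ × ℕ)) (by rw [h1]; rfl)

theorem OO_wh_zero (t : Fin N → Fin N → R) {F : MvPolynomial (Fin N ⊕ Fin N) R} {b1 b2 : ℕ}
    (h : b1 = 0 ∨ b2 = 0) (hF : F.IsWeightedHomogeneous wpq (b1, b2)) : OO t F = 0 := by
  ext d
  rw [coeff_zero]
  by_contra hd
  have h1 := exists_of_coeff_OO t hF hd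
  rw [Prod.ext_iff] at h1
  simp only [Prod.fst_add, Prod.snd_add] at h1
  omega

/-- `O^b` kills polynomials of `p`-degree or `q`-degree `< b` -/
theorem OO_pow_eq_zero (t : Fin N → Fin N → R) (b b1 b2 : ℕ) (h : b1 < b ∨ b2 < b)
    (F : MvPolynomial (Fin N ⊕ Fin N) R) (hF : F.IsWeightedHomogeneous wpq (b1, b2)) :
    ((OO t) ^ b) F = 0 := by
  induction b generalizing b1 b2 F with
  | zero => omega
  | succ b ih =>
    rw [pow_succ, Module.End.mul_apply]
    by_cases h0 : b1 = 0 ∨ b2 = 0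
    · rw [OO_wh_zero t h0 hF, map_zero]
    · obtain ⟨c1, rfl⟩ := Nat.exists_eq_succ_of_ne_zero (show b1 ≠ 0 by tauto)
      obtain ⟨c2, rfl⟩ := Nat.exists_eq_succ_of_ne_zero (show b2 ≠ 0 by tauto)
      exact ih c1 c2 (by omega) _ (OO_wh t hF)

/-- `O^b` maps bidegree `(b,b)` to constants -/
theorem OO_pow_const (t : Fin N → Fin N → R) (b : ℕ)
    (F : MvPolynomial (Fin N ⊕ Fin N) R) (hF : F.IsWeightedHomogeneous wpq (b, b)) :
    ((OO t) ^ b) F = C (coeff 0 (((OO t) ^ b) F)) := by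
  induction b generalizing F with
  | zero =>
    rw [pow_zero, Module.End.one_apply]
    ext d
    rw [coeff_C]
    by_cases hd : 0 = d
    · rw [if_pos hd, hd]
    · rw [if_neg hd]
      by_contra hne
      have h1 := hF hne
      apply hd
      ext v
      have h2 : Finsupp.weight wpq d = 0 := h1
      rw [Finsupp.weight_apply, Finsupp.sum, Finset.sum_eq_zero_iff] at h2
      by_contra h3
      have h4 := h2 v (Finsupp.mem_support_iff.2 (fun h => h3 (by rw [h]; rfl)))
      cases v <;> simp [wpq] at h4 <;> exact h3 (by rw [h4]; rfl)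
  | succ b ih =>
    rw [pow_succ, Module.End.mul_apply]
    exact ih _ (OO_wh t hF)

theorem OO_mul_left (t : Fin N → Fin N → R) (a : Fin N → R)
    (U : MvPolynomial (Fin N ⊕ Fin N) R) :
    (OO t) ((∑ j, C (a j) * X (Sum.inl j)) * U) =
      (∑ j, C (a j) * X (Sum.inl j)) * (OO t) U +
        (∑ k, C (∑ j, a j * t j k) * pderiv (Sum.inr k) U) := by
  have h1 : ∀ k : Fin N, pderiv (Sum.inr k) (∑ j, C (a j) * X (Sum.inl j) :
      MvPolynomial (Fin N ⊕ Fin N) R) = 0 := by
    intro k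
    rw [map_sum]
    refine Finset.sum_eq_zero fun j _ => ?_
    rw [pderiv_C_mul, pderiv_X_of_ne (by simp)]
    simp
  have h2 : ∀ i : Fin N, pderiv (Sum.inl i) (∑ j, C (a j) * X (Sum.inl j) :
      MvPolynomial (Fin N ⊕ Fin N) R) = C (a i) := by
    intro i
    rw [map_sum, Finset.sum_eq_single i]
    · rw [pderiv_C_mul, pderiv_X_self, mul_one]
    · intro j _ hj
      rw [pderiv_C_mul, pderiv_X_of_ne (by simpa using hj)]
      simp
    · intro h; exact absurd (mem_univ _) h
  rw [OO_apply, OO_apply, Finset.mul_sum]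
  have h3 : ∀ j k : Fin N, t j k • pderiv (Sum.inl j) (pderiv (Sum.inr k)
      ((∑ j, C (a j) * X (Sum.inl j)) * U)) = (∑ j, C (a j) * X (Sum.inl j)) *
        (t j k • pderiv (Sum.inl j) (pderiv (Sum.inr k) U)) +
        C (a j * t j k) * pderiv (Sum.inr k) U := by
    intro j k
    rw [pderiv_mul, h1, zero_mul, zero_add, pderiv_mul, h2, smul_eq_C_mul, smul_eq_C_mul, C_mul]
    ring
  rw [Finset.sum_congr rfl fun j _ => Finset.sum_congr rfl fun k _ => h3 j k]
  simp_rw [Finset.sum_add_distrib, Finset.mul_sum]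
  congr 1
  rw [Finset.sum_comm]
  refine Finset.sum_congr rfl fun k _ => ?_
  rw [map_sum, Finset.sum_mul]

theorem OO_mul_right (t : Fin N → Fin N → R) (a : Fin N → R)
    (U : MvPolynomial (Fin N ⊕ Fin N) R) :
    (OO t) ((∑ k, C (a k) * X (Sum.inr k)) * U) =
      (∑ k, C (a k) * X (Sum.inr k)) * (OO t) U +
        (∑ j, C (∑ k, t j k * a k) * pderiv (Sum.inl j) U) := by
  have h1 : ∀ k : Fin N, pderiv (Sum.inl k) (∑ j, C (a j) * X (Sum.inr j) :
      MvPolynomial (Fin N ⊕ Fin N) R) = 0 := by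
    intro k
    rw [map_sum]
    refine Finset.sum_eq_zero fun j _ => ?_
    rw [pderiv_C_mul, pderiv_X_of_ne (by simp)]
    simp
  have h2 : ∀ i : Fin N, pderiv (Sum.inr i) (∑ j, C (a j) * X (Sum.inr j) :
      MvPolynomial (Fin N ⊕ Fin N) R) = C (a i) := by
    intro i
    rw [map_sum, Finset.sum_eq_single i]
    · rw [pderiv_C_mul, pderiv_X_self, mul_one]
    · intro j _ hj
      rw [pderiv_C_mul, pderiv_X_of_ne (by simpa using hj)]
      simp
    · intro h; exact absurd (mem_univ _) h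
  rw [OO_apply, OO_apply, Finset.mul_sum]
  have h3 : ∀ j k : Fin N, t j k • pderiv (Sum.inl j) (pderiv (Sum.inr k)
      ((∑ j, C (a j) * X (Sum.inr j)) * U)) = (∑ j, C (a j) * X (Sum.inr j)) *
        (t j k • pderiv (Sum.inl j) (pderiv (Sum.inr k) U)) +
        C (t j k * a k) * pderiv (Sum.inl j) U := by
    intro j k
    rw [pderiv_comm', pderiv_mul, h1, zero_mul, zero_add, pderiv_mul, h2, smul_eq_C_mul,
      smul_eq_C_mul, C_mul, pderiv_comm' (Sum.inr k)]
    ring
  rw [Finset.sum_congr rfl fun j _ => Finset.sum_congr rfl fun k _ => h3 j k]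
  simp_rw [Finset.sum_add_distrib, Finset.mul_sum]
  congr 1
  refine Finset.sum_congr rfl fun k _ => ?_
  rw [map_sum, Finset.sum_mul]

/-- commutation with a linear form in `p` -/
theorem OO_pow_mul_left (t : Fin N → Fin N → R) (a : Fin N → R) (b : ℕ)
    (U : MvPolynomial (Fin N ⊕ Fin N) R) :
    ((OO t) ^ (b + 1)) ((∑ j, C (a j) * X (Sum.inl j)) * U) =
      (∑ j, C (a j) * X (Sum.inl j)) * ((OO t) ^ (b + 1)) U +
        ((b + 1 : ℕ) : R) • ((OO t) ^ b) (∑ k, C (∑ j, a j * t j k) * pderiv (Sum.inr k) U) := by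
  have hE : ∀ U : MvPolynomial (Fin N ⊕ Fin N) R,
      OO t (∑ k, C (∑ j, a j * t j k) * pderiv (Sum.inr k) U) =
        ∑ k, C (∑ j, a j * t j k) * pderiv (Sum.inr k) (OO t U) := by
    intro U
    rw [map_sum]
    refine Finset.sum_congr rfl fun k _ => ?_
    rw [← smul_eq_C_mul, map_smul, ← pderiv_OO, smul_eq_C_mul]
  induction b generalizing U with
  | zero =>
    rw [zero_add, pow_one, OO_mul_left, pow_zero]
    simp
  | succ b ih =>
    rw [pow_succ, Module.End.mul_apply, OO_mul_left, map_add, ih, ← Module.End.mul_apply,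
      ← pow_succ, ← hE, ← Module.End.mul_apply, ← pow_succ, add_assoc]
    congr 1
    rw [show ((b + 1 + 1 : ℕ) : R) = ((b + 1 : ℕ) : R) + 1 by push_cast; ring, add_smul _ (1 : R),
      one_smul]

/-- commutation with a linear form in `q` -/
theorem OO_pow_mul_right (t : Fin N → Fin N → R) (a : Fin N → R) (b : ℕ)
    (U : MvPolynomial (Fin N ⊕ Fin N) R) :
    ((OO t) ^ (b + 1)) ((∑ k, C (a k) * X (Sum.inr k)) * U) =
      (∑ k, C (a k) * X (Sum.inr k)) * ((OO t) ^ (b + 1)) U +
        ((b + 1 : ℕ) : R) • ((OO t) ^ b) (∑ j, C (∑ k, t j k * a k) * pderiv (Sum.inl j) U) := by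
  have hE : ∀ U : MvPolynomial (Fin N ⊕ Fin N) R,
      OO t (∑ j, C (∑ k, t j k * a k) * pderiv (Sum.inl j) U) =
        ∑ j, C (∑ k, t j k * a k) * pderiv (Sum.inl j) (OO t U) := by
    intro U
    rw [map_sum]
    refine Finset.sum_congr rfl fun k _ => ?_
    rw [← smul_eq_C_mul, map_smul, ← pderiv_OO, smul_eq_C_mul]
  induction b generalizing U with
  | zero =>
    rw [zero_add, pow_one, OO_mul_right, pow_zero]
    simp
  | succ b ih =>
    rw [pow_succ, Module.End.mul_apply, OO_mul_right, map_add, ih, ← Module.End.mul_apply,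
      ← pow_succ, ← hE, ← Module.End.mul_apply, ← pow_succ, add_assoc]
    congr 1
    rw [show ((b + 1 + 1 : ℕ) : R) = ((b + 1 : ℕ) : R) + 1 by push_cast; ring, add_smul _ (1 : R),
      one_smul]

/-- `O^b F` is a sum of monomials with coefficients polynomial of degree `b` in `t`: for the generic
`t = T` variables the result has all coefficients homogeneous of degree `b` over the base.  Here
`T j k ∈ MvPolynomial I S` is homogeneous of degree `1` with coefficients in the image of `K`. -/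
theorem OO_pow_coeff_homog {S I : Type*} [CommRing S] (t : Fin N → Fin N → MvPolynomial I S)
    (ht : ∀ j k, (t j k).IsHomogeneous 1) (b : ℕ) (F : MvPolynomial (Fin N ⊕ Fin N) S)
    (d : Fin N ⊕ Fin N →₀ ℕ) :
    (coeff d (((OO t) ^ b) (map (C : S →+* MvPolynomial I S) F))).IsHomogeneous b := by
  have key : ∀ (b c : ℕ) (G : MvPolynomial (Fin N ⊕ Fin N) (MvPolynomial I S)),
      (∀ d, (coeff d G).IsHomogeneous c) → ∀ d, (coeff d (((OO t) ^ b) G)).IsHomogeneous (b + c) := by
    intro b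
    induction b with
    | zero => intro c G hG d; simpa using hG d
    | succ b ih =>
      intro c G hG d
      rw [pow_succ, Module.End.mul_apply, show b + 1 + c = b + (c + 1) by omega]
      refine ih (c + 1) _ (fun d => ?_) d
      rw [coeff_OO]
      refine IsHomogeneous.sum _ _ _ fun j _ => IsHomogeneous.sum _ _ _ fun k _ => ?_
      rw [show c + 1 = 1 + c by omega]
      refine (ht j k).mul ?_
      have h1 : ∀ m : ℕ, ((m : MvPolynomial I S) + 1).IsHomogeneous 0 := by
        intro m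
        rw [show ((m : MvPolynomial I S) + 1) = C ((m : S) + 1) by simp]
        exact isHomogeneous_C _ _
      have h2 := ((hG (d + Finsupp.single (Sum.inl j) 1 + Finsupp.single (Sum.inr k) 1)).mul
        (h1 ((d + Finsupp.single (Sum.inl j) 1 : Fin N ⊕ Fin N →₀ ℕ) (Sum.inr k)))).mul
          (h1 (d (Sum.inl j)))
      exact h2
  have h1 := key b 0 (map (C : S →+* MvPolynomial I S) F) (fun d => by
    rw [coeff_map]
    exact isHomogeneous_C _ _) d
  exact h1

/-- coefficients stay in a subring `A` of the base -/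
theorem OO_pow_coeff_mem (A : Subring R) (t : Fin N → Fin N → R) (ht : ∀ j k, t j k ∈ A) (b : ℕ)
    (F : MvPolynomial (Fin N ⊕ Fin N) R) (hF : ∀ d, coeff d F ∈ A) (d : Fin N ⊕ Fin N →₀ ℕ) :
    coeff d (((OO t) ^ b) F) ∈ A := by
  induction b generalizing F d with
  | zero => simpa using hF d
  | succ b ih =>
    rw [pow_succ, Module.End.mul_apply]
    refine ih _ (fun d => ?_) d
    rw [coeff_OO]
    refine A.sum_mem fun j _ => A.sum_mem fun k _ => A.mul_mem (ht j k) ?_
    exact A.mul_mem (A.mul_mem (hF _) (A.add_mem (natCast_mem A _) A.one_mem))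
      (A.add_mem (natCast_mem A _) A.one_mem)

end

end HK
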