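import Pool.Agent.HK.ChainAux
import Pool.Agent.HK.FCramer

/-! # The comparison map `θ` and blueprint (8a) -/

namespace HK

open MvPolynomial Finset

section

variable (K : Type*) [Field K]

/-- The `n × (n+2)` matrix whose entry in row `i` and column `j` (both counted from `0`) is the
variable `x_{i+j}` of `K[x_0, ..., x_{m-1}]` if `i + j < m`, and `0` otherwise. -/
noncomputable def hankel (n m : ℕ) : Matrix (Fin n) (Fin (n + 2)) (MvPolynomial (Fin m) K) :=
  Matrix.of fun i j => if h : (i : ℕ) + (j : ℕ) < m then X ⟨(i : ℕ) + (j : ℕ), h⟩ else 0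

/-- maximal minor on the columns given by an increasing map `f` -/
noncomputable def maxMinor (n m : ℕ) (f : Fin n ↪o Fin (n + 2)) : MvPolynomial (Fin m) K :=
  ((hankel K n m).submatrix id f).det

end

/-- the two missing columns -/
noncomputable def ci1 {n : ℕ} (f : Fin n ↪o Fin (n + 2)) : Fin (n + 2) := (exists_compl f).choose
noncomputable def ci2 {n : ℕ} (f : Fin n ↪o Fin (n + 2)) : Fin (n + 2) :=
  (exists_compl f).choose_spec.choose

theorem ci_spec {n : ℕ} (f : Fin n ↪o Fin (n + 2)) :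
    ci1 f < ci2 f ∧ ci1 f ∉ Set.range f ∧ ci2 f ∉ Set.range f :=
  (exists_compl f).choose_spec.choose_spec

section

variable (K : Type*) [Field K] (n m : ℕ)

/-- embedding of `K[x_0..x_{m-1}]` in the big ring (`x_k ↦ x_k`) -/
noncomputable def iot : MvPolynomial (Fin m) K →ₐ[K] SB K n :=
  aeval fun k : Fin m => xx K n (k : ℕ)

/-- `θ : S[T_f] → SB` -/
noncomputable def tht : MvPolynomial (Fin n ↪o Fin (n + 2)) (MvPolynomial (Fin m) K) →+* SB K n :=
  eval₂Hom (iot K n m : MvPolynomial (Fin m) K →+* SB K n) fun f =>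
    (-1) ^ ((ci1 f : ℕ) + ci2 f + 1) *
      (pp K n (ci1 f : ℕ) * qq K n (ci2 f : ℕ) - pp K n (ci2 f : ℕ) * qq K n (ci1 f : ℕ))

/-- the projection `SB → S` that kills `p`, `q` and `x_k`, `k ≥ m` -/
noncomputable def ev0 : SB K n →ₐ[K] MvPolynomial (Fin m) K :=
  aeval (Sum.elim (fun k : Fin (2 * n + 1) => if h : (k : ℕ) < m then X ⟨k, h⟩ else 0) (fun _ => 0))

end

section

variable {K : Type*} [Field K] {n : ℕ}

theorem ev0_xx (m : ℕ) (k : ℤ) : ev0 K n m (xx K n k) =
    if h : 0 ≤ k ∧ k < 2 * n + 1 ∧ k < m then X ⟨k.toNat, by omega⟩ else 0 := by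
  unfold xx
  split_ifs with h1 h2 h2
  · unfold ev0
    rw [aeval_X]
    simp only [Sum.elim_inl]
    rw [dif_pos (by omega)]
  · unfold ev0
    rw [aeval_X]
    simp only [Sum.elim_inl]
    rw [dif_neg (by omega)]
  · omega
  · rw [map_zero]

theorem ev0_pp (m : ℕ) (k : ℤ) : ev0 K n m (pp K n k) = 0 := by
  unfold pp
  split_ifs
  · unfold ev0
    rw [aeval_X]
    rfl
  · rw [map_zero]

theorem ev0_qq (m : ℕ) (k : ℤ) : ev0 K n m (qq K n k) = 0 := by
  unfold qq
  split_ifs
  · unfold ev0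
    rw [aeval_X]
    rfl
  · rw [map_zero]

theorem ev0_iot (m : ℕ) (hm : m ≤ 2 * n + 1) (s : MvPolynomial (Fin m) K) :
    ev0 K n m (iot K n m s) = s := by
  have h : (ev0 K n m).comp (iot K n m) = AlgHom.id K _ := by
    apply MvPolynomial.algHom_ext
    intro k
    rw [AlgHom.comp_apply, AlgHom.id_apply]
    unfold iot
    rw [aeval_X, ev0_xx, dif_pos (by omega)]
    congr 1
  exact congrArg (fun g => g s) h

theorem ev0_AA (μ : ℕ) (hμ : 1 ≤ μ) : ∀ f ∈ AA K n μ, ev0 K n (n + μ) f = 0 := by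
  have h1 : AA K n μ ≤ RingHom.ker (ev0 K n (n + μ)) := by
    refine Ideal.span_le.2 ?_
    rintro f (((⟨k, hk, rfl⟩ | ⟨i, _, rfl⟩) | ⟨i, _, rfl⟩) | ⟨ρ, rfl⟩)
    · change ev0 K n (n + μ) _ = 0
      rw [ev0_xx, dif_neg]
      push_cast
      omega
    · change ev0 K n (n + μ) _ = 0
      unfold Lp
      rw [map_sum]
      refine Finset.sum_eq_zero fun k _ => ?_
      rw [map_mul, ev0_pp, mul_zero]
    · change ev0 K n (n + μ) _ = 0
      unfold Lq
      rw [map_sum]
      refine Finset.sum_eq_zero fun k _ => ?_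
      rw [map_mul, ev0_qq, mul_zero]
    · change ev0 K n (n + μ) _ = 0
      unfold D
      rw [AlgHom.map_det]
      refine Matrix.det_eq_zero_of_row_eq_zero ⟨0, by omega⟩ fun j => ?_
      simp only [AlgHom.mapMatrix_apply, Matrix.map_apply, Matrix.of_apply]
      unfold ent
      split_ifs
      · exact ev0_pp _ _
      · exact ev0_qq _ _
      · rw [map_zero]
  intro f hf
  exact h1 hf

/-- the first maximal minor is nonzero -/
theorem sM_hankel_ne_zero (m : ℕ) (hn : 1 ≤ n) (hm : n ≤ m) :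
    ∃ k l : Fin (n + 2), sM (hankel K n m) k l ≠ 0 := by
  refine ⟨⟨n, by omega⟩, ⟨n + 1, by omega⟩, ?_⟩
  intro h0
  have h1 := sM_map (aeval (R := K) (fun k : Fin m => if (k : ℕ) = n - 1 then (1 : K) else 0)).toRingHom
    (hankel K n m) ⟨n, by omega⟩ ⟨n + 1, by omega⟩
  rw [h0, map_zero] at h1
  let f : Fin n ↪o Fin (n + 2) := Fin.castLEOrderEmb (by omega)
  rw [sM_eq _ f _ _ (by rw [Fin.lt_def]; simp) (by
      rintro ⟨x, hx⟩
      have := congrArg Fin.val hx
      simp [f] at this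
      omega) (by
      rintro ⟨x, hx⟩
      have := congrArg Fin.val hx
      simp [f] at this
      omega)] at h1
  have h2 : (((hankel K n m).map (aeval (R := K) (fun k : Fin m =>
      if (k : ℕ) = n - 1 then (1 : K) else 0)).toRingHom).submatrix id f) =
      (1 : Matrix (Fin n) (Fin n) K).submatrix id Fin.rev := by
    ext i j
    have hi := i.2
    have hj := j.2
    have hrev : ((Fin.rev j : Fin n) : ℕ) = n - (j + 1) := Fin.val_rev j
    have hfj : ((f j : Fin (n + 2)) : ℕ) = j := rfl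
    rw [Matrix.submatrix_apply, Matrix.map_apply, Matrix.submatrix_apply, hankel, Matrix.of_apply,
      Matrix.one_apply]
    change (aeval _) (dite ((i : ℕ) + ((f j : Fin (n + 2)) : ℕ) < m) _ _) =
      if i = Fin.rev j then 1 else 0
    by_cases h3 : (i : ℕ) + ((f j : Fin (n + 2)) : ℕ) < m
    · rw [dif_pos h3]
      rw [aeval_X]
      change (if (i : ℕ) + ((f j : Fin (n + 2)) : ℕ) = n - 1 then (1 : K) else 0) = _
      by_cases h4 : (i : ℕ) + ((f j : Fin (n + 2)) : ℕ) = n - 1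
      · rw [if_pos h4, if_pos]
        apply Fin.ext
        omega
      · rw [if_neg h4, if_neg]
        intro h5
        apply h4
        have h6 := congrArg Fin.val h5
        omega
    · rw [dif_neg h3]
      rw [map_zero, if_neg]
      intro h5
      have h6 := congrArg Fin.val h5
      omega
  rw [h2] at h1
  have h3 : ((1 : Matrix (Fin n) (Fin n) K).submatrix id Fin.rev).det ≠ 0 := by
    have : (1 : Matrix (Fin n) (Fin n) K).submatrix id Fin.rev =
        (1 : Matrix (Fin n) (Fin n) K).submatrix id (Fin.revPerm : Equiv.Perm (Fin n)) := rfl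
    rw [this, Matrix.det_permute']
    simp only [Matrix.det_one, mul_one]
    rcases Int.units_eq_one_or (Equiv.Perm.sign (Fin.revPerm : Equiv.Perm (Fin n))) with h | h <;>
      rw [h] <;> simp
  exact (mul_ne_zero (pow_ne_zero _ (by norm_num)) h3) h1.symm

/-- blueprint (8a) -/
theorem tht_mem (μ : ℕ) (hμ : 2 ≤ μ) (hn : μ ≤ n + 1) (hP : (AA K n μ).IsPrime) (b : ℕ)
    (F : MvPolynomial (Fin n ↪o Fin (n + 2)) (MvPolynomial (Fin (n + μ)) K))
    (hF : F.IsHomogeneous b) (h0 : aeval (maxMinor K n (n + μ)) F = 0) :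
    tht K n (n + μ) F ∈ AA K n μ := by
  set A := SB K n ⧸ AA K n μ
  set q : SB K n →+* A := Ideal.Quotient.mk (AA K n μ) with hq
  have hdom : IsDomain A := Ideal.Quotient.isDomain _
  set φ : MvPolynomial (Fin (n + μ)) K →+* A := q.comp (iot K n (n + μ)).toRingHom with hφ
  have hqz : ∀ f ∈ AA K n μ, q f = 0 := fun f hf => Ideal.Quotient.eq_zero_iff_mem.2 hf
  have hinj : ∀ s, φ s = 0 → s = 0 := by
    intro s hs
    have h1 : iot K n (n + μ) s ∈ AA K n μ := Ideal.Quotient.eq_zero_iff_mem.1 hs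
    have h2 := ev0_AA μ (by omega) _ h1
    rwa [ev0_iot _ (by omega)] at h2
  set HA := (hankel K n (n + μ)).map φ with hHA
  have hHAe : ∀ r c, HA r c = q (xx K n ((c : ℕ) + (r : ℕ) : ℤ)) := by
    intro r c
    rw [hHA, Matrix.map_apply, hankel, Matrix.of_apply]
    split_ifs with h
    · rw [hφ, RingHom.comp_apply]
      congr 1
      change iot K n (n + μ) (X _) = _
      unfold iot
      rw [aeval_X]
      congr 1
      push_cast
      ring
    · rw [map_zero, hqz]
      refine Ideal.subset_span (Or.inl (Or.inl (Or.inl ⟨_, ?_, rfl⟩)))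
      push Not at h
      omega
  have hp : ∀ r, ∑ c, HA r c * q (pp K n (c : ℕ)) = 0 := by
    intro r
    have h1 : q (Lp K n r) = 0 :=
      hqz _ (Ideal.subset_span (Or.inl (Or.inl (Or.inr ⟨r, r.2, rfl⟩))))
    unfold Lp at h1
    rw [map_sum, Finset.sum_range] at h1
    rw [← h1]
    refine Finset.sum_congr rfl fun c _ => ?_
    rw [map_mul, hHAe]
  have hqq : ∀ r, ∑ c, HA r c * q (qq K n (c : ℕ)) = 0 := by
    intro r
    have h1 : q (Lq K n r) = 0 :=
      hqz _ (Ideal.subset_span (Or.inl (Or.inr ⟨r, r.2, rfl⟩)))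
    unfold Lq at h1
    rw [map_sum, Finset.sum_range] at h1
    rw [← h1]
    refine Finset.sum_congr rfl fun c _ => ?_
    rw [map_mul, hHAe]
  obtain ⟨k, l, hkl⟩ := sM_hankel_ne_zero (K := K) (n := n) (n + μ) (by omega) (by omega)
  have hkl' : sM HA k l ≠ 0 := by
    rw [hHA, ← sM_map φ]
    exact fun h => hkl (hinj _ h)
  set s0 := sM HA k l
  set τ0 := q (pp K n (k : ℕ)) * q (qq K n (l : ℕ)) - q (pp K n (l : ℕ)) * q (qq K n (k : ℕ))
  set tf : (Fin n ↪o Fin (n + 2)) → A := fun f => (-1) ^ ((ci1 f : ℕ) + ci2 f + 1) *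
      (q (pp K n (ci1 f : ℕ)) * q (qq K n (ci2 f : ℕ)) -
        q (pp K n (ci2 f : ℕ)) * q (qq K n (ci1 f : ℕ))) with htf
  set Mf : (Fin n ↪o Fin (n + 2)) → A := fun f => φ (maxMinor K n (n + μ) f) with hMf
  have hrel : ∀ f, s0 * tf f = τ0 * Mf f := by
    intro f
    have h1 := cramer HA (fun c => q (pp K n (c : ℕ))) (fun c => q (qq K n (c : ℕ))) hp hqq
      (ci1 f) (ci2 f) k l
    have h2 := sM_eq HA f (ci1 f) (ci2 f) (ci_spec f).1 (ci_spec f).2.1 (ci_spec f).2.2
    have h3 : (HA.submatrix id f).det = Mf f := by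
      rw [hMf, hHA]
      change _ = φ ((hankel K n (n + μ)).submatrix id f).det
      rw [RingHom.map_det]
      rfl
    rw [h2, h3] at h1
    have h4 : ((-1 : A) ^ ((ci1 f : ℕ) + ci2 f + 1)) * ((-1) ^ ((ci1 f : ℕ) + ci2 f + 1)) = 1 := by
      rw [← mul_pow]
      norm_num
    calc s0 * tf f = (-1) ^ ((ci1 f : ℕ) + ci2 f + 1) * (s0 * (q (pp K n (ci1 f : ℕ)) *
          q (qq K n (ci2 f : ℕ)) - q (pp K n (ci2 f : ℕ)) * q (qq K n (ci1 f : ℕ)))) := by
          rw [htf]
          ring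
      _ = (-1) ^ ((ci1 f : ℕ) + ci2 f + 1) * ((-1) ^ ((ci1 f : ℕ) + ci2 f + 1) * Mf f * τ0) := by
          rw [h1]
      _ = ((-1 : A) ^ ((ci1 f : ℕ) + ci2 f + 1)) * ((-1) ^ ((ci1 f : ℕ) + ci2 f + 1)) *
          (τ0 * Mf f) := by ring
      _ = τ0 * Mf f := by rw [h4, one_mul]
  have hq1 : q (tht K n (n + μ) F) = eval₂ φ tf F := by
    unfold tht
    rw [coe_eval₂Hom]
    change q (eval₂ _ _ F) = _
    rw [eval₂_comp_left q]
    congr 1
  have hM0 : eval₂ φ Mf F = 0 := by
    have h1 : φ (aeval (maxMinor K n (n + μ)) F) = eval₂ φ Mf F := by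
      rw [aeval_def, eval₂_comp_left φ]
      rfl
    rw [← h1, h0, map_zero]
  have hhom : ∀ (c : A) (g : (Fin n ↪o Fin (n + 2)) → A), eval₂ φ (fun f => c * g f) F =
      c ^ b * eval₂ φ g F := by
    intro c g
    rw [eval₂_eq, eval₂_eq, Finset.mul_sum]
    refine Finset.sum_congr rfl fun d hd => ?_
    have hdeg : ∑ i ∈ d.support, d i = b := by
      have := hF (mem_support_iff.1 hd)
      rw [Finsupp.weight_apply] at this
      simpa [Finsupp.sum] using this
    have h5 : ∏ i ∈ d.support, (c * g i) ^ d i = c ^ b * ∏ i ∈ d.support, g i ^ d i := by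
      simp_rw [mul_pow]
      rw [Finset.prod_mul_distrib, Finset.prod_pow_eq_pow_sum, hdeg]
    rw [h5]
    ring
  have h6 : s0 ^ b * eval₂ φ tf F = τ0 ^ b * eval₂ φ Mf F := by
    rw [← hhom, ← hhom]
    congr 1
    funext f
    exact hrel f
  rw [hM0, mul_zero] at h6
  have h7 : eval₂ φ tf F = 0 := by
    rcases mul_eq_zero.1 h6 with h | h
    · exact absurd h (pow_ne_zero _ hkl')
    · exact h
  rw [← hq1] at h7
  exact Ideal.Quotient.eq_zero_iff_mem.1 h7

end

end HK
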