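import Pool.Agent.HK.FDesc
import Pool.Agent.HK.Chain

/-! # Module Final: blueprint section 8 -/

namespace HK

open MvPolynomial

def FiberType (K : Type*) [Field K] (n m : ℕ) : Prop :=
  RingHom.ker (phi K n m) = Ideal.span
    {F | F ∈ RingHom.ker (phi K n m) ∧
      ((∃ b, BiHom K n m 0 b F) ∨ (∃ a, BiHom K n m a 1 F))}

/-- main theorem -/
theorem fiberType (K : Type*) [Field K] [CharZero K] (n μ : ℕ) (hμ : 2 ≤ μ) (hn : μ ≤ n + 1) :
    FiberType K n (n + μ) := by
  refine le_antisymm ?_ ?_
  · intro F hF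
    have hF' : phi K n (n + μ) F = 0 := hF
    change F ∈ JJ K n (n + μ)
    rw [← sum_homogeneousComponent F]
    refine Ideal.sum_mem _ fun b _ => ?_
    refine desc μ (by omega) hn (by omega) b _ (homogeneousComponent_isHomogeneous b F) ?_
    exact tht_mem μ hμ hn (AA_prime K n μ hμ hn) b _ (homogeneousComponent_isHomogeneous b F)
      (aeval_component hF' b)
  · exact Ideal.span_le.2 fun F hF => hF.1

end HK
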