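import Pool.Agent.HK.Defs

/-! # Graded tools -/

namespace HK

open MvPolynomial Finset

section

variable {K : Type*} [Field K] {n : ℕ}

/-- component of bidegree `(a,b)` -/
noncomputable def cmp (a b : ℕ) : SB K n →ₗ[K] SB K n := weightedHomogeneousComponent (wt n) (a, b)

theorem cmp_mem (a b : ℕ) (f : SB K n) : cmp a b f ∈ bih K n a b :=
  weightedHomogeneousComponent_mem _ _ _

theorem cmp_of_mem {a b a' b' : ℕ} {f : SB K n} (h : f ∈ bih K n a b) :
    cmp a' b' f = if (a', b') = (a, b) then f else 0 :=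
  weightedHomogeneousComponent_of_mem h

theorem cmp_self {a b : ℕ} {f : SB K n} (h : f ∈ bih K n a b) : cmp a b f = f := by
  rw [cmp_of_mem h, if_pos rfl]

theorem mul_mem_bih {a b a' b' : ℕ} {f g : SB K n} (hf : f ∈ bih K n a b)
    (hg : g ∈ bih K n a' b') : f * g ∈ bih K n (a + a') (b + b') :=
  (IsWeightedHomogeneous.mul hf hg : IsWeightedHomogeneous (wt n) (f * g) ((a, b) + (a', b')))

theorem monomial_mem_bih (e : Vr n →₀ ℕ) (r : K) :
    (monomial e r : SB K n) ∈ bih K n (Finsupp.weight (wt n) e).1 (Finsupp.weight (wt n) e).2 :=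
  isWeightedHomogeneous_monomial _ _ _ rfl

theorem cmp_mul {a' b' : ℕ} {g : SB K n} (hg : g ∈ bih K n a' b') (c : SB K n) (a b : ℕ) :
    cmp a b (c * g) = if a' ≤ a ∧ b' ≤ b then cmp (a - a') (b - b') c * g else 0 := by
  induction c using MvPolynomial.induction_on' with
  | monomial e r =>
    have h1 := monomial_mem_bih (K := K) e r
    have h2 := mul_mem_bih h1 hg
    rw [cmp_of_mem h2, cmp_of_mem h1]
    set e1 := (Finsupp.weight (wt n) e).1
    set e2 := (Finsupp.weight (wt n) e).2
    by_cases h : (a, b) = (e1 + a', e2 + b')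
    · rw [Prod.mk.injEq] at h
      rw [if_pos (by rw [h.1, h.2]), if_pos (by omega), if_pos (by rw [Prod.mk.injEq]; omega)]
    · rw [if_neg h]
      split_ifs with h3 h4
      · exfalso
        rw [Prod.mk.injEq] at h h4
        omega
      · rw [zero_mul]
      · rfl
  | add p q hp hq =>
    rw [add_mul, map_add, hp, hq, map_add]
    split_ifs
    · rw [add_mul]
    · rw [add_zero]

/-- generation of graded pieces of an ideal spanned by bihomogeneous elements -/
theorem cmp_mem_span {s : Set (SB K n)} (hs : ∀ g ∈ s, ∃ a b, g ∈ bih K n a b) {f : SB K n}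
    (hf : f ∈ Ideal.span s) (a b : ℕ) :
    cmp a b f ∈ Submodule.span K {h | ∃ g ∈ s, ∃ a' b' u, a' ≤ a ∧ b' ≤ b ∧ g ∈ bih K n a' b' ∧
      u ∈ bih K n (a - a') (b - b') ∧ h = u * g} := by
  have key : ∀ c : SB K n, cmp a b (c * f) ∈ Submodule.span K {h | ∃ g ∈ s, ∃ a' b' u,
      a' ≤ a ∧ b' ≤ b ∧ g ∈ bih K n a' b' ∧ u ∈ bih K n (a - a') (b - b') ∧ h = u * g} := by
    refine Submodule.span_induction (p := fun f _ => ∀ c : SB K n, cmp a b (c * f) ∈
      Submodule.span K {h | ∃ g ∈ s, ∃ a' b' u, a' ≤ a ∧ b' ≤ b ∧ g ∈ bih K n a' b' ∧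
      u ∈ bih K n (a - a') (b - b') ∧ h = u * g}) ?_ ?_ ?_ ?_ hf
    · intro g hg c
      obtain ⟨a', b', hab⟩ := hs g hg
      rw [cmp_mul hab]
      split_ifs with h
      · exact Submodule.subset_span ⟨g, hg, a', b', _, h.1, h.2, hab, cmp_mem _ _ _, rfl⟩
      · exact Submodule.zero_mem _
    · intro c
      rw [mul_zero, map_zero]
      exact Submodule.zero_mem _
    · intro x y _ _ hx hy c
      rw [mul_add, map_add]
      exact Submodule.add_mem _ (hx c) (hy c)
    · intro r x _ hx c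
      rw [smul_eq_mul, ← mul_assoc]
      exact hx _
  have := key 1
  rwa [one_mul] at this

/-- an ideal is bihomogeneous -/
def BH (I : Ideal (SB K n)) : Prop := ∀ f ∈ I, ∀ a b, cmp a b f ∈ I

theorem BH_span {s : Set (SB K n)} (hs : ∀ g ∈ s, ∃ a b, g ∈ bih K n a b) :
    BH (Ideal.span s) := by
  intro f hf a b
  have h := cmp_mem_span hs hf a b
  refine Submodule.span_induction (p := fun x _ => x ∈ Ideal.span s) ?_ ?_ ?_ ?_ h
  · rintro x ⟨g, hg, a', b', u, _, _, _, _, rfl⟩
    exact Ideal.mul_mem_left _ _ (Ideal.subset_span hg)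
  · exact Ideal.zero_mem _
  · intro x y _ _ hx hy
    exact Ideal.add_mem _ hx hy
  · intro r x _ hx
    rw [← algebraMap_smul (SB K n) r x, smul_eq_mul]
    exact Ideal.mul_mem_left _ _ hx

theorem BH_sup {I J : Ideal (SB K n)} (hI : BH I) (hJ : BH J) : BH (I ⊔ J) := by
  intro f hf a b
  obtain ⟨x, hx, y, hy, rfl⟩ := Submodule.mem_sup.1 hf
  rw [map_add]
  exact Submodule.add_mem_sup (hI x hx a b) (hJ y hy a b)

instance finite_bih (a b : ℕ) : FiniteDimensional K (bih K n a b) := by
  have h1 : (weightedHomogeneousSubmodule K (fun _ : Vr n => 1) (a + b)).FG :=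
    weightedHomogeneousSubmodule_fg K _ (fun _ => one_ne_zero) _
  have h2 : bih K n a b ≤ weightedHomogeneousSubmodule K (fun _ : Vr n => 1) (a + b) := by
    intro f hf d hd
    have h3 : Finsupp.weight (wt n) d = (a, b) := hf hd
    rw [Finsupp.weight_apply] at h3 ⊢
    have h4 : ∀ e : Vr n →₀ ℕ, (e.sum fun i c => c • (1 : ℕ)) =
        (e.sum fun i c => c • wt n i).1 + (e.sum fun i c => c • wt n i).2 := by
      intro e
      unfold Finsupp.sum
      rw [Prod.fst_sum, Prod.snd_sum, ← Finset.sum_add_distrib]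
      apply Finset.sum_congr rfl
      rintro (i | i) _ <;> simp [wt]
    rw [h4, h3]
  have : Module.Finite K (weightedHomogeneousSubmodule K (fun _ : Vr n => 1) (a + b)) :=
    Module.Finite.iff_fg.2 h1
  exact Submodule.finiteDimensional_of_le h2

/-- every polynomial is the sum of its bihomogeneous components; in particular membership in an
ideal can be tested on components -/
theorem mem_of_cmp_mem {I : Ideal (SB K n)} {f : SB K n} (h : ∀ a b, cmp a b f ∈ I) : f ∈ I := by
  rw [← finsum_weightedHomogeneousComponent (w := wt n) f]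
  refine finsum_induction (fun x => x ∈ I) (Ideal.zero_mem _) (fun x y hx hy =>
    Ideal.add_mem _ hx hy) ?_
  rintro ⟨a, b⟩
  exact h a b

theorem mem_gr {I : Ideal (SB K n)} {a b : ℕ} (f : bih K n a b) :
    f ∈ gr K n I a b ↔ (f : SB K n) ∈ I := Iff.rfl

/-- multiplication by `g ∈ bih 1 0` on graded pieces -/
noncomputable def mulB (g : SB K n) (hg : g ∈ bih K n 1 0) (a b : ℕ) :
    bih K n a b →ₗ[K] bih K n (a + 1) b where
  toFun f := ⟨g * f, by
    have := mul_mem_bih hg f.2
    rwa [add_comm 1 a, zero_add] at this⟩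
  map_add' x y := by
    ext1
    simp [mul_add]
  map_smul' r x := by
    ext1
    simp

/-- multiplication on quotients -/
noncomputable def mulQ (I : Ideal (SB K n)) (g : SB K n) (hg : g ∈ bih K n 1 0) (a b : ℕ) :
    (bih K n a b ⧸ gr K n I a b) →ₗ[K] (bih K n (a + 1) b ⧸ gr K n I (a + 1) b) :=
  Submodule.mapQ _ _ (mulB g hg a b) (by
    intro f hf
    exact Ideal.mul_mem_left _ _ hf)

theorem gr_sup_span (I : Ideal (SB K n)) (hI : BH I) (g : SB K n) (hg : g ∈ bih K n 1 0)
    (a b : ℕ) (f : bih K n (a + 1) b) :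
    f ∈ gr K n (I ⊔ Ideal.span {g}) (a + 1) b ↔
      ∃ h : bih K n a b, f - mulB g hg a b h ∈ gr K n I (a + 1) b := by
  constructor
  · intro hf
    rw [mem_gr] at hf
    obtain ⟨x, hx, y, hy, hxy⟩ := Submodule.mem_sup.1 hf
    obtain ⟨c, rfl⟩ := Ideal.mem_span_singleton'.1 hy
    refine ⟨⟨cmp a b c, cmp_mem _ _ _⟩, ?_⟩
    rw [mem_gr]
    have h1 : cmp (a + 1) b (x + c * g) = f := by rw [hxy, cmp_self f.2]
    rw [map_add, cmp_mul hg, if_pos (by omega)] at h1
    have h2 : ((f - mulB g hg a b ⟨cmp a b c, cmp_mem _ _ _⟩ : bih K n (a + 1) b) : SB K n) =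
        cmp (a + 1) b x := by
      change (f : SB K n) - g * cmp a b c = _
      rw [← h1]
      simp only [Nat.add_sub_cancel, Nat.sub_zero]
      ring
    rw [h2]
    exact hI x hx _ _
  · rintro ⟨h, hh⟩
    rw [mem_gr] at hh ⊢
    have : (f : SB K n) = (f - mulB g hg a b h : bih K n (a + 1) b) + g * h := by
      change (f : SB K n) = ((f : SB K n) - g * h) + g * h
      ring
    rw [this]
    exact Submodule.add_mem_sup hh (Ideal.mul_mem_right _ _ (Ideal.mem_span_singleton_self g))

/-- the hyperplane section formula -/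
theorem hf_step (I : Ideal (SB K n)) (hI : BH I) (g : SB K n) (hg : g ∈ bih K n 1 0) (a b : ℕ) :
    hf K n I (a + 1) b = hf K n (I ⊔ Ideal.span {g}) (a + 1) b +
      Module.finrank K (LinearMap.range (mulQ I g hg a b)) := by
  set J := I ⊔ Ideal.span {g} with hJ
  have hle : gr K n I (a + 1) b ≤ gr K n J (a + 1) b := by
    intro f hf
    exact Ideal.mem_sup_left hf
  let π : (bih K n (a + 1) b ⧸ gr K n I (a + 1) b) →ₗ[K] (bih K n (a + 1) b ⧸ gr K n J (a + 1) b) :=
    Submodule.factor hle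
  have hsurj : Function.Surjective π := Submodule.factor_surjective hle
  have hker : LinearMap.ker π = LinearMap.range (mulQ I g hg a b) := by
    ext x
    obtain ⟨f, rfl⟩ := Submodule.mkQ_surjective _ x
    rw [LinearMap.mem_ker, LinearMap.mem_range]
    have h1 : π ((gr K n I (a + 1) b).mkQ f) = (gr K n J (a + 1) b).mkQ f := rfl
    rw [h1, Submodule.mkQ_apply, Submodule.Quotient.mk_eq_zero, gr_sup_span I hI g hg a b f]
    constructor
    · rintro ⟨h, hh⟩
      refine ⟨(gr K n I a b).mkQ h, ?_⟩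
      change (gr K n I (a + 1) b).mkQ (mulB g hg a b h) = _
      rw [eq_comm, ← sub_eq_zero, ← map_sub, Submodule.mkQ_apply, Submodule.Quotient.mk_eq_zero]
      exact hh
    · rintro ⟨y, hy⟩
      obtain ⟨h, rfl⟩ := Submodule.mkQ_surjective _ y
      refine ⟨h, ?_⟩
      change (gr K n I (a + 1) b).mkQ (mulB g hg a b h) = _ at hy
      rw [eq_comm, ← sub_eq_zero, ← map_sub, Submodule.mkQ_apply,
        Submodule.Quotient.mk_eq_zero] at hy
      exact hy
  have h2 := LinearMap.finrank_range_add_finrank_ker π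
  rw [LinearMap.range_eq_top.2 hsurj, finrank_top, hker] at h2
  unfold hf
  exact h2.symm

theorem hf_step_le (I : Ideal (SB K n)) (hI : BH I) (g : SB K n) (hg : g ∈ bih K n 1 0)
    (a b : ℕ) :
    hf K n I (a + 1) b ≤ hf K n (I ⊔ Ideal.span {g}) (a + 1) b + hf K n I a b := by
  rw [hf_step I hI g hg a b]
  apply Nat.add_le_add_left
  exact LinearMap.finrank_range_le _

theorem nzd_of_eq (I : Ideal (SB K n)) (hI : BH I) (g : SB K n) (hg : g ∈ bih K n 1 0) (a b : ℕ)
    (h : hf K n I (a + 1) b = hf K n (I ⊔ Ideal.span {g}) (a + 1) b + hf K n I a b)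
    (f : SB K n) (hf1 : f ∈ bih K n a b) (hf2 : g * f ∈ I) : f ∈ I := by
  rw [hf_step I hI g hg a b] at h
  have h1 : Module.finrank K (LinearMap.range (mulQ I g hg a b)) =
      Module.finrank K (bih K n a b ⧸ gr K n I a b) := by
    unfold hf at h
    omega
  have h2 := LinearMap.finrank_range_add_finrank_ker (mulQ I g hg a b)
  rw [h1] at h2
  have h3 : LinearMap.ker (mulQ I g hg a b) = ⊥ := by
    apply Submodule.finrank_eq_zero.1
    omega
  have h4 : (gr K n I a b).mkQ ⟨f, hf1⟩ ∈ LinearMap.ker (mulQ I g hg a b) := by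
    rw [LinearMap.mem_ker]
    change (gr K n I (a + 1) b).mkQ (mulB g hg a b ⟨f, hf1⟩) = 0
    rw [Submodule.mkQ_apply, Submodule.Quotient.mk_eq_zero]
    exact hf2
  rw [h3, Submodule.mem_bot, Submodule.mkQ_apply, Submodule.Quotient.mk_eq_zero] at h4
  exact h4

theorem hf_zero_sup (I : Ideal (SB K n)) (hI : BH I) (g : SB K n) (hg : g ∈ bih K n 1 0)
    (b : ℕ) : hf K n I 0 b = hf K n (I ⊔ Ideal.span {g}) 0 b := by
  have : gr K n I 0 b = gr K n (I ⊔ Ideal.span {g}) 0 b := by
    ext f
    rw [mem_gr, mem_gr]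
    constructor
    · intro h
      exact Ideal.mem_sup_left h
    · intro h
      obtain ⟨x, hx, y, hy, hxy⟩ := Submodule.mem_sup.1 h
      obtain ⟨c, rfl⟩ := Ideal.mem_span_singleton'.1 hy
      have h1 : cmp 0 b (x + c * g) = f := by rw [hxy, cmp_self f.2]
      rw [map_add, cmp_mul hg, if_neg (by omega), add_zero] at h1
      rw [← h1]
      exact hI x hx _ _
  unfold hf
  rw [this]

/-- for `I ≤ J`: `hf I = dim (J/I) + hf J` -/
theorem hf_le_add (I J : Ideal (SB K n)) (hIJ : I ≤ J) (a b : ℕ) :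
    hf K n I a b = Module.finrank K ((gr K n J a b).map (gr K n I a b).mkQ) + hf K n J a b := by
  have hle : gr K n I a b ≤ gr K n J a b := fun f hf => hIJ hf
  let π : (bih K n a b ⧸ gr K n I a b) →ₗ[K] (bih K n a b ⧸ gr K n J a b) :=
    Submodule.factor hle
  have hsurj : Function.Surjective π := Submodule.factor_surjective hle
  have hker : LinearMap.ker π = (gr K n J a b).map (gr K n I a b).mkQ := by
    ext x
    obtain ⟨f, rfl⟩ := Submodule.mkQ_surjective _ x
    rw [LinearMap.mem_ker, Submodule.mem_map]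
    have h1 : π ((gr K n I a b).mkQ f) = (gr K n J a b).mkQ f := rfl
    rw [h1, Submodule.mkQ_apply, Submodule.Quotient.mk_eq_zero]
    constructor
    · intro h
      exact ⟨f, h, rfl⟩
    · rintro ⟨y, hy, hyf⟩
      rw [← sub_eq_zero, ← map_sub, Submodule.mkQ_apply, Submodule.Quotient.mk_eq_zero] at hyf
      have h2 := Submodule.sub_mem _ hy (hle hyf)
      rwa [sub_sub_cancel] at h2
  have h2 := LinearMap.finrank_range_add_finrank_ker π
  rw [LinearMap.range_eq_top.2 hsurj, finrank_top, hker] at h2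
  unfold hf
  omega

end

end HK
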