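import Pool.Agent.HK.Defs

/-! # Module Lead: leading monomials (blueprint (5b), (5c)) -/

namespace HK

open MvPolynomial Finset

/-- weight of an exponent -/
noncomputable def ws {n : ℕ} (wgt : Vr n → ℤ) (w : Vr n →₀ ℕ) : ℤ :=
  w.sum fun v e => (e : ℤ) * wgt v

theorem ws_add {n : ℕ} (wgt : Vr n → ℤ) (u v : Vr n →₀ ℕ) :
    ws wgt (u + v) = ws wgt u + ws wgt v := by
  unfold ws
  rw [Finsupp.sum_add_index']
  · intro a; simp
  · intro a b c; push_cast; ring

theorem ws_single {n : ℕ} (wgt : Vr n → ℤ) (v : Vr n) :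
    ws wgt (Finsupp.single v 1) = wgt v := by
  unfold ws
  rw [Finsupp.sum_single_index] <;> simp

theorem ws_zero {n : ℕ} (wgt : Vr n → ℤ) : ws wgt 0 = 0 := by
  unfold ws; simp

/-- `f` is zero or a monomial of weight `t` -/
def MW {K : Type*} [Field K] {n : ℕ} (wgt : Vr n → ℤ) (f : SB K n) (t : ℤ) : Prop :=
  f = 0 ∨ ∃ m, f = monomial m 1 ∧ ws wgt m = t

theorem MW.mul {K : Type*} [Field K] {n : ℕ} {wgt : Vr n → ℤ} {f g : SB K n} {s t : ℤ}
    (hf : MW wgt f s) (hg : MW wgt g t) : MW wgt (f * g) (s + t) := by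
  rcases hf with rfl | ⟨m, rfl, hm⟩
  · left; rw [zero_mul]
  rcases hg with rfl | ⟨m', rfl, hm'⟩
  · left; rw [mul_zero]
  right
  exact ⟨m + m', by rw [monomial_mul, one_mul], by rw [ws_add, hm, hm']⟩

theorem MW.prod {K : Type*} [Field K] {n : ℕ} {wgt : Vr n → ℤ} {ι : Type*} (s : Finset ι)
    (f : ι → SB K n) (t : ι → ℤ) (h : ∀ i ∈ s, MW wgt (f i) (t i)) :
    MW wgt (∏ i ∈ s, f i) (∑ i ∈ s, t i) := by
  classical
  induction s using Finset.induction_on with
  | empty =>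
    right
    exact ⟨0, by simp, by rw [ws_zero]; simp⟩
  | insert a s ha ih =>
    rw [Finset.prod_insert ha, Finset.sum_insert ha]
    exact (h a (Finset.mem_insert_self _ _)).mul
      (ih fun i hi => h i (Finset.mem_insert_of_mem hi))

/-- weight of a column -/
def cw (n μ c : ℕ) : ℤ := if c < μ then 2 * c - (n + 2) else 2 * ((c : ℤ) - μ) + (n + 2)

/-- constant of a column -/
def ck (n μ c : ℕ) : ℤ :=
  if c < μ then (n + 2) * (c : ℤ) - (c : ℤ) ^ 2
  else -((c : ℤ) - μ) ^ 2 - (n + 2) * ((c : ℤ) - μ)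

theorem ent_MW (K : Type*) [Field K] (n μ : ℕ) (r : ℤ) (c : ℕ) :
    MW (lw n) (ent K n μ r c) (-r ^ 2 + r * cw n μ c + ck n μ c) := by
  unfold ent
  split_ifs with h1 h2
  · unfold pp
    split_ifs with h3
    · right
      refine ⟨Finsupp.single (Sum.inr (Sum.inl ⟨(r - c).toNat, by omega⟩)) 1, rfl, ?_⟩
      rw [ws_single]
      unfold lw cw ck
      simp only [if_pos h2]
      rw [Int.toNat_of_nonneg h3.1]
      ring
    · left; rfl
  · unfold qq
    split_ifs with h3
    · right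
      refine ⟨Finsupp.single (Sum.inr (Sum.inr ⟨(r - (c - μ : ℕ)).toNat, by omega⟩)) 1, rfl, ?_⟩
      rw [ws_single]
      unfold lw cw ck
      simp only [if_neg h2]
      rw [Int.toNat_of_nonneg h3.1]
      push_cast [Nat.cast_sub (not_lt.mp h2)]
      ring
    · left; rfl
  · left; rfl

theorem cw_strictMono (n μ : ℕ) (hn : μ ≤ n + 1) : StrictMono fun c : Fin (2 * μ) => cw n μ c := by
  intro a b hab
  have hab' : (a : ℕ) < b := hab
  have ha := a.2
  have hb := b.2
  simp only [cw]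
  split_ifs <;> omega

/-- the row variable of the leading term -/
def gv (n μ : ℕ) (ρ : Fin (2 * μ) → ℤ) (a : Fin (2 * μ)) : Fin (n + 2) ⊕ Fin (n + 2) :=
  if (a : ℕ) < μ then Sum.inl (Fin.ofNat (n + 2) (ρ a - a).toNat)
  else Sum.inr (Fin.ofNat (n + 2) (ρ a - (a - μ : ℕ)).toNat)

theorem gm_eq (n μ : ℕ) (ρ : Fin (2 * μ) → ℤ) :
    gm n μ ρ = ∑ a, Finsupp.single (gv n μ ρ a) 1 := rfl

theorem sm_add {m : ℕ} {ρ : Fin m → ℤ} (hρ : StrictMono ρ) :
    ∀ (k : ℕ) (a b : Fin m), (b : ℕ) = a + k → ρ a + k ≤ ρ b := by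
  intro k
  induction k with
  | zero =>
    intro a b h
    have : a = b := Fin.ext (by omega)
    rw [this]; simp
  | succ k ih =>
    intro a b h
    have hb : (a : ℕ) + k < m := by have := b.2; omega
    have h1 := ih a ⟨a + k, hb⟩ rfl
    have h2 : ρ ⟨a + k, hb⟩ < ρ b := hρ (by rw [Fin.lt_def]; simp; omega)
    push_cast
    omega

theorem sm_sub {m : ℕ} {ρ : Fin m → ℤ} (hρ : StrictMono ρ) {a b : Fin m} (h : a ≤ b) :
    ρ a - (a : ℕ) ≤ ρ b - (b : ℕ) := by
  have h' : (a : ℕ) ≤ b := h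
  have := sm_add hρ (b - a) a b (by omega)
  push_cast [Nat.cast_sub h'] at this
  omega

/-- range of the index in the leading term -/
theorem row_bounds {n μ : ℕ} {ρ : Fin (2 * μ) → ℤ} (hρ : StrictMono ρ) {k : ℕ}
    (h : ∀ a, (k : ℤ) ≤ ρ a ∧ ρ a < (n : ℤ) + μ) (a : Fin (2 * μ)) :
    (k : ℤ) + (a : ℕ) ≤ ρ a ∧ ρ a ≤ (n : ℤ) - μ + (a : ℕ) := by
  have ha := a.2
  constructor
  · have h1 := sm_add hρ a ⟨0, by omega⟩ a (by simp)
    have h2 := (h ⟨0, by omega⟩).1
    omega
  · have h1 := sm_add hρ (2 * μ - 1 - a) a ⟨2 * μ - 1, by omega⟩ (by simp; omega)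
    have h2 := (h ⟨2 * μ - 1, by omega⟩).2
    push_cast [Nat.cast_sub (show (a : ℕ) ≤ 2 * μ - 1 by omega),
      Nat.cast_sub (show 1 ≤ 2 * μ by omega)] at h1
    omega

theorem ent_gv (K : Type*) [Field K] {n μ : ℕ} {ρ : Fin (2 * μ) → ℤ} (hρ : StrictMono ρ)
    (h : ∀ a, 0 ≤ ρ a ∧ ρ a < (n : ℤ) + μ) (a : Fin (2 * μ)) :
    ent K n μ (ρ a) a = monomial (Finsupp.single (Sum.inr (gv n μ ρ a)) 1) 1 := by
  have hb := row_bounds hρ (k := 0) (by simpa using h) a
  have ha := a.2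
  unfold ent gv
  rw [if_pos (h a)]
  by_cases h2 : (a : ℕ) < μ
  · rw [if_pos h2, if_pos h2]
    unfold pp
    rw [dif_pos (by constructor <;> omega)]
    have e1 : (⟨(ρ a - (a : ℕ)).toNat, by omega⟩ : Fin (n + 2)) =
        Fin.ofNat (n + 2) (ρ a - (a : ℕ)).toNat := by
      apply Fin.ext
      simp only [Fin.ofNat]
      rw [Nat.mod_eq_of_lt (by omega)]
    rw [← e1]
    rfl
  · rw [if_neg h2, if_neg h2]
    unfold qq
    rw [dif_pos (by constructor <;> omega)]
    have e1 : (⟨(ρ a - ((a : ℕ) - μ : ℕ)).toNat, by omega⟩ : Fin (n + 2)) =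
        Fin.ofNat (n + 2) (ρ a - ((a : ℕ) - μ : ℕ)).toNat := by
      apply Fin.ext
      simp only [Fin.ofNat]
      rw [Nat.mod_eq_of_lt (by omega)]
    rw [← e1]
    rfl

theorem prod_monomial {K : Type*} [Field K] {n : ℕ} {ι : Type*} (s : Finset ι)
    (f : ι → Vr n →₀ ℕ) :
    ∏ i ∈ s, (monomial (f i) 1 : SB K n) = monomial (∑ i ∈ s, f i) 1 := by
  classical
  induction s using Finset.induction_on with
  | empty => simp
  | insert a s ha ih =>
    rw [Finset.prod_insert ha, Finset.sum_insert ha, ih, monomial_mul, one_mul]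

/-- (5b) for strictly increasing `ρ` with values in `[0, n+μ)` -/
theorem top_D (K : Type*) [Field K] (n μ : ℕ) (hn : μ ≤ n + 1)
    (ρ : Fin (2 * μ) → ℤ) (hρ : StrictMono ρ) (h : ∀ a, 0 ≤ ρ a ∧ ρ a < (n : ℤ) + μ) :
    Top (lw n) (D K n μ ρ) ((gm n μ ρ).mapDomain Sum.inr) := by
  classical
  set w0 : Vr n →₀ ℕ := (gm n μ ρ).mapDomain Sum.inr with hw0
  let P : Equiv.Perm (Fin (2 * μ)) → SB K n := fun σ => ∏ i, ent K n μ (ρ (σ i)) i
  let W : Equiv.Perm (Fin (2 * μ)) → ℤ := fun σ =>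
    ∑ i, (-(ρ (σ i)) ^ 2 + ρ (σ i) * cw n μ i + ck n μ i)
  have hP : ∀ σ, MW (lw n) (P σ) (W σ) := fun σ =>
    MW.prod univ _ _ fun i _ => ent_MW K n μ (ρ (σ i)) i
  have hP1 : P 1 = monomial w0 1 := by
    have e1 : P 1 = ∏ i, (monomial (Finsupp.single (Sum.inr (gv n μ ρ i)) 1) 1 : SB K n) :=
      Finset.prod_congr rfl fun i _ => ent_gv K hρ h i
    rw [e1, prod_monomial, hw0, gm_eq, Finsupp.mapDomain_finsetSum]
    refine congrArg (fun z => monomial z (1 : K)) ?_
    exact Finset.sum_congr rfl fun i _ => (Finsupp.mapDomain_single).symm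
  have hw1 : ws (lw n) w0 = W 1 := by
    rcases hP 1 with h0 | ⟨m, hm, hm'⟩
    · rw [hP1, monomial_eq_zero] at h0
      exact absurd h0 one_ne_zero
    · rw [hP1] at hm
      have := monomial_left_injective (R := K) one_ne_zero hm
      rw [this, hm']
  have hlt : ∀ σ, σ ≠ 1 → W σ < W 1 := by
    intro σ hσ
    have key : ∑ i : Fin (2 * μ), cw n μ i * ρ (σ i) < ∑ i : Fin (2 * μ), cw n μ i * ρ i := by
      have hmv : Monovary (fun i : Fin (2 * μ) => cw n μ i) ρ := by
        intro a b hab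
        exact (cw_strictMono n μ hn).monotone (hρ.lt_iff_lt.mp hab).le
      rw [hmv.sum_mul_comp_perm_lt_sum_mul_iff]
      intro hcon
      apply hσ
      have hmono : Monotone σ := by
        intro a b hab
        by_contra hlt
        push Not at hlt
        have h1 := hcon (hρ hlt)
        have h2 := (cw_strictMono n μ hn).le_iff_le.mp h1
        have : a = b := le_antisymm hab h2
        subst this
        exact lt_irrefl _ hlt
      have hsm : StrictMono σ := hmono.strictMono_of_injective σ.injective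
      have hid := Subsingleton.elim (StrictMono.orderIsoOfSurjective σ hsm σ.surjective)
        (OrderIso.refl _)
      apply Equiv.ext
      intro i
      exact DFunLike.congr_fun hid i
    have e1 : ∀ σ : Equiv.Perm (Fin (2 * μ)), W σ =
        (∑ i, -(ρ i) ^ 2) + (∑ i : Fin (2 * μ), cw n μ i * ρ (σ i)) +
        ∑ i : Fin (2 * μ), ck n μ i := by
      intro σ
      rw [← Equiv.sum_comp σ (fun i => -(ρ i) ^ 2), ← Finset.sum_add_distrib,
        ← Finset.sum_add_distrib]
      exact Finset.sum_congr rfl fun i _ => by ring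
    rw [e1, e1]
    simpa using key
  have hD : ∀ w, coeff w (D K n μ ρ) = ∑ σ : Equiv.Perm (Fin (2 * μ)),
      (Equiv.Perm.sign σ : ℤ) • coeff w (P σ) := by
    intro w
    unfold D
    rw [Matrix.det_apply, coeff_sum]
    refine Finset.sum_congr rfl fun σ _ => ?_
    rw [Units.smul_def]
    exact map_zsmul (coeffAddMonoidHom w : SB K n →+ K) ((Equiv.Perm.sign σ : ℤˣ) : ℤ) _
  have hcoef : ∀ σ w, coeff w (P σ) ≠ 0 → P σ = monomial w 1 ∧ ws (lw n) w = W σ := by
    intro σ w hne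
    rcases hP σ with h0 | ⟨m, hm, hm'⟩
    · rw [h0, coeff_zero] at hne
      exact absurd rfl hne
    · rw [hm, coeff_monomial] at hne
      have : m = w := by
        by_contra hh
        rw [if_neg hh] at hne
        exact hne rfl
      subst this
      exact ⟨hm, hm'⟩
  constructor
  · rw [hD, Finset.sum_eq_single 1]
    · rw [hP1, coeff_monomial, if_pos rfl]
      simp
    · intro σ _ hσ
      have : coeff w0 (P σ) = 0 := by
        by_contra hne
        have := (hcoef σ w0 hne).2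
        have h2 := hlt σ hσ
        omega
      rw [this, smul_zero]
    · intro hh; exact absurd (Finset.mem_univ _) hh
  · intro w' hw' hne
    rw [mem_support_iff, hD] at hw'
    obtain ⟨σ, _, hσ⟩ := Finset.exists_ne_zero_of_sum_ne_zero hw'
    have hσ' : coeff w' (P σ) ≠ 0 := by
      intro h0; rw [h0, smul_zero] at hσ; exact hσ rfl
    obtain ⟨h1, h2⟩ := hcoef σ w' hσ'
    have hσ1 : σ ≠ 1 := by
      rintro rfl
      rw [hP1] at h1
      exact hne (monomial_left_injective (R := K) one_ne_zero h1).symm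
    have h3 := hlt σ hσ1
    show ws (lw n) w' < ws (lw n) w0
    rw [h2, hw1]
    exact h3

/-- top monomials of products with monomials -/
theorem top_mono_mul {K : Type*} [Field K] {n : ℕ} (wgt : Vr n → ℤ) (f : SB K n) (w : Vr n →₀ ℕ)
    (hf : Top wgt f w) (u : (Fin (n + 2) ⊕ Fin (n + 2)) →₀ ℕ) :
    Top wgt (mono K n u * f) (u.mapDomain Sum.inr + w) := by
  classical
  unfold mono
  constructor
  · rw [coeff_monomial_mul, one_mul]
    exact hf.1
  · intro w' hw' hne
    rw [mem_support_iff, coeff_monomial_mul'] at hw'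
    by_cases hle : u.mapDomain Sum.inr ≤ w'
    · rw [if_pos hle, one_mul] at hw'
      obtain ⟨w'', rfl⟩ := exists_add_of_le hle
      rw [add_tsub_cancel_left] at hw'
      have h1 := hf.2 w'' (mem_support_iff.mpr hw') (by
        rintro rfl; exact hne rfl)
      show ws wgt _ < ws wgt _
      rw [ws_add, ws_add]
      have h2 : ws wgt w'' < ws wgt w := h1
      omega
    · rw [if_neg hle] at hw'
      exact absurd rfl hw'

/-- polynomials with pairwise distinct top monomials are linearly independent -/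
theorem linearIndependent_of_top {K : Type*} [Field K] {n : ℕ} (wgt : Vr n → ℤ) {ι : Type*}
    (f : ι → SB K n) (w : ι → Vr n →₀ ℕ) (h : ∀ i, Top wgt (f i) (w i))
    (hw : Function.Injective w) : LinearIndependent K f := by
  classical
  rw [linearIndependent_iff']
  intro s g hg
  by_contra hcon
  push Not at hcon
  obtain ⟨i, hi, hgi⟩ := hcon
  obtain ⟨j, hj, hmax⟩ := (s.filter fun i => g i ≠ 0).exists_max_image (fun i => ws wgt (w i))
    ⟨i, Finset.mem_filter.mpr ⟨hi, hgi⟩⟩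
  rw [Finset.mem_filter] at hj
  have h1 := congrArg (coeff (w j)) hg
  rw [coeff_sum, coeff_zero, Finset.sum_eq_single j] at h1
  · rw [coeff_smul, smul_eq_mul] at h1
    exact (mul_ne_zero hj.2 (h j).1) h1
  · intro k hk hkj
    rw [coeff_smul, smul_eq_mul]
    by_cases hgk : g k = 0
    · rw [hgk, zero_mul]
    · have h2 : coeff (w j) (f k) = 0 := by
        by_contra hne
        have h3 := (h k).2 (w j) (mem_support_iff.mpr hne) (fun hh => hkj (hw hh).symm)
        have h4 := hmax k (Finset.mem_filter.mpr ⟨hk, hgk⟩)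
        have h3' : ws wgt (w j) < ws wgt (w k) := h3
        omega
      rw [h2, mul_zero]
  · intro hh; exact absurd hj.1 hh

theorem gv_left {n μ : ℕ} {ρ : Fin (2 * μ) → ℤ} (hρ : StrictMono ρ)
    (h : ∀ a, 0 ≤ ρ a ∧ ρ a < (n : ℤ) + μ) (a : Fin (2 * μ)) (ha : (a : ℕ) < μ) :
    ∃ i : Fin (n + 2), gv n μ ρ a = Sum.inl i ∧ ((i : ℕ) : ℤ) = ρ a - (a : ℕ) := by
  have hb := row_bounds hρ (k := 0) (by simpa using h) a
  refine ⟨_, by unfold gv; rw [if_pos ha], ?_⟩
  simp only [Fin.ofNat]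
  rw [Nat.mod_eq_of_lt (by omega)]
  omega

theorem gv_right {n μ : ℕ} {ρ : Fin (2 * μ) → ℤ} (hρ : StrictMono ρ)
    (h : ∀ a, 0 ≤ ρ a ∧ ρ a < (n : ℤ) + μ) (a : Fin (2 * μ)) (ha : ¬ (a : ℕ) < μ) :
    ∃ i : Fin (n + 2), gv n μ ρ a = Sum.inr i ∧ ((i : ℕ) : ℤ) = ρ a - ((a : ℕ) : ℤ) + μ := by
  have hb := row_bounds hρ (k := 0) (by simpa using h) a
  have ha2 := a.2
  refine ⟨_, by unfold gv; rw [if_neg ha], ?_⟩
  simp only [Fin.ofNat]
  rw [Nat.mod_eq_of_lt (by omega)]
  omega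

theorem mem_gm_support {n μ : ℕ} {ρ : Fin (2 * μ) → ℤ} {v : Fin (n + 2) ⊕ Fin (n + 2)} :
    v ∈ (gm n μ ρ).support ↔ ∃ a, gv n μ ρ a = v := by
  classical
  rw [gm_eq, Finsupp.mem_support_iff, Finsupp.finsetSum_apply]
  constructor
  · intro hne
    obtain ⟨a, _, ha⟩ := Finset.exists_ne_zero_of_sum_ne_zero hne
    refine ⟨a, ?_⟩
    by_contra hh
    rw [Finsupp.single_apply, if_neg hh] at ha
    exact ha rfl
  · rintro ⟨a, rfl⟩
    intro h0
    have := (Finset.sum_eq_zero_iff.mp h0) a (Finset.mem_univ _)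
    rw [Finsupp.single_apply, if_pos rfl] at this
    exact one_ne_zero this

/-- for a canonical pair with rows `≥ k`, all indices of `gm` are `≥ k` -/
theorem le_vidx_gm (n μ k : ℕ) (ρ : Fin (2 * μ) → ℤ) (hρ : StrictMono ρ)
    (h : ∀ a, (k : ℤ) ≤ ρ a ∧ ρ a < (n : ℤ) + μ) (v : Fin (n + 2) ⊕ Fin (n + 2))
    (hv : v ∈ (gm n μ ρ).support) : k ≤ vidx v := by
  obtain ⟨a, rfl⟩ := mem_gm_support.mp hv
  have h0 : ∀ a, 0 ≤ ρ a ∧ ρ a < (n : ℤ) + μ := fun a => ⟨by have := (h a).1; omega, (h a).2⟩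
  have hb := row_bounds hρ h a
  by_cases ha : (a : ℕ) < μ
  · obtain ⟨i, hi, hi'⟩ := gv_left hρ h0 a ha
    rw [hi]
    show k ≤ (i : ℕ)
    omega
  · obtain ⟨i, hi, hi'⟩ := gv_right hρ h0 a ha
    rw [hi]
    show k ≤ (i : ℕ)
    omega

/-- if some row is `< k` then `gm` contains a variable of index `< k` (μ ≥ 1) -/
theorem exists_vidx_gm_lt (n μ k : ℕ) (ρ : Fin (2 * μ) → ℤ) (hρ : StrictMono ρ)
    (h : ∀ a, 0 ≤ ρ a ∧ ρ a < (n : ℤ) + μ) (a : Fin (2 * μ)) (ha : ρ a < k) :
    ∃ v ∈ (gm n μ ρ).support, vidx v < k := by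
  have ha2 := a.2
  have h0 : ((⟨0, by omega⟩ : Fin (2 * μ)) : ℕ) < μ := by simp; omega
  obtain ⟨i, hi, hi'⟩ := gv_left hρ h ⟨0, by omega⟩ h0
  refine ⟨_, mem_gm_support.mpr ⟨⟨0, by omega⟩, rfl⟩, ?_⟩
  rw [hi]
  show (i : ℕ) < k
  have h1 : ρ ⟨0, by omega⟩ ≤ ρ a := hρ.monotone (by rw [Fin.le_def]; simp)
  simp only [Nat.cast_zero, sub_zero] at hi'
  omega

/-! ### the top monomial determines the canonical pair -/

/-- number of `p`-variables of index `≤ c` -/
def cP {n : ℕ} (c : ℤ) (w : (Fin (n + 2) ⊕ Fin (n + 2)) →₀ ℕ) : ℕ :=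
  ∑ i ∈ univ.filter (fun i : Fin (n + 2) => ((i : ℕ) : ℤ) ≤ c), w (Sum.inl i)

/-- number of `q`-variables of index in `[c, n]` -/
def cQ {n : ℕ} (c : ℤ) (w : (Fin (n + 2) ⊕ Fin (n + 2)) →₀ ℕ) : ℕ :=
  ∑ i ∈ univ.filter (fun i : Fin (n + 2) => c ≤ ((i : ℕ) : ℤ) ∧ (i : ℕ) ≤ n), w (Sum.inr i)

theorem cP_add {n : ℕ} (c : ℤ) (w w' : (Fin (n + 2) ⊕ Fin (n + 2)) →₀ ℕ) :
    cP c (w + w') = cP c w + cP c w' := by
  unfold cP
  rw [← Finset.sum_add_distrib]
  rfl

theorem cQ_add {n : ℕ} (c : ℤ) (w w' : (Fin (n + 2) ⊕ Fin (n + 2)) →₀ ℕ) :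
    cQ c (w + w') = cQ c w + cQ c w' := by
  unfold cQ
  rw [← Finset.sum_add_distrib]
  rfl

theorem cP_gm {n μ : ℕ} {ρ : Fin (2 * μ) → ℤ} (hρ : StrictMono ρ)
    (h : ∀ a, 0 ≤ ρ a ∧ ρ a < (n : ℤ) + μ) (c : ℤ) :
    cP c (gm n μ ρ) = (univ.filter fun a : Fin (2 * μ) => (a : ℕ) < μ ∧ ρ a - (a : ℕ) ≤ c).card := by
  classical
  unfold cP
  rw [gm_eq]
  simp only [Finsupp.finsetSum_apply]
  rw [Finset.sum_comm, Finset.card_filter]
  refine Finset.sum_congr rfl fun a _ => ?_
  by_cases ha : (a : ℕ) < μ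
  · obtain ⟨i, hi, hi'⟩ := gv_left hρ h a ha
    rw [hi]
    by_cases hc : ρ a - (a : ℕ) ≤ c
    · rw [if_pos ⟨ha, hc⟩, Finset.sum_eq_single i]
      · simp
      · intro j _ hj
        rw [Finsupp.single_apply, if_neg]
        intro hh
        exact hj (Sum.inl_injective hh).symm
      · intro hh
        exfalso
        apply hh
        rw [Finset.mem_filter]
        exact ⟨Finset.mem_univ _, by omega⟩
    · rw [if_neg (fun hh => hc hh.2)]
      apply Finset.sum_eq_zero
      intro j hj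
      rw [Finset.mem_filter] at hj
      rw [Finsupp.single_apply, if_neg]
      intro hh
      have := Sum.inl_injective hh
      subst this
      omega
  · obtain ⟨i, hi, hi'⟩ := gv_right hρ h a ha
    rw [hi, if_neg (fun hh => ha hh.1)]
    apply Finset.sum_eq_zero
    intro j hj
    rw [Finsupp.single_apply, if_neg (by simp)]

theorem cQ_gm {n μ : ℕ} {ρ : Fin (2 * μ) → ℤ} (hρ : StrictMono ρ)
    (h : ∀ a, 0 ≤ ρ a ∧ ρ a < (n : ℤ) + μ) (c : ℤ) :
    cQ c (gm n μ ρ) =
      (univ.filter fun a : Fin (2 * μ) => ¬ (a : ℕ) < μ ∧ c ≤ ρ a - (a : ℕ) + μ).card := by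
  classical
  unfold cQ
  rw [gm_eq]
  simp only [Finsupp.finsetSum_apply]
  rw [Finset.sum_comm, Finset.card_filter]
  refine Finset.sum_congr rfl fun a _ => ?_
  have hb := row_bounds hρ (k := 0) (by simpa using h) a
  by_cases ha : (a : ℕ) < μ
  · obtain ⟨i, hi, hi'⟩ := gv_left hρ h a ha
    rw [hi, if_neg (fun hh => hh.1 ha)]
    apply Finset.sum_eq_zero
    intro j hj
    rw [Finsupp.single_apply, if_neg (by simp)]
  · obtain ⟨i, hi, hi'⟩ := gv_right hρ h a ha
    rw [hi]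
    by_cases hc : c ≤ ρ a - (a : ℕ) + μ
    · rw [if_pos ⟨ha, hc⟩, Finset.sum_eq_single i]
      · simp
      · intro j _ hj
        rw [Finsupp.single_apply, if_neg]
        intro hh
        exact hj (Sum.inr_injective hh).symm
      · intro hh
        exfalso
        apply hh
        rw [Finset.mem_filter]
        exact ⟨Finset.mem_univ _, by omega, by omega⟩
    · rw [if_neg (fun hh => hc hh.2)]
      apply Finset.sum_eq_zero
      intro j hj
      rw [Finset.mem_filter] at hj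
      rw [Finsupp.single_apply, if_neg]
      intro hh
      have := Sum.inr_injective hh
      subst this
      omega

/-- `p_c` good: `c` is at least the largest `p`-index of `gm` -/
theorem good_left {n μ : ℕ} {ρ : Fin (2 * μ) → ℤ} (hρ : StrictMono ρ) {c : Fin (n + 2)}
    (h : good n μ ρ (Sum.inl c)) {a : Fin (2 * μ)} (ha : (a : ℕ) < μ) :
    ρ a - (a : ℕ) ≤ ((c : ℕ) : ℤ) := by
  classical
  by_contra hcon
  push Not at hcon
  have h1 : μ ≤ (univ.filter fun a : Fin (2 * μ) => ρ a ≤ ((c : ℕ) : ℤ) + μ - 1).card := h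
  have h2 : (univ.filter fun a : Fin (2 * μ) => ρ a ≤ ((c : ℕ) : ℤ) + μ - 1) ⊆
      univ.filter fun b : Fin (2 * μ) => (b : ℕ) < μ - 1 := by
    intro b hb
    rw [Finset.mem_filter] at hb ⊢
    refine ⟨Finset.mem_univ _, ?_⟩
    by_contra hh
    push Not at hh
    have ha2 := a.2
    -- the row `μ - 1`
    have e1 := sm_sub hρ (a := a) (b := ⟨μ - 1, by omega⟩) (by rw [Fin.le_def]; simp; omega)
    have e2 : ρ ⟨μ - 1, by omega⟩ ≤ ρ b := hρ.monotone (by rw [Fin.le_def]; simpa using hh)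
    simp only at e1
    push_cast [Nat.cast_sub (show 1 ≤ μ by omega)] at e1
    omega
  have h3 := Finset.card_le_card h2
  have h4 : (univ.filter fun b : Fin (2 * μ) => (b : ℕ) < μ - 1).card ≤ μ - 1 := by
    have := Finset.card_le_card_of_injOn (s := univ.filter fun b : Fin (2 * μ) => (b : ℕ) < μ - 1)
      (t := Finset.range (μ - 1)) (fun b => (b : ℕ)) (by
        intro b hb
        simp only [Finset.coe_filter, Finset.mem_univ, true_and, Set.mem_ofPred_eq] at hb
        simpa using hb) (by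
        intro x _ y _ hxy; exact Fin.ext hxy)
    simpa using this
  omega

/-- `q_c` good, `c ≤ n`: `c` is at most the smallest `q`-index of `gm` -/
theorem good_right {n μ : ℕ} {ρ : Fin (2 * μ) → ℤ} (hρ : StrictMono ρ) {c : Fin (n + 2)}
    (h : good n μ ρ (Sum.inr c)) (hc : (c : ℕ) ≤ n) {a : Fin (2 * μ)} (ha : ¬ (a : ℕ) < μ) :
    ((c : ℕ) : ℤ) ≤ ρ a - (a : ℕ) + μ := by
  classical
  by_contra hcon
  push Not at hcon
  have h1 : μ ≤ (univ.filter fun a : Fin (2 * μ) => ((c : ℕ) : ℤ) ≤ ρ a).card := by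
    rcases h with h | h
    · omega
    · exact h
  have h2 : (univ.filter fun a : Fin (2 * μ) => ((c : ℕ) : ℤ) ≤ ρ a) ⊆
      univ.filter fun b : Fin (2 * μ) => μ < (b : ℕ) := by
    intro b hb
    rw [Finset.mem_filter] at hb ⊢
    refine ⟨Finset.mem_univ _, ?_⟩
    by_contra hh
    push Not at hh
    have ha2 := a.2
    have e1 := sm_sub hρ (a := ⟨μ, by omega⟩) (b := a) (by rw [Fin.le_def]; simp; omega)
    have e2 : ρ b ≤ ρ ⟨μ, by omega⟩ := hρ.monotone (by rw [Fin.le_def]; simpa using hh)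
    simp only at e1
    omega
  have h3 := Finset.card_le_card h2
  have h4 : (univ.filter fun b : Fin (2 * μ) => μ < (b : ℕ)).card ≤ μ - 1 := by
    have := Finset.card_le_card_of_injOn (s := univ.filter fun b : Fin (2 * μ) => μ < (b : ℕ))
      (t := Finset.range (μ - 1)) (fun b => (b : ℕ) - μ - 1) (by
        intro b hb
        simp only [Finset.coe_filter, Finset.mem_univ, true_and, Set.mem_ofPred_eq] at hb
        have := b.2
        simp only [Finset.coe_range, Set.mem_Iio]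
        omega) (by
        intro x hx y hy hxy
        simp only [Finset.coe_filter, Finset.mem_univ, true_and, Set.mem_ofPred_eq] at hx hy
        apply Fin.ext
        simp only at hxy
        omega)
    simpa using this
  have ha2 := a.2
  omega

theorem card_filter_lt {m k : ℕ} (h : k ≤ m) :
    (univ.filter fun b : Fin m => (b : ℕ) < k).card = k := by
  classical
  have : (univ.filter fun b : Fin m => (b : ℕ) < k) =
      (univ : Finset (Fin k)).map (Fin.castLEEmb h) := by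
    ext b
    simp only [Finset.mem_filter, Finset.mem_univ, true_and, Finset.mem_map, Fin.castLEEmb_apply]
    constructor
    · intro hb; exact ⟨⟨b, hb⟩, rfl⟩
    · rintro ⟨a, rfl⟩; exact a.2
  rw [this, Finset.card_map, Finset.card_univ, Fintype.card_fin]

theorem key_left {n μ k b : ℕ} {x : (Fin (2 * μ) → ℤ) × ((Fin (n + 2) ⊕ Fin (n + 2)) →₀ ℕ)}
    (hx : x ∈ CP n μ k b) (a : Fin (2 * μ)) (ha : (a : ℕ) < μ) (c : ℤ) :
    x.1 a - (a : ℕ) ≤ c ↔ (a : ℕ) < cP c (x.2 + gm n μ x.1) := by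
  classical
  obtain ⟨hρ, hb, _, _, hg⟩ := hx
  have h0 : ∀ a, 0 ≤ x.1 a ∧ x.1 a < (n : ℤ) + μ := fun a => ⟨by have := (hb a).1; omega, (hb a).2⟩
  rw [cP_add, cP_gm hρ h0]
  constructor
  · intro h
    have h1 : (univ.filter fun b : Fin (2 * μ) => (b : ℕ) < (a : ℕ) + 1) ⊆
        univ.filter fun b : Fin (2 * μ) => (b : ℕ) < μ ∧ x.1 b - (b : ℕ) ≤ c := by
      intro b hb
      rw [Finset.mem_filter] at hb ⊢
      have := sm_sub hρ (a := b) (b := a) (by rw [Fin.le_def]; omega)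
      exact ⟨Finset.mem_univ _, by omega, by omega⟩
    have h2 := Finset.card_le_card h1
    rw [card_filter_lt (by have := a.2; omega)] at h2
    omega
  · intro h
    by_contra hcon
    push Not at hcon
    have h1 : cP c x.2 = 0 := by
      unfold cP
      apply Finset.sum_eq_zero
      intro i hi
      rw [Finset.mem_filter] at hi
      by_contra hne
      have h2 := (hg (Sum.inl i) (Finsupp.mem_support_iff.mpr hne)).1
      have h3 := good_left hρ h2 ha
      omega
    have h2 : (univ.filter fun b : Fin (2 * μ) => (b : ℕ) < μ ∧ x.1 b - (b : ℕ) ≤ c) ⊆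
        univ.filter fun b : Fin (2 * μ) => (b : ℕ) < (a : ℕ) := by
      intro b hb
      rw [Finset.mem_filter] at hb ⊢
      refine ⟨Finset.mem_univ _, ?_⟩
      by_contra hh
      push Not at hh
      have := sm_sub hρ (a := a) (b := b) (by rw [Fin.le_def]; omega)
      omega
    have h3 := Finset.card_le_card h2
    rw [card_filter_lt (by have := a.2; omega)] at h3
    omega

theorem card_filter_ge {m k : ℕ} (h : k ≤ m) :
    (univ.filter fun b : Fin m => k ≤ (b : ℕ)).card = m - k := by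
  classical
  have h1 := Finset.card_filter_add_card_filter_not (s := (univ : Finset (Fin m)))
    (fun b : Fin m => (b : ℕ) < k)
  rw [card_filter_lt h, Finset.card_univ, Fintype.card_fin] at h1
  have h2 : (univ.filter fun b : Fin m => ¬ (b : ℕ) < k) =
      univ.filter fun b : Fin m => k ≤ (b : ℕ) := by
    apply Finset.filter_congr
    intro b _
    simp
  rw [h2] at h1
  omega

theorem key_right {n μ k b : ℕ} {x : (Fin (2 * μ) → ℤ) × ((Fin (n + 2) ⊕ Fin (n + 2)) →₀ ℕ)}
    (hx : x ∈ CP n μ k b) (a : Fin (2 * μ)) (ha : ¬ (a : ℕ) < μ) (c : ℤ) :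
    c ≤ x.1 a - (a : ℕ) + μ ↔ 2 * μ - (a : ℕ) ≤ cQ c (x.2 + gm n μ x.1) := by
  classical
  obtain ⟨hρ, hb, _, _, hg⟩ := hx
  have h0 : ∀ a, 0 ≤ x.1 a ∧ x.1 a < (n : ℤ) + μ := fun a => ⟨by have := (hb a).1; omega, (hb a).2⟩
  have ha2 := a.2
  rw [cQ_add, cQ_gm hρ h0]
  constructor
  · intro h
    have h1 : (univ.filter fun b : Fin (2 * μ) => (a : ℕ) ≤ (b : ℕ)) ⊆
        univ.filter fun b : Fin (2 * μ) => ¬ (b : ℕ) < μ ∧ c ≤ x.1 b - (b : ℕ) + μ := by
      intro b hb
      rw [Finset.mem_filter] at hb ⊢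
      have := sm_sub hρ (a := a) (b := b) (by rw [Fin.le_def]; omega)
      exact ⟨Finset.mem_univ _, by omega, by omega⟩
    have h2 := Finset.card_le_card h1
    rw [card_filter_ge (by omega)] at h2
    omega
  · intro h
    by_contra hcon
    push Not at hcon
    have h1 : cQ c x.2 = 0 := by
      unfold cQ
      apply Finset.sum_eq_zero
      intro i hi
      rw [Finset.mem_filter] at hi
      by_contra hne
      have h2 := (hg (Sum.inr i) (Finsupp.mem_support_iff.mpr hne)).1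
      have h3 := good_right hρ h2 hi.2.2 ha
      omega
    have h2 : (univ.filter fun b : Fin (2 * μ) => ¬ (b : ℕ) < μ ∧ c ≤ x.1 b - (b : ℕ) + μ) ⊆
        univ.filter fun b : Fin (2 * μ) => (a : ℕ) + 1 ≤ (b : ℕ) := by
      intro b hb
      rw [Finset.mem_filter] at hb ⊢
      refine ⟨Finset.mem_univ _, ?_⟩
      by_contra hh
      push Not at hh
      have := sm_sub hρ (a := b) (b := a) (by rw [Fin.le_def]; omega)
      omega
    have h3 := Finset.card_le_card h2
    rw [card_filter_ge (by omega)] at h3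
    omega

/-- (5c) canonical pairs are determined by the top monomial -/
theorem CP_inj (n μ b : ℕ) (x y : (Fin (2 * μ) → ℤ) × ((Fin (n + 2) ⊕ Fin (n + 2)) →₀ ℕ))
    (hx : x ∈ CP n μ 0 b) (hy : y ∈ CP n μ 0 b) (h : x.2 + gm n μ x.1 = y.2 + gm n μ y.1) :
    x = y := by
  have h1 : x.1 = y.1 := by
    funext a
    by_cases ha : (a : ℕ) < μ
    · have e1 := (key_left hx a ha (y.1 a - (a : ℕ)))
      have e2 := (key_left hy a ha (y.1 a - (a : ℕ)))
      have e3 := (key_left hx a ha (x.1 a - (a : ℕ)))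
      have e4 := (key_left hy a ha (x.1 a - (a : ℕ)))
      rw [h, ← e2] at e1
      rw [h, ← e4] at e3
      have e5 := e1.mpr le_rfl
      have e6 := e3.mp le_rfl
      omega
    · have e1 := (key_right hx a ha (y.1 a - (a : ℕ) + μ))
      have e2 := (key_right hy a ha (y.1 a - (a : ℕ) + μ))
      have e3 := (key_right hx a ha (x.1 a - (a : ℕ) + μ))
      have e4 := (key_right hy a ha (x.1 a - (a : ℕ) + μ))
      rw [h, ← e2] at e1
      rw [h, ← e4] at e3
      have e5 := e1.mpr le_rfl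
      have e6 := e3.mp le_rfl
      omega
  have h2 : x.2 = y.2 := by
    rw [h1] at h
    exact add_right_cancel h
  exact Prod.ext h1 h2

end HK
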