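import Mathlib

/-! # Module PSer: power series modulo `X^m` -/

namespace HK

namespace PSer

open PowerSeries

variable {R : Type*} [CommRing R]

/-- agreement of the coefficients below `m` -/
def Cg (m : ℕ) (F G : PowerSeries R) : Prop := ∀ i < m, coeff i F = coeff i G

theorem cg_iff {m : ℕ} {F G : PowerSeries R} : Cg m F G ↔ (X : PowerSeries R) ^ m ∣ F - G := by
  rw [X_pow_dvd_iff]
  unfold Cg
  simp only [map_sub, sub_eq_zero]

theorem Cg.refl (m : ℕ) (F : PowerSeries R) : Cg m F F := fun _ _ => rfl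

theorem Cg.symm {m : ℕ} {F G : PowerSeries R} (h : Cg m F G) : Cg m G F :=
  fun i hi => (h i hi).symm

theorem Cg.trans {m : ℕ} {F G H : PowerSeries R} (h : Cg m F G) (h' : Cg m G H) : Cg m F H :=
  fun i hi => (h i hi).trans (h' i hi)

theorem Cg.mono {m m' : ℕ} {F G : PowerSeries R} (h : Cg m F G) (hm : m' ≤ m) : Cg m' F G :=
  fun i hi => h i (lt_of_lt_of_le hi hm)

theorem Cg.add {m : ℕ} {F F' G G' : PowerSeries R} (h : Cg m F F') (h' : Cg m G G') :
    Cg m (F + G) (F' + G') := by
  intro i hi
  rw [map_add, map_add, h i hi, h' i hi]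

theorem Cg.sub {m : ℕ} {F F' G G' : PowerSeries R} (h : Cg m F F') (h' : Cg m G G') :
    Cg m (F - G) (F' - G') := by
  intro i hi
  rw [map_sub, map_sub, h i hi, h' i hi]

theorem Cg.mul {m : ℕ} {F F' G G' : PowerSeries R} (h : Cg m F F') (h' : Cg m G G') :
    Cg m (F * G) (F' * G') := by
  intro i hi
  rw [coeff_mul, coeff_mul]
  apply Finset.sum_congr rfl
  intro x hx
  have hx' := Finset.HasAntidiagonal.mem_antidiagonal.mp hx
  rw [h x.1 (by omega), h' x.2 (by omega)]

theorem Cg.invOfUnit {m : ℕ} {F F' : PowerSeries R} {u : Rˣ} (h : Cg m F F')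
    (hF : constantCoeff F = u) (hF' : constantCoeff F' = u) :
    Cg m (invOfUnit F u) (invOfUnit F' u) := by
  rw [cg_iff] at h ⊢
  have h1 := mul_invOfUnit F u hF
  have h2 := mul_invOfUnit F' u hF'
  have h3 : PowerSeries.invOfUnit F u - PowerSeries.invOfUnit F' u =
      -(F - F') * (PowerSeries.invOfUnit F u * PowerSeries.invOfUnit F' u) := by
    have : -(F - F') * (PowerSeries.invOfUnit F u * PowerSeries.invOfUnit F' u) =
      PowerSeries.invOfUnit F u * (F' * PowerSeries.invOfUnit F' u) -
        (F * PowerSeries.invOfUnit F u) * PowerSeries.invOfUnit F' u := by ring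
    rw [this, h1, h2]
    ring
  rw [h3]
  exact Dvd.dvd.mul_right (by rw [dvd_neg]; exact h) _

/-- uniqueness of the inverse modulo `X^m` -/
theorem Cg.eq_invOfUnit {m : ℕ} {F G : PowerSeries R} {u : Rˣ} (hF : constantCoeff F = u)
    (h : Cg m (F * G) 1) : Cg m G (PowerSeries.invOfUnit F u) := by
  have h1 := (Cg.refl m (PowerSeries.invOfUnit F u)).mul h
  rw [← mul_assoc, invOfUnit_mul F u hF, one_mul, mul_one] at h1
  exact h1

/-- if `F * G` vanishes below `m` and `F` is invertible then `G` vanishes below `m` -/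
theorem Cg.eq_zero {m : ℕ} {F G : PowerSeries R} {u : Rˣ} (hF : constantCoeff F = u)
    (h : Cg m (F * G) 0) : Cg m G 0 := by
  have h1 := (Cg.refl m (PowerSeries.invOfUnit F u)).mul h
  rw [← mul_assoc, invOfUnit_mul F u hF, one_mul, mul_zero] at h1
  exact h1

/-- double inverse -/
theorem invOfUnit_invOfUnit {F : PowerSeries R} {u : Rˣ} (hF : constantCoeff F = u) :
    PowerSeries.invOfUnit (PowerSeries.invOfUnit F u) u⁻¹ = F := by
  have h1 : constantCoeff (PowerSeries.invOfUnit F u) = ((u⁻¹ : Rˣ) : R) :=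
    constantCoeff_invOfUnit F u
  have h2 := mul_invOfUnit (PowerSeries.invOfUnit F u) u⁻¹ h1
  have h3 := mul_invOfUnit F u hF
  calc PowerSeries.invOfUnit (PowerSeries.invOfUnit F u) u⁻¹
      = (F * PowerSeries.invOfUnit F u) *
          PowerSeries.invOfUnit (PowerSeries.invOfUnit F u) u⁻¹ := by rw [h3, one_mul]
    _ = F * (PowerSeries.invOfUnit F u *
          PowerSeries.invOfUnit (PowerSeries.invOfUnit F u) u⁻¹) := by rw [mul_assoc]
    _ = F := by rw [h2, mul_one]

/-- ring homomorphisms map inverses coefficientwise -/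
theorem map_invOfUnit {S : Type*} [CommRing S] (f : R →+* S) {F : PowerSeries R} {u : Rˣ}
    (hF : constantCoeff F = u) :
    PowerSeries.map f (PowerSeries.invOfUnit F u) =
      PowerSeries.invOfUnit (PowerSeries.map f F) (Units.map f u) := by
  have h1 : constantCoeff (PowerSeries.map f F) = ((Units.map (f : R →* S) u : Sˣ) : S) := by
    rw [← coeff_zero_eq_constantCoeff_apply, coeff_map, coeff_zero_eq_constantCoeff_apply, hF]
    rfl
  have h2 := mul_invOfUnit (PowerSeries.map f F) (Units.map f u) h1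
  have h3 : PowerSeries.map f F * PowerSeries.map f (PowerSeries.invOfUnit F u) = 1 := by
    rw [← map_mul, mul_invOfUnit F u hF, map_one]
  calc PowerSeries.map f (PowerSeries.invOfUnit F u)
      = PowerSeries.map f (PowerSeries.invOfUnit F u) *
          (PowerSeries.map f F * PowerSeries.invOfUnit (PowerSeries.map f F) (Units.map f u)) := by
        rw [h2, mul_one]
    _ = (PowerSeries.map f F * PowerSeries.map f (PowerSeries.invOfUnit F u)) *
          PowerSeries.invOfUnit (PowerSeries.map f F) (Units.map f u) := by ring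
    _ = _ := by rw [h3, one_mul]

theorem coeff_map_invOfUnit {S : Type*} [CommRing S] (f : R →+* S) {F : PowerSeries R} {u : Rˣ}
    (hF : constantCoeff F = u) (i : ℕ) :
    f (coeff i (PowerSeries.invOfUnit F u)) =
      coeff i (PowerSeries.invOfUnit (PowerSeries.map f F) (Units.map f u)) := by
  rw [← map_invOfUnit f hF, coeff_map]

/-- `Cg` is preserved by ring homomorphisms -/
theorem Cg.map {S : Type*} [CommRing S] (f : R →+* S) {m : ℕ} {F G : PowerSeries R}
    (h : Cg m F G) : Cg m (PowerSeries.map f F) (PowerSeries.map f G) := by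
  intro i hi
  rw [coeff_map, coeff_map, h i hi]

end PSer

end HK
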