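import Pool.Agent.HK.LocY
import Pool.Agent.HK.PSer
import Pool.Agent.HK.FVan

/-! # Module LocT: the map `Θ` of blueprint section 7 -/

namespace HK

open MvPolynomial Finset

namespace LocY

variable {K : Type*} [Field K]

/-- one half of the computation: the relations `L_i` are killed -/
theorem kill_L {E : Type*} [CommRing E] (n μ : ℕ) (F G U : PowerSeries E)
    (hFG : F * G = 1) (x r : ℤ → E)
    (hU : ∀ j, μ ≤ j → PowerSeries.coeff j U = 0)
    (hUG : ∀ k, n + 2 ≤ k → k < n + μ → PowerSeries.coeff k (U * G) = 0)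
    (hx : ∀ k : ℤ, (n : ℤ) + μ ≤ k → x k = 0) (hr : ∀ k : ℤ, (n : ℤ) + 2 ≤ k → r k = 0)
    (hx1 : ∀ k : ℕ, k < n + μ → x ((n : ℤ) + μ - 1 - k) = PowerSeries.coeff k F)
    (hr1 : ∀ k : ℕ, k < n + 2 → r k = PowerSeries.coeff k (U * G)) (i : ℕ) (hi : i < n) :
    ∑ k ∈ range (n + 2), x (k + i) * r k = 0 := by
  rw [← coeff_mul_eq n μ x r hx hr i (n + μ - 1 - i) (by omega)]
  have h1 : PSer.Cg (n + μ) (PowerSeries.mk (fun k : ℕ => r k)) (U * G) := by
    intro k hk
    rw [PowerSeries.coeff_mk]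
    by_cases h : k < n + 2
    · exact hr1 k h
    · rw [hUG k (by omega) hk, hr k (by omega)]
  have h2 : PSer.Cg (n + μ) (PowerSeries.mk (fun k : ℕ => x ((n : ℤ) + μ - 1 - k))) F := by
    intro k hk
    rw [PowerSeries.coeff_mk, hx1 k hk]
  rw [(h1.mul h2) _ (by omega), mul_assoc, mul_comm G F, hFG, mul_one]
  exact hU _ (by omega)

/-- `Θ` -/
theorem locT (n μ : ℕ) (hμ : 2 ≤ μ) (hn : μ ≤ n + 1) {E : Type*} [CommRing E] [IsDomain E]
    [Algebra K E] (σ : SB K (μ - 2) →ₐ[K] E) (hσ : ∀ z ∈ AA K (μ - 2) (μ - 1), σ z = 0)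
    (F G : PowerSeries E) (hFG : F * G = 1)
    (hG : ∀ j : ℕ, j < 2 * μ - 3 → σ (xx K (μ - 2) j) = PowerSeries.coeff (n + 3 - μ + j) G) :
    ∃ θ : SB K n →ₐ[K] E, (∀ z ∈ AA K n μ, θ z = 0) ∧
      (∀ k : ℕ, k < n + μ → θ (xx K n ((n : ℤ) + μ - 1 - k)) = PowerSeries.coeff k F) ∧
      (∀ k : ℕ, k < n + 2 → θ (pp K n k) = ∑ j ∈ range μ, σ (pp K (μ - 2) ((μ : ℤ) - 1 - j)) *
        (if j ≤ k then PowerSeries.coeff (k - j) G else 0)) ∧
      (∀ k : ℕ, k < n + 2 → θ (qq K n k) = ∑ j ∈ range μ, σ (qq K (μ - 2) ((μ : ℤ) - 1 - j)) *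
        (if j ≤ k then PowerSeries.coeff (k - j) G else 0)) := by
  classical
  set U : PowerSeries E := PowerSeries.mk (fun j : ℕ => σ (pp K (μ - 2) ((μ : ℤ) - 1 - j))) with hU
  set V : PowerSeries E := PowerSeries.mk (fun j : ℕ => σ (qq K (μ - 2) ((μ : ℤ) - 1 - j))) with hV
  have hU0 : ∀ j, μ ≤ j → PowerSeries.coeff j U = 0 := by
    intro j hj
    rw [hU, PowerSeries.coeff_mk, pp_zero (by omega), map_zero]
  have hV0 : ∀ j, μ ≤ j → PowerSeries.coeff j V = 0 := by
    intro j hj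
    rw [hV, PowerSeries.coeff_mk, qq_zero (by omega), map_zero]
  have hUc : ∀ k : ℕ, PowerSeries.coeff k (U * G) =
      ∑ j ∈ range μ, σ (pp K (μ - 2) ((μ : ℤ) - 1 - j)) *
        (if j ≤ k then PowerSeries.coeff (k - j) G else 0) := by
    intro k
    rw [trunc_eq (k + 1) μ U G (fun j h _ => hU0 j h) k (by omega)]
    simp only [hU, PowerSeries.coeff_mk]
  have hVc : ∀ k : ℕ, PowerSeries.coeff k (V * G) =
      ∑ j ∈ range μ, σ (qq K (μ - 2) ((μ : ℤ) - 1 - j)) *
        (if j ≤ k then PowerSeries.coeff (k - j) G else 0) := by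
    intro k
    rw [trunc_eq (k + 1) μ V G (fun j h _ => hV0 j h) k (by omega)]
    simp only [hV, PowerSeries.coeff_mk]
  have hUG : ∀ k, n + 2 ≤ k → k < n + μ → PowerSeries.coeff k (U * G) = 0 := by
    intro k h1 h2
    have h3 := hσ (Lp K (μ - 2) (k - (n + 2)))
      (Ideal.subset_span (Or.inl (Or.inl (Or.inr ⟨_, by omega, rfl⟩))))
    rw [← h3, hUc]
    unfold Lp
    rw [map_sum, show μ - 2 + 2 = μ by omega, ← Finset.sum_range_reflect (n := μ)]
    refine Finset.sum_congr rfl fun j hj => ?_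
    rw [mem_range] at hj
    rw [map_mul, mul_comm]
    congr 1
    · rw [if_pos (by omega)]
      have := hG (j + (k - (n + 2))) (by omega)
      push_cast at this
      rw [this]
      congr 2
      omega
    · congr 2
      omega
  have hVG : ∀ k, n + 2 ≤ k → k < n + μ → PowerSeries.coeff k (V * G) = 0 := by
    intro k h1 h2
    have h3 := hσ (Lq K (μ - 2) (k - (n + 2)))
      (Ideal.subset_span (Or.inl (Or.inr ⟨_, by omega, rfl⟩)))
    rw [← h3, hVc]
    unfold Lq
    rw [map_sum, show μ - 2 + 2 = μ by omega, ← Finset.sum_range_reflect (n := μ)]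
    refine Finset.sum_congr rfl fun j hj => ?_
    rw [mem_range] at hj
    rw [map_mul, mul_comm]
    congr 1
    · rw [if_pos (by omega)]
      have := hG (j + (k - (n + 2))) (by omega)
      push_cast at this
      rw [this]
      congr 2
      omega
    · congr 2
      omega
  set θ : SB K n →ₐ[K] E := aeval (Sum.elim
    (fun k : Fin (2 * n + 1) => if (k : ℕ) < n + μ then PowerSeries.coeff (n + μ - 1 - k) F else 0)
    (Sum.elim (fun k : Fin (n + 2) => PowerSeries.coeff k (U * G))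
      (fun k : Fin (n + 2) => PowerSeries.coeff k (V * G)))) with hθ
  have hx : ∀ k : ℤ, (n : ℤ) + μ ≤ k → θ (xx K n k) = 0 := by
    intro k hk
    unfold xx
    split_ifs with h
    · rw [hθ, aeval_X]
      simp only [Sum.elim_inl]
      rw [if_neg (by omega)]
    · exact map_zero _
  have hx1 : ∀ k : ℕ, k < n + μ → θ (xx K n ((n : ℤ) + μ - 1 - k)) = PowerSeries.coeff k F := by
    intro k hk
    unfold xx
    rw [dif_pos ⟨by omega, by omega⟩, hθ, aeval_X]
    simp only [Sum.elim_inl]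
    rw [if_pos (by omega)]
    congr 2
    omega
  have hp : ∀ k : ℤ, (n : ℤ) + 2 ≤ k → θ (pp K n k) = 0 := fun k hk => by
    rw [pp_zero (by omega), map_zero]
  have hq : ∀ k : ℤ, (n : ℤ) + 2 ≤ k → θ (qq K n k) = 0 := fun k hk => by
    rw [qq_zero (by omega), map_zero]
  have hp1 : ∀ k : ℕ, k < n + 2 → θ (pp K n k) = PowerSeries.coeff k (U * G) := by
    intro k hk
    unfold pp
    rw [dif_pos ⟨by omega, by omega⟩, hθ, aeval_X]
    simp only [Sum.elim_inr, Sum.elim_inl, Int.toNat_natCast]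
  have hq1 : ∀ k : ℕ, k < n + 2 → θ (qq K n k) = PowerSeries.coeff k (V * G) := by
    intro k hk
    unfold qq
    rw [dif_pos ⟨by omega, by omega⟩, hθ, aeval_X]
    simp only [Sum.elim_inr, Int.toNat_natCast]
  have hLp : ∀ i < n, θ (Lp K n i) = 0 := by
    intro i hi
    have := kill_L n μ F G U hFG (fun k => θ (xx K n k)) (fun k => θ (pp K n k)) hU0 hUG hx hp
      hx1 hp1 i hi
    unfold Lp
    rw [map_sum]
    simpa only [map_mul] using this
  have hLq : ∀ i < n, θ (Lq K n i) = 0 := by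
    intro i hi
    have := kill_L n μ F G V hFG (fun k => θ (xx K n k)) (fun k => θ (qq K n k)) hV0 hVG hx hq
      hx1 hq1 i hi
    unfold Lq
    rw [map_sum]
    simpa only [map_mul] using this
  have hF0 : PowerSeries.coeff 0 F * PowerSeries.coeff 0 G = 1 := by
    have := congrArg (PowerSeries.coeff 0) hFG
    simpa using this
  have hne : θ (xx K n ((n : ℤ) + μ - 1)) ≠ 0 := by
    have h1 := hx1 0 (by omega)
    simp only [Nat.cast_zero, sub_zero] at h1
    rw [h1]
    exact left_ne_zero_of_mul_eq_one hF0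
  refine ⟨θ, ?_, hx1, fun k hk => by rw [hp1 k hk, hUc], fun k hk => by rw [hq1 k hk, hVc]⟩
  have hle : AA K n μ ≤ RingHom.ker θ := by
    unfold AA
    rw [Ideal.span_le]
    rintro f (((⟨k, hk, rfl⟩ | ⟨i, hi, rfl⟩) | ⟨i, hi, rfl⟩) | ⟨ρ, rfl⟩)
    · exact hx k hk
    · exact hLp i hi
    · exact hLq i hi
    · exact D_vanish K n μ (by omega) hn (θ : SB K n →+* E) hx hne hLp hLq ρ
  exact fun z hz => hle hz

end LocY

end HK
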