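import Pool.Agent.HK.Defs

/-! # Module LocY: the inverse map of blueprint section 7 -/

namespace HK

open MvPolynomial Finset

namespace LocY

variable {K : Type*} [Field K]

theorem D_top' (K : Type*) [Field K] (n : ℕ) (ρ : Fin (2 * (n + 1)) → ℤ) :
    D K n (n + 1) ρ = 0 := by
  unfold D
  by_cases h : ∀ a, 0 ≤ ρ a ∧ ρ a < (n : ℤ) + (n + 1 : ℕ)
  · have hni : ¬ Function.Injective ρ := by
      intro hinj
      have h1 : (univ.image ρ) ⊆ Finset.Ico (0 : ℤ) (2 * n + 1) := by
        intro x hx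
        rw [mem_image] at hx
        obtain ⟨a, _, rfl⟩ := hx
        rw [mem_Ico]
        have := h a
        push_cast at this
        exact ⟨this.1, by linarith [this.2]⟩
      have h2 := card_le_card h1
      rw [card_image_of_injective _ hinj, Int.card_Ico, card_univ, Fintype.card_fin] at h2
      omega
    rw [Function.not_injective_iff] at hni
    obtain ⟨a, a', h1, h2⟩ := hni
    apply Matrix.det_zero_of_row_eq h2
    funext c
    simp only [Matrix.of_apply, h1]
  · push Not at h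
    obtain ⟨a, ha⟩ := h
    apply Matrix.det_eq_zero_of_row_eq_zero a
    intro c
    simp only [Matrix.of_apply]
    unfold ent
    rw [if_neg]
    rintro ⟨h1, h2⟩
    exact absurd h2 (not_lt.mpr (ha h1))

theorem xx_zero {n : ℕ} {k : ℤ} (h : ¬ (0 ≤ k ∧ k < 2 * n + 1)) : xx K n k = 0 := by
  unfold xx; rw [dif_neg h]

theorem pp_zero {n : ℕ} {k : ℤ} (h : ¬ (0 ≤ k ∧ k < n + 2)) : pp K n k = 0 := by
  unfold pp; rw [dif_neg h]

theorem qq_zero {n : ℕ} {k : ℤ} (h : ¬ (0 ≤ k ∧ k < n + 2)) : qq K n k = 0 := by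
  unfold qq; rw [dif_neg h]

/-- general computation: `ψ` kills `∑_k x_{k+i} r_k` -/
theorem coeff_mul_eq {A : Type*} [CommRing A] (n μ : ℕ) (x r : ℤ → A)
    (hx : ∀ k : ℤ, (n : ℤ) + μ ≤ k → x k = 0) (hr : ∀ k : ℤ, (n : ℤ) + 2 ≤ k → r k = 0)
    (i j : ℕ) (hij : i + j + 1 = n + μ) :
    PowerSeries.coeff j (PowerSeries.mk (fun k : ℕ => r k) *
      PowerSeries.mk (fun k : ℕ => x ((n : ℤ) + μ - 1 - k))) =
      ∑ k ∈ range (n + 2), x (k + i) * r k := by
  rw [PowerSeries.coeff_mul, Finset.Nat.sum_antidiagonal_eq_sum_range_succ_mk]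
  simp only [PowerSeries.coeff_mk]
  have h1 : ∑ k ∈ range (j + 1), r k * x ((n : ℤ) + μ - 1 - (j - k : ℕ)) =
      ∑ k ∈ range (j + 1 + (n + 2)), x (k + i) * r k := by
    rw [Finset.sum_range_add _ (j + 1) (n + 2)]
    rw [Finset.sum_eq_zero (s := range (n + 2))]
    · rw [add_zero]
      refine Finset.sum_congr rfl fun k hk => ?_
      rw [mem_range] at hk
      rw [mul_comm]
      congr 2
      omega
    · intro k _
      rw [hx, zero_mul]
      push_cast
      omega
  have h2 : ∑ k ∈ range (n + 2), x (k + i) * r k =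
      ∑ k ∈ range ((n + 2) + (j + 1)), x (k + i) * r k := by
    rw [Finset.sum_range_add _ (n + 2) (j + 1)]
    rw [Finset.sum_eq_zero (s := range (j + 1))]
    · rw [add_zero]
    · intro k _
      rw [hr, mul_zero]
      push_cast
      omega
  rw [h1, h2, add_comm (j + 1)]

/-- truncated reconstruction: if `S_j = 0` for `μ ≤ j < m` then `coeff k (S * G)` is the truncated
sum for `k < m` -/
theorem trunc_eq {A : Type*} [CommRing A] (m μ : ℕ) (S G : PowerSeries A)
    (hS : ∀ j, μ ≤ j → j < m → PowerSeries.coeff j S = 0) (k : ℕ) (hk : k < m) :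
    PowerSeries.coeff k (S * G) =
      ∑ j ∈ range μ, PowerSeries.coeff j S * (if j ≤ k then PowerSeries.coeff (k - j) G else 0) := by
  rw [PowerSeries.coeff_mul, Finset.Nat.sum_antidiagonal_eq_sum_range_succ_mk]
  have h1 : ∑ j ∈ range (k + 1), PowerSeries.coeff j S * PowerSeries.coeff (k - j) G =
      ∑ j ∈ range (k + 1 + μ), PowerSeries.coeff j S *
        (if j ≤ k then PowerSeries.coeff (k - j) G else 0) := by
    rw [Finset.sum_range_add _ (k + 1) μ]
    rw [Finset.sum_eq_zero (s := range μ)]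
    · rw [add_zero]
      refine Finset.sum_congr rfl fun j hj => ?_
      rw [mem_range] at hj
      rw [if_pos (by omega)]
    · intro j _
      rw [if_neg (by omega), mul_zero]
  have h2 : ∑ j ∈ range μ, PowerSeries.coeff j S *
        (if j ≤ k then PowerSeries.coeff (k - j) G else 0) =
      ∑ j ∈ range (μ + (k + 1)), PowerSeries.coeff j S *
        (if j ≤ k then PowerSeries.coeff (k - j) G else 0) := by
    rw [Finset.sum_range_add _ μ (k + 1)]
    rw [Finset.sum_eq_zero (s := range (k + 1))]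
    · rw [add_zero]
    · intro j _
      by_cases h : μ + j ≤ k
      · rw [hS (μ + j) (by omega) (by omega), zero_mul]
      · rw [if_neg h, mul_zero]
  rw [h2, add_comm μ, ← h1]

/-- the inverse map, in abstract form -/
theorem locY (n μ : ℕ) (hμ : 2 ≤ μ) (hn : μ ≤ n + 1) {A : Type*} [CommRing A] [Algebra K A]
    (ψ : SB K n →ₐ[K] A) (h : ∀ z ∈ AA K n μ, ψ z = 0)
    (hu : IsUnit (ψ (xx K n ((n : ℤ) + μ - 1)))) :
    ∃ (F G : PowerSeries A) (σ : SB K (μ - 2) →ₐ[K] A),
      F * G = 1 ∧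
      (∀ k : ℕ, PowerSeries.coeff k F = ψ (xx K n ((n : ℤ) + μ - 1 - k))) ∧
      (∀ z ∈ AA K (μ - 2) (μ - 1), σ z = 0) ∧
      (∀ j : ℕ, j < 2 * μ - 3 → σ (xx K (μ - 2) j) = PowerSeries.coeff (n + 3 - μ + j) G) ∧
      (∀ k : ℕ, k < n + μ → ψ (pp K n k) = ∑ j ∈ range μ, σ (pp K (μ - 2) ((μ : ℤ) - 1 - j)) *
        (if j ≤ k then PowerSeries.coeff (k - j) G else 0)) ∧
      (∀ k : ℕ, k < n + μ → ψ (qq K n k) = ∑ j ∈ range μ, σ (qq K (μ - 2) ((μ : ℤ) - 1 - j)) *
        (if j ≤ k then PowerSeries.coeff (k - j) G else 0)) := by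
  classical
  obtain ⟨u, hu⟩ := hu
  set F : PowerSeries A := PowerSeries.mk (fun k : ℕ => ψ (xx K n ((n : ℤ) + μ - 1 - k))) with hF
  have hF0 : PowerSeries.constantCoeff F = u := by
    rw [hF, ← PowerSeries.coeff_zero_eq_constantCoeff_apply, PowerSeries.coeff_mk, hu]
    simp
  set G : PowerSeries A := PowerSeries.invOfUnit F u with hG
  have hFG : F * G = 1 := PowerSeries.mul_invOfUnit F u hF0
  set P : PowerSeries A := PowerSeries.mk (fun k : ℕ => ψ (pp K n k)) with hP
  set Q : PowerSeries A := PowerSeries.mk (fun k : ℕ => ψ (qq K n k)) with hQ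
  have hx : ∀ k : ℤ, (n : ℤ) + μ ≤ k → ψ (xx K n k) = 0 := fun k hk =>
    h _ (Ideal.subset_span (Or.inl (Or.inl (Or.inl ⟨k, hk, rfl⟩))))
  have hp : ∀ k : ℤ, (n : ℤ) + 2 ≤ k → ψ (pp K n k) = 0 := fun k hk => by
    rw [pp_zero (by omega), map_zero]
  have hq : ∀ k : ℤ, (n : ℤ) + 2 ≤ k → ψ (qq K n k) = 0 := fun k hk => by
    rw [qq_zero (by omega), map_zero]
  have hPF : ∀ j, μ ≤ j → j < n + μ → PowerSeries.coeff j (P * F) = 0 := by
    intro j h1 h2
    rw [hP, hF, coeff_mul_eq n μ (fun k => ψ (xx K n k)) (fun k => ψ (pp K n k)) hx hp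
      (n + μ - 1 - j) j (by omega)]
    have := h (Lp K n (n + μ - 1 - j))
      (Ideal.subset_span (Or.inl (Or.inl (Or.inr ⟨_, by omega, rfl⟩))))
    unfold Lp at this
    rw [map_sum] at this
    simpa only [map_mul] using this
  have hQF : ∀ j, μ ≤ j → j < n + μ → PowerSeries.coeff j (Q * F) = 0 := by
    intro j h1 h2
    rw [hQ, hF, coeff_mul_eq n μ (fun k => ψ (xx K n k)) (fun k => ψ (qq K n k)) hx hq
      (n + μ - 1 - j) j (by omega)]
    have := h (Lq K n (n + μ - 1 - j))
      (Ideal.subset_span (Or.inl (Or.inr ⟨_, by omega, rfl⟩)))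
    unfold Lq at this
    rw [map_sum] at this
    simpa only [map_mul] using this
  have hPk : ∀ k, k < n + μ → ψ (pp K n k) = ∑ j ∈ range μ, PowerSeries.coeff j (P * F) *
      (if j ≤ k then PowerSeries.coeff (k - j) G else 0) := by
    intro k hk
    rw [← trunc_eq (n + μ) μ (P * F) G hPF k hk, mul_assoc, hFG, mul_one, hP,
      PowerSeries.coeff_mk]
  have hQk : ∀ k, k < n + μ → ψ (qq K n k) = ∑ j ∈ range μ, PowerSeries.coeff j (Q * F) *
      (if j ≤ k then PowerSeries.coeff (k - j) G else 0) := by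
    intro k hk
    rw [← trunc_eq (n + μ) μ (Q * F) G hQF k hk, mul_assoc, hFG, mul_one, hQ,
      PowerSeries.coeff_mk]
  set σ : SB K (μ - 2) →ₐ[K] A := aeval (Sum.elim
    (fun j : Fin (2 * (μ - 2) + 1) => PowerSeries.coeff (n + 3 - μ + j) G)
    (Sum.elim (fun c : Fin (μ - 2 + 2) => PowerSeries.coeff (μ - 1 - c) (P * F))
      (fun c : Fin (μ - 2 + 2) => PowerSeries.coeff (μ - 1 - c) (Q * F)))) with hσ
  have hσx : ∀ j : ℕ, j < 2 * μ - 3 →
      σ (xx K (μ - 2) j) = PowerSeries.coeff (n + 3 - μ + j) G := by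
    intro j hj
    unfold xx
    rw [dif_pos ⟨by omega, by omega⟩, hσ, aeval_X]
    simp
  have hσp : ∀ j : ℕ, j < μ → σ (pp K (μ - 2) ((μ : ℤ) - 1 - j)) =
      PowerSeries.coeff j (P * F) := by
    intro j hj
    unfold pp
    rw [dif_pos ⟨by omega, by omega⟩, hσ, aeval_X]
    simp only [Sum.elim_inr, Sum.elim_inl]
    congr 2
    omega
  have hσq : ∀ j : ℕ, j < μ → σ (qq K (μ - 2) ((μ : ℤ) - 1 - j)) =
      PowerSeries.coeff j (Q * F) := by
    intro j hj
    unfold qq
    rw [dif_pos ⟨by omega, by omega⟩, hσ, aeval_X]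
    simp only [Sum.elim_inr]
    congr 2
    omega
  have hLp : ∀ i, i < μ - 2 → σ (Lp K (μ - 2) i) = 0 := by
    intro i hi
    have h1 := hPk (n + 2 + i) (by omega)
    rw [hp _ (by push_cast; omega)] at h1
    rw [h1]
    unfold Lp
    rw [map_sum, show μ - 2 + 2 = μ by omega, ← Finset.sum_range_reflect]
    refine Finset.sum_congr rfl fun j hj => ?_
    rw [mem_range] at hj
    rw [map_mul, mul_comm]
    congr 1
    · rw [← hσp j hj]
      congr 2
      omega
    · rw [if_pos (by omega)]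
      have := hσx (μ - 1 - j + i) (by omega)
      push_cast at this
      rw [this]
      congr 2
      omega
  have hLq : ∀ i, i < μ - 2 → σ (Lq K (μ - 2) i) = 0 := by
    intro i hi
    have h1 := hQk (n + 2 + i) (by omega)
    rw [hq _ (by push_cast; omega)] at h1
    rw [h1]
    unfold Lq
    rw [map_sum, show μ - 2 + 2 = μ by omega, ← Finset.sum_range_reflect]
    refine Finset.sum_congr rfl fun j hj => ?_
    rw [mem_range] at hj
    rw [map_mul, mul_comm]
    congr 1
    · rw [← hσq j hj]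
      congr 2
      omega
    · rw [if_pos (by omega)]
      have := hσx (μ - 1 - j + i) (by omega)
      push_cast at this
      rw [this]
      congr 2
      omega
  refine ⟨F, G, σ, hFG, fun k => by rw [hF, PowerSeries.coeff_mk], ?_, hσx, ?_, ?_⟩
  · have hle : AA K (μ - 2) (μ - 1) ≤ RingHom.ker σ := by
      unfold AA
      rw [Ideal.span_le]
      rintro f (((⟨k, hk, rfl⟩ | ⟨i, hi, rfl⟩) | ⟨i, hi, rfl⟩) | ⟨ρ, rfl⟩)
      · have : xx K (μ - 2) k = 0 := xx_zero (by omega)
        rw [this]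
        exact Ideal.zero_mem _
      · exact hLp i hi
      · exact hLq i hi
      · have h1 : ∀ (ν : ℕ), ν = μ - 2 + 1 → ∀ ρ : Fin (2 * ν) → ℤ, D K (μ - 2) ν ρ = 0 := by
          rintro _ rfl ρ
          exact D_top' K (μ - 2) ρ
        rw [h1 (μ - 1) (by omega) ρ]
        exact Ideal.zero_mem _
    exact fun z hz => hle hz
  · intro k hk
    rw [hPk k hk]
    exact Finset.sum_congr rfl fun j hj => by rw [hσp j (mem_range.1 hj)]
  · intro k hk
    rw [hQk k hk]
    exact Finset.sum_congr rfl fun j hj => by rw [hσq j (mem_range.1 hj)]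

end LocY

end HK
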