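import Pool.Agent.HK.Canc

/-! # Module StepA: blueprint (5a) -/

namespace HK

open MvPolynomial Finset

section
variable {K : Type*} [Field K] {n μ : ℕ}

/-- the span of the good products -/
noncomputable def goodSpan (K : Type*) [Field K] (n μ : ℕ) : Submodule K (SB K n) :=
  Submodule.span K
      {f | ∃ (ρ' : Fin (2 * μ) → ℤ) (v' : Fin (n + 2) ⊕ Fin (n + 2)), StrictMono ρ' ∧
        (∀ a, 0 ≤ ρ' a ∧ ρ' a < (n : ℤ) + μ) ∧ good n μ ρ' v' ∧
        f = X (Sum.inr v') * D K n μ ρ'}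

theorem D_eq_zero_of_out (ρ : Fin (2 * μ) → ℤ) (a : Fin (2 * μ))
    (h : ¬ (0 ≤ ρ a ∧ ρ a < (n : ℤ) + μ)) : D K n μ ρ = 0 := by
  unfold D
  apply Matrix.det_eq_zero_of_row_eq_zero a
  intro j
  simp only [Matrix.of_apply, ent, if_neg h]

theorem D_eq_zero_of_not_injective (ρ : Fin (2 * μ) → ℤ) (h : ¬ Function.Injective ρ) :
    D K n μ ρ = 0 := by
  unfold D
  rw [Function.Injective] at h
  push Not at h
  obtain ⟨a, b, hab, hne⟩ := h
  apply Matrix.det_zero_of_row_eq hne
  funext j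
  simp only [Matrix.of_apply, hab]

theorem D_comp_perm (ρ : Fin (2 * μ) → ℤ) (σ : Equiv.Perm (Fin (2 * μ))) :
    D K n μ (ρ ∘ σ) = ((Equiv.Perm.sign σ : ℤ) : SB K n) * D K n μ ρ := by
  unfold D
  rw [← Matrix.det_permute]
  rfl

/-- reduction to strictly increasing rows in the range -/
theorem mem_of_sorted (G : Submodule K (SB K n)) (y : SB K n)
    (h : ∀ ρ : Fin (2 * μ) → ℤ, StrictMono ρ → (∀ a, 0 ≤ ρ a ∧ ρ a < (n : ℤ) + μ) →
      y * D K n μ ρ ∈ G) (ρ : Fin (2 * μ) → ℤ) : y * D K n μ ρ ∈ G := by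
  by_cases hin : ∀ a, 0 ≤ ρ a ∧ ρ a < (n : ℤ) + μ
  · by_cases hinj : Function.Injective ρ
    · have hm : StrictMono (ρ ∘ Tuple.sort ρ) :=
        (Tuple.monotone_sort ρ).strictMono_of_injective
          (hinj.comp (Tuple.sort ρ).injective)
      have h1 := h (ρ ∘ Tuple.sort ρ) hm (fun a => hin _)
      rw [D_comp_perm] at h1
      rcases Int.units_eq_one_or (Equiv.Perm.sign (Tuple.sort ρ)) with h2 | h2
      · rw [h2] at h1
        simpa using h1
      · rw [h2] at h1
        have h3 := G.neg_mem h1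
        simpa using h3
    · rw [D_eq_zero_of_not_injective ρ hinj, mul_zero]
      exact G.zero_mem
  · push Not at hin
    obtain ⟨a, ha⟩ := hin
    rw [D_eq_zero_of_out ρ a (by intro h'; exact absurd h'.2 (not_lt.mpr (ha h'.1))), mul_zero]
    exact G.zero_mem

/-- the key alternating sum over subsets of `S` -/
theorem key (S : Finset (Fin (2 * μ))) (ρ : Fin (2 * μ) → ℤ) (t ε : ℤ) (col : ℕ → ℕ)
    (G : Submodule K (SB K n))
    (h1 : ∀ k ≤ S.card, col k < 2 * μ)
    (h2 : ∀ b ∉ S, ∀ k ≤ S.card, ∀ ρ' : Fin (2 * μ) → ℤ,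
      ent K n μ (ρ b) (col k) * D K n μ ρ' ∈ G)
    (h3 : ∀ b ∈ S, ∀ k < S.card, ∀ ρ' : Fin (2 * μ) → ℤ,
      (ent K n μ (ρ b) (col k) - ent K n μ (ρ b + ε) (col (k + 1))) * D K n μ ρ' ∈ G)
    (h4 : ∀ k, 1 ≤ k → k ≤ S.card → ∀ ρ' : Fin (2 * μ) → ℤ,
      ent K n μ t (col k) * D K n μ ρ' ∈ G) :
    ent K n μ t (col 0) * D K n μ ρ ∈ G := by
  classical
  -- shifted rows
  set R : Finset (Fin (2 * μ)) → Fin (2 * μ) → ℤ := fun J a => ρ a + if a ∈ J then ε else 0 with hR
  set T : Finset (Fin (2 * μ)) → Fin (2 * μ + 1) → ℤ := fun J => Fin.cons t (R J) with hT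
  set E : Finset (Fin (2 * μ)) → Fin (2 * μ) → SB K n := fun J b =>
    ent K n μ (R J b) (col J.card) * D K n μ (fun b' => T J (b.succ.succAbove b')) with hE
  have hrel : ∀ J ⊆ S, ent K n μ t (col J.card) * D K n μ (R J) =
      ∑ b : Fin (2 * μ), (-1 : SB K n) ^ (b : ℕ) * E J b := by
    intro J hJ
    have := rel (K := K) n μ (col J.card) (h1 _ (card_le_card hJ)) (T J)
    rw [Fin.sum_univ_succ] at this
    simp only [Fin.val_zero, pow_zero, one_mul, Fin.zero_succAbove, hT, Fin.cons_zero,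
      Fin.cons_succ, Fin.val_succ] at this
    have h5 := eq_neg_of_add_eq_zero_left this
    rw [h5, ← Finset.sum_neg_distrib]
    apply Finset.sum_congr rfl
    intro b _
    simp only [hE, hT]
    rw [pow_succ]
    ring
  -- the alternating sum
  have hsum : ∑ J ∈ S.powerset, (-1 : SB K n) ^ J.card *
      (ent K n μ t (col J.card) * D K n μ (R J)) ∈ G := by
    have e1 : ∑ J ∈ S.powerset, (-1 : SB K n) ^ J.card *
        (ent K n μ t (col J.card) * D K n μ (R J)) =
        ∑ b : Fin (2 * μ), (-1 : SB K n) ^ (b : ℕ) *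
          ∑ J ∈ S.powerset, (-1 : SB K n) ^ J.card * E J b := by
      rw [Finset.sum_congr rfl (fun J hJ => by rw [hrel J (mem_powerset.mp hJ), Finset.mul_sum])]
      rw [Finset.sum_comm]
      apply Finset.sum_congr rfl
      intro b _
      rw [Finset.mul_sum]
      apply Finset.sum_congr rfl
      intro J _
      ring
    rw [e1]
    have sgn : ∀ (k : ℕ) (y : SB K n), y ∈ G → (-1 : SB K n) ^ k * y ∈ G := by
      intro k y hy
      rcases neg_one_pow_eq_or (SB K n) k with h | h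
      · rw [h, one_mul]; exact hy
      · rw [h, neg_one_mul]; exact G.neg_mem hy
    apply G.sum_mem
    intro b _
    apply sgn
    by_cases hb : b ∈ S
    · have hins : S = insert b (S.erase b) := (Finset.insert_erase hb).symm
      have e2 : ∑ J ∈ S.powerset, (-1 : SB K n) ^ J.card * E J b =
          ∑ J ∈ (S.erase b).powerset, (-1 : SB K n) ^ J.card * (E J b - E (insert b J) b) := by
        conv_lhs => rw [hins]
        rw [Finset.sum_powerset_insert (Finset.notMem_erase b S), ← Finset.sum_add_distrib]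
        apply Finset.sum_congr rfl
        intro J hJ
        have hbJ : b ∉ J := fun h => Finset.notMem_erase b S (mem_powerset.mp hJ h)
        rw [Finset.card_insert_of_notMem hbJ, pow_succ]
        ring
      rw [e2]
      apply G.sum_mem
      intro J hJ
      apply sgn
      have hJ' := mem_powerset.mp hJ
      have hbJ : b ∉ J := fun h => Finset.notMem_erase b S (hJ' h)
      have hcard : J.card < S.card :=
        lt_of_le_of_lt (card_le_card hJ') (Finset.card_erase_lt_of_mem hb)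
      have hTeq : (fun b' => T (insert b J) (b.succ.succAbove b')) =
          fun b' => T J (b.succ.succAbove b') := by
        funext b'
        have hne := Fin.succAbove_ne b.succ b'
        generalize b.succ.succAbove b' = x at hne
        revert hne
        refine Fin.cases ?_ (fun a => ?_) x
        · intro _
          simp only [hT, Fin.cons_zero]
        · intro hne
          have hab : a ≠ b := fun h => hne (by rw [h])
          simp only [hT, hR, Fin.cons_succ, Finset.mem_insert, hab, false_or]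
      have e3 : E J b - E (insert b J) b = (ent K n μ (ρ b) (col J.card) -
          ent K n μ (ρ b + ε) (col (J.card + 1))) *
            D K n μ (fun b' => T J (b.succ.succAbove b')) := by
        simp only [hE]
        rw [hTeq, Finset.card_insert_of_notMem hbJ]
        simp only [hR, if_neg hbJ, if_pos (Finset.mem_insert_self b J), add_zero]
        ring
      rw [e3]
      exact h3 b hb _ hcard _
    · apply G.sum_mem
      intro J hJ
      apply sgn
      have hJ' := mem_powerset.mp hJ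
      have hbJ : b ∉ J := fun h => hb (hJ' h)
      simp only [hE, hR, if_neg hbJ, add_zero]
      exact h2 b hb _ (card_le_card hJ') _
  have hmem : (∅ : Finset (Fin (2 * μ))) ∈ S.powerset := Finset.empty_mem_powerset S
  rw [← Finset.add_sum_erase _ _ hmem] at hsum
  have hrest : ∑ J ∈ S.powerset.erase ∅, (-1 : SB K n) ^ J.card *
      (ent K n μ t (col J.card) * D K n μ (R J)) ∈ G := by
    apply G.sum_mem
    intro J hJ
    rw [Finset.mem_erase] at hJ
    have h5 := h4 J.card (Finset.card_pos.mpr (Finset.nonempty_iff_ne_empty.mpr hJ.1))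
      (card_le_card (mem_powerset.mp hJ.2)) (R J)
    rcases neg_one_pow_eq_or (SB K n) J.card with h | h
    · rw [h, one_mul]; exact h5
    · rw [h, neg_one_mul]; exact G.neg_mem h5
  have h6 := G.sub_mem hsum hrest
  have hRe : R ∅ = ρ := by
    funext a
    simp [hR]
  simpa [hRe] using h6

theorem pp_eq_zero (c : ℤ) (h : ¬ (0 ≤ c ∧ c < (n : ℤ) + 2)) : pp K n c = 0 := by
  unfold pp
  rw [dif_neg]
  intro h'
  exact h (by omega)

theorem qq_eq_zero (c : ℤ) (h : ¬ (0 ≤ c ∧ c < (n : ℤ) + 2)) : qq K n c = 0 := by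
  unfold qq
  rw [dif_neg]
  intro h'
  exact h (by omega)

theorem ent_p (r : ℤ) (c : ℕ) (hr : 0 ≤ r ∧ r < (n : ℤ) + μ) (hc : c < μ) :
    ent K n μ r c = pp K n (r - c) := by
  simp only [ent, if_pos hr, if_pos hc]

theorem ent_q (r : ℤ) (c : ℕ) (hr : 0 ≤ r ∧ r < (n : ℤ) + μ) :
    ent K n μ r (μ + c) = qq K n (r - c) := by
  have h1 : ¬ (μ + c < μ) := by omega
  simp only [ent, if_pos hr, if_neg h1, Nat.add_sub_cancel_left]

theorem ent_out (r : ℤ) (c : ℕ) (hr : ¬ (0 ≤ r ∧ r < (n : ℤ) + μ)) :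
    ent K n μ r c = 0 := by
  simp only [ent, if_neg hr]

theorem good_mem (ρ : Fin (2 * μ) → ℤ) (v : Fin (n + 2) ⊕ Fin (n + 2)) (hρ : StrictMono ρ)
    (hin : ∀ a, 0 ≤ ρ a ∧ ρ a < (n : ℤ) + μ) (hg : good n μ ρ v) :
    (X (Sum.inr v) * D K n μ ρ : SB K n) ∈ goodSpan K n μ :=
  Submodule.subset_span ⟨ρ, v, hρ, hin, hg, rfl⟩

theorem card_first (hμ : 1 ≤ μ) :
    (univ.filter fun a : Fin (2 * μ) => (a : ℕ) + 1 < μ).card = μ - 1 := by
  have h : (univ.filter fun a : Fin (2 * μ) => (a : ℕ) + 1 < μ) =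
      Finset.Iio (⟨μ - 1, by omega⟩ : Fin (2 * μ)) := by
    ext a
    simp only [mem_filter, mem_univ, true_and, Finset.mem_Iio, Fin.lt_def]
    omega
  rw [h, Fin.card_Iio]

theorem card_last (hμ : 1 ≤ μ) :
    (univ.filter fun a : Fin (2 * μ) => μ < (a : ℕ)).card = μ - 1 := by
  have h : (univ.filter fun a : Fin (2 * μ) => μ < (a : ℕ)) =
      Finset.Ioi (⟨μ, by omega⟩ : Fin (2 * μ)) := by
    ext a
    simp only [mem_filter, mem_univ, true_and, Finset.mem_Ioi, Fin.lt_def]
  rw [h, Fin.card_Ioi]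
  simp only
  omega

theorem pstep (hμ : 1 ≤ μ) (c : ℤ)
    (IH : ∀ c' : ℤ, c < c' → ∀ ρ : Fin (2 * μ) → ℤ, pp K n c' * D K n μ ρ ∈ goodSpan K n μ) :
    ∀ ρ : Fin (2 * μ) → ℤ, pp K n c * D K n μ ρ ∈ goodSpan K n μ := by
  classical
  by_cases hc : 0 ≤ c ∧ c < (n : ℤ) + 2
  swap
  · intro ρ
    rw [pp_eq_zero c hc, zero_mul]
    exact Submodule.zero_mem _
  apply mem_of_sorted
  intro ρ hρ hin
  have hpp : pp K n c = X (Sum.inr (Sum.inl ⟨c.toNat, by omega⟩)) := by
    unfold pp
    rw [dif_pos hc]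
  by_cases hg : good n μ ρ (Sum.inl ⟨c.toNat, by omega⟩)
  · rw [hpp]
    exact good_mem ρ _ hρ hin hg
  have hcn : c ≤ n := by
    by_contra hcon
    apply hg
    show μ ≤ (univ.filter fun a => ρ a ≤ ((c.toNat : ℕ) : ℤ) + μ - 1).card
    have h1 : (univ.filter fun a => ρ a ≤ ((c.toNat : ℕ) : ℤ) + μ - 1) = univ := by
      apply Finset.filter_true_of_mem
      intro a _
      have := hin a
      omega
    rw [h1, Finset.card_univ, Fintype.card_fin]
    omega
  have hbig : ∀ b : Fin (2 * μ), ¬ ((b : ℕ) + 1 < μ) → c + μ ≤ ρ b := by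
    intro b hb
    by_contra hcon
    apply hg
    show μ ≤ (univ.filter fun a => ρ a ≤ ((c.toNat : ℕ) : ℤ) + μ - 1).card
    have h1 : Finset.Iic b ⊆ (univ.filter fun a => ρ a ≤ ((c.toNat : ℕ) : ℤ) + μ - 1) := by
      intro a ha
      rw [Finset.mem_Iic] at ha
      rw [Finset.mem_filter]
      refine ⟨mem_univ _, ?_⟩
      have := hρ.monotone ha
      omega
    have h2 := card_le_card h1
    rw [Fin.card_Iic] at h2
    omega
  have hcard := card_first (μ := μ) hμ
  have := key (K := K) (n := n) (univ.filter fun a : Fin (2 * μ) => (a : ℕ) + 1 < μ) ρ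
    (c + μ - 1) (-1) (fun k => μ - 1 - k) (goodSpan K n μ) ?_ ?_ ?_ ?_
  · have h0 : ent K n μ (c + μ - 1) (μ - 1 - 0) = pp K n c := by
      rw [ent_p _ _ (by omega) (by omega)]
      congr 1
      omega
    rw [h0] at this
    exact this
  · intro k hk
    show μ - 1 - k < 2 * μ
    omega
  · intro b hb k hk ρ'
    rw [hcard] at hk
    simp only [mem_filter, mem_univ, true_and] at hb
    have h1 := hbig b hb
    show ent K n μ (ρ b) (μ - 1 - k) * D K n μ ρ' ∈ goodSpan K n μ
    rw [ent_p _ _ (hin b) (by omega)]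
    apply IH
    omega
  · intro b hb k hk ρ'
    rw [hcard] at hk
    show (ent K n μ (ρ b) (μ - 1 - k) - ent K n μ (ρ b + -1) (μ - 1 - (k + 1))) *
      D K n μ ρ' ∈ goodSpan K n μ
    have h1 := hin b
    have h2 : ent K n μ (ρ b) (μ - 1 - k) = ent K n μ (ρ b + -1) (μ - 1 - (k + 1)) := by
      rw [ent_p _ _ h1 (by omega)]
      by_cases h3 : 1 ≤ ρ b
      · rw [ent_p _ _ (by omega) (by omega)]
        congr 1
        omega
      · rw [ent_out _ _ (by omega)]
        apply pp_eq_zero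
        omega
    rw [h2, sub_self, zero_mul]
    exact Submodule.zero_mem _
  · intro k hk1 hk ρ'
    rw [hcard] at hk
    show ent K n μ (c + μ - 1) (μ - 1 - k) * D K n μ ρ' ∈ goodSpan K n μ
    rw [ent_p _ _ (by omega) (by omega)]
    apply IH
    omega

theorem qlast (hμ : 1 ≤ μ) (ρ : Fin (2 * μ) → ℤ) :
    qq K n ((n : ℤ) + 1) * D K n μ ρ ∈ goodSpan K n μ := by
  apply mem_of_sorted
  intro ρ hρ hin
  have hqq : qq K n ((n : ℤ) + 1) =
      X (Sum.inr (Sum.inr ⟨((n : ℤ) + 1).toNat, by omega⟩)) := by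
    unfold qq
    rw [dif_pos (by omega)]
  rw [hqq]
  apply good_mem ρ _ hρ hin
  left
  show ((n : ℤ) + 1).toNat = n + 1
  omega

theorem qstep (hμ : 1 ≤ μ) (c : ℤ)
    (IH : ∀ c' : ℤ, c' < c → ∀ ρ : Fin (2 * μ) → ℤ, qq K n c' * D K n μ ρ ∈ goodSpan K n μ) :
    ∀ ρ : Fin (2 * μ) → ℤ, qq K n c * D K n μ ρ ∈ goodSpan K n μ := by
  classical
  by_cases hc : 0 ≤ c ∧ c < (n : ℤ) + 2
  swap
  · intro ρ
    rw [qq_eq_zero c hc, zero_mul]
    exact Submodule.zero_mem _
  apply mem_of_sorted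
  intro ρ hρ hin
  have hqq : qq K n c = X (Sum.inr (Sum.inr ⟨c.toNat, by omega⟩)) := by
    unfold qq
    rw [dif_pos hc]
  by_cases hg : good n μ ρ (Sum.inr ⟨c.toNat, by omega⟩)
  · rw [hqq]
    exact good_mem ρ _ hρ hin hg
  have hcn : c ≤ n := by
    by_contra hcon
    apply hg
    left
    show c.toNat = n + 1
    omega
  have hsmall : ∀ b : Fin (2 * μ), ¬ (μ < (b : ℕ)) → ρ b < c := by
    intro b hb
    by_contra hcon
    apply hg
    right
    show μ ≤ (univ.filter fun a => ((c.toNat : ℕ) : ℤ) ≤ ρ a).card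
    have h1 : Finset.Ici b ⊆ (univ.filter fun a => ((c.toNat : ℕ) : ℤ) ≤ ρ a) := by
      intro a ha
      rw [Finset.mem_Ici] at ha
      rw [Finset.mem_filter]
      refine ⟨mem_univ _, ?_⟩
      have := hρ.monotone ha
      omega
    have h2 := card_le_card h1
    rw [Fin.card_Ici] at h2
    omega
  have hcard := card_last (μ := μ) hμ
  have := key (K := K) (n := n) (univ.filter fun a : Fin (2 * μ) => μ < (a : ℕ)) ρ
    c 1 (fun k => μ + k) (goodSpan K n μ) ?_ ?_ ?_ ?_
  · have h0 : ent K n μ c (μ + 0) = qq K n c := by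
      rw [ent_q _ _ (by omega)]
      congr 1
      omega
    rw [h0] at this
    exact this
  · intro k hk
    rw [hcard] at hk
    show μ + k < 2 * μ
    omega
  · intro b hb k hk ρ'
    rw [hcard] at hk
    simp only [mem_filter, mem_univ, true_and] at hb
    have h1 := hsmall b hb
    show ent K n μ (ρ b) (μ + k) * D K n μ ρ' ∈ goodSpan K n μ
    rw [ent_q _ _ (hin b)]
    apply IH
    omega
  · intro b hb k hk ρ'
    rw [hcard] at hk
    show (ent K n μ (ρ b) (μ + k) - ent K n μ (ρ b + 1) (μ + (k + 1))) *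
      D K n μ ρ' ∈ goodSpan K n μ
    have h1 := hin b
    rw [ent_q _ _ h1]
    by_cases h3 : ρ b + 1 < (n : ℤ) + μ
    · rw [ent_q _ _ (by omega)]
      have h4 : ρ b - (k : ℤ) = ρ b + 1 - ((k + 1 : ℕ) : ℤ) := by push_cast; ring
      rw [h4, sub_self, zero_mul]
      exact Submodule.zero_mem _
    · rw [ent_out _ _ (by omega), sub_zero]
      by_cases h5 : ρ b - (k : ℤ) = (n : ℤ) + 1
      · rw [h5]
        exact qlast hμ ρ'
      · rw [qq_eq_zero _ (by omega), zero_mul]
        exact Submodule.zero_mem _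
  · intro k hk1 hk ρ'
    rw [hcard] at hk
    show ent K n μ c (μ + k) * D K n μ ρ' ∈ goodSpan K n μ
    rw [ent_q _ _ (by omega)]
    apply IH
    omega

theorem pall (hμ : 1 ≤ μ) (c : ℤ) (ρ : Fin (2 * μ) → ℤ) :
    pp K n c * D K n μ ρ ∈ goodSpan K n μ := by
  have h : ∀ d : ℕ, ∀ c : ℤ, (n : ℤ) + 2 - c ≤ d → ∀ ρ : Fin (2 * μ) → ℤ,
      pp K n c * D K n μ ρ ∈ goodSpan K n μ := by
    intro d
    induction d with
    | zero =>
      intro c hc ρ
      rw [pp_eq_zero c (by omega), zero_mul]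
      exact Submodule.zero_mem _
    | succ d ih =>
      intro c hc
      apply pstep hμ c
      intro c' hc' ρ
      exact ih c' (by omega) ρ
  exact h ((n : ℤ) + 2 - c).toNat c (by omega) ρ

theorem qall (hμ : 1 ≤ μ) (c : ℤ) (ρ : Fin (2 * μ) → ℤ) :
    qq K n c * D K n μ ρ ∈ goodSpan K n μ := by
  have h : ∀ d : ℕ, ∀ c : ℤ, c + 1 ≤ d → ∀ ρ : Fin (2 * μ) → ℤ,
      qq K n c * D K n μ ρ ∈ goodSpan K n μ := by
    intro d
    induction d with
    | zero =>
      intro c hc ρ
      rw [qq_eq_zero c (by omega), zero_mul]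
      exact Submodule.zero_mem _
    | succ d ih =>
      intro c hc
      apply qstep hμ c
      intro c' hc' ρ
      exact ih c' (by omega) ρ
  exact h (c + 1).toNat c (by omega) ρ

end

theorem stepA (K : Type*) [Field K] (n μ : ℕ) (hμ : 1 ≤ μ) (hn : μ ≤ n)
    (ρ : Fin (2 * μ) → ℤ) (v : Fin (n + 2) ⊕ Fin (n + 2)) :
    (X (Sum.inr v) * D K n μ ρ : SB K n) ∈ Submodule.span K
      {f | ∃ (ρ' : Fin (2 * μ) → ℤ) (v' : Fin (n + 2) ⊕ Fin (n + 2)), StrictMono ρ' ∧
        (∀ a, 0 ≤ ρ' a ∧ ρ' a < (n : ℤ) + μ) ∧ good n μ ρ' v' ∧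
        f = X (Sum.inr v') * D K n μ ρ'} := by
  rcases v with c | c
  · have h := pall (K := K) (n := n) hμ (c : ℕ) ρ
    have h1 : pp K n ((c : ℕ) : ℤ) = X (Sum.inr (Sum.inl c)) := by
      unfold pp
      rw [dif_pos (by have := c.2; omega)]
      congr 3
    rw [h1] at h
    exact h
  · have h := qall (K := K) (n := n) hμ (c : ℕ) ρ
    have h1 : qq K n ((c : ℕ) : ℤ) = X (Sum.inr (Sum.inr c)) := by
      unfold qq
      rw [dif_pos (by have := c.2; omega)]
      congr 3
    rw [h1] at h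
    exact h

end HK
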