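import Pool.Agent.HK.StepA
import Pool.Agent.HK.Lead
import Pool.Agent.HK.Cnt

/-! # Module StepB, auxiliary lemmas -/

namespace HK

open MvPolynomial Finset

section mono

variable (K : Type*) [Field K] (n : ℕ)

theorem sb_mono_mul (u u' : (Fin (n + 2) ⊕ Fin (n + 2)) →₀ ℕ) :
    mono K n u * mono K n u' = mono K n (u + u') := by
  unfold mono
  rw [monomial_mul, mul_one, Finsupp.mapDomain_add]

theorem sb_mono_zero : mono K n 0 = 1 := by
  unfold mono
  simp

theorem sb_mono_single (v : Fin (n + 2) ⊕ Fin (n + 2)) :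
    mono K n (Finsupp.single v 1) = X (Sum.inr v) := by
  unfold mono
  rw [Finsupp.mapDomain_single]
  rfl

theorem sb_weight_mapDomain (u : (Fin (n + 2) ⊕ Fin (n + 2)) →₀ ℕ) :
    Finsupp.weight (wt n) (u.mapDomain Sum.inr) = (0, u.degree) := by
  induction u using Finsupp.induction_linear with
  | zero =>
    rw [Finsupp.mapDomain_zero, map_zero, map_zero]
    rfl
  | add f g hf hg =>
    rw [Finsupp.mapDomain_add, map_add, hf, hg, map_add]
    simp
  | single a b =>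
    rw [Finsupp.mapDomain_single, Finsupp.weight_single]
    simp [wt, Finsupp.degree_single]

theorem sb_mono_mem_bih (u : (Fin (n + 2) ⊕ Fin (n + 2)) →₀ ℕ) {d : ℕ} (h : u.degree = d) :
    mono K n u ∈ bih K n 0 d := by
  unfold mono bih
  rw [mem_weightedHomogeneousSubmodule]
  refine isWeightedHomogeneous_monomial _ _ _ ?_
  rw [sb_weight_mapDomain, h]

theorem sb_exists_mapDomain (w : Vr n →₀ ℕ) {d : ℕ} (h : Finsupp.weight (wt n) w = (0, d)) :
    ∃ u : (Fin (n + 2) ⊕ Fin (n + 2)) →₀ ℕ, u.degree = d ∧ w = u.mapDomain Sum.inr := by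
  have h0 : ∀ i, w (Sum.inl i) = 0 := by
    intro i
    by_contra hne
    have h1 := congrArg Prod.fst h
    rw [Finsupp.weight_apply, Finsupp.sum] at h1
    rw [Prod.fst_sum] at h1
    have h2 := Finset.sum_eq_zero_iff.1 h1 (Sum.inl i) (Finsupp.mem_support_iff.2 hne)
    simp [wt] at h2
    exact hne h2
  have hw : w = (w.comapDomain Sum.inr Sum.inr_injective.injOn).mapDomain Sum.inr := by
    ext v
    cases v with
    | inl i =>
      rw [h0, Finsupp.mapDomain_of_notMem_range]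
      simp
    | inr v =>
      rw [Finsupp.mapDomain_apply Sum.inr_injective, Finsupp.comapDomain_apply]
  refine ⟨w.comapDomain Sum.inr Sum.inr_injective.injOn, ?_, hw⟩
  rw [hw, sb_weight_mapDomain] at h
  exact congrArg Prod.snd h

theorem sb_bih_le (d : ℕ) :
    bih K n 0 d ≤ Submodule.span K {f | ∃ u : (Fin (n + 2) ⊕ Fin (n + 2)) →₀ ℕ,
      u.degree = d ∧ f = mono K n u} := by
  intro f hf
  unfold bih at hf
  rw [mem_weightedHomogeneousSubmodule] at hf
  rw [f.as_sum]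
  refine Submodule.sum_mem _ fun w hw => ?_
  obtain ⟨u, hu, rfl⟩ := sb_exists_mapDomain n w (hf (mem_support_iff.1 hw))
  have : (monomial (u.mapDomain Sum.inr)) (coeff (u.mapDomain Sum.inr) f) =
      coeff (u.mapDomain Sum.inr) f • mono K n u := by
    unfold mono
    rw [smul_monomial, smul_eq_mul, mul_one]
  rw [this]
  exact Submodule.smul_mem _ _ (Submodule.subset_span ⟨u, hu, rfl⟩)

end mono

section D

variable (K : Type*) [Field K] (n μ : ℕ)

theorem sb_D_out (ρ : Fin (2 * μ) → ℤ) (a : Fin (2 * μ)) (h : ¬(0 ≤ ρ a ∧ ρ a < (n : ℤ) + μ)) :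
    D K n μ ρ = 0 := by
  unfold D
  refine Matrix.det_eq_zero_of_row_eq_zero a fun c => ?_
  rw [Matrix.of_apply, ent, if_neg h]

theorem sb_D_not_inj (ρ : Fin (2 * μ) → ℤ) (h : ¬ Function.Injective ρ) : D K n μ ρ = 0 := by
  simp only [Function.Injective, not_forall] at h
  obtain ⟨a, b, hab, hne⟩ := h
  unfold D
  refine Matrix.det_zero_of_row_eq hne ?_
  funext c
  simp only [Matrix.of_apply]
  rw [hab]

theorem sb_D_perm (ρ : Fin (2 * μ) → ℤ) (σ : Equiv.Perm (Fin (2 * μ))) :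
    D K n μ (ρ ∘ σ) = (Equiv.Perm.sign σ : ℤ) • D K n μ ρ := by
  unfold D
  have := Matrix.det_permute σ (Matrix.of fun a c : Fin (2 * μ) => ent K n μ (ρ a) c)
  rw [zsmul_eq_mul]
  exact this

/-- every `D_μ(ρ)` is zero or `±` one with strictly increasing rows in the range -/
theorem sb_D_sort (ρ : Fin (2 * μ) → ℤ) : D K n μ ρ = 0 ∨
    ∃ ρ' : Fin (2 * μ) → ℤ, StrictMono ρ' ∧ (∀ a, 0 ≤ ρ' a ∧ ρ' a < (n : ℤ) + μ) ∧
      (∃ s : ℤ, D K n μ ρ = s • D K n μ ρ') ∧ ∀ a, ∃ b, ρ' b = ρ a := by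
  by_cases h1 : ∀ a, 0 ≤ ρ a ∧ ρ a < (n : ℤ) + μ
  · by_cases h2 : Function.Injective ρ
    · right
      let σ := Tuple.sort ρ
      have hm : Monotone (ρ ∘ σ) := Tuple.monotone_sort ρ
      refine ⟨ρ ∘ σ, hm.strictMono_of_injective (h2.comp σ.injective), fun a => h1 _, ?_, ?_⟩
      · refine ⟨(Equiv.Perm.sign σ : ℤ), ?_⟩
        rw [sb_D_perm, smul_smul]
        rcases Int.units_eq_one_or (Equiv.Perm.sign σ) with h | h <;> rw [h] <;> simp
      · intro a
        exact ⟨σ.symm a, by simp⟩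
    · left; exact sb_D_not_inj K n μ ρ h2
  · left
    simp only [not_forall] at h1
    obtain ⟨a, ha⟩ := h1
    exact sb_D_out K n μ ρ a ha

end D

section gm

variable (n μ : ℕ) (ρ : Fin (2 * μ) → ℤ)

/-- the weight of an exponent in the `p, q` variables -/
noncomputable def sbW (n : ℕ) (w : (Fin (n + 2) ⊕ Fin (n + 2)) →₀ ℕ) : ℤ :=
  w.sum fun v e => (e : ℤ) * lw n (Sum.inr v)

theorem sbW_add (w w' : (Fin (n + 2) ⊕ Fin (n + 2)) →₀ ℕ) :
    sbW n (w + w') = sbW n w + sbW n w' := by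
  unfold sbW
  refine Finsupp.sum_add_index' (fun v => by simp) (fun v e e' => by push_cast; ring)

theorem sbW_mapDomain (w : (Fin (n + 2) ⊕ Fin (n + 2)) →₀ ℕ) :
    ((w.mapDomain Sum.inr : Vr n →₀ ℕ).sum fun v e => (e : ℤ) * lw n v) = sbW n w := by
  unfold sbW
  exact Finsupp.sum_mapDomain_index (fun v => by simp) (fun v e e' => by push_cast; ring)

theorem sbW_lower (w : (Fin (n + 2) ⊕ Fin (n + 2)) →₀ ℕ) :
    0 ≤ sbW n w + ((n + 1) ^ 2 + (n + 2) * (n + 1)) * w.degree := by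
  unfold sbW
  rw [Finsupp.sum, Finsupp.degree_apply]
  push_cast
  rw [Finset.mul_sum, ← Finset.sum_add_distrib]
  refine Finset.sum_nonneg fun v _ => ?_
  have h1 : -(((n : ℤ) + 1) ^ 2 + (n + 2) * (n + 1)) ≤ lw n (Sum.inr v) := by
    cases v with
    | inl i =>
      simp only [lw]
      have h2 : ((i : ℕ) : ℤ) ≤ n + 1 := by have := i.2; omega
      have h3 : (0 : ℤ) ≤ (i : ℕ) := by positivity
      nlinarith
    | inr i =>
      simp only [lw]
      have h2 : ((i : ℕ) : ℤ) ≤ n + 1 := by have := i.2; omega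
      have h3 : (0 : ℤ) ≤ (i : ℕ) := by positivity
      nlinarith
  have h4 : (0 : ℤ) ≤ (w v : ℤ) := by positivity
  nlinarith

/-- variables of `gm` -/
def sbV (n μ : ℕ) (ρ : Fin (2 * μ) → ℤ) (a : Fin (2 * μ)) : Fin (n + 2) ⊕ Fin (n + 2) :=
  if (a : ℕ) < μ then Sum.inl (Fin.ofNat (n + 2) (ρ a - a).toNat)
      else Sum.inr (Fin.ofNat (n + 2) (ρ a - (a - μ : ℕ)).toNat)

theorem sb_gm : gm n μ ρ = ∑ a : Fin (2 * μ), Finsupp.single (sbV n μ ρ a) 1 := rfl

variable {n μ ρ}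

theorem sb_lower (hρ : StrictMono ρ) (h0 : ∀ a, 0 ≤ ρ a) (a : Fin (2 * μ)) : (a : ℤ) ≤ ρ a := by
  obtain ⟨a, ha⟩ := a
  induction a with
  | zero => exact h0 _
  | succ a ih =>
    have h1 := ih (by omega)
    have h2 : ρ ⟨a, by omega⟩ < ρ ⟨a + 1, ha⟩ := hρ (by simp)
    simp only at h1 ⊢
    push_cast
    omega

theorem sb_diff (hρ : StrictMono ρ) {a b : Fin (2 * μ)} (hab : a ≤ b) :
    ρ a - a ≤ ρ b - b := by
  obtain ⟨a, ha⟩ := a
  obtain ⟨b, hb⟩ := b
  simp only [Fin.mk_le_mk] at hab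
  induction b, hab using Nat.le_induction with
  | base => exact le_rfl
  | succ b hb' ih =>
    have h1 := ih (by omega)
    have h2 : ρ ⟨b, by omega⟩ < ρ ⟨b + 1, hb⟩ := hρ (by simp)
    simp only at h1 ⊢
    push_cast
    omega

theorem sb_upper (hρ : StrictMono ρ) (h1 : ∀ a, ρ a < (n : ℤ) + μ) (a : Fin (2 * μ)) :
    ρ a - a ≤ (n : ℤ) - μ := by
  have h2 : (a : ℕ) ≤ 2 * μ - 1 := by have := a.2; omega
  have h3 : 2 * μ - 1 < 2 * μ := by have := a.2; omega
  have h4 := sb_diff hρ (a := a) (b := ⟨2 * μ - 1, h3⟩) (by simpa [Fin.le_def] using h2)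
  have h5 := h1 ⟨2 * μ - 1, h3⟩
  simp only at h4
  omega

theorem sbV_lt (hρ : StrictMono ρ) (h : ∀ a, 0 ≤ ρ a ∧ ρ a < (n : ℤ) + μ) (a : Fin (2 * μ))
    (ha : (a : ℕ) < μ) :
    ∃ c : Fin (n + 2), sbV n μ ρ a = Sum.inl c ∧ ((c : ℕ) : ℤ) = ρ a - a := by
  have h1 := sb_lower hρ (fun a => (h a).1) a
  have h2 := sb_upper hρ (fun a => (h a).2) a
  refine ⟨_, if_pos ha, ?_⟩
  rw [Fin.val_ofNat, Nat.mod_eq_of_lt (by omega)]
  omega

theorem sbV_ge (hρ : StrictMono ρ) (h : ∀ a, 0 ≤ ρ a ∧ ρ a < (n : ℤ) + μ) (a : Fin (2 * μ))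
    (ha : μ ≤ (a : ℕ)) :
    ∃ c : Fin (n + 2), sbV n μ ρ a = Sum.inr c ∧ ((c : ℕ) : ℤ) = ρ a - a + μ := by
  have h1 := sb_lower hρ (fun a => (h a).1) a
  have h2 := sb_upper hρ (fun a => (h a).2) a
  refine ⟨_, if_neg (by omega), ?_⟩
  rw [Fin.val_ofNat, Nat.mod_eq_of_lt (by omega)]
  omega

theorem sb_good_inl (hμ : 1 ≤ μ) (hρ : StrictMono ρ) (c : Fin (n + 2)) :
    good n μ ρ (Sum.inl c) ↔ ρ ⟨μ - 1, by omega⟩ ≤ (c : ℕ) + μ - 1 := by
  constructor
  · intro h
    by_contra hlt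
    rw [not_le] at hlt
    have h1 : (univ.filter fun a => ρ a ≤ ((c : ℕ) : ℤ) + μ - 1) ⊆
        univ.filter (fun a : Fin (2 * μ) => (a : ℕ) < μ - 1) := by
      intro a ha
      rw [mem_filter] at ha ⊢
      refine ⟨mem_univ _, ?_⟩
      by_contra hge
      have h2 : ρ ⟨μ - 1, by omega⟩ ≤ ρ a := hρ.monotone (by simp [Fin.le_def]; omega)
      omega
    have h2 := Finset.card_le_card h1
    have h3 : (univ.filter (fun a : Fin (2 * μ) => (a : ℕ) < μ - 1)).card = μ - 1 := by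
      rw [Fin.card_filter_val_lt]
      omega
    simp only [good] at h
    omega
  · intro h
    have h1 : univ.filter (fun a : Fin (2 * μ) => (a : ℕ) < μ) ⊆
        (univ.filter fun a => ρ a ≤ ((c : ℕ) : ℤ) + μ - 1) := by
      intro a ha
      rw [mem_filter] at ha ⊢
      refine ⟨mem_univ _, ?_⟩
      have h2 : ρ a ≤ ρ ⟨μ - 1, by omega⟩ := hρ.monotone (by simp [Fin.le_def]; omega)
      omega
    have h2 := Finset.card_le_card h1
    have h3 : (univ.filter (fun a : Fin (2 * μ) => (a : ℕ) < μ)).card = μ := by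
      rw [Fin.card_filter_val_lt]
      omega
    simp only [good]
    omega

theorem sb_good_inr (hμ : 1 ≤ μ) (hρ : StrictMono ρ) (c : Fin (n + 2)) :
    good n μ ρ (Sum.inr c) ↔ (c : ℕ) = n + 1 ∨ ((c : ℕ) : ℤ) ≤ ρ ⟨μ, by omega⟩ := by
  simp only [good]
  refine or_congr Iff.rfl ?_
  constructor
  · intro h
    by_contra hlt
    rw [not_le] at hlt
    have h1 : (univ.filter fun a => ((c : ℕ) : ℤ) ≤ ρ a) ⊆
        univ.filter (fun a : Fin (2 * μ) => μ < (a : ℕ)) := by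
      intro a ha
      rw [mem_filter] at ha ⊢
      refine ⟨mem_univ _, ?_⟩
      by_contra hge
      have h2 : ρ a ≤ ρ ⟨μ, by omega⟩ := hρ.monotone (by simp [Fin.le_def]; omega)
      omega
    have h2 := Finset.card_le_card h1
    have h3 : (univ.filter (fun a : Fin (2 * μ) => μ < (a : ℕ))).card = μ - 1 := by
      rw [show (univ.filter (fun a : Fin (2 * μ) => μ < (a : ℕ))) =
        Finset.Ioi (⟨μ, by omega⟩ : Fin (2 * μ)) by ext a; simp [Fin.lt_def], Fin.card_Ioi]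
      simp only
      omega
    omega
  · intro h
    have h1 : univ.filter (fun a : Fin (2 * μ) => μ ≤ (a : ℕ)) ⊆
        (univ.filter fun a => ((c : ℕ) : ℤ) ≤ ρ a) := by
      intro a ha
      rw [mem_filter] at ha ⊢
      refine ⟨mem_univ _, ?_⟩
      have h2 : ρ ⟨μ, by omega⟩ ≤ ρ a := hρ.monotone (by simp [Fin.le_def]; omega)
      omega
    have h2 := Finset.card_le_card h1
    have h3 : (univ.filter (fun a : Fin (2 * μ) => μ ≤ (a : ℕ))).card = μ := by
      rw [show (univ.filter (fun a : Fin (2 * μ) => μ ≤ (a : ℕ))) =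
        Finset.Ici (⟨μ, by omega⟩ : Fin (2 * μ)) by ext a; simp [Fin.le_def], Fin.card_Ici]
      simp only
      omega
    omega

end gm

section top

variable {K : Type*} [Field K] {n : ℕ}

theorem sb_top_sum (wgt : Vr n → ℤ) {ι : Type*} (s : Finset ι) (c : ι → K) (f : ι → SB K n)
    (w : ι → Vr n →₀ ℕ) (h : ∀ i ∈ s, Top wgt (f i) (w i)) (hc : ∀ i ∈ s, c i ≠ 0)
    (hw : Set.InjOn w s) (g : SB K n) (w0 : Vr n →₀ ℕ) (hg : Top wgt g w0)
    (heq : g = ∑ i ∈ s, c i • f i) (i : ι) (hi : i ∈ s) :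
    w i = w0 ∨ ((w i).sum fun v e => (e : ℤ) * wgt v) < w0.sum fun v e => (e : ℤ) * wgt v := by
  set T : (Vr n →₀ ℕ) → ℤ := fun w => w.sum fun v e => (e : ℤ) * wgt v with hT
  have hmax : ∀ j ∈ s, (∀ i ∈ s, T (w i) ≤ T (w j)) → w j = w0 ∨ T (w j) < T w0 := by
    intro j hj hm
    have h1 : coeff (w j) g = c j * coeff (w j) (f j) := by
      rw [heq, coeff_sum]
      rw [Finset.sum_eq_single j]
      · rw [coeff_smul, smul_eq_mul]
      · intro i hi hij
        rw [coeff_smul, smul_eq_mul]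
        by_cases h0 : coeff (w j) (f i) = 0
        · rw [h0, mul_zero]
        · exfalso
          have hne : w j ≠ w i := fun he => hij (hw hi hj he.symm)
          have := (h i hi).2 (w j) (mem_support_iff.2 h0) hne
          exact absurd this (not_lt.2 (hm i hi))
      · intro h0; exact absurd hj h0
    have h2 : coeff (w j) g ≠ 0 := by
      rw [h1]
      exact mul_ne_zero (hc j hj) (h j hj).1
    by_cases h3 : w j = w0
    · exact Or.inl h3
    · exact Or.inr (hg.2 _ (mem_support_iff.2 h2) h3)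
  obtain ⟨j, hj, hjm⟩ := Finset.exists_max_image s (fun i => T (w i)) ⟨i, hi⟩
  by_cases h1 : T (w j) ≤ T (w i)
  · exact hmax i hi fun k hk => (hjm k hk).trans h1
  · right
    rw [not_le] at h1
    rcases hmax j hj hjm with h2 | h2
    · rw [h2] at h1; exact h1
    · exact h1.trans h2

end top

end HK
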