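import Pool.Agent.HK.StepA
import Pool.Agent.HK.Lead
import Pool.Agent.HK.Cnt
import Pool.Agent.HK.Grad

/-! # Module StepG: blueprint (5f), (5g), relative to (5d) -/

namespace HK

open MvPolynomial Finset

section

variable {K : Type*} [Field K] {n : ℕ}

theorem mono_add (u v : (Fin (n + 2) ⊕ Fin (n + 2)) →₀ ℕ) :
    mono K n (u + v) = mono K n u * mono K n v := by
  unfold mono
  rw [monomial_mul, one_mul, Finsupp.mapDomain_add]

theorem mono_single (v : Fin (n + 2) ⊕ Fin (n + 2)) :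
    mono K n (Finsupp.single v 1) = X (Sum.inr v) := by
  unfold mono
  rw [Finsupp.mapDomain_single]
  rfl

theorem one_mem_bih : (1 : SB K n) ∈ bih K n 0 0 :=
  isWeightedHomogeneous_one K (wt n)

theorem mono_mem_bih (u : (Fin (n + 2) ⊕ Fin (n + 2)) →₀ ℕ) :
    mono K n u ∈ bih K n 0 u.degree := by
  induction u using Finsupp.induction_linear with
  | zero =>
    have : mono K n 0 = 1 := by unfold mono; simp
    rw [this, map_zero]
    exact one_mem_bih
  | add f g hf hg =>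
    rw [mono_add, map_add]
    exact mul_mem_bih hf hg
  | single v e =>
    unfold mono
    rw [Finsupp.mapDomain_single]
    have h := monomial_mem_bih (K := K) (n := n) (Finsupp.single (Sum.inr v) e) 1
    rw [Finsupp.weight_single] at h
    have h2 : (e • wt n (Sum.inr v)) = (0, e) := by simp [wt]
    rw [h2] at h
    rw [Finsupp.degree_single]
    exact h

/-- remove a variable from a monomial -/
theorem exists_mono {u : (Fin (n + 2) ⊕ Fin (n + 2)) →₀ ℕ} {v : Fin (n + 2) ⊕ Fin (n + 2)}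
    (hv : v ∈ u.support) : ∃ u' : (Fin (n + 2) ⊕ Fin (n + 2)) →₀ ℕ,
      mono K n u = mono K n u' * X (Sum.inr v) ∧ u'.degree + 1 = u.degree := by
  have hle : Finsupp.single v 1 ≤ u := by
    rw [Finsupp.single_le_iff]
    have := Finsupp.mem_support_iff.mp hv
    omega
  obtain ⟨u', rfl⟩ := exists_add_of_le hle
  refine ⟨u', ?_, ?_⟩
  · rw [mono_add, mono_single, mul_comm]
  · rw [map_add, Finsupp.degree_single, add_comm]

theorem CP_mono {μ b k : ℕ} : CP n μ k b ⊆ CP n μ 0 b := by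
  rintro x ⟨h1, h2, h3, h4, h5⟩
  refine ⟨h1, fun a => ⟨?_, (h2 a).2⟩, h3, h4, fun v hv => ⟨(h5 v hv).1, Nat.zero_le _⟩⟩
  have := (h2 a).1
  push_cast
  omega

/-- top monomial of the element of a canonical pair -/
theorem top_CP {μ b k : ℕ} {x : (Fin (2 * μ) → ℤ) × ((Fin (n + 2) ⊕ Fin (n + 2)) →₀ ℕ)}
    (hx : x ∈ CP n μ k b) :
    Top (lw n) (mono K n x.2 * D K n μ x.1) ((x.2 + gm n μ x.1).mapDomain Sum.inr) := by
  obtain ⟨h1, h2, h3, h4, h5⟩ := CP_mono hx
  have h2' : ∀ a, 0 ≤ x.1 a ∧ x.1 a < (n : ℤ) + μ := by simpa using h2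
  rw [Finsupp.mapDomain_add]
  refine top_mono_mul (lw n) _ _ (top_D K n μ ?_ x.1 h1 h2') x.2
  rcases Nat.eq_zero_or_pos μ with h | h
  · omega
  · have := row_bounds h1 h2 ⟨0, by omega⟩
    simp only [Nat.cast_zero] at this
    omega

theorem low_of_not_mem {μ b k : ℕ}
    {x : (Fin (2 * μ) → ℤ) × ((Fin (n + 2) ⊕ Fin (n + 2)) →₀ ℕ)}
    (hx : x ∈ CP n μ 0 b) (hx' : x ∉ CP n μ k b) :
    (∃ a, x.1 a < (k : ℤ)) ∨ ∃ v ∈ x.2.support, vidx v < k := by
  by_contra hcon
  push Not at hcon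
  obtain ⟨h1, h2, h3, h4, h5⟩ := hx
  exact hx' ⟨h1, fun a => ⟨hcon.1 a, (h2 a).2⟩, h3, h4, fun v hv => ⟨(h5 v hv).1, hcon.2 v hv⟩⟩

/-- (5f): the independent family -/
theorem core (μ b k : ℕ) (hk : k ≤ n) (W : Submodule K (SB K n)) [Module.Finite K W]
    (hA : ∀ x ∈ CP n μ 0 b, x ∉ CP n μ k b → mono K n x.2 * D K n μ x.1 ∈ W)
    (hB : ∀ x ∈ CP n (μ + 1) k b, mono K n x.2 * D K n (μ + 1) x.1 ∈ W) :
    HM n μ b - HM (n - k) μ b + HM (n - k) (μ + 1) b ≤ (Module.finrank K W : ℤ) := by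
  classical
  set A : Set ((Fin (2 * μ) → ℤ) × ((Fin (n + 2) ⊕ Fin (n + 2)) →₀ ℕ)) :=
    CP n μ 0 b \ CP n μ k b with hAdef
  set B : Set ((Fin (2 * (μ + 1)) → ℤ) × ((Fin (n + 2) ⊕ Fin (n + 2)) →₀ ℕ)) :=
    CP n (μ + 1) k b with hBdef
  have hfA : A.Finite := (CP_finite n μ 0 b).subset Set.sdiff_subset
  have hfB : B.Finite := CP_finite n (μ + 1) k b
  have : Fintype A := hfA.fintype
  have : Fintype B := hfB.fintype
  let f : A ⊕ B → SB K n := Sum.elim (fun x => mono K n x.1.2 * D K n μ x.1.1)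
    (fun x => mono K n x.1.2 * D K n (μ + 1) x.1.1)
  let w : A ⊕ B → ((Fin (n + 2) ⊕ Fin (n + 2)) →₀ ℕ) :=
    Sum.elim (fun x => x.1.2 + gm n μ x.1.1) (fun x => x.1.2 + gm n (μ + 1) x.1.1)
  have htop : ∀ i, Top (lw n) (f i) ((w i).mapDomain Sum.inr) := by
    rintro (x | x)
    · exact top_CP x.2.1
    · exact top_CP x.2
  have hlowA : ∀ x : A, ∃ v ∈ (x.1.2 + gm n μ x.1.1).support, vidx v < k := by
    intro x
    obtain ⟨h1, h2, h3, h4, h5⟩ := x.2.1
    have h2' : ∀ a, 0 ≤ x.1.1 a ∧ x.1.1 a < (n : ℤ) + μ := by simpa using h2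
    rcases low_of_not_mem x.2.1 x.2.2 with ⟨a, ha⟩ | ⟨v, hv, hvk⟩
    · obtain ⟨v, hv, hvk⟩ := exists_vidx_gm_lt n μ k x.1.1 h1 h2' a ha
      refine ⟨v, ?_, hvk⟩
      rw [Finsupp.mem_support_iff] at hv ⊢
      rw [Finsupp.add_apply]
      omega
    · refine ⟨v, ?_, hvk⟩
      rw [Finsupp.mem_support_iff] at hv ⊢
      rw [Finsupp.add_apply]
      omega
  have hhighB : ∀ x : B, ∀ v ∈ (x.1.2 + gm n (μ + 1) x.1.1).support, k ≤ vidx v := by
    intro x v hv
    obtain ⟨h1, h2, h3, h4, h5⟩ := x.2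
    rw [Finsupp.mem_support_iff, Finsupp.add_apply] at hv
    by_cases h0 : x.1.2 v = 0
    · exact le_vidx_gm n (μ + 1) k x.1.1 h1 h2 v (by rw [Finsupp.mem_support_iff]; omega)
    · exact (h5 v (Finsupp.mem_support_iff.mpr h0)).2
  have hne : ∀ (x : A) (y : B), x.1.2 + gm n μ x.1.1 ≠ y.1.2 + gm n (μ + 1) y.1.1 := by
    intro x y hxy
    obtain ⟨v, hv, hvk⟩ := hlowA x
    rw [hxy] at hv
    have := hhighB y v hv
    omega
  have hinj : Function.Injective fun i => (w i).mapDomain (Sum.inr : _ → Vr n) := by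
    intro i j hij
    have hij' : w i = w j := Finsupp.mapDomain_injective Sum.inr_injective hij
    rcases i with x | x <;> rcases j with y | y
    · have := CP_inj n μ b x.1 y.1 x.2.1 y.2.1 hij'
      rw [Subtype.ext this]
    · exact absurd hij' (hne x y)
    · exact absurd hij'.symm (hne y x)
    · have := CP_inj n (μ + 1) b x.1 y.1 (CP_mono x.2) (CP_mono y.2) hij'
      rw [Subtype.ext this]
  have hli : LinearIndependent K f := linearIndependent_of_top (lw n) f _ htop hinj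
  have hmem : ∀ i, f i ∈ W := by
    rintro (x | x)
    · exact hA x.1 x.2.1 x.2.2
    · exact hB x.1 x.2
  let g : A ⊕ B → W := fun i => ⟨f i, hmem i⟩
  have hg : LinearIndependent K g := LinearIndependent.of_comp W.subtype hli
  have h1 := hg.fintype_card_le_finrank
  rw [Fintype.card_sum] at h1
  have hcA : Fintype.card A = A.ncard := by
    rw [← Nat.card_eq_fintype_card]; rfl
  have hcB : Fintype.card B = B.ncard := by
    rw [← Nat.card_eq_fintype_card]; rfl
  have hcA2 : A.ncard + (CP n μ k b).ncard = (CP n μ 0 b).ncard := by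
    rw [hAdef]
    exact Set.ncard_sdiff_add_ncard_of_subset CP_mono (CP_finite n μ 0 b)
  have e1 := card_CP n μ 0 b (Nat.zero_le _)
  have e2 := card_CP n μ k b hk
  have e3 := card_CP n (μ + 1) k b hk
  rw [Nat.sub_zero] at e1
  rw [← hBdef] at e3
  rw [← e1, ← e2, ← e3]
  omega

/-- a variable of low index times a minor -/
theorem var_mul_mem_Vlow {μ b k : ℕ} (hμ : 1 ≤ μ) (hk : k ≤ n) (hb : 2 * μ + 1 ≤ b)
    (ρ : Fin (2 * μ) → ℤ) (u : SB K n) (hu : u ∈ bih K n 0 (b - 2 * μ - 1))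
    (v : Fin (n + 2) ⊕ Fin (n + 2)) (hv : vidx v < k) :
    u * X (Sum.inr v) * D K n μ ρ ∈ Vlow K n μ k b := by
  obtain ⟨col, hcol, hent⟩ : ∃ col, col < 2 * μ ∧
      ent K n μ ((vidx v : ℕ) : ℤ) col = X (Sum.inr v) := by
    rcases v with i | i
    · refine ⟨0, by omega, ?_⟩
      have hi : (i : ℕ) < k := hv
      have := i.2
      unfold ent pp vidx
      simp only
      rw [if_pos ⟨by omega, by omega⟩, if_pos (show 0 < μ by omega), dif_pos (by constructor <;> push_cast <;> omega)]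
      congr 3
    · refine ⟨μ, by omega, ?_⟩
      have hi : (i : ℕ) < k := hv
      have := i.2
      unfold ent qq vidx
      simp only
      rw [if_pos ⟨by omega, by omega⟩, if_neg (lt_irrefl _),
        dif_pos (by constructor <;> simp; omega)]
      congr 3
      apply Fin.ext
      simp
  have hrel := rel (K := K) n μ col hcol (Fin.cons ((vidx v : ℕ) : ℤ) ρ)
  rw [Fin.sum_univ_succ] at hrel
  simp only [Fin.val_zero, pow_zero, one_mul, Fin.zero_succAbove, Fin.cons_zero,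
    Fin.cons_succ, Fin.val_succ] at hrel
  rw [hent] at hrel
  have h5 := eq_neg_of_add_eq_zero_left hrel
  rw [mul_assoc, h5, ← Finset.sum_neg_distrib, Finset.mul_sum]
  refine Submodule.sum_mem _ fun a _ => ?_
  apply Submodule.subset_span
  refine ⟨u * (-((-1 : SB K n) ^ ((a : ℕ) + 1)) * ent K n μ (ρ a) col),
    fun b' => (Fin.cons ((vidx v : ℕ) : ℤ) ρ : Fin (2 * μ + 1) → ℤ) (a.succ.succAbove b'),
    by omega, ?_, ⟨⟨0, by omega⟩, ?_⟩, ?_⟩
  · have h6 : -((-1 : SB K n) ^ ((a : ℕ) + 1)) * ent K n μ (ρ a) col ∈ bih K n 0 1 := by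
      have h7 : ent K n μ (ρ a) col ∈ bih K n 0 1 := by
        unfold ent pp qq
        split_ifs
        · exact isWeightedHomogeneous_X K (wt n) _
        · exact Submodule.zero_mem _
        · exact isWeightedHomogeneous_X K (wt n) _
        · exact Submodule.zero_mem _
        · exact Submodule.zero_mem _
      rcases neg_one_pow_eq_or (SB K n) ((a : ℕ) + 1) with h | h
      · rw [h, neg_one_mul]; exact Submodule.neg_mem _ h7
      · rw [h, neg_neg, one_mul]; exact h7
    have h8 := mul_mem_bih hu h6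
    rw [show b - 2 * μ - 1 + 1 = b - 2 * μ by omega, Nat.add_zero] at h8
    exact h8
  · have h9 : a.succ.succAbove (⟨0, by omega⟩ : Fin (2 * μ)) = 0 := by
      rw [Fin.succAbove_of_castSucc_lt]
      · rfl
      · rw [Fin.lt_def]; simp
    simp only [h9, Fin.cons_zero]
    constructor
    · omega
    · exact_mod_cast hv
  · ring

theorem mono_D_mem_Vs {μ b k : ℕ}
    {x : (Fin (2 * μ) → ℤ) × ((Fin (n + 2) ⊕ Fin (n + 2)) →₀ ℕ)} (hx : x ∈ CP n μ k b) :
    mono K n x.2 * D K n μ x.1 ∈ Vs K n μ b := by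
  obtain ⟨h1, h2, h3, h4, h5⟩ := hx
  exact Submodule.subset_span ⟨_, _, h3, by rw [← h4]; exact mono_mem_bih _, rfl⟩

theorem Vlow_le_Vs (μ k b : ℕ) : Vlow K n μ k b ≤ Vs K n μ b := by
  apply Submodule.span_mono
  rintro f ⟨u, ρ, h1, h2, _, h4⟩
  exact ⟨u, ρ, h1, h2, h4⟩

theorem Vs_le_Vlow (μ k b : ℕ) (hμ : 1 ≤ μ) (hk : n < k) : Vs K n μ b ≤ Vlow K n μ k b := by
  rw [Vs, Submodule.span_le]
  rintro f ⟨u, ρ, hb, hu, rfl⟩
  refine mem_of_sorted (Vlow K n μ k b) u ?_ ρ
  intro ρ' hρ' hr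
  apply Submodule.subset_span
  have h1 := row_bounds hρ' (k := 0) (by simpa using hr) ⟨0, by omega⟩
  simp only [Nat.cast_zero] at h1
  refine ⟨u, ρ', hb, hu, ⟨⟨0, by omega⟩, (hr _).1, ?_⟩, rfl⟩
  omega

theorem Vs_finite {μ b : ℕ}
    (hV : Vs K n μ b = Submodule.span K ((fun x => mono K n x.2 * D K n μ x.1) '' CP n μ 0 b)) :
    Module.Finite K (Vs K n μ b) := by
  rw [hV]
  exact Module.Finite.span_of_finite K ((CP_finite n μ 0 b).image _)

theorem finrank_Vs_le {μ b : ℕ}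
    (hV : Vs K n μ b = Submodule.span K ((fun x => mono K n x.2 * D K n μ x.1) '' CP n μ 0 b)) :
    (Module.finrank K (Vs K n μ b) : ℤ) ≤ HM n μ b := by
  classical
  rw [hV]
  have h1 := card_CP n μ 0 b (Nat.zero_le _)
  rw [Nat.sub_zero] at h1
  rw [← h1]
  have hf := CP_finite n μ 0 b
  have h2 := finrank_span_finset_le_card (R := K)
    (hf.toFinset.image (fun x => mono K n x.2 * D K n μ x.1))
  rw [Finset.coe_image, Set.Finite.coe_toFinset] at h2
  have h3 : (hf.toFinset.image (fun x => mono K n x.2 * D K n μ x.1)).card ≤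
      (CP n μ 0 b).ncard := by
    rw [Set.ncard_eq_toFinset_card _ hf]
    exact Finset.card_image_le
  have h4 := le_trans h2 h3
  exact_mod_cast h4

/-- (5g), `μ ≥ 1`, from (5d) -/
theorem finrank_Vs_of (μ b k : ℕ) (hμ : 1 ≤ μ)
    (hV : ∀ μ b, Vs K n μ b =
      Submodule.span K ((fun x => mono K n x.2 * D K n μ x.1) '' CP n μ 0 b)) :
    (Module.finrank K (Vs K n μ b) : ℤ) -
      Module.finrank K (Vs K n (μ + 1) b ⊔ Vlow K n μ k b : Submodule K (SB K n)) ≤
      eU n μ b k := by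
  have h1 := Vs_finite (hV (μ + 1) b)
  have h2 := Vs_finite (hV μ b)
  have h3 : Module.Finite K (Vlow K n μ k b) := Submodule.finiteDimensional_of_le (Vlow_le_Vs μ k b)
  have h4 : Module.Finite K (Vs K n (μ + 1) b ⊔ Vlow K n μ k b : Submodule K (SB K n)) :=
    Submodule.finite_sup _ _
  unfold eU
  split_ifs with hk
  · have h5 := core μ b k hk (Vs K n (μ + 1) b ⊔ Vlow K n μ k b) ?_ ?_
    · have h6 := finrank_Vs_le (hV μ b)
      unfold qn
      omega
    · intro x hx hx'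
      apply Submodule.mem_sup_right
      obtain ⟨g1, g2, g3, g4, g5⟩ := hx
      rcases low_of_not_mem ⟨g1, g2, g3, g4, g5⟩ hx' with ⟨a, ha⟩ | ⟨v, hv, hvk⟩
      · apply Submodule.subset_span
        refine ⟨_, _, g3, by rw [← g4]; exact mono_mem_bih _, ⟨a, ?_, ha⟩, rfl⟩
        have := (g2 a).1
        simpa using this
      · obtain ⟨u', hu', hd⟩ := exists_mono (K := K) hv
        rw [hu']
        refine var_mul_mem_Vlow hμ hk (by omega) x.1 _ ?_ v hvk
        have : b - 2 * μ - 1 = u'.degree := by omega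
        rw [this]
        exact mono_mem_bih _
    · intro x hx
      exact Submodule.mem_sup_left (mono_D_mem_Vs hx)
  · have h5 : Vs K n μ b ≤ (Vs K n (μ + 1) b ⊔ Vlow K n μ k b : Submodule K (SB K n)) :=
      le_trans (Vs_le_Vlow μ k b hμ (by omega)) le_sup_right
    have h6 := Submodule.finrank_mono h5
    omega

theorem D_zero (ρ : Fin (2 * 0) → ℤ) : D K n 0 ρ = 1 := by
  unfold D
  have : IsEmpty (Fin (2 * 0)) := ⟨fun a => absurd a.2 (by simp)⟩
  exact Matrix.det_isEmpty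

theorem Vlow0_le (k b : ℕ) : Vlow0 K n k b ≤ Vs K n 0 b := by
  rw [Vlow0, Submodule.span_le]
  rintro f ⟨u, i, hi, hb, hu, hf⟩
  apply Submodule.subset_span
  refine ⟨f, fun _ => 0, by omega, ?_, by rw [D_zero, mul_one]⟩
  have h1 : (pp K n i : SB K n) ∈ bih K n 0 1 := by
    unfold pp
    split_ifs
    · exact isWeightedHomogeneous_X K (wt n) _
    · exact Submodule.zero_mem _
  have h2 : (qq K n i : SB K n) ∈ bih K n 0 1 := by
    unfold qq
    split_ifs
    · exact isWeightedHomogeneous_X K (wt n) _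
    · exact Submodule.zero_mem _
  have e : b - 2 * 0 = b - 1 + 1 := by omega
  rw [e]
  rcases hf with rfl | rfl
  · simpa using mul_mem_bih hu h1
  · simpa using mul_mem_bih hu h2

/-- (5g), `μ = 0`, from (5d) -/
theorem finrank_Vs0_of (b k : ℕ) (hk : k ≤ n)
    (hV : ∀ μ b, Vs K n μ b =
      Submodule.span K ((fun x => mono K n x.2 * D K n μ x.1) '' CP n μ 0 b)) :
    (Module.finrank K (Vs K n 0 b) : ℤ) -
      Module.finrank K (Vs K n 1 b ⊔ Vlow0 K n k b : Submodule K (SB K n)) ≤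
      eU n 0 b k := by
  have h1 := Vs_finite (hV 1 b)
  have h2 := Vs_finite (hV 0 b)
  have h3 : Module.Finite K (Vlow0 K n k b) := Submodule.finiteDimensional_of_le (Vlow0_le k b)
  have h4 : Module.Finite K (Vs K n 1 b ⊔ Vlow0 K n k b : Submodule K (SB K n)) :=
    Submodule.finite_sup _ _
  unfold eU
  rw [if_pos hk]
  have h5 := core 0 b k hk (Vs K n 1 b ⊔ Vlow0 K n k b) ?_ ?_
  · have h6 := finrank_Vs_le (hV 0 b)
    unfold qn
    omega
  · intro x hx hx'
    apply Submodule.mem_sup_right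
    obtain ⟨g1, g2, g3, g4, g5⟩ := hx
    rcases low_of_not_mem ⟨g1, g2, g3, g4, g5⟩ hx' with ⟨a, ha⟩ | ⟨v, hv, hvk⟩
    · exact absurd a.2 (by simp)
    · obtain ⟨u', hu', hd⟩ := exists_mono (K := K) hv
      rw [hu', D_zero, mul_one]
      apply Submodule.subset_span
      have hb1 : b - 1 = u'.degree := by omega
      refine ⟨mono K n u', vidx v, hvk, by omega, by rw [hb1]; exact mono_mem_bih _, ?_⟩
      rcases v with i | i
      · left
        congr 1
        have := i.2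
        unfold pp vidx
        rw [dif_pos (by constructor <;> simp; omega)]
        congr 3
      · right
        congr 1
        have := i.2
        unfold qq vidx
        rw [dif_pos (by constructor <;> simp; omega)]
        congr 3
  · intro x hx
    exact Submodule.mem_sup_left (mono_D_mem_Vs hx)

end

end HK
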