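import Pool.Agent.HK.StepA

/-! # Module ZLap: Laplace expansion, `A_{μ+1} ≤ A_μ` -/

namespace HK

open MvPolynomial Finset

section
variable {K : Type*} [Field K] {n μ : ℕ}

/-- column of `ψ_{μ+1}` corresponding to column `j` of `ψ_μ` -/
def colsh (μ j : ℕ) : ℕ := if j < μ then j + 1 else j + 2

theorem ent_shift (r : ℤ) (j : ℕ) : ent K n (μ + 1) r (colsh μ j) = ent K n μ (r - 1) j := by
  unfold colsh
  by_cases hr : 0 ≤ r - 1 ∧ r - 1 < (n : ℤ) + μ
  · have hr' : 0 ≤ r ∧ r < (n : ℤ) + ((μ + 1 : ℕ) : ℤ) := by push_cast; omega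
    by_cases hj : j < μ
    · rw [if_pos hj, ent_p r (j + 1) hr' (by omega), ent_p (r - 1) j hr hj]
      congr 1
      push_cast
      ring
    · rw [if_neg hj]
      have h1 := ent_q (K := K) (n := n) (μ := μ + 1) r (j + 1 - μ) hr'
      have h2 := ent_q (K := K) (n := n) (μ := μ) (r - 1) (j - μ) hr
      have e1 : μ + 1 + (j + 1 - μ) = j + 2 := by omega
      have e2 : μ + (j - μ) = j := by omega
      rw [e1] at h1
      rw [e2] at h2
      rw [h1, h2]
      congr 1
      omega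
  · rw [ent_out (r - 1) j hr]
    by_cases hr' : 0 ≤ r ∧ r < (n : ℤ) + ((μ + 1 : ℕ) : ℤ)
    · have hr0 : r = 0 := by push_cast at hr'; omega
      by_cases hj : j < μ
      · rw [if_pos hj, ent_p r (j + 1) hr' (by omega)]
        apply pp_eq_zero
        omega
      · rw [if_neg hj]
        have h1 := ent_q (K := K) (n := n) (μ := μ + 1) r (j + 1 - μ) hr'
        have e1 : μ + 1 + (j + 1 - μ) = j + 2 := by omega
        rw [e1] at h1
        rw [h1]
        apply qq_eq_zero
        omega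
    · exact ent_out r _ hr'

theorem colsh_eq (j : Fin (2 * μ)) :
    ((Fin.succAbove (⟨μ, by omega⟩ : Fin (2 * μ + 1)) j : Fin (2 * μ + 1)) : ℕ) + 1 =
      colsh μ j := by
  unfold colsh
  by_cases hj : (j : ℕ) < μ
  · rw [if_pos hj]
    have h : Fin.succAbove (⟨μ, by omega⟩ : Fin (2 * μ + 1)) j = j.castSucc := by
      apply Fin.succAbove_of_castSucc_lt
      rw [Fin.lt_def]
      exact hj
    rw [h]
    rfl
  · rw [if_neg hj]
    have h : Fin.succAbove (⟨μ, by omega⟩ : Fin (2 * μ + 1)) j = j.succ := by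
      apply Fin.succAbove_of_le_castSucc
      rw [Fin.le_def]
      exact not_lt.mp hj
    rw [h]
    rfl

/-- Laplace expansion of `D_{μ+1}` along the columns `(p,0)` and `(q,0)` -/
theorem lap (ρ : Fin (2 * μ + 2) → ℤ) :
    D K n (μ + 1) ρ = ∑ a : Fin (2 * μ + 2), ∑ b : Fin (2 * μ + 1),
      ((-1 : SB K n) ^ ((a : ℕ) + (b : ℕ) + μ) * ent K n (μ + 1) (ρ a) 0 *
        ent K n (μ + 1) (ρ (a.succAbove b)) (μ + 1)) *
        D K n μ (fun i => ρ (a.succAbove (b.succAbove i)) - 1) := by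
  have h1 : D K n (μ + 1) ρ =
      (Matrix.of fun a c : Fin (2 * μ + 1 + 1) => ent K n (μ + 1) (ρ a) c).det := rfl
  rw [h1, Matrix.det_succ_column_zero]
  apply Finset.sum_congr rfl
  intro a _
  rw [Matrix.det_succ_column _ (⟨μ, by omega⟩ : Fin (2 * μ + 1)), Finset.mul_sum]
  apply Finset.sum_congr rfl
  intro b _
  have h2 : ((((Matrix.of fun a c : Fin (2 * μ + 1 + 1) => ent K n (μ + 1) (ρ a) c).submatrix
      a.succAbove Fin.succ).submatrix b.succAbove
        (Fin.succAbove (⟨μ, by omega⟩ : Fin (2 * μ + 1))))).det =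
      D K n μ (fun i => ρ (a.succAbove (b.succAbove i)) - 1) := by
    unfold D
    congr 1
    apply Matrix.ext
    intro i j
    simp only [Matrix.submatrix_apply, Matrix.of_apply]
    rw [← ent_shift, ← colsh_eq j]
    rfl
  rw [h2]
  simp only [Matrix.of_apply, Matrix.submatrix_apply, Fin.val_zero, Fin.val_succ]
  rw [pow_add, pow_add, pow_add]
  ring

theorem ent_mem_bih01 (r : ℤ) (c : ℕ) : ent K n μ r c ∈ bih K n 0 1 := by
  have hX : ∀ v : Fin (n + 2) ⊕ Fin (n + 2), (X (Sum.inr v) : SB K n) ∈ bih K n 0 1 := by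
    intro v
    exact isWeightedHomogeneous_X K (wt n) (Sum.inr v)
  unfold ent
  split_ifs with h1 h2
  · unfold pp
    split_ifs
    · exact hX _
    · exact Submodule.zero_mem _
  · unfold qq
    split_ifs
    · exact hX _
    · exact Submodule.zero_mem _
  · exact Submodule.zero_mem _

end

/-- `A_{μ+1} ≤ A_μ` (Laplace) -/
theorem AA_le (K : Type*) [Field K] (n μ : ℕ) : AA K n (μ + 1) ≤ AA K n μ := by
  unfold AA
  rw [Ideal.span_le]
  rintro f (((⟨k, hk, rfl⟩ | ⟨i, hi, rfl⟩) | ⟨i, hi, rfl⟩) | ⟨ρ, rfl⟩)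
  · apply Ideal.subset_span
    left; left; left
    refine ⟨k, ?_, rfl⟩
    push_cast at hk
    omega
  · apply Ideal.subset_span
    left; left; right
    exact ⟨i, hi, rfl⟩
  · apply Ideal.subset_span
    left; right
    exact ⟨i, hi, rfl⟩
  · have h := lap (K := K) (n := n) (μ := μ) ρ
    rw [SetLike.mem_coe]
    rw [h]
    apply Ideal.sum_mem
    intro a _
    apply Ideal.sum_mem
    intro b _
    apply Ideal.mul_mem_left
    apply Ideal.subset_span
    right
    exact ⟨_, rfl⟩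

/-- the same on the level of the spans `V` -/
theorem Vs_le (K : Type*) [Field K] (n μ b : ℕ) : Vs K n (μ + 1) b ≤ Vs K n μ b := by
  unfold Vs
  rw [Submodule.span_le]
  rintro f ⟨u, ρ, hb, hu, rfl⟩
  have h := lap (K := K) (n := n) (μ := μ) ρ
  rw [SetLike.mem_coe, h, Finset.mul_sum]
  apply Submodule.sum_mem
  intro a _
  rw [Finset.mul_sum]
  apply Submodule.sum_mem
  intro c _
  apply Submodule.subset_span
  refine ⟨u * ((-1 : SB K n) ^ ((a : ℕ) + (c : ℕ) + μ) * ent K n (μ + 1) (ρ a) 0 *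
        ent K n (μ + 1) (ρ (a.succAbove c)) (μ + 1)),
        fun i => ρ (a.succAbove (c.succAbove i)) - 1, by omega, ?_, (mul_assoc _ _ _).symm⟩
  · have h1 : (-1 : SB K n) ^ ((a : ℕ) + (c : ℕ) + μ) * ent K n (μ + 1) (ρ a) 0 ∈
        bih K n 0 1 := by
      rcases neg_one_pow_eq_or (SB K n) ((a : ℕ) + (c : ℕ) + μ) with h | h
      · rw [h, one_mul]
        exact ent_mem_bih01 _ _
      · rw [h, neg_one_mul]
        exact Submodule.neg_mem _ (ent_mem_bih01 _ _)
    have h2 := IsWeightedHomogeneous.mul (w := wt n) (m := (0, b - 2 * (μ + 1))) (n := (0, 1) + (0, 1))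
      hu (IsWeightedHomogeneous.mul (w := wt n) (m := (0, 1)) (n := (0, 1)) h1
        (ent_mem_bih01 (μ := μ + 1) (ρ (a.succAbove c)) (μ + 1)))
    have h3 : ((0, b - 2 * (μ + 1)) + ((0, 1) + (0, 1)) : ℕ × ℕ) = (0, b - 2 * μ) := by
      ext
      · rfl
      · show b - 2 * (μ + 1) + (1 + 1) = b - 2 * μ
        omega
    rw [h3] at h2
    exact h2

end HK
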